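import Mathlib
import Pool.Agent.H36.RW.Model2

/-!
The model for tuples: the position `h` survives if all elements `w * h + d`, `d ∈ D`, survive.
-/

set_option autoImplicit false

namespace Pool.Agent.H36.KT
open Finset Pool.Agent.H36.RW

/-- the pattern at `h` -/
def pt (w : ℕ) (D : Finset ℕ) (h : ℕ) : Finset ℕ := D.image (fun d => w * h + d)

/-- the union of the patterns -/
def PT (w : ℕ) (D J : Finset ℕ) : Finset ℕ := J.biUnion (pt w D)

lemma mem_pt {w h g : ℕ} {D : Finset ℕ} : g ∈ pt w D h ↔ ∃ d ∈ D, w * h + d = g := by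
  unfold pt
  rw [mem_image]

lemma mem_PT {w g : ℕ} {D J : Finset ℕ} : g ∈ PT w D J ↔ ∃ h ∈ J, g ∈ pt w D h := by
  unfold PT
  rw [mem_biUnion]

lemma PT_mono {w : ℕ} {D J J' : Finset ℕ} (h : J ⊆ J') : PT w D J ⊆ PT w D J' := biUnion_subset_biUnion_of_subset_left _ h

lemma card_PT (w : ℕ) (D J : Finset ℕ) : (PT w D J).card ≤ J.card * D.card := by
  unfold PT
  refine card_biUnion_le.trans ?_
  calc ∑ h ∈ J, (pt w D h).card ≤ ∑ _h ∈ J, D.card := sum_le_sum fun h _ => card_image_le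
    _ = J.card * D.card := by rw [sum_const, smul_eq_mul]

/-- the product of the densities -/
noncomputable def WK (D P : Finset ℕ) : ℝ := ∏ p ∈ P, (1 - (nu p D : ℝ) / p)

/-- generating function of the number of surviving positions -/
noncomputable def PhiK (w : ℕ) (D P S : Finset ℕ) (u : ℝ) : ℝ := ∑ J ∈ S.powerset, u ^ J.card * rho P (PT w D J)

lemma nu_shift (p c : ℕ) (hp : 0 < p) (D : Finset ℕ) : nu p (D.image (fun d => c + d)) = nu p D := by
  unfold nu
  rw [image_image]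
  have h1 : D.image ((fun h => h % p) ∘ fun d => c + d) = (D.image (fun h => h % p)).image (fun x => (c + x) % p) := by
    rw [image_image]
    apply image_congr
    intro d _
    simp
  rw [h1]
  apply card_image_of_injOn
  intro x hx x' hx' h
  rw [mem_coe, mem_image] at hx hx'
  obtain ⟨d, _, rfl⟩ := hx
  obtain ⟨d', _, rfl⟩ := hx'
  simp only at h
  have h2 : c + d % p ≡ c + d' % p [MOD p] := h
  have h3 : d % p ≡ d' % p [MOD p] := Nat.ModEq.add_left_cancel' c h2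
  unfold Nat.ModEq at h3
  rwa [Nat.mod_mod, Nat.mod_mod] at h3

lemma nu_pt (p w h : ℕ) (hp : 0 < p) (D : Finset ℕ) : nu p (pt w D h) = nu p D := nu_shift p (w * h) hp D

lemma PhiK_empty (w : ℕ) (D S : Finset ℕ) (u : ℝ) : PhiK w D ∅ S u = (1 + u) ^ S.card := by
  have h := Finset.sum_pow_mul_eq_add_pow u 1 S
  unfold PhiK rho
  simp only [prod_empty, mul_one]
  simp only [one_pow, mul_one] at h
  rw [h, add_comm]

lemma PhiK_insert (w : ℕ) (D P S : Finset ℕ) (p : ℕ) (hpP : p ∉ P) (hp : 0 < p) (u : ℝ) :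
    PhiK w D (insert p P) S u =
      (1 / (p : ℝ)) * ∑ a ∈ range p, PhiK w D P (S.filter (fun h => ∀ g ∈ pt w D h, g % p ≠ a)) u := by
  classical
  have hp0 : (p : ℝ) ≠ 0 := by exact_mod_cast hp.ne'
  have h1 : ∀ a ∈ range p, PhiK w D P (S.filter (fun h => ∀ g ∈ pt w D h, g % p ≠ a)) u =
      ∑ J ∈ S.powerset, (if ∀ g ∈ PT w D J, g % p ≠ a then u ^ J.card * rho P (PT w D J) else 0) := by
    intro a _
    unfold PhiK
    rw [← sum_filter]
    apply sum_congr _ (fun _ _ => rfl)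
    ext J
    simp only [mem_powerset, mem_filter, subset_iff, mem_PT]
    constructor
    · intro h
      exact ⟨fun x hx => (h hx).1, fun g ⟨x, hx, hg⟩ => (h hx).2 g hg⟩
    · rintro ⟨h1, h2⟩ x hx
      exact ⟨h1 hx, fun g hg => h2 g ⟨x, hx, hg⟩⟩
  rw [sum_congr rfl h1, sum_comm, mul_sum]
  unfold PhiK
  apply sum_congr rfl
  intro J _
  rw [← sum_filter, sum_const, nsmul_eq_mul, nu_compl p hp (PT w D J)]
  unfold rho
  rw [prod_insert hpP]
  field_simp

/-- every position is hit by `nu p D` classes -/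
lemma hit_sum (w p : ℕ) (hp : 0 < p) (D S : Finset ℕ) :
    ∑ a ∈ range p, (S.filter (fun h => ¬ ∀ g ∈ pt w D h, g % p ≠ a)).card = nu p D * S.card := by
  classical
  have h1 : ∀ a ∈ range p, (S.filter (fun h => ¬ ∀ g ∈ pt w D h, g % p ≠ a)).card =
      ∑ h ∈ S, if ¬ ∀ g ∈ pt w D h, g % p ≠ a then 1 else 0 := fun a _ => by
    rw [card_filter]
  rw [sum_congr rfl h1, sum_comm]
  have h2 : ∀ h ∈ S, ∑ a ∈ range p, (if ¬ ∀ g ∈ pt w D h, g % p ≠ a then 1 else 0) = nu p D := by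
    intro h _
    rw [← card_filter, ← nu_pt p w h hp D]
    unfold nu
    congr 1
    ext a
    rw [mem_filter, mem_range, mem_image]
    push Not
    constructor
    · rintro ⟨_, g, hg, h3⟩
      exact ⟨g, hg, h3⟩
    · rintro ⟨g, hg, h3⟩
      exact ⟨h3 ▸ Nat.mod_lt _ hp, g, hg, h3⟩
  rw [sum_congr rfl h2, sum_const, smul_eq_mul, mul_comm]

/-- one more prime, with few elements in every class -/
lemma PhiK_step (u g N : ℝ) (w : ℕ) (D P S : Finset ℕ) (p : ℕ) (hpP : p ∉ P) (hp : 0 < p)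
    (h : ∀ S' ⊆ S, PhiK w D P S' u ≤ Real.exp (g * S'.card)) (hN : ∀ a ∈ range p,
      ((S.filter (fun h => ¬ ∀ g ∈ pt w D h, g % p ≠ a)).card : ℝ) ≤ N) (hgN : |g| * N ≤ 1) :
    PhiK w D (insert p P) S u ≤ Real.exp ((g * (1 - (nu p D : ℝ) / p) + g ^ 2 * N * ((nu p D : ℝ) / p)) * S.card) := by
  classical
  have hp0 : (0 : ℝ) < p := by exact_mod_cast hp
  rw [PhiK_insert w D P S p hpP hp]
  set c : ℕ → ℕ := fun a => (S.filter (fun h => ¬ ∀ g ∈ pt w D h, g % p ≠ a)).card with hc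
  have hsum : ∑ a ∈ range p, c a = nu p D * S.card := hit_sum w p hp D S
  have hsumR : ∑ a ∈ range p, (c a : ℝ) = nu p D * S.card := by exact_mod_cast hsum
  have h1 : ∀ a ∈ range p, PhiK w D P (S.filter (fun h => ∀ g ∈ pt w D h, g % p ≠ a)) u ≤
      Real.exp (g * S.card) * (1 - g * c a + g ^ 2 * N * c a) := by
    intro a ha
    have h2 := h (S.filter (fun h => ∀ g ∈ pt w D h, g % p ≠ a)) (filter_subset _ _)
    refine h2.trans ?_
    have h3 : ((S.filter (fun h => ∀ g ∈ pt w D h, g % p ≠ a)).card : ℝ) = S.card - c a := by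
      have := card_filter_add_card_filter_not (s := S) (fun h => ∀ g ∈ pt w D h, g % p ≠ a)
      have h4 : ((S.filter (fun h => ∀ g ∈ pt w D h, g % p ≠ a)).card : ℝ) +
          ((S.filter (fun h => ¬ ∀ g ∈ pt w D h, g % p ≠ a)).card : ℝ) = S.card := by
        exact_mod_cast this
      have h5 : (c a : ℝ) = ((S.filter (fun h => ¬ ∀ g ∈ pt w D h, g % p ≠ a)).card : ℝ) := rfl
      rw [h5]
      linarith
    rw [h3, mul_sub, sub_eq_add_neg, Real.exp_add]
    apply mul_le_mul_of_nonneg_left _ (Real.exp_pos _).le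
    have hca : (c a : ℝ) ≤ N := hN a ha
    have hca0 : (0 : ℝ) ≤ c a := Nat.cast_nonneg _
    have h4 : |-(g * c a)| ≤ 1 := by
      rw [abs_neg, abs_mul, abs_of_nonneg hca0]
      exact (mul_le_mul_of_nonneg_left hca (abs_nonneg _)).trans hgN
    have h5 := (abs_le.1 (Real.abs_exp_sub_one_sub_id_le h4)).2
    have h6 : (-(g * c a)) ^ 2 ≤ g ^ 2 * N * c a := by
      have : (-(g * (c a : ℝ))) ^ 2 = g ^ 2 * (c a * c a) := by ring
      rw [this, mul_assoc]
      apply mul_le_mul_of_nonneg_left _ (sq_nonneg _)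
      exact mul_le_mul_of_nonneg_right hca hca0
    linarith
  have h2 : ∑ a ∈ range p, PhiK w D P (S.filter (fun h => ∀ g ∈ pt w D h, g % p ≠ a)) u ≤
      Real.exp (g * S.card) * (p - g * (nu p D * S.card) + g ^ 2 * N * (nu p D * S.card)) := by
    refine (sum_le_sum h1).trans (le_of_eq ?_)
    rw [← mul_sum]
    congr 1
    rw [sum_add_distrib, sum_sub_distrib, ← mul_sum, ← mul_sum, hsumR, sum_const, card_range]
    simp
  calc (1 / (p : ℝ)) * ∑ a ∈ range p, PhiK w D P (S.filter (fun h => ∀ g ∈ pt w D h, g % p ≠ a)) u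
      ≤ (1 / (p : ℝ)) * (Real.exp (g * S.card) * (p - g * (nu p D * S.card) + g ^ 2 * N * (nu p D * S.card))) :=
        mul_le_mul_of_nonneg_left h2 (by positivity)
    _ = Real.exp (g * S.card) * ((-(g * (nu p D * S.card) / p) + g ^ 2 * N * (nu p D * S.card) / p) + 1) := by
        field_simp
        ring
    _ ≤ Real.exp (g * S.card) * Real.exp (-(g * (nu p D * S.card) / p) + g ^ 2 * N * (nu p D * S.card) / p) :=
        mul_le_mul_of_nonneg_left (Real.add_one_le_exp _) (Real.exp_pos _).le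
    _ = _ := by
        rw [← Real.exp_add]
        congr 1
        ring

/-- the positions hit by one class -/
lemma hit_card (w p T a : ℕ) (hp : p.Prime) (hw : ¬ p ∣ w) (D S : Finset ℕ) (hS : S ⊆ Icc 1 T) :
    ((S.filter (fun h => ¬ ∀ g ∈ pt w D h, g % p ≠ a)).card : ℝ) ≤ nu p D * ((T : ℝ) / p + 1) := by
  classical
  -- each residue class of `D` gives at most one class of `h`
  set B := D.image (fun d => d % p) with hB
  have h1 : S.filter (fun h => ¬ ∀ g ∈ pt w D h, g % p ≠ a) ⊆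
      B.biUnion (fun b => (Icc 1 T).filter (fun h => (w * h + b) % p = a)) := by
    intro h hh
    rw [mem_filter] at hh
    obtain ⟨h2, h3⟩ := hh
    push Not at h3
    obtain ⟨g, hg, h4⟩ := h3
    obtain ⟨d, hd, rfl⟩ := mem_pt.1 hg
    rw [mem_biUnion]
    refine ⟨d % p, mem_image_of_mem _ hd, mem_filter.2 ⟨hS h2, ?_⟩⟩
    rw [Nat.add_mod_mod]
    exact h4
  have h2 : ∀ b ∈ B, (((Icc 1 T).filter (fun h => (w * h + b) % p = a)).card : ℝ) ≤ (T : ℝ) / p + 1 := by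
    intro b _
    rcases ((Icc 1 T).filter (fun h => (w * h + b) % p = a)).eq_empty_or_nonempty with h3 | ⟨h0, h3⟩
    · rw [h3, card_empty, Nat.cast_zero]
      positivity
    · have h4 : (Icc 1 T).filter (fun h => (w * h + b) % p = a) ⊆ (Icc 1 T).filter (fun h => h ≡ h0 [MOD p]) := by
        intro h hh
        rw [mem_filter] at hh h3 ⊢
        refine ⟨hh.1, ?_⟩
        have h5 : w * h + b ≡ w * h0 + b [MOD p] := by
          unfold Nat.ModEq
          rw [hh.2, h3.2]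
        have h6 : w * h ≡ w * h0 [MOD p] := Nat.ModEq.add_right_cancel' b h5
        exact Nat.ModEq.cancel_left_of_coprime ((Nat.Prime.coprime_iff_not_dvd hp).2 hw) h6
      have h5 := (abs_le.1 (Pool.Agent.H373R2.T7.count_class T p h0 hp.one_le)).2
      have h6 : (((Icc 1 T).filter (fun h => (w * h + b) % p = a)).card : ℝ) ≤
          (((Icc 1 T).filter (fun h => h ≡ h0 [MOD p])).card : ℝ) := by
        exact_mod_cast card_le_card h4
      linarith
  have h3 : ((S.filter (fun h => ¬ ∀ g ∈ pt w D h, g % p ≠ a)).card : ℝ) ≤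
      ∑ b ∈ B, (((Icc 1 T).filter (fun h => (w * h + b) % p = a)).card : ℝ) := by
    exact_mod_cast (card_le_card h1).trans card_biUnion_le
  refine h3.trans ((sum_le_sum h2).trans (le_of_eq ?_))
  rw [sum_const, nsmul_eq_mul]
  rfl

/-- the same for large primes -/
lemma hit_card' (w p T a : ℕ) (hp : p.Prime) (hw : ¬ p ∣ w) (hpT : T < p) (D S : Finset ℕ) (hS : S ⊆ Icc 1 T) :
    ((S.filter (fun h => ¬ ∀ g ∈ pt w D h, g % p ≠ a)).card : ℝ) ≤ nu p D := by
  classical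
  set B := D.image (fun d => d % p) with hB
  have h1 : S.filter (fun h => ¬ ∀ g ∈ pt w D h, g % p ≠ a) ⊆
      B.biUnion (fun b => (Icc 1 T).filter (fun h => (w * h + b) % p = a)) := by
    intro h hh
    rw [mem_filter] at hh
    obtain ⟨h2, h3⟩ := hh
    push Not at h3
    obtain ⟨g, hg, h4⟩ := h3
    obtain ⟨d, hd, rfl⟩ := mem_pt.1 hg
    rw [mem_biUnion]
    refine ⟨d % p, mem_image_of_mem _ hd, mem_filter.2 ⟨hS h2, ?_⟩⟩
    rw [Nat.add_mod_mod]
    exact h4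
  have h2 : ∀ b ∈ B, ((Icc 1 T).filter (fun h => (w * h + b) % p = a)).card ≤ 1 := by
    intro b _
    rw [card_le_one]
    intro h hh h' hh'
    rw [mem_filter, mem_Icc] at hh hh'
    have h5 : w * h + b ≡ w * h' + b [MOD p] := by
      unfold Nat.ModEq
      rw [hh.2, hh'.2]
    have h6 : w * h ≡ w * h' [MOD p] := Nat.ModEq.add_right_cancel' b h5
    have h7 := Nat.ModEq.cancel_left_of_coprime ((Nat.Prime.coprime_iff_not_dvd hp).2 hw) h6
    unfold Nat.ModEq at h7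
    rwa [Nat.mod_eq_of_lt (by omega), Nat.mod_eq_of_lt (by omega)] at h7
  have h3 : (S.filter (fun h => ¬ ∀ g ∈ pt w D h, g % p ≠ a)).card ≤ nu p D := by
    calc _ ≤ _ := (card_le_card h1).trans card_biUnion_le
      _ ≤ ∑ _b ∈ B, 1 := sum_le_sum h2
      _ = nu p D := by rw [sum_const, smul_eq_mul, mul_one]; rfl
  exact_mod_cast h3

lemma WK_fac (p : ℕ) (D : Finset ℕ) (K : ℝ) (hp : 0 < p) (hK : (nu p D : ℝ) ≤ K) (hp2 : 2 * K ≤ p) :
    1 / 2 ≤ 1 - (nu p D : ℝ) / p ∧ 1 - (nu p D : ℝ) / p ≤ 1 := by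
  have hp0 : (0 : ℝ) < p := by exact_mod_cast hp
  have h1 : (nu p D : ℝ) / p ≤ 1 / 2 := by
    rw [div_le_iff₀ hp0]
    linarith
  have h2 : (0 : ℝ) ≤ (nu p D : ℝ) / p := by positivity
  constructor <;> linarith

lemma WK_pos (P D : Finset ℕ) (K : ℝ) (hP : ∀ p ∈ P, 0 < p ∧ (nu p D : ℝ) ≤ K ∧ 2 * K ≤ p) : 0 < WK D P := by
  unfold WK
  apply prod_pos
  intro p hp
  have := WK_fac p D K (hP p hp).1 (hP p hp).2.1 (hP p hp).2.2
  linarith

lemma WK_le_one (P D : Finset ℕ) (K : ℝ) (hP : ∀ p ∈ P, 0 < p ∧ (nu p D : ℝ) ≤ K ∧ 2 * K ≤ p) : WK D P ≤ 1 := by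
  unfold WK
  apply prod_le_one
  · intro p hp
    have := WK_fac p D K (hP p hp).1 (hP p hp).2.1 (hP p hp).2.2
    linarith
  · intro p hp
    exact (WK_fac p D K (hP p hp).1 (hP p hp).2.1 (hP p hp).2.2).2

/-- all primes are larger than `T` -/
lemma PhiK_large (u K : ℝ) (hK : 1 ≤ K) (hu : |u| ≤ 1 / (20 * K)) (w T : ℕ) (D P : Finset ℕ) : ∀ S : Finset ℕ,
    S ⊆ Icc 1 T → (∀ p ∈ P, p.Prime ∧ T < p ∧ ¬ p ∣ w ∧ (nu p D : ℝ) ≤ K ∧ 2 * K ≤ p) →
    PhiK w D P S u ≤ Real.exp ((u * WK D P + 5 * K * u ^ 2 * (WK D P * (2 - WK D P))) * S.card) := by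
  classical
  have hK0 : 0 < K := by linarith
  have hu0 := abs_nonneg u
  have huK : |u| * K ≤ 1 / 20 := by
    calc |u| * K ≤ 1 / (20 * K) * K := mul_le_mul_of_nonneg_right hu hK0.le
      _ = 1 / 20 := by field_simp
  have hu1 : |u| ≤ 1 / 20 := by nlinarith
  induction P using Finset.induction_on with
  | empty =>
    intro S _ _
    rw [PhiK_empty]
    have h1 : WK D ∅ = 1 := by unfold WK; simp
    rw [h1]
    have h2 : 0 ≤ 1 + u := by have := (abs_le.1 hu1).1; linarith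
    have h3 : 1 + u ≤ Real.exp (u * 1 + 5 * K * u ^ 2 * (1 * (2 - 1))) := by
      refine le_trans (by rw [add_comm]; exact Real.add_one_le_exp u) (Real.exp_le_exp.2 ?_)
      have : 0 ≤ 5 * K * u ^ 2 := by positivity
      linarith
    calc (1 + u) ^ S.card ≤ (Real.exp (u * 1 + 5 * K * u ^ 2 * (1 * (2 - 1)))) ^ S.card := pow_le_pow_left₀ h2 h3 _
      _ = _ := by rw [← Real.exp_nat_mul]; ring_nf
  | insert p P hpP ih =>
    intro S hS hP
    obtain ⟨hp, hpT, hpw, hpK, hpK2⟩ := hP p (mem_insert_self _ _)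
    have hP' : ∀ p' ∈ P, p'.Prime ∧ T < p' ∧ ¬ p' ∣ w ∧ (nu p' D : ℝ) ≤ K ∧ 2 * K ≤ p' := fun p' hp' =>
      hP p' (mem_insert_of_mem hp')
    have hPw : ∀ p' ∈ P, 0 < p' ∧ (nu p' D : ℝ) ≤ K ∧ 2 * K ≤ p' := fun p' hp' =>
      ⟨(hP' p' hp').1.pos, (hP' p' hp').2.2.2.1, (hP' p' hp').2.2.2.2⟩
    set W := WK D P with hW
    have hW0 : 0 < W := WK_pos P D K hPw
    have hW1 : W ≤ 1 := WK_le_one P D K hPw
    obtain ⟨hx1, hx2⟩ := WK_fac p D K hp.pos hpK hpK2
    have e1 : WK D (insert p P) = (1 - (nu p D : ℝ) / p) * W := by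
      rw [hW]
      unfold WK
      rw [prod_insert hpP]
    rw [e1]
    set x : ℝ := (nu p D : ℝ) / p with hx
    have hx0 : 0 ≤ x := by rw [hx]; positivity
    set g : ℝ := u * W + 5 * K * u ^ 2 * (W * (2 - W)) with hg
    have hgabs : |g| ≤ 3 / 2 * |u| * W := by
      rw [hg]
      have h1 : |5 * K * u ^ 2 * (W * (2 - W))| ≤ 1 / 2 * (|u| * W) := by
        rw [abs_of_nonneg (by
          have : 0 ≤ 2 - W := by linarith
          positivity)]
        have h2 : u ^ 2 = |u| * |u| := by rw [← sq_abs]; ring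
        rw [h2]
        calc 5 * K * (|u| * |u|) * (W * (2 - W)) = 5 * (|u| * K) * (2 - W) * (|u| * W) := by ring
          _ ≤ 5 * (1 / 20) * 2 * (|u| * W) := by
              apply mul_le_mul_of_nonneg_right _ (by positivity)
              apply mul_le_mul _ (by linarith) (by linarith) (by norm_num)
              linarith
          _ = _ := by ring
      calc |u * W + 5 * K * u ^ 2 * (W * (2 - W))| ≤ |u * W| + |5 * K * u ^ 2 * (W * (2 - W))| := abs_add_le _ _
        _ ≤ |u| * W + 1 / 2 * (|u| * W) := by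
            apply add_le_add _ h1
            rw [abs_mul, abs_of_pos hW0]
        _ = _ := by ring
    have hgK : |g| * K ≤ 1 := by
      calc |g| * K ≤ (3 / 2 * |u| * W) * K := mul_le_mul_of_nonneg_right hgabs hK0.le
        _ = 3 / 2 * (|u| * K) * W := by ring
        _ ≤ 3 / 2 * (1 / 20) * 1 := by
            apply mul_le_mul _ hW1 hW0.le (by norm_num)
            linarith
        _ ≤ 1 := by norm_num
    have hg2 : g ^ 2 ≤ 9 / 4 * (u ^ 2 * W ^ 2) := by
      have h1 : g ^ 2 = |g| ^ 2 := (sq_abs g).symm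
      have h2 : |g| ^ 2 ≤ (3 / 2 * |u| * W) ^ 2 := pow_le_pow_left₀ (abs_nonneg _) hgabs 2
      have h3 : (3 / 2 * |u| * W) ^ 2 = 9 / 4 * (u ^ 2 * W ^ 2) := by
        rw [mul_pow, mul_pow, sq_abs]
        ring
      rw [h1, ← h3]
      exact h2
    have hstep := PhiK_step u g K w D P S p hpP hp.pos (fun S' hS' => ih S' (hS'.trans hS) hP')
      (fun a _ => (hit_card' w p T a hp hpw hpT D S hS).trans hpK) hgK
    refine hstep.trans (Real.exp_le_exp.2 ?_)
    apply mul_le_mul_of_nonneg_right _ (Nat.cast_nonneg _)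
    rw [← hx]
    have h1 : g ^ 2 * K * x ≤ 5 * K * u ^ 2 * (W ^ 2 * x * (1 - x)) := by
      calc g ^ 2 * K * x ≤ 9 / 4 * (u ^ 2 * W ^ 2) * K * x := by gcongr
        _ = 5 * K * u ^ 2 * (W ^ 2 * x) * (9 / 20) := by ring
        _ ≤ 5 * K * u ^ 2 * (W ^ 2 * x) * (1 - x) := by
            apply mul_le_mul_of_nonneg_left (by linarith) (by positivity)
        _ = _ := by ring
    have h2 : u * ((1 - x) * W) + 5 * K * u ^ 2 * ((1 - x) * W * (2 - (1 - x) * W)) =
        g * (1 - x) + 5 * K * u ^ 2 * (W ^ 2 * x * (1 - x)) := by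
      rw [hg]
      ring
    rw [h2]
    linarith

/-- adding the primes in `(y, T]` -/
lemma PhiK_mid (u g0 γ K : ℝ) (hK : 1 ≤ K) (w : ℕ) (D P2 : Finset ℕ) (y T : ℕ) (hy : 1 ≤ y) (hg0 : |g0| ≤ γ)
    (hγ : 8 * K ^ 2 * γ * T ≤ y) (P1 : Finset ℕ) : ∀ S : Finset ℕ, S ⊆ Icc 1 T →
    (∀ p ∈ P1, p.Prime ∧ y < p ∧ p ≤ T ∧ p ∉ P2 ∧ ¬ p ∣ w ∧ (nu p D : ℝ) ≤ K ∧ 2 * K ≤ p) →
    (∀ S' ⊆ S, PhiK w D P2 S' u ≤ Real.exp (g0 * S'.card)) →
    PhiK w D (P1 ∪ P2) S u ≤ Real.exp ((g0 * WK D P1 + ∑ p ∈ P1, 8 * K ^ 2 * γ ^ 2 * T / (p : ℝ) ^ 2) * S.card) := by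
  classical
  have hK0 : 0 < K := by linarith
  induction P1 using Finset.induction_on with
  | empty =>
    intro S _ _ h
    simp only [empty_union, WK, prod_empty, sum_empty, mul_one, add_zero]
    exact h S (Subset.refl _)
  | insert p P hpP ih =>
    intro S hST hP1 h
    have hp := hP1 p (mem_insert_self _ _)
    have hP' : ∀ p' ∈ P, p'.Prime ∧ y < p' ∧ p' ≤ T ∧ p' ∉ P2 ∧ ¬ p' ∣ w ∧ (nu p' D : ℝ) ≤ K ∧ 2 * K ≤ p' :=
      fun p' hp' => hP1 p' (mem_insert_of_mem hp')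
    have hPw : ∀ p' ∈ P, 0 < p' ∧ (nu p' D : ℝ) ≤ K ∧ 2 * K ≤ p' := fun p' hp' =>
      ⟨(hP' p' hp').1.pos, (hP' p' hp').2.2.2.2.2.1, (hP' p' hp').2.2.2.2.2.2⟩
    rw [insert_union]
    have hγ0 : 0 ≤ γ := (abs_nonneg _).trans hg0
    have hp0 : (0 : ℝ) < p := by exact_mod_cast hp.1.pos
    have hy0 : (0 : ℝ) < y := by exact_mod_cast hy
    have hT0 : (0 : ℝ) ≤ T := Nat.cast_nonneg T
    set e : ℝ := ∑ p ∈ P, 8 * K ^ 2 * γ ^ 2 * T / (p : ℝ) ^ 2 with he
    have he0 : 0 ≤ e := sum_nonneg fun _ _ => by positivity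
    have heγ : e ≤ γ := by
      have h1 : e ≤ 8 * K ^ 2 * γ ^ 2 * T * (1 / y) := by
        calc e = 8 * K ^ 2 * γ ^ 2 * T * ∑ p ∈ P, 1 / (p : ℝ) ^ 2 := by
              rw [he, mul_sum]
              apply sum_congr rfl
              intro p _
              ring
          _ ≤ 8 * K ^ 2 * γ ^ 2 * T * ∑ p ∈ Ioc y T, 1 / (p : ℝ) ^ 2 := by
              apply mul_le_mul_of_nonneg_left _ (by positivity)
              apply sum_le_sum_of_subset_of_nonneg
              · intro p' hp'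
                exact mem_Ioc.2 ⟨(hP' p' hp').2.1, (hP' p' hp').2.2.1⟩
              · intro _ _ _
                positivity
          _ ≤ _ := mul_le_mul_of_nonneg_left (sum_inv_sq_aux y T hy) (by positivity)
      refine h1.trans ?_
      rw [mul_one_div, div_le_iff₀ hy0]
      calc 8 * K ^ 2 * γ ^ 2 * T = (8 * K ^ 2 * γ * T) * γ := by ring
        _ ≤ y * γ := mul_le_mul_of_nonneg_right hγ hγ0
        _ = γ * y := mul_comm _ _
    set g : ℝ := g0 * WK D P + e with hg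
    have hWP := WK_le_one P D K hPw
    have hWP0 := WK_pos P D K hPw
    have hgγ : |g| ≤ 2 * γ := by
      rw [hg]
      have h1 : |g0 * WK D P| ≤ γ := by
        rw [abs_mul, abs_of_pos hWP0]
        calc |g0| * WK D P ≤ |g0| * 1 := mul_le_mul_of_nonneg_left hWP (abs_nonneg _)
          _ ≤ γ := by rw [mul_one]; exact hg0
      calc |g0 * WK D P + e| ≤ |g0 * WK D P| + |e| := abs_add_le _ _
        _ ≤ γ + γ := add_le_add h1 (by rw [abs_of_nonneg he0]; exact heγ)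
        _ = _ := by ring
    set N : ℝ := K * (2 * T / p) with hN
    have hpT : (p : ℝ) ≤ T := by exact_mod_cast hp.2.2.1
    have hyp : (y : ℝ) < p := by exact_mod_cast hp.2.1
    have hcl : ∀ a ∈ range p, ((S.filter (fun h => ¬ ∀ g ∈ pt w D h, g % p ≠ a)).card : ℝ) ≤ N := by
      intro a ha
      refine (hit_card w p T a hp.1 hp.2.2.2.2.1 D S hST).trans ?_
      rw [hN]
      apply mul_le_mul hp.2.2.2.2.2.1 _ (by positivity) hK0.le
      have h4 : (1 : ℝ) ≤ T / p := by rwa [le_div_iff₀ hp0, one_mul]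
      have h5 : (2 : ℝ) * T / p = T / p + T / p := by ring
      rw [h5]
      linarith
    have hgN : |g| * N ≤ 1 := by
      calc |g| * N ≤ (2 * γ) * (K * (2 * T / p)) := by
            apply mul_le_mul_of_nonneg_right hgγ
            rw [hN]; positivity
        _ = 4 * K * γ * T / p := by ring
        _ ≤ 1 := by
            rw [div_le_one hp0]
            have h1 : 4 * K * γ * T ≤ 8 * K ^ 2 * γ * T := by
              have h2 : 0 ≤ γ * T := by positivity
              have h3 : 4 * K ≤ 8 * K ^ 2 := by nlinarith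
              calc 4 * K * γ * T = 4 * K * (γ * T) := by ring
                _ ≤ 8 * K ^ 2 * (γ * T) := mul_le_mul_of_nonneg_right h3 h2
                _ = _ := by ring
            linarith
    have hstep := PhiK_step u g N w D (P ∪ P2) S p (by
      rw [mem_union, not_or]
      exact ⟨hpP, hp.2.2.2.1⟩) hp.1.pos (fun S' hS' => ih S' (hS'.trans hST) hP' (fun S'' hS'' => h S'' (hS''.trans hS'))) hcl hgN
    refine hstep.trans (Real.exp_le_exp.2 ?_)
    apply mul_le_mul_of_nonneg_right _ (Nat.cast_nonneg _)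
    rw [sum_insert hpP]
    have e1 : WK D (insert p P) = (1 - (nu p D : ℝ) / p) * WK D P := by
      unfold WK
      rw [prod_insert hpP]
    rw [e1]
    have h1 : g ^ 2 ≤ 4 * γ ^ 2 := by
      have := sq_le_sq' (by linarith [(abs_le.1 hgγ).1]) (abs_le.1 hgγ).2
      nlinarith
    have hnp : (nu p D : ℝ) / p ≤ K / p := div_le_div_of_nonneg_right hp.2.2.2.2.2.1 hp0.le
    have hnp0 : (0 : ℝ) ≤ (nu p D : ℝ) / p := by positivity
    have h2 : g ^ 2 * N * ((nu p D : ℝ) / p) ≤ 8 * K ^ 2 * γ ^ 2 * T / (p : ℝ) ^ 2 := by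
      calc g ^ 2 * N * ((nu p D : ℝ) / p) ≤ 4 * γ ^ 2 * (K * (2 * T / p)) * (K / p) := by
            rw [hN]
            gcongr
        _ = _ := by field_simp; ring
    have h3 : g * (1 - (nu p D : ℝ) / p) ≤ g0 * ((1 - (nu p D : ℝ) / p) * WK D P) + e := by
      have h4 : g * (1 - (nu p D : ℝ) / p) = g0 * ((1 - (nu p D : ℝ) / p) * WK D P) + e * (1 - (nu p D : ℝ) / p) := by
        rw [hg]; ring
      rw [h4]
      have h5 : e * (1 - (nu p D : ℝ) / p) ≤ e * 1 := mul_le_mul_of_nonneg_left (by linarith) he0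
      linarith
    have he' : e = ∑ x ∈ P, 8 * K ^ 2 * γ ^ 2 * T / (x : ℝ) ^ 2 := he
    linarith

/-- the generating function: final form -/
theorem PhiK_final (u K : ℝ) (hK : 1 ≤ K) (hu : |u| ≤ 1 / (20 * K)) (w : ℕ) (D P : Finset ℕ) (y T : ℕ) (hy : 1 ≤ y)
    (S : Finset ℕ) (hS : S ⊆ Icc 1 T)
    (hP : ∀ p ∈ P, p.Prime ∧ y < p ∧ ¬ p ∣ w ∧ (nu p D : ℝ) ≤ K ∧ 2 * K ≤ p)
    (hT : 18 * K ^ 2 * WK D (P.filter (fun p => T < p)) * T ≤ WK D (P.filter (fun p => p ≤ T)) * y) :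
    PhiK w D P S u ≤ Real.exp (S.card * WK D P * (u + 11 * K * u ^ 2)) := by
  classical
  have hK0 : 0 < K := by linarith
  set P1 := P.filter (fun p => p ≤ T) with hP1
  set P2 := P.filter (fun p => T < p) with hP2
  have hPu : P = P1 ∪ P2 := by
    ext p
    rw [mem_union, hP1, hP2, mem_filter, mem_filter]
    constructor
    · intro h
      rcases Nat.lt_or_ge T p with h1 | h1
      · exact Or.inr ⟨h, h1⟩
      · exact Or.inl ⟨h, h1⟩
    · rintro (h | h)
      · exact h.1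
      · exact h.1
  have hd : Disjoint P1 P2 := by
    rw [disjoint_left]
    intro p h1 h2
    rw [hP1, mem_filter] at h1
    rw [hP2, mem_filter] at h2
    omega
  have hW : WK D P = WK D P1 * WK D P2 := by
    unfold WK
    conv_lhs => rw [hPu]
    rw [prod_union hd]
  have h1P1 : ∀ p ∈ P1, p.Prime ∧ y < p ∧ p ≤ T ∧ p ∉ P2 ∧ ¬ p ∣ w ∧ (nu p D : ℝ) ≤ K ∧ 2 * K ≤ p := by
    intro p hp
    have h := hP p (mem_filter.1 hp).1
    exact ⟨h.1, h.2.1, (mem_filter.1 hp).2, disjoint_left.1 hd hp, h.2.2⟩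
  have h1P2 : ∀ p ∈ P2, p.Prime ∧ T < p ∧ ¬ p ∣ w ∧ (nu p D : ℝ) ≤ K ∧ 2 * K ≤ p := by
    intro p hp
    have h := hP p (mem_filter.1 hp).1
    exact ⟨h.1, (mem_filter.1 hp).2, h.2.2⟩
  have hPw1 : ∀ p' ∈ P1, 0 < p' ∧ (nu p' D : ℝ) ≤ K ∧ 2 * K ≤ p' := fun p' hp' =>
    ⟨(h1P1 p' hp').1.pos, (h1P1 p' hp').2.2.2.2.2.1, (h1P1 p' hp').2.2.2.2.2.2⟩
  have hPw2 : ∀ p' ∈ P2, 0 < p' ∧ (nu p' D : ℝ) ≤ K ∧ 2 * K ≤ p' := fun p' hp' =>
    ⟨(h1P2 p' hp').1.pos, (h1P2 p' hp').2.2.2.1, (h1P2 p' hp').2.2.2.2⟩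
  have hW1 := WK_pos P1 D K hPw1
  have hW1' := WK_le_one P1 D K hPw1
  have hW2 := WK_pos P2 D K hPw2
  have hW2' := WK_le_one P2 D K hPw2
  have hT0 : (0 : ℝ) ≤ T := Nat.cast_nonneg T
  have hy0 : (0 : ℝ) < y := by exact_mod_cast hy
  have huK : |u| * K ≤ 1 / 20 := by
    calc |u| * K ≤ 1 / (20 * K) * K := mul_le_mul_of_nonneg_right hu hK0.le
      _ = 1 / 20 := by field_simp
  have hu1 : |u| ≤ 1 / 20 := by nlinarith [abs_nonneg u]
  set g0 : ℝ := u * WK D P2 + 5 * K * u ^ 2 * (WK D P2 * (2 - WK D P2)) with hg0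
  set γ : ℝ := 3 / 2 * |u| * WK D P2 with hγ
  have hγ0 : 0 ≤ γ := by rw [hγ]; positivity
  have hg0γ : |g0| ≤ γ := by
    rw [hg0, hγ]
    have h1 : |5 * K * u ^ 2 * (WK D P2 * (2 - WK D P2))| ≤ 1 / 2 * (|u| * WK D P2) := by
      rw [abs_of_nonneg (by
        have : 0 ≤ 2 - WK D P2 := by linarith
        positivity)]
      have h2 : u ^ 2 = |u| * |u| := by rw [← sq_abs]; ring
      rw [h2]
      calc 5 * K * (|u| * |u|) * (WK D P2 * (2 - WK D P2)) = 5 * (|u| * K) * (2 - WK D P2) * (|u| * WK D P2) := by ring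
        _ ≤ 5 * (1 / 20) * 2 * (|u| * WK D P2) := by
            apply mul_le_mul_of_nonneg_right _ (by positivity)
            apply mul_le_mul _ (by linarith) (by linarith) (by norm_num)
            linarith
        _ = _ := by ring
    calc |u * WK D P2 + 5 * K * u ^ 2 * (WK D P2 * (2 - WK D P2))| ≤
          |u * WK D P2| + |5 * K * u ^ 2 * (WK D P2 * (2 - WK D P2))| := abs_add_le _ _
      _ ≤ |u| * WK D P2 + 1 / 2 * (|u| * WK D P2) := by
          apply add_le_add _ h1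
          rw [abs_mul, abs_of_pos hW2]
      _ = _ := by ring
  have hγT : 8 * K ^ 2 * γ * T ≤ y := by
    calc 8 * K ^ 2 * γ * T = 12 * |u| * (K ^ 2 * WK D P2 * T) := by rw [hγ]; ring
      _ ≤ 12 * (1 / 20) * (K ^ 2 * WK D P2 * T) := by gcongr
      _ ≤ 18 * (K ^ 2 * WK D P2 * T) := by
          apply mul_le_mul_of_nonneg_right (by norm_num) (by positivity)
      _ = 18 * K ^ 2 * WK D P2 * T := by ring
      _ ≤ WK D P1 * y := hT
      _ ≤ 1 * y := mul_le_mul_of_nonneg_right hW1' hy0.le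
      _ = y := one_mul _
  have h3 := PhiK_mid u g0 γ K hK w D P2 y T hy hg0γ hγT P1 S hS h1P1
    (fun S' hS' => PhiK_large u K hK hu w T D P2 S' (hS'.trans hS) h1P2)
  rw [← hPu] at h3
  refine h3.trans (Real.exp_le_exp.2 ?_)
  have h4 : ∑ p ∈ P1, 8 * K ^ 2 * γ ^ 2 * T / (p : ℝ) ^ 2 ≤ u ^ 2 * (WK D P1 * WK D P2) := by
    calc ∑ p ∈ P1, 8 * K ^ 2 * γ ^ 2 * T / (p : ℝ) ^ 2 = 8 * K ^ 2 * γ ^ 2 * T * ∑ p ∈ P1, 1 / (p : ℝ) ^ 2 := by
          rw [mul_sum]
          apply sum_congr rfl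
          intro p _
          ring
      _ ≤ 8 * K ^ 2 * γ ^ 2 * T * ∑ p ∈ Ioc y T, 1 / (p : ℝ) ^ 2 := by
          apply mul_le_mul_of_nonneg_left _ (by positivity)
          apply sum_le_sum_of_subset_of_nonneg
          · intro p' hp'
            exact mem_Ioc.2 ⟨(h1P1 p' hp').2.1, (h1P1 p' hp').2.2.1⟩
          · intro _ _ _
            positivity
      _ ≤ 8 * K ^ 2 * γ ^ 2 * T * (1 / y) := mul_le_mul_of_nonneg_left (sum_inv_sq_aux y T hy) (by positivity)
      _ = u ^ 2 * WK D P2 * (18 * K ^ 2 * WK D P2 * T / y) := by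
          rw [hγ, mul_pow, mul_pow, sq_abs]
          ring
      _ ≤ u ^ 2 * WK D P2 * WK D P1 := by
          apply mul_le_mul_of_nonneg_left _ (by positivity)
          rw [div_le_iff₀ hy0]
          exact hT
      _ = _ := by ring
  have h5 : (0 : ℝ) ≤ S.card := Nat.cast_nonneg _
  have h6 : g0 * WK D P1 ≤ u * (WK D P1 * WK D P2) + 10 * K * u ^ 2 * (WK D P1 * WK D P2) := by
    rw [hg0]
    have h7 : 5 * K * u ^ 2 * (WK D P2 * (2 - WK D P2)) ≤ 5 * K * u ^ 2 * (WK D P2 * 2) := by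
      apply mul_le_mul_of_nonneg_left _ (by positivity)
      apply mul_le_mul_of_nonneg_left _ hW2.le
      linarith
    calc (u * WK D P2 + 5 * K * u ^ 2 * (WK D P2 * (2 - WK D P2))) * WK D P1 ≤
          (u * WK D P2 + 5 * K * u ^ 2 * (WK D P2 * 2)) * WK D P1 := by
          apply mul_le_mul_of_nonneg_right _ hW1.le
          linarith
      _ = _ := by ring
  have h7 : u ^ 2 * (WK D P1 * WK D P2) ≤ K * u ^ 2 * (WK D P1 * WK D P2) := by
    have : 0 ≤ u ^ 2 * (WK D P1 * WK D P2) := by positivity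
    calc u ^ 2 * (WK D P1 * WK D P2) = 1 * (u ^ 2 * (WK D P1 * WK D P2)) := (one_mul _).symm
      _ ≤ K * (u ^ 2 * (WK D P1 * WK D P2)) := mul_le_mul_of_nonneg_right hK this
      _ = _ := by ring
  rw [hW]
  calc (g0 * WK D P1 + ∑ p ∈ P1, 8 * K ^ 2 * γ ^ 2 * T / (p : ℝ) ^ 2) * S.card
      ≤ (u * (WK D P1 * WK D P2) + 11 * K * u ^ 2 * (WK D P1 * WK D P2)) * S.card := by
        apply mul_le_mul_of_nonneg_right _ h5
        linarith
    _ = _ := by ring

end Pool.Agent.H36.KT
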