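import Mathlib
import Pool.Agent.H36.KT.Model
import Pool.Agent.H36.RW.Core

/-!
Moments of the number of surviving positions, over a full period and over an interval.
-/

set_option autoImplicit false

namespace Pool.Agent.H36.KT
open Finset Pool.Agent.H36.RW

/-- the number of `h ∈ S` for which no `q l + r + g`, `g` in the pattern of `h`, has a prime factor in `P` -/
def XXK (w : ℕ) (D : Finset ℕ) (q r : ℕ) (P S : Finset ℕ) (l : ℕ) : ℕ :=
  (S.filter (fun h => ∀ p ∈ P, ∀ g ∈ pt w D h, ¬ p ∣ q * l + r + g)).card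

lemma NN_PT (w : ℕ) (D : Finset ℕ) (q r : ℕ) (P J : Finset ℕ) (l : ℕ) :
    (∀ p ∈ P, ∀ g ∈ PT w D J, ¬ p ∣ q * l + r + g) ↔ ∀ h ∈ J, ∀ p ∈ P, ∀ g ∈ pt w D h, ¬ p ∣ q * l + r + g := by
  constructor
  · intro h1 h hh p hp g hg
    exact h1 p hp g (mem_PT.2 ⟨h, hh, hg⟩)
  · intro h1 p hp g hg
    obtain ⟨h, hh, hg'⟩ := mem_PT.1 hg
    exact h1 h hh p hp g hg'

lemma mom_sumK (w : ℕ) (D : Finset ℕ) (q r : ℕ) (P S Ω : Finset ℕ) (i : ℕ) :
    ∑ l ∈ Ω, (XXK w D q r P S l : ℝ) ^ i =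
      ∑ f ∈ Fintype.piFinset (fun _ : Fin i => S), (NN q r P Ω (PT w D (univ.image f)) : ℝ) := by
  have h1 : ∀ l ∈ Ω, (XXK w D q r P S l : ℝ) ^ i = ∑ f ∈ Fintype.piFinset (fun _ : Fin i => S),
      (if ∀ p ∈ P, ∀ g ∈ PT w D (univ.image f), ¬ p ∣ q * l + r + g then (1 : ℝ) else 0) := by
    intro l _
    have h2 : (XXK w D q r P S l) ^ i = (Fintype.piFinset (fun _ : Fin i => S.filter (fun h => ∀ p ∈ P, ∀ g ∈ pt w D h, ¬ p ∣ q * l + r + g))).card := by
      rw [Fintype.card_piFinset, prod_const, card_univ, Fintype.card_fin]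
      rfl
    set G := Fintype.piFinset (fun _ : Fin i => S.filter (fun h => ∀ p ∈ P, ∀ g ∈ pt w D h, ¬ p ∣ q * l + r + g)) with hG
    have hmem : ∀ f : Fin i → ℕ, f ∈ G ↔ f ∈ Fintype.piFinset (fun _ : Fin i => S) ∧
        ∀ p ∈ P, ∀ g ∈ PT w D (univ.image f), ¬ p ∣ q * l + r + g := by
      intro f
      rw [hG, Fintype.mem_piFinset, Fintype.mem_piFinset, NN_PT]
      constructor
      · intro h
        refine ⟨fun a => (mem_filter.1 (h a)).1, ?_⟩
        intro x hx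
        obtain ⟨a, _, rfl⟩ := mem_image.1 hx
        exact (mem_filter.1 (h a)).2
      · rintro ⟨h, h'⟩ a
        rw [mem_filter]
        exact ⟨h a, h' (f a) (mem_image_of_mem f (mem_univ a))⟩
    have hGS : G ⊆ Fintype.piFinset (fun _ : Fin i => S) := fun f hf => ((hmem f).1 hf).1
    have h4 : ((G.card : ℕ) : ℝ) = ∑ f ∈ G, (1 : ℝ) := by simp
    have h5 : (XXK w D q r P S l : ℝ) ^ i = (G.card : ℝ) := by exact_mod_cast h2
    rw [h5, h4]
    have h6 : ∑ f ∈ G, (1 : ℝ) = ∑ f ∈ G,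
        (if ∀ p ∈ P, ∀ g ∈ PT w D (univ.image f), ¬ p ∣ q * l + r + g then (1 : ℝ) else 0) := by
      apply sum_congr rfl
      intro f hf
      rw [if_pos ((hmem f).1 hf).2]
    rw [h6]
    apply sum_subset hGS
    intro f hf hf'
    rw [if_neg]
    intro h7
    exact hf' ((hmem f).2 ⟨hf, h7⟩)
  rw [sum_congr rfl h1, sum_comm]
  apply sum_congr rfl
  intro f _
  rw [← sum_filter, sum_const, nsmul_eq_mul, mul_one]
  rfl

lemma gen_sumK (w : ℕ) (D : Finset ℕ) (q r : ℕ) (P S Ω : Finset ℕ) (u : ℝ) :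
    ∑ l ∈ Ω, (1 + u) ^ (XXK w D q r P S l) = ∑ J ∈ S.powerset, u ^ J.card * (NN q r P Ω (PT w D J) : ℝ) := by
  classical
  have h1 : ∀ l ∈ Ω, (1 + u) ^ (XXK w D q r P S l) = ∑ J ∈ S.powerset,
      (if ∀ p ∈ P, ∀ g ∈ PT w D J, ¬ p ∣ q * l + r + g then u ^ J.card else 0) := by
    intro l _
    have h2 := Finset.sum_pow_mul_eq_add_pow u 1 (S.filter (fun h => ∀ p ∈ P, ∀ g ∈ pt w D h, ¬ p ∣ q * l + r + g))
    simp only [one_pow, mul_one] at h2
    unfold XXK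
    rw [add_comm 1 u, ← h2, ← sum_filter]
    apply sum_congr _ (fun _ _ => rfl)
    ext J
    rw [mem_powerset, mem_filter, mem_powerset, NN_PT]
    simp only [subset_iff, mem_filter]
    constructor
    · intro h
      exact ⟨fun x hx => (h hx).1, fun x hx => (h hx).2⟩
    · rintro ⟨h1, h2⟩ x hx
      exact ⟨h1 hx, h2 x hx⟩
  rw [sum_congr rfl h1, sum_comm]
  apply sum_congr rfl
  intro J _
  rw [← sum_filter, sum_const, nsmul_eq_mul, mul_comm]
  rfl

/-- the generating function over a full period -/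
lemma per_genK (w : ℕ) (D : Finset ℕ) (q r : ℕ) (P S : Finset ℕ) (hP : ∀ p ∈ P, p.Prime ∧ ¬ p ∣ q) (u : ℝ) :
    ∑ l ∈ range (∏ p ∈ P, p), (1 + u) ^ (XXK w D q r P S l) = ((∏ p ∈ P, p : ℕ) : ℝ) * PhiK w D P S u := by
  rw [gen_sumK]
  unfold PhiK
  rw [mul_sum]
  apply sum_congr rfl
  intro J _
  rw [per_NN q r P _ hP]
  ring

/-- exponential moments over a full period -/
lemma per_expK (K : ℝ) (hK : 1 ≤ K) (w : ℕ) (D : Finset ℕ) (q r : ℕ) (P S : Finset ℕ) (y T : ℕ) (hy : 1 ≤ y) (hS : S ⊆ Icc 1 T)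
    (hP : ∀ p ∈ P, p.Prime ∧ y < p ∧ ¬ p ∣ q ∧ ¬ p ∣ w ∧ (nu p D : ℝ) ≤ K ∧ 2 * K ≤ p)
    (hT : 18 * K ^ 2 * WK D (P.filter (fun p => T < p)) * T ≤ WK D (P.filter (fun p => p ≤ T)) * y)
    (t : ℝ) (ht : |t| ≤ 1 / (45 * K)) :
    ∑ l ∈ range (∏ p ∈ P, p), Real.exp (t * XXK w D q r P S l) ≤
      ((∏ p ∈ P, p : ℕ) : ℝ) * Real.exp (S.card * WK D P * (t + 45 * K * t ^ 2)) := by
  have hK0 : 0 < K := by linarith
  have ht0 := abs_nonneg t
  have ht1 : |t| ≤ 1 := by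
    refine ht.trans ?_
    rw [div_le_one (by positivity)]
    linarith
  set u : ℝ := Real.exp t - 1 with hu
  have h1 : |u - t| ≤ t ^ 2 := by
    have := Real.abs_exp_sub_one_sub_id_le ht1
    rwa [hu]
  have ht2 : t ^ 2 ≤ |t| := by
    rw [← sq_abs]
    nlinarith [abs_nonneg t]
  have hu2 : |u| ≤ 2 * |t| := by
    calc |u| = |(u - t) + t| := by ring_nf
      _ ≤ |u - t| + |t| := abs_add_le _ _
      _ ≤ 2 * |t| := by linarith
  have huK : |u| ≤ 1 / (20 * K) := by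
    refine hu2.trans ?_
    calc 2 * |t| ≤ 2 * (1 / (45 * K)) := by linarith
      _ = 2 / 45 * (1 / K) := by field_simp
      _ ≤ 1 / 20 * (1 / K) := by
          apply mul_le_mul_of_nonneg_right (by norm_num) (by positivity)
      _ = 1 / (20 * K) := by field_simp
  have h2 := PhiK_final u K hK huK w D P y T hy S hS (fun p hp => ⟨(hP p hp).1, (hP p hp).2.1, (hP p hp).2.2.2⟩) hT
  have h3 : u + 11 * K * u ^ 2 ≤ t + 45 * K * t ^ 2 := by
    have h4 : u ^ 2 ≤ 4 * t ^ 2 := by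
      have := sq_le_sq' (by linarith [abs_nonneg u, abs_nonneg t]) hu2
      rw [sq_abs] at this
      calc u ^ 2 ≤ (2 * |t|) ^ 2 := this
        _ = 4 * t ^ 2 := by rw [mul_pow, sq_abs]; ring
    have h5 := (abs_le.1 h1).2
    have h6 : 11 * K * u ^ 2 ≤ 11 * K * (4 * t ^ 2) := mul_le_mul_of_nonneg_left h4 (by positivity)
    have h7 : 1 * t ^ 2 ≤ K * t ^ 2 := mul_le_mul_of_nonneg_right hK (sq_nonneg t)
    linarith
  have h5 : 0 ≤ (S.card : ℝ) * WK D P := mul_nonneg (Nat.cast_nonneg _)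
    (WK_pos P D K (fun p hp => ⟨(hP p hp).1.pos, (hP p hp).2.2.2.2⟩)).le
  calc ∑ l ∈ range (∏ p ∈ P, p), Real.exp (t * XXK w D q r P S l)
      = ∑ l ∈ range (∏ p ∈ P, p), (1 + u) ^ (XXK w D q r P S l) := by
        apply sum_congr rfl
        intro l _
        rw [hu, add_sub_cancel, ← Real.exp_nat_mul, mul_comm]
    _ = ((∏ p ∈ P, p : ℕ) : ℝ) * PhiK w D P S u := per_genK w D q r P S (fun p hp => ⟨(hP p hp).1, (hP p hp).2.2.1⟩) u
    _ ≤ ((∏ p ∈ P, p : ℕ) : ℝ) * Real.exp (S.card * WK D P * (u + 11 * K * u ^ 2)) :=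
        mul_le_mul_of_nonneg_left h2 (Nat.cast_nonneg _)
    _ ≤ _ := by
        apply mul_le_mul_of_nonneg_left _ (Nat.cast_nonneg _)
        exact Real.exp_le_exp.2 (mul_le_mul_of_nonneg_left h3 h5)

/-- central moments over a full period -/
lemma per_centralK (K : ℝ) (hK : 1 ≤ K) (w : ℕ) (D : Finset ℕ) (q r : ℕ) (P S : Finset ℕ) (y T : ℕ) (hy : 1 ≤ y) (hS : S ⊆ Icc 1 T)
    (hP : ∀ p ∈ P, p.Prime ∧ y < p ∧ ¬ p ∣ q ∧ ¬ p ∣ w ∧ (nu p D : ℝ) ≤ K ∧ 2 * K ≤ p)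
    (hT : 18 * K ^ 2 * WK D (P.filter (fun p => T < p)) * T ≤ WK D (P.filter (fun p => p ≤ T)) * y)
    (k : ℕ) (hk : 1 ≤ k) (hkμ : 45 * K * (k : ℝ) ≤ S.card * WK D P) :
    ∑ l ∈ range (∏ p ∈ P, p), ((XXK w D q r P S l : ℝ) - S.card * WK D P) ^ (2 * k) ≤
      ((∏ p ∈ P, p : ℕ) : ℝ) * (2 * (4 * Real.exp 1 * (45 * K) * k * (S.card * WK D P)) ^ k) := by
  set μ : ℝ := S.card * WK D P with hμ
  have hK0 : 0 < K := by linarith
  have hk0 : (0 : ℝ) < k := by exact_mod_cast hk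
  have hμ0 : 0 < μ := lt_of_lt_of_le (by positivity) hkμ
  set t : ℝ := √(k / (45 * K * μ)) with ht
  have ht0 : 0 < t := Real.sqrt_pos.2 (by positivity)
  have ht2 : t ^ 2 = k / (45 * K * μ) := Real.sq_sqrt (by positivity)
  have ht1 : t ≤ 1 / (45 * K) := by
    have h0 : (k : ℝ) / (45 * K * μ) ≤ (1 / (45 * K)) ^ 2 := by
      rw [one_div, inv_pow, ← one_div, div_le_div_iff₀ (by positivity) (by positivity)]
      calc (k : ℝ) * (45 * K) ^ 2 = (45 * K * k) * (45 * K) := by ring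
        _ ≤ μ * (45 * K) := mul_le_mul_of_nonneg_right hkμ (by positivity)
        _ = _ := by ring
    calc t ≤ √((1 / (45 * K)) ^ 2) := Real.sqrt_le_sqrt h0
      _ = 1 / (45 * K) := Real.sqrt_sq (by positivity)
  have h5 : ∀ s : ℝ, |s| = t → ∑ l ∈ range (∏ p ∈ P, p), Real.exp (s * ((XXK w D q r P S l : ℝ) - μ)) ≤
      ((∏ p ∈ P, p : ℕ) : ℝ) * Real.exp 1 ^ k := by
    intro s hs
    have h6 := per_expK K hK w D q r P S y T hy hS hP hT s (by rw [hs]; exact ht1)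
    have hs2 : s ^ 2 = k / (45 * K * μ) := by rw [← sq_abs, hs, ht2]
    calc ∑ l ∈ range (∏ p ∈ P, p), Real.exp (s * ((XXK w D q r P S l : ℝ) - μ))
        = Real.exp (-(s * μ)) * ∑ l ∈ range (∏ p ∈ P, p), Real.exp (s * (XXK w D q r P S l : ℝ)) := by
          rw [mul_sum]
          apply sum_congr rfl
          intro l _
          rw [← Real.exp_add]
          congr 1
          ring
      _ ≤ Real.exp (-(s * μ)) * (((∏ p ∈ P, p : ℕ) : ℝ) * Real.exp (S.card * WK D P * (s + 45 * K * s ^ 2))) :=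
          mul_le_mul_of_nonneg_left h6 (Real.exp_pos _).le
      _ = ((∏ p ∈ P, p : ℕ) : ℝ) * (Real.exp (-(s * μ)) * Real.exp (μ * (s + 45 * K * s ^ 2))) := by
          rw [hμ]; ring
      _ = ((∏ p ∈ P, p : ℕ) : ℝ) * Real.exp 1 ^ k := by
          rw [← Real.exp_add, ← Real.exp_nat_mul, hs2]
          congr 2
          field_simp
          ring
  calc ∑ l ∈ range (∏ p ∈ P, p), ((XXK w D q r P S l : ℝ) - μ) ^ (2 * k)
      ≤ ∑ l ∈ range (∏ p ∈ P, p), (2 * k : ℝ) ^ (2 * k) * (1 / t) ^ (2 * k) *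
          (Real.exp (t * ((XXK w D q r P S l : ℝ) - μ)) + Real.exp (-(t * ((XXK w D q r P S l : ℝ) - μ)))) := by
        apply sum_le_sum
        intro l _
        exact pow_le_exp _ t ht0 k
    _ = (2 * k : ℝ) ^ (2 * k) * (1 / t) ^ (2 * k) *
          (∑ l ∈ range (∏ p ∈ P, p), Real.exp (t * ((XXK w D q r P S l : ℝ) - μ)) +
           ∑ l ∈ range (∏ p ∈ P, p), Real.exp ((-t) * ((XXK w D q r P S l : ℝ) - μ))) := by
        rw [← mul_sum, ← sum_add_distrib]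
        congr 1
        apply sum_congr rfl
        intro l _
        rw [neg_mul]
    _ ≤ (2 * k : ℝ) ^ (2 * k) * (1 / t) ^ (2 * k) *
          (((∏ p ∈ P, p : ℕ) : ℝ) * Real.exp 1 ^ k + ((∏ p ∈ P, p : ℕ) : ℝ) * Real.exp 1 ^ k) := by
        apply mul_le_mul_of_nonneg_left _ (by positivity)
        exact add_le_add (h5 t (abs_of_pos ht0)) (h5 (-t) (by rw [abs_neg, abs_of_pos ht0]))
    _ = _ := by
        have e1 : (1 / t) ^ (2 * k) = (45 * K * μ / k) ^ k := by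
          rw [pow_mul, div_pow, one_pow, ht2, one_div_div]
        have e2 : (2 * k : ℝ) ^ (2 * k) = (4 * k ^ 2) ^ k := by rw [pow_mul]; congr 1; ring
        rw [e1, e2]
        have e3 : (4 * (k : ℝ) ^ 2) ^ k * (45 * K * μ / k) ^ k * Real.exp 1 ^ k = (4 * Real.exp 1 * (45 * K) * k * μ) ^ k := by
          rw [← mul_pow, ← mul_pow]
          congr 1
          field_simp
        rw [← e3]
        ring

/-- the other moments over a full period -/
lemma per_plusK (K : ℝ) (hK : 1 ≤ K) (w : ℕ) (D : Finset ℕ) (q r : ℕ) (P S : Finset ℕ) (y T : ℕ) (hy : 1 ≤ y) (hS : S ⊆ Icc 1 T)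
    (hP : ∀ p ∈ P, p.Prime ∧ y < p ∧ ¬ p ∣ q ∧ ¬ p ∣ w ∧ (nu p D : ℝ) ≤ K ∧ 2 * K ≤ p)
    (hT : 18 * K ^ 2 * WK D (P.filter (fun p => T < p)) * T ≤ WK D (P.filter (fun p => p ≤ T)) * y)
    (k : ℕ) (hk : 1 ≤ k) (hkμ : 45 * K * (k : ℝ) ≤ S.card * WK D P) :
    ∑ l ∈ range (∏ p ∈ P, p), ((XXK w D q r P S l : ℝ) + S.card * WK D P) ^ (2 * k) ≤
      ((∏ p ∈ P, p : ℕ) : ℝ) * (4 * Real.exp 3 * (S.card * WK D P) ^ 2) ^ k := by
  set μ : ℝ := S.card * WK D P with hμ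
  have hK0 : 0 < K := by linarith
  have hk0 : (0 : ℝ) < k := by exact_mod_cast hk
  have hμ0 : 0 < μ := lt_of_lt_of_le (by positivity) hkμ
  set t : ℝ := k / μ with ht
  have ht0 : 0 < t := by positivity
  have ht1 : t ≤ 1 / (45 * K) := by
    rw [ht, div_le_div_iff₀ hμ0 (by positivity)]
    linarith
  have h6 := per_expK K hK w D q r P S y T hy hS hP hT t (by rw [abs_of_pos ht0]; exact ht1)
  have h1 : ∀ x : ℝ, 0 ≤ x → x ^ (2 * k) ≤ (2 * k : ℝ) ^ (2 * k) * (1 / t) ^ (2 * k) * Real.exp (t * x) := by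
    intro x hx
    have h1 := Real.pow_div_factorial_le_exp (t * x) (by positivity) (2 * k)
    have h4 : (((2 * k).factorial : ℕ) : ℝ) ≤ (2 * k : ℝ) ^ (2 * k) := by
      have := Nat.factorial_le_pow (2 * k)
      exact_mod_cast this
    have hf : (0 : ℝ) < ((2 * k).factorial : ℝ) := by exact_mod_cast Nat.factorial_pos _
    rw [div_le_iff₀ hf, mul_pow] at h1
    have htk : 0 < t ^ (2 * k) := by positivity
    rw [one_div, inv_pow]
    calc x ^ (2 * k) = (t ^ (2 * k))⁻¹ * (t ^ (2 * k) * x ^ (2 * k)) := by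
          rw [← mul_assoc, inv_mul_cancel₀ htk.ne', one_mul]
      _ ≤ (t ^ (2 * k))⁻¹ * (Real.exp (t * x) * (2 * k : ℝ) ^ (2 * k)) := by
          apply mul_le_mul_of_nonneg_left _ (by positivity)
          exact h1.trans (mul_le_mul_of_nonneg_left h4 (Real.exp_pos _).le)
      _ = _ := by ring
  calc ∑ l ∈ range (∏ p ∈ P, p), ((XXK w D q r P S l : ℝ) + μ) ^ (2 * k)
      ≤ ∑ l ∈ range (∏ p ∈ P, p), (2 * k : ℝ) ^ (2 * k) * (1 / t) ^ (2 * k) *
          Real.exp (t * ((XXK w D q r P S l : ℝ) + μ)) := by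
        apply sum_le_sum
        intro l _
        exact h1 _ (by positivity)
    _ = (2 * k : ℝ) ^ (2 * k) * (1 / t) ^ (2 * k) * (Real.exp (t * μ) *
          ∑ l ∈ range (∏ p ∈ P, p), Real.exp (t * (XXK w D q r P S l : ℝ))) := by
        rw [← mul_sum, mul_sum (s := range (∏ p ∈ P, p)) (a := Real.exp (t * μ))]
        congr 1
        apply sum_congr rfl
        intro l _
        rw [← Real.exp_add]
        congr 1
        ring
    _ ≤ (2 * k : ℝ) ^ (2 * k) * (1 / t) ^ (2 * k) * (Real.exp (t * μ) *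
          (((∏ p ∈ P, p : ℕ) : ℝ) * Real.exp (S.card * WK D P * (t + 45 * K * t ^ 2)))) := by
        gcongr
    _ = ((∏ p ∈ P, p : ℕ) : ℝ) * ((4 * μ ^ 2) ^ k * (Real.exp (t * μ) * Real.exp (μ * (t + 45 * K * t ^ 2)))) := by
        have e2 : (2 * k : ℝ) ^ (2 * k) * (1 / t) ^ (2 * k) = (4 * μ ^ 2) ^ k := by
          rw [← mul_pow, pow_mul]
          congr 1
          rw [ht]
          field_simp
          ring
        rw [e2, hμ]
        ring
    _ ≤ ((∏ p ∈ P, p : ℕ) : ℝ) * ((4 * μ ^ 2) ^ k * Real.exp 3 ^ k) := by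
        apply mul_le_mul_of_nonneg_left _ (Nat.cast_nonneg _)
        apply mul_le_mul_of_nonneg_left _ (by positivity)
        rw [← Real.exp_add, ← Real.exp_nat_mul]
        apply Real.exp_le_exp.2
        have e3 : t * μ = k := by rw [ht]; field_simp
        have e4 : μ * (45 * K * t ^ 2) ≤ k := by
          calc μ * (45 * K * t ^ 2) = (t * μ) * (45 * K * t) := by ring
            _ = k * (45 * K * t) := by rw [e3]
            _ ≤ k * (45 * K * (1 / (45 * K))) := by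
                apply mul_le_mul_of_nonneg_left _ hk0.le
                exact mul_le_mul_of_nonneg_left ht1 (by positivity)
            _ = k := by field_simp
        have e5 : μ * (t + 45 * K * t ^ 2) = t * μ + μ * (45 * K * t ^ 2) := by ring
        rw [e5, e3]
        linarith
    _ = _ := by
        rw [← mul_pow]
        congr 2
        ring

theorem coreK : ∃ C0 : ℕ, 1 ≤ C0 ∧ ∀ (K : ℕ) (w : ℕ) (D : Finset ℕ) (q r : ℕ) (P S : Finset ℕ) (y T k b Jd X : ℕ) (ε : ℝ),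
    1 ≤ K → D.card ≤ K → 1 ≤ k → C0 * (K * (2 * k)) ≤ b → 2 ≤ b → 4 * (K * k) + 10 ≤ y →
    (∀ p ∈ P, p.Prime ∧ y < p ∧ p ≤ 2 ^ 2 ^ Jd ∧ ¬ p ∣ q ∧ ¬ p ∣ w) → S ⊆ Icc 1 T →
    18 * (K : ℝ) ^ 2 * WK D (P.filter (fun p => T < p)) * T ≤ WK D (P.filter (fun p => p ≤ T)) * y →
    45 * (K : ℝ) * (k : ℝ) ≤ S.card * WK D P → 0 < ε →
    (((Icc 1 X).filter (fun l => ε * (S.card * WK D P) < |(XXK w D q r P S l : ℝ) - S.card * WK D P|)).card : ℝ) ≤
      X * (2 * (4 * Real.exp 1 * (45 * K) * k / (ε ^ 2 * (S.card * WK D P))) ^ k + (1 / 2) ^ b * (4 * Real.exp 3 / ε ^ 2) ^ k) +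
      ((S.card + S.card * WK D P) / (ε * (S.card * WK D P))) ^ (2 * k) *
        (((Jd : ℝ) + 2) * (((2 : ℝ) ^ 2 ^ Jd) ^ (10 * b)) ^ 2) := by
  obtain ⟨C0, hC0, hint⟩ := int_count'
  refine ⟨C0, hC0, ?_⟩
  intro K w D q r P S y T k b Jd X ε hK hD hk hb hb2 hy hP0 hS hT hkμ hε
  have hKr : (1 : ℝ) ≤ K := by exact_mod_cast hK
  have hnu : ∀ p : ℕ, (nu p D : ℝ) ≤ K := fun p => by exact_mod_cast (nu_le p D).trans hD
  have hP : ∀ p ∈ P, p.Prime ∧ y < p ∧ p ≤ 2 ^ 2 ^ Jd ∧ ¬ p ∣ q ∧ ¬ p ∣ w ∧ (nu p D : ℝ) ≤ K ∧ 2 * (K : ℝ) ≤ p := by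
    intro p hp
    obtain ⟨h1, h2, h3, h4, h5⟩ := hP0 p hp
    refine ⟨h1, h2, h3, h4, h5, hnu p, ?_⟩
    have : 2 * K ≤ p := by
      have : K * 1 ≤ K * k := Nat.mul_le_mul_left _ hk
      omega
    exact_mod_cast this
  have hP' : ∀ p ∈ P, p.Prime ∧ y < p ∧ ¬ p ∣ q ∧ ¬ p ∣ w ∧ (nu p D : ℝ) ≤ K ∧ 2 * (K : ℝ) ≤ p := fun p hp =>
    ⟨(hP p hp).1, (hP p hp).2.1, (hP p hp).2.2.2⟩
  set μ : ℝ := S.card * WK D P with hμ
  have hk0 : (0 : ℝ) < k := by exact_mod_cast hk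
  have hμ0 : 0 < μ := lt_of_lt_of_le (by positivity) hkμ
  set E : ℝ := ((Jd : ℝ) + 2) * (((2 : ℝ) ^ 2 ^ Jd) ^ (10 * b)) ^ 2 with hE
  have hE0 : 0 ≤ E := by rw [hE]; positivity
  set Pi : ℝ := ((∏ p ∈ P, p : ℕ) : ℝ) with hPi
  have hPi0 : 0 < Pi := by
    rw [hPi]
    exact_mod_cast Nat.pos_of_ne_zero (prod_ne_zero_iff.2 fun p hp => (hP p hp).1.ne_zero)
  have hPq : ∀ p ∈ P, p.Prime ∧ ¬ p ∣ q := fun p hp => ⟨(hP p hp).1, (hP p hp).2.2.2.1⟩
  set R := range (∏ p ∈ P, p) with hR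
  set x : ℕ → ℝ := fun l => (XXK w D q r P S l : ℝ) with hx
  set I : ℕ → ℝ := fun i => ∑ l ∈ Icc 1 X, x l ^ i with hI
  set M : ℕ → ℝ := fun i => ∑ l ∈ R, x l ^ i with hM
  have hM0 : ∀ i, 0 ≤ M i := fun i => sum_nonneg fun l _ => by positivity
  -- the moments
  have hmom : ∀ i ≤ 2 * k, |I i - X * (M i / Pi)| ≤ (1 / 2) ^ b * (X * (M i / Pi)) + (S.card : ℝ) ^ i * E := by
    intro i hi
    have e1 : I i = ∑ f ∈ Fintype.piFinset (fun _ : Fin i => S), (NN q r P (Icc 1 X) (PT w D (univ.image f)) : ℝ) :=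
      mom_sumK w D q r P S (Icc 1 X) i
    have e2 : M i / Pi = ∑ f ∈ Fintype.piFinset (fun _ : Fin i => S), rho P (PT w D (univ.image f)) := by
      have e3 : M i = ∑ f ∈ Fintype.piFinset (fun _ : Fin i => S), (NN q r P R (PT w D (univ.image f)) : ℝ) :=
        mom_sumK w D q r P S R i
      rw [e3, sum_div]
      apply sum_congr rfl
      intro f _
      rw [hR, per_NN q r P _ hPq, mul_div_assoc, mul_comm, div_mul_cancel₀ _ hPi0.ne']
    rw [e1, e2, mul_sum, ← sum_sub_distrib]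
    refine (abs_sum_le_sum_abs _ _).trans ?_
    have h1 : ∀ f ∈ Fintype.piFinset (fun _ : Fin i => S), |(NN q r P (Icc 1 X) (PT w D (univ.image f)) : ℝ) -
        X * rho P (PT w D (univ.image f))| ≤ (1 / 2) ^ b * (X * rho P (PT w D (univ.image f))) + E := by
      intro f _
      apply hint (K * (2 * k)) b Jd y q r P (PT w D (univ.image f)) hb hb2 (by
        have e : 2 * (K * (2 * k)) = 4 * (K * k) := by ring
        rw [e]; exact hy) (fun p hp => ⟨(hP p hp).1, (hP p hp).2.1, (hP p hp).2.2.1⟩)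
        (fun p hp => (hP p hp).2.2.2.1)
      calc (PT w D (univ.image f)).card ≤ (univ.image f).card * D.card := card_PT w D _
        _ ≤ i * K := by
          apply Nat.mul_le_mul _ hD
          calc (univ.image f).card ≤ (univ : Finset (Fin i)).card := card_image_le
            _ = i := by simp
        _ ≤ K * (2 * k) := by
          rw [mul_comm]
          exact Nat.mul_le_mul_left _ hi
    refine (sum_le_sum h1).trans (le_of_eq ?_)
    rw [sum_add_distrib, ← mul_sum, sum_const, nsmul_eq_mul, Fintype.card_piFinset, prod_const, card_univ, Fintype.card_fin]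
    push_cast
    rw [mul_sum]
  -- the central moment
  have hcen : ∑ l ∈ Icc 1 X, (x l - μ) ^ (2 * k) ≤ X * (2 * (4 * Real.exp 1 * (45 * K) * k * μ) ^ k) +
      (1 / 2) ^ b * (X * (4 * Real.exp 3 * μ ^ 2) ^ k) + (S.card + μ) ^ (2 * k) * E := by
    have e1 : ∑ l ∈ Icc 1 X, (x l - μ) ^ (2 * k) = ∑ i ∈ range (2 * k + 1), I i * (-μ) ^ (2 * k - i) * ((2 * k).choose i : ℝ) := by
      have := binom_expand I (-μ) (2 * k) (Icc 1 X) x (fun i => rfl)
      rw [← this]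
      apply sum_congr rfl
      intro l _
      rw [sub_eq_add_neg]
    have e2 : ∑ l ∈ R, (x l - μ) ^ (2 * k) = ∑ i ∈ range (2 * k + 1), M i * (-μ) ^ (2 * k - i) * ((2 * k).choose i : ℝ) := by
      have := binom_expand M (-μ) (2 * k) R x (fun i => rfl)
      rw [← this]
      apply sum_congr rfl
      intro l _
      rw [sub_eq_add_neg]
    have e3 : ∑ l ∈ R, (x l + μ) ^ (2 * k) = ∑ i ∈ range (2 * k + 1), M i * μ ^ (2 * k - i) * ((2 * k).choose i : ℝ) :=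
      binom_expand M μ (2 * k) R x (fun i => rfl)
    have e4 : ((S.card : ℝ) + μ) ^ (2 * k) = ∑ i ∈ range (2 * k + 1), (S.card : ℝ) ^ i * μ ^ (2 * k - i) * ((2 * k).choose i : ℝ) :=
      add_pow _ _ _
    have h1 : ∑ l ∈ Icc 1 X, (x l - μ) ^ (2 * k) ≤ (X / Pi) * ∑ l ∈ R, (x l - μ) ^ (2 * k) +
        (1 / 2) ^ b * ((X / Pi) * ∑ l ∈ R, (x l + μ) ^ (2 * k)) + (S.card + μ) ^ (2 * k) * E := by
      rw [e1, e2, e3, e4, mul_sum, mul_sum, mul_sum, sum_mul, ← sum_add_distrib, ← sum_add_distrib]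
      apply sum_le_sum
      intro i hi
      have hi' : i ≤ 2 * k := by
        have := mem_range.1 hi
        omega
      have h2 := hmom i hi'
      set c : ℝ := ((2 * k).choose i : ℝ) with hc
      have hc0 : 0 ≤ c := Nat.cast_nonneg _
      have h3 : (I i - X * (M i / Pi)) * (-μ) ^ (2 * k - i) ≤
          ((1 / 2) ^ b * (X * (M i / Pi)) + (S.card : ℝ) ^ i * E) * μ ^ (2 * k - i) := by
        calc (I i - X * (M i / Pi)) * (-μ) ^ (2 * k - i) ≤ |(I i - X * (M i / Pi)) * (-μ) ^ (2 * k - i)| := le_abs_self _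
          _ = |I i - X * (M i / Pi)| * μ ^ (2 * k - i) := by
              rw [abs_mul, abs_pow, abs_neg, abs_of_pos hμ0]
          _ ≤ _ := mul_le_mul_of_nonneg_right h2 (by positivity)
      have h4 := mul_le_mul_of_nonneg_right h3 hc0
      have e5 : I i * (-μ) ^ (2 * k - i) * c = (X / Pi) * (M i * (-μ) ^ (2 * k - i) * c) +
          (I i - X * (M i / Pi)) * (-μ) ^ (2 * k - i) * c := by ring
      rw [e5]
      have e6 : ((1 / 2) ^ b * (X * (M i / Pi)) + (S.card : ℝ) ^ i * E) * μ ^ (2 * k - i) * c =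
          (1 / 2) ^ b * ((X / Pi) * (M i * μ ^ (2 * k - i) * c)) + (S.card : ℝ) ^ i * μ ^ (2 * k - i) * c * E := by ring
      rw [e6] at h4
      linarith
    have h2 := per_centralK K hKr w D q r P S y T (by omega) hS hP' hT k hk hkμ
    have h3 := per_plusK K hKr w D q r P S y T (by omega) hS hP' hT k hk hkμ
    have h4 : (X / Pi) * ∑ l ∈ R, (x l - μ) ^ (2 * k) ≤ X * (2 * (4 * Real.exp 1 * (45 * K) * k * μ) ^ k) := by
      calc (X / Pi) * ∑ l ∈ R, (x l - μ) ^ (2 * k) ≤ (X / Pi) * (Pi * (2 * (4 * Real.exp 1 * (45 * K) * k * μ) ^ k)) :=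
            mul_le_mul_of_nonneg_left h2 (by positivity)
        _ = _ := by field_simp
    have h5 : (X / Pi) * ∑ l ∈ R, (x l + μ) ^ (2 * k) ≤ X * (4 * Real.exp 3 * μ ^ 2) ^ k := by
      calc (X / Pi) * ∑ l ∈ R, (x l + μ) ^ (2 * k) ≤ (X / Pi) * (Pi * (4 * Real.exp 3 * μ ^ 2) ^ k) :=
            mul_le_mul_of_nonneg_left h3 (by positivity)
        _ = _ := by field_simp
    have h6 := mul_le_mul_of_nonneg_left h5 (show (0 : ℝ) ≤ (1 / 2) ^ b by positivity)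
    linarith
  -- Markov
  set B := (Icc 1 X).filter (fun l => ε * μ < |(XXK w D q r P S l : ℝ) - μ|) with hB
  have hεμ : 0 < ε * μ := by positivity
  have hmar : (B.card : ℝ) * (ε * μ) ^ (2 * k) ≤ ∑ l ∈ Icc 1 X, (x l - μ) ^ (2 * k) := by
    calc (B.card : ℝ) * (ε * μ) ^ (2 * k) = ∑ l ∈ B, (ε * μ) ^ (2 * k) := by
          rw [sum_const, nsmul_eq_mul]
      _ ≤ ∑ l ∈ B, (x l - μ) ^ (2 * k) := by
          apply sum_le_sum
          intro l hl
          rw [hB, mem_filter] at hl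
          have h1 : (x l - μ) ^ (2 * k) = |x l - μ| ^ (2 * k) := by
            rw [pow_mul, pow_mul, sq_abs]
          rw [h1]
          exact pow_le_pow_left₀ hεμ.le hl.2.le _
      _ ≤ _ := by
          apply sum_le_sum_of_subset_of_nonneg (filter_subset _ _)
          intro l _ _
          rw [pow_mul]
          positivity
  have h1 := hmar.trans hcen
  have hden : 0 < (ε * μ) ^ (2 * k) := by positivity
  rw [← le_div_iff₀ hden] at h1
  refine h1.trans (le_of_eq ?_)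
  have e1 : (ε * μ) ^ (2 * k) = (ε ^ 2 * μ ^ 2) ^ k := by rw [pow_mul, mul_pow]
  have e2 : 2 * (4 * Real.exp 1 * (45 * K) * k * μ) ^ k / (ε * μ) ^ (2 * k) =
      2 * (4 * Real.exp 1 * (45 * K) * k / (ε ^ 2 * μ)) ^ k := by
    rw [e1, mul_div_assoc, ← div_pow]
    congr 2
    field_simp
  have e3 : (X : ℝ) * (4 * Real.exp 3 * μ ^ 2) ^ k / (ε * μ) ^ (2 * k) = X * (4 * Real.exp 3 / ε ^ 2) ^ k := by
    rw [e1, mul_div_assoc, ← div_pow]
    congr 2
    field_simp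
  have e4 : ((S.card : ℝ) + μ) ^ (2 * k) * E / (ε * μ) ^ (2 * k) = ((S.card + μ) / (ε * μ)) ^ (2 * k) * E := by
    rw [div_pow]
    ring
  have e5 : ∀ a c d Dd : ℝ, (X * a + (1 / 2) ^ b * (X * c) + d) / Dd =
      X * (a / Dd) + (1 / 2) ^ b * (X * c / Dd) + d / Dd := by
    intro a c d Dd
    ring
  rw [e5, e2, e3, e4]
  ring

end Pool.Agent.H36.KT
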