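import Mathlib
import Pool.Agent.H36.KT.Model
import Pool.Agent.H36.KT.Mom
import Pool.Agent.H36.BF.All
import Pool.Agent.H36.BE.Def0

/-!
Sifting tuples by the primes which do not divide a modulus `w`.
-/

set_option autoImplicit false

open Finset

namespace Pool.Agent.H36.KT

open Pool.Agent.H36.RW Pool.Agent.H373R2.T7 Pool.Agent.H36.BF Pool.Agent.H36.BE

/-- the density -/
noncomputable def VK (D : Finset ℕ) (w z : ℕ) : ℝ := WK D (p0 w z)

/-- the positions `h ∈ [1, T]` for which no `m + w h + d`, `d ∈ D`, has a prime factor `≤ z` not dividing `w` -/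
def RK (D : Finset ℕ) (w z m T : ℕ) : ℕ :=
  ((Icc 1 T).filter (fun h => ∀ p ∈ p0 w z, ∀ g ∈ pt w D h, ¬ p ∣ m + g)).card

/-- admissible sets -/
def Adm (D : Finset ℕ) (w : ℕ) : Prop := ∀ p : ℕ, p.Prime → ¬ p ∣ w → nu p D < p

lemma VK_mul (D : Finset ℕ) (w y z : ℕ) (h : y ≤ z) : VK D w y * WK D (pQ w y z) = VK D w z := by
  unfold VK WK
  rw [p0_split w y z h, prod_union (p0_disj w y z)]

lemma WK_pos' (D : Finset ℕ) (w : ℕ) (hA : Adm D w) (P : Finset ℕ) (hP : ∀ p ∈ P, p.Prime ∧ ¬ p ∣ w) : 0 < WK D P := by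
  unfold WK
  apply prod_pos
  intro p hp
  have h0 : (0 : ℝ) < p := by exact_mod_cast (hP p hp).1.pos
  have h1 : (nu p D : ℝ) < p := by exact_mod_cast hA p (hP p hp).1 (hP p hp).2
  have h2 : (nu p D : ℝ) / p < 1 := by rwa [div_lt_one h0]
  linarith

lemma WK_le_one' (D : Finset ℕ) (P : Finset ℕ) (hP : ∀ p ∈ P, p.Prime) : WK D P ≤ 1 := by
  unfold WK
  apply prod_le_one
  · intro p hp
    have h0 := (hP p hp).pos
    have h1 : (nu p D : ℝ) / p ≤ 1 := by
      rw [div_le_one (by exact_mod_cast h0)]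
      exact_mod_cast nu_le_p p h0 D
    linarith
  · intro p hp
    have : (0 : ℝ) ≤ (nu p D : ℝ) / p := by positivity
    linarith

lemma VK_pos (D : Finset ℕ) (w y : ℕ) (hA : Adm D w) : 0 < VK D w y :=
  WK_pos' D w hA _ fun _ hp => (mem_p0.1 hp).2

lemma VK_le_one (D : Finset ℕ) (w y : ℕ) : VK D w y ≤ 1 := WK_le_one' D _ fun _ hp => (mem_p0.1 hp).2.1

lemma fac_pow (p κ : ℕ) (hκ : 1 ≤ κ) (h : 2 * κ ≤ p) : (1 - 1 / (p : ℝ)) ^ (2 * κ) ≤ 1 - (κ : ℝ) / p := by
  have hκr : (1 : ℝ) ≤ κ := by exact_mod_cast hκ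
  have hp : 2 * (κ : ℝ) ≤ p := by exact_mod_cast h
  have hp0 : (0 : ℝ) < p := by linarith
  set x : ℝ := 1 / (p : ℝ) with hx
  have hx0 : 0 < x := by positivity
  have hx1 : 2 * κ * x ≤ 1 := by
    rw [hx, mul_one_div, div_le_one hp0]
    exact hp
  have h1 : (κ : ℝ) / p = κ * x := by rw [hx]; ring
  rw [h1]
  have hx2 : x ≤ 1 := by nlinarith
  have h2 : 1 + (2 * κ : ℕ) * x ≤ (1 + x) ^ (2 * κ) := one_add_mul_le_pow (by linarith) _
  have h3 : (1 - x) ^ (2 * κ) * (1 + x) ^ (2 * κ) ≤ 1 := by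
    rw [← mul_pow]
    apply pow_le_one₀
    · nlinarith
    · nlinarith
  have h4 : (0 : ℝ) ≤ (1 - x) ^ (2 * κ) := by
    apply pow_nonneg
    linarith
  push_cast at h2
  have h5 : (1 - x) ^ (2 * κ) * (1 + 2 * κ * x) ≤ 1 := (mul_le_mul_of_nonneg_left h2 h4).trans h3
  have h6 : 1 ≤ (1 - κ * x) * (1 + 2 * κ * x) := by
    have : (1 - κ * x) * (1 + 2 * κ * x) = 1 + κ * x * (1 - 2 * κ * x) := by ring
    rw [this]
    have : 0 ≤ κ * x * (1 - 2 * κ * x) := by
      apply mul_nonneg (by positivity)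
      linarith
    linarith
  have h7 : 0 < 1 + 2 * κ * x := by positivity
  exact le_of_mul_le_mul_right (h5.trans h6) h7

/-- lower bound for the products -/
lemma WK_lower (κ : ℕ) (hκ : 1 ≤ κ) (D : Finset ℕ) (hD : D.card ≤ κ) (w : ℕ) (hA : Adm D w) (b : ℕ) (P : Finset ℕ)
    (hP : ∀ p ∈ P, p.Prime ∧ p ≤ b ∧ ¬ p ∣ w) :
    (1 / (2 * κ : ℝ)) ^ (2 * κ) * Vz b ^ (2 * κ) ≤ WK D P := by
  classical
  have hκr : (1 : ℝ) ≤ κ := by exact_mod_cast hκ
  have hκ0 : (0 : ℝ) < 2 * κ := by linarith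
  have hκ1 : 1 / (2 * κ : ℝ) ≤ 1 := by
    rw [div_le_one hκ0]
    linarith
  have hfac : ∀ p ∈ P, (if p ≤ 2 * κ then 1 / (2 * κ : ℝ) else 1) * (1 - 1 / (p : ℝ)) ^ (2 * κ) ≤ 1 - (nu p D : ℝ) / p := by
    intro p hp
    obtain ⟨h1, _, h2⟩ := hP p hp
    have hp0 : (0 : ℝ) < p := by exact_mod_cast h1.pos
    have hfb := fac_bounds h1
    split_ifs with h3
    · have h4 : (nu p D : ℝ) + 1 ≤ p := by exact_mod_cast hA p h1 h2
      have h5 : 1 / (p : ℝ) ≤ 1 - (nu p D : ℝ) / p := by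
        rw [le_sub_iff_add_le, ← add_div, div_le_one hp0]
        linarith
      have h6 : 1 / (2 * κ : ℝ) ≤ 1 / (p : ℝ) := by
        apply one_div_le_one_div_of_le hp0
        exact_mod_cast h3
      have h7 : (1 - 1 / (p : ℝ)) ^ (2 * κ) ≤ 1 := pow_le_one₀ hfb.1 hfb.2
      calc 1 / (2 * κ : ℝ) * (1 - 1 / (p : ℝ)) ^ (2 * κ) ≤ 1 / (2 * κ : ℝ) * 1 :=
            mul_le_mul_of_nonneg_left h7 (by positivity)
        _ ≤ _ := by linarith
    · rw [one_mul]
      refine (fac_pow p κ hκ (by omega)).trans ?_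
      have h4 : (nu p D : ℝ) ≤ κ := by exact_mod_cast (nu_le p D).trans hD
      have h5 : (nu p D : ℝ) / p ≤ (κ : ℝ) / p := div_le_div_of_nonneg_right h4 hp0.le
      linarith
  have h1 : ∏ p ∈ P, ((if p ≤ 2 * κ then 1 / (2 * κ : ℝ) else 1) * (1 - 1 / (p : ℝ)) ^ (2 * κ)) ≤ WK D P := by
    unfold WK
    apply prod_le_prod _ hfac
    intro p hp
    have hfb := fac_bounds (hP p hp).1
    apply mul_nonneg
    · split_ifs <;> positivity
    · exact pow_nonneg hfb.1 _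
  refine le_trans ?_ h1
  rw [prod_mul_distrib]
  have h2 : (1 / (2 * κ : ℝ)) ^ (2 * κ) ≤ ∏ p ∈ P, (if p ≤ 2 * κ then 1 / (2 * κ : ℝ) else 1) := by
    rw [← prod_filter, prod_const]
    apply pow_le_pow_of_le_one (by positivity) hκ1
    calc (P.filter (fun p => p ≤ 2 * κ)).card ≤ (Icc 1 (2 * κ)).card := by
          apply card_le_card
          intro p hp
          rw [mem_filter] at hp
          rw [mem_Icc]
          exact ⟨(hP p hp.1).1.one_le, hp.2⟩
      _ = 2 * κ := by rw [Nat.card_Icc]; omega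
  have h3 : Vz b ^ (2 * κ) ≤ ∏ p ∈ P, (1 - 1 / (p : ℝ)) ^ (2 * κ) := by
    rw [prod_pow]
    apply pow_le_pow_left₀ (Vz_pos b).le
    have : Vz b = Wp (pz b) := rfl
    rw [this]
    exact Wp_mono P (pz b) (fun p hp => mem_pz.2 ⟨(hP p hp).2.1, (hP p hp).1⟩) fun p hp => (mem_pz.1 hp).2
  exact mul_le_mul h2 h3 (pow_nonneg (Vz_pos b).le _) (le_trans (by positivity) h2)

/-- upper bound for the density -/
lemma VK_upper (D : Finset ℕ) (hD : D.Nonempty) (w z : ℕ) : VK D w z ≤ Wp (p0 w z) := by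
  unfold VK WK Wp
  apply prod_le_prod
  · intro p hp
    have h0 := (mem_p0.1 hp).2.1.pos
    have h1 : (nu p D : ℝ) / p ≤ 1 := by
      rw [div_le_one (by exact_mod_cast h0)]
      exact_mod_cast nu_le_p p h0 D
    linarith
  · intro p hp
    have h0 : (0 : ℝ) < p := by exact_mod_cast (mem_p0.1 hp).2.1.pos
    have h1 : 1 ≤ nu p D := by
      unfold nu
      exact card_pos.2 (hD.image _)
    have h2 : (1 : ℝ) ≤ nu p D := by exact_mod_cast h1
    have h3 : 1 / (p : ℝ) ≤ (nu p D : ℝ) / p := div_le_div_of_nonneg_right h2 h0.le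
    linarith

/-- the number of classes -/
lemma nuB_eq (D : Finset ℕ) (w m p : ℕ) (hp : p.Prime) (hw : ¬ p ∣ w) (R : ℕ → ℕ → Prop)
    (hR : ∀ n, R p n ↔ (¬ p ∣ w ∧ ∃ g ∈ pt w D n, p ∣ m + g)) : nuB R p = nu p D := by
  classical
  set B := D.image (fun d => d % p) with hB
  have h1 : ∀ b : ℕ, ∃ a : ℕ, p ∣ w * a + (m + b) := fun b => root_ex p w (m + b) hp hw
  choose a ha using h1
  have hBp : ∀ b ∈ B, b < p := by
    intro b hb
    obtain ⟨d, _, rfl⟩ := mem_image.1 hb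
    exact Nat.mod_lt _ hp.pos
  have h2 : (range p).filter (fun r => R p r) = B.image (fun b => a b % p) := by
    ext x
    rw [mem_filter, mem_range, mem_image, hR]
    constructor
    · rintro ⟨hx, _, g, hg, h3⟩
      obtain ⟨d, hd, rfl⟩ := mem_pt.1 hg
      refine ⟨d % p, mem_image_of_mem _ hd, ?_⟩
      have h4 : p ∣ w * x + (m + d % p) := by
        rw [← Nat.modEq_zero_iff_dvd] at h3 ⊢
        have h5 : w * x + (m + d % p) ≡ w * x + (m + d) [MOD p] :=
          Nat.ModEq.add_left _ (Nat.ModEq.add_left _ (Nat.mod_modEq d p))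
        have e : w * x + (m + d) = m + (w * x + d) := by ring
        rw [e] at h5
        exact h5.trans h3
      have h5 := (root_iff p w (m + d % p) (a (d % p)) x hp hw (ha _)).1 h4
      unfold Nat.ModEq at h5
      rw [Nat.mod_eq_of_lt hx] at h5
      exact h5.symm
    · rintro ⟨b, hb, rfl⟩
      obtain ⟨d, hd, rfl⟩ := mem_image.1 hb
      refine ⟨Nat.mod_lt _ hp.pos, hw, w * (a (d % p) % p) + d, mem_pt.2 ⟨d, hd, rfl⟩, ?_⟩
      have h4 := (root_iff p w (m + d % p) (a (d % p)) (a (d % p) % p) hp hw (ha _)).2 (Nat.mod_modEq _ _)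
      rw [← Nat.modEq_zero_iff_dvd] at h4 ⊢
      have h5 : w * (a (d % p) % p) + (m + d % p) ≡ w * (a (d % p) % p) + (m + d) [MOD p] :=
        Nat.ModEq.add_left _ (Nat.ModEq.add_left _ (Nat.mod_modEq d p))
      have e : w * (a (d % p) % p) + (m + d) = m + (w * (a (d % p) % p) + d) := by ring
      rw [e] at h5
      exact h5.symm.trans h4
  have h3 : nuB R p = ((range p).filter (fun r => R p r)).card := by
    unfold nuB
    congr
  rw [h3, h2, card_image_of_injOn]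
  · rfl
  intro b hb b' hb' h
  have h4 : a b ≡ a b' [MOD p] := h
  have h5 := ha b
  have h6 := ha b'
  rw [← Nat.modEq_zero_iff_dvd] at h5 h6
  have h7 : w * a b + (m + b) ≡ w * a b + (m + b') [MOD p] := by
    refine h5.trans (h6.symm.trans ?_)
    exact Nat.ModEq.add_right _ (Nat.ModEq.mul_left _ h4.symm)
  have h8 : m + b ≡ m + b' [MOD p] := Nat.ModEq.add_left_cancel' _ h7
  have h9 : b ≡ b' [MOD p] := Nat.ModEq.add_left_cancel' _ h8
  unfold Nat.ModEq at h9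
  rwa [Nat.mod_eq_of_lt (hBp b hb), Nat.mod_eq_of_lt (hBp b' hb')] at h9

lemma nuB_zero (w p : ℕ) (hw : p ∣ w) (R : ℕ → ℕ → Prop) (hR : ∀ n, R p n → ¬ p ∣ w) : nuB R p = 0 := by
  classical
  have h3 : nuB R p = ((range p).filter (fun r => R p r)).card := by
    unfold nuB
    congr
  rw [h3, card_eq_zero, filter_eq_empty_iff]
  intro x _ h
  exact hR x h hw

/-- the small primes -/
theorem small_countK (κ : ℕ) (hκ : 1 ≤ κ) (ε : ℝ) (hε : 0 < ε) : ∃ K x0 : ℕ, 1 ≤ K ∧ ∀ (D : Finset ℕ) (w T y : ℕ),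
    D.card ≤ κ → x0 ≤ y → y ^ K ≤ T → ∀ m : ℕ,
    |(RK D w y m T : ℝ) - T * VK D w y| ≤ ε * (T * VK D w y) + √(T : ℝ) := by
  classical
  obtain ⟨K, x0, hK, h⟩ := sys_fund κ hκ ε hε
  refine ⟨K, x0, hK, fun D w T y hD hy hyT m => ?_⟩
  obtain ⟨R, hR⟩ : ∃ R : ℕ → ℕ → Prop, ∀ p n, R p n ↔ (¬ p ∣ w ∧ ∃ g ∈ pt w D n, p ∣ m + g) :=
    ⟨fun p n => ¬ p ∣ w ∧ ∃ g ∈ pt w D n, p ∣ m + g, fun _ _ => Iff.rfl⟩
  have hnu1 : ∀ p, p.Prime → ¬ p ∣ w → nuB R p = nu p D := fun p hp hpw =>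
    nuB_eq D w m p hp hpw R (hR p)
  have hnu0 : ∀ p, p ∣ w → nuB R p = 0 := fun p hpw =>
    nuB_zero w p hpw R fun n hn => ((hR p n).1 hn).1
  have hper : PerB R κ := by
    refine ⟨fun p n => ?_, fun p hp => ?_⟩
    · have key : ∀ n n' : ℕ, n ≡ n' [MOD p] → R p n → R p n' := by
        intro n n' hnn h1
        rw [hR] at h1 ⊢
        obtain ⟨h2, g, hg, h3⟩ := h1
        obtain ⟨d, hd, rfl⟩ := mem_pt.1 hg
        refine ⟨h2, w * n' + d, mem_pt.2 ⟨d, hd, rfl⟩, ?_⟩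
        rw [← Nat.modEq_zero_iff_dvd] at h3 ⊢
        refine Nat.ModEq.trans ?_ h3
        exact Nat.ModEq.add_left _ (Nat.ModEq.add_right _ (Nat.ModEq.mul_left _ hnn.symm))
      exact ⟨key _ _ (Nat.mod_modEq n p).symm, key _ _ (Nat.mod_modEq n p)⟩
    · by_cases h1 : p ∣ w
      · rw [hnu0 p h1]
        omega
      · rw [hnu1 p hp h1]
        exact (nu_le p D).trans hD
  have key := h T y hy hyT R hper T
  have e1 : ∏ p ∈ pz y, (1 - (nuB R p : ℝ) / p) = VK D w y := by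
    unfold VK WK p0
    rw [prod_filter]
    apply prod_congr rfl
    intro p hp
    by_cases h1 : p ∣ w
    · rw [hnu0 p h1, if_neg (not_not.2 h1), Nat.cast_zero, zero_div, sub_zero]
    · rw [hnu1 p (mem_pz.1 hp).2 h1, if_pos h1]
  rw [e1] at key
  have e2 : RK D w y m T = ((Icc 1 T).filter (fun n : ℕ => ∀ p ∈ pz y, ¬ R p n)).card := by
    unfold RK
    congr 1
    apply filter_congr
    intro n _
    simp only [hR, mem_p0, mem_pz]
    constructor
    · rintro h1 p ⟨h2, h3⟩ ⟨h4, g, hg, h5⟩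
      exact h1 p ⟨h2, h3, h4⟩ g hg h5
    · rintro h1 p ⟨h2, h3, h4⟩ g hg h5
      exact h1 p ⟨h2, h3⟩ ⟨h4, g, hg, h5⟩
  rw [e2]
  convert key using 5

/-- the positions without small prime factors -/
def SK (D : Finset ℕ) (w y m T : ℕ) : Finset ℕ := (Icc 1 T).filter (fun h => ∀ p ∈ p0 w y, ∀ g ∈ pt w D h, ¬ p ∣ m + g)

lemma RK_eq_XXK (D : Finset ℕ) (w q r y z T c l : ℕ) (h : y ≤ z) :
    RK D w z (q * (Qy y * l + c) + r) T = XXK w D (q * Qy y) (q * c + r) (pQ w y z) (SK D w y (q * c + r) T) l := by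
  unfold RK XXK SK
  rw [filter_filter]
  congr 1
  apply filter_congr
  intro x _
  rw [p0_split w y z h]
  have e1 : q * (Qy y * l + c) + r = q * Qy y * l + (q * c + r) := by ring
  have e2 : ∀ p ∈ p0 w y, ∀ g, (p ∣ q * Qy y * l + (q * c + r) + g ↔ p ∣ q * c + r + g) := by
    intro p hp g
    have h1 : p ∣ q * Qy y * l := by
      apply Dvd.dvd.mul_right
      apply Dvd.dvd.mul_left
      exact dvd_prod_of_mem (fun p => p) (mem_filter.1 hp).1
    rw [add_assoc]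
    exact (Nat.dvd_add_right h1)
  rw [e1]
  constructor
  · intro h1
    exact ⟨fun p hp g hg hd => h1 p (mem_union_left _ hp) g hg ((e2 p hp g).2 hd), fun p hp => h1 p (mem_union_right _ hp)⟩
  · rintro ⟨h1, h2⟩ p hp
    rcases mem_union.1 hp with h3 | h3
    · exact fun g hg hd => h1 p h3 g hg ((e2 p h3 g).1 hd)
    · exact h2 p h3

/-- additivity -/
lemma RK_add (D : Finset ℕ) (w z m T U : ℕ) : RK D w z m (T + U) = RK D w z m T + RK D w z (m + w * T) U := by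
  unfold RK
  have h1 : Icc 1 (T + U) = Icc 1 T ∪ Icc (T + 1) (T + U) := by
    ext x
    simp only [mem_union, mem_Icc]
    omega
  have h2 : Disjoint (Icc 1 T) (Icc (T + 1) (T + U)) := by
    rw [disjoint_left]
    intro x hx hx'
    rw [mem_Icc] at hx hx'
    omega
  rw [h1, filter_union, card_union_of_disjoint (disjoint_filter_filter h2)]
  congr 1
  have hsh : ∀ h, (∀ p ∈ p0 w z, ∀ g ∈ pt w D (T + h), ¬ p ∣ m + g) ↔ ∀ p ∈ p0 w z, ∀ g ∈ pt w D h, ¬ p ∣ m + w * T + g := by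
    intro h
    constructor
    · intro h3 p hp g hg
      obtain ⟨d, hd, rfl⟩ := mem_pt.1 hg
      have := h3 p hp (w * (T + h) + d) (mem_pt.2 ⟨d, hd, rfl⟩)
      have e : m + (w * (T + h) + d) = m + w * T + (w * h + d) := by ring
      rwa [e] at this
    · intro h3 p hp g hg
      obtain ⟨d, hd, rfl⟩ := mem_pt.1 hg
      have := h3 p hp (w * h + d) (mem_pt.2 ⟨d, hd, rfl⟩)
      have e : m + (w * (T + h) + d) = m + w * T + (w * h + d) := by ring
      rwa [e]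
  symm
  apply card_bij (fun h _ => T + h)
  · intro h hh
    rw [mem_filter, mem_Icc] at hh ⊢
    exact ⟨by omega, (hsh h).2 hh.2⟩
  · intro a _ b _ hab
    omega
  · intro x hx
    rw [mem_filter, mem_Icc] at hx
    refine ⟨x - T, ?_, by omega⟩
    rw [mem_filter, mem_Icc]
    refine ⟨by omega, (hsh (x - T)).1 ?_⟩
    have : T + (x - T) = x := by omega
    rw [this]
    exact hx.2

lemma RK_mono (D : Finset ℕ) (w z m T U : ℕ) (h : T ≤ U) : RK D w z m T ≤ RK D w z m U := by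
  obtain ⟨d, rfl⟩ := Nat.exists_eq_add_of_le h
  rw [RK_add]
  omega

/-- many blocks -/
lemma RK_blocks (D : Finset ℕ) (w z m T0 : ℕ) (V ε : ℝ) : ∀ n : ℕ,
    (∀ j < n, |(RK D w z (m + w * (j * T0)) T0 : ℝ) - T0 * V| ≤ ε * (T0 * V)) →
    |(RK D w z m (n * T0) : ℝ) - (n * T0) * V| ≤ ε * ((n * T0) * V) := by
  intro n
  induction n with
  | zero =>
    intro _
    have : RK D w z m 0 = 0 := by unfold RK; simp
    simp [this]
  | succ n ih =>
    intro h
    have h1 := ih (fun j hj => h j (by omega))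
    have h2 := h n (by omega)
    rw [Nat.succ_mul, RK_add]
    push_cast
    have e1 : (RK D w z m (n * T0) : ℝ) + RK D w z (m + w * (n * T0)) T0 - (n + 1) * T0 * V =
        ((RK D w z m (n * T0) : ℝ) - (n * T0) * V) + ((RK D w z (m + w * (n * T0)) T0 : ℝ) - T0 * V) := by ring
    rw [e1]
    refine (abs_add_le _ _).trans ?_
    linarith

/-- all lengths -/
lemma long_goodK (D : Finset ℕ) (w z m T0 T n : ℕ) (V ε : ℝ) (hV0 : 0 < V) (hε : 0 < ε) (hε1 : ε ≤ 1) (hn : n = T / T0) (hT0 : 0 < T0)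
    (hTT : (T0 : ℝ) ≤ ε / 4 * T)
    (hgood : ∀ j < n + 1, |(RK D w z (m + w * (j * T0)) T0 : ℝ) - T0 * V| ≤ ε / 4 * (T0 * V)) :
    |(RK D w z m T : ℝ) - T * V| ≤ ε * (T * V) := by
  have hnT : n * T0 ≤ T := by rw [hn]; exact Nat.div_mul_le_self _ _
  have hnT' : T < (n + 1) * T0 := by
    rw [add_mul, one_mul, mul_comm, hn]
    exact Nat.lt_mul_div_succ T hT0 |>.trans_eq (by ring)
  have h1 := RK_blocks D w z m T0 V (ε / 4) n (fun j hj => hgood j (by omega))
  have h2 := RK_blocks D w z m T0 V (ε / 4) (n + 1) (fun j hj => hgood j (by omega))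
  have h3 : (RK D w z m (n * T0) : ℝ) ≤ RK D w z m T := by
    exact_mod_cast RK_mono _ _ _ _ _ _ hnT
  have h4 : (RK D w z m T : ℝ) ≤ RK D w z m ((n + 1) * T0) := by
    exact_mod_cast RK_mono _ _ _ _ _ _ hnT'.le
  push_cast at h2
  set x : ℝ := (RK D w z m T : ℝ) with hx
  have hn1 : (n : ℝ) * T0 ≤ T := by exact_mod_cast hnT
  have hn2 : (T : ℝ) < (n + 1) * T0 := by exact_mod_cast hnT'
  have hT00 : (0 : ℝ) ≤ T := Nat.cast_nonneg T
  have ha := (abs_le.1 h1).1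
  have hb := (abs_le.1 h2).2
  have hup : x ≤ (1 + ε) * (T * V) := by
    have h5 : (n + 1 : ℝ) * T0 ≤ (1 + ε / 4) * T := by
      have : (n + 1 : ℝ) * T0 = n * T0 + T0 := by ring
      rw [this]
      linarith
    calc x ≤ (1 + ε / 4) * ((n + 1) * T0 * V) := by linarith
      _ ≤ (1 + ε / 4) * ((1 + ε / 4) * T * V) := by gcongr
      _ = (1 + ε / 4) * (1 + ε / 4) * (T * V) := by ring
      _ ≤ (1 + ε) * (T * V) := by
          apply mul_le_mul_of_nonneg_right _ (by positivity)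
          nlinarith
  have hlo : (1 - ε) * (T * V) ≤ x := by
    have h5 : (1 - ε / 4) * T ≤ (n : ℝ) * T0 := by
      have : (n + 1 : ℝ) * T0 = n * T0 + T0 := by ring
      rw [this] at hn2
      linarith
    calc (1 - ε) * (T * V) ≤ (1 - ε / 4) * (1 - ε / 4) * (T * V) := by
          apply mul_le_mul_of_nonneg_right _ (by positivity)
          nlinarith
      _ = (1 - ε / 4) * ((1 - ε / 4) * T * V) := by ring
      _ ≤ (1 - ε / 4) * (n * T0 * V) := by
          apply mul_le_mul_of_nonneg_left _ (by linarith)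
          exact mul_le_mul_of_nonneg_right h5 hV0.le
      _ ≤ x := by linarith
  rw [abs_le]
  constructor <;> linarith

end Pool.Agent.H36.KT
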