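import Mathlib
import Pool.Agent.H36.BF.Cnt
import Pool.Agent.H36.KT.Model

/-!
Counting with separated positions.
-/

set_option autoImplicit false

namespace Pool.Agent.H36.KT

open Finset Pool.Agent.H36.RW Pool.Agent.H373R2.T7 Pool.Agent.H36.BF

/-- the prime `p` separates the positions `w h + d` -/
def Sep (w T : ℕ) (D : Finset ℕ) (p : ℕ) : Prop :=
  ∀ h ∈ Icc 1 T, ∀ h' ∈ Icc 1 T, ∀ d ∈ D, ∀ d' ∈ D,
    (p : ℤ) ∣ ((w * h + d : ℕ) : ℤ) - ((w * h' + d' : ℕ) : ℤ) → w * h + d = w * h' + d'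

lemma Sep_of_large (w T T' : ℕ) (D : Finset ℕ) (p : ℕ) (hD : ∀ d ∈ D, w * T + d ≤ T') (hp : T' < p) : Sep w T D p := by
  intro h hh h' hh' d hd d' hd' hdvd
  rw [mem_Icc] at hh hh'
  by_contra hne
  have h1 : w * h + d ≤ T' := by
    have := Nat.mul_le_mul_left w hh.2
    have := hD d hd
    omega
  have h2 : w * h' + d' ≤ T' := by
    have := Nat.mul_le_mul_left w hh'.2
    have := hD d' hd'
    omega
  have h9 : ((w * h + d : ℕ) : ℤ) - ((w * h' + d' : ℕ) : ℤ) ≠ 0 := by omega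
  have h10 := Int.le_of_dvd (abs_pos.2 h9) ((dvd_abs _ _).2 hdvd)
  have h11 : |((w * h + d : ℕ) : ℤ) - ((w * h' + d' : ℕ) : ℤ)| ≤ T' := by
    rw [abs_le]
    constructor <;> omega
  omega

lemma Sep_one (w T a p : ℕ) (hp : p.Prime) (hw : ¬ p ∣ w) (hT : T < p) : Sep w T {a} p := by
  intro h hh h' hh' d hd d' hd' hdvd
  rw [mem_singleton] at hd hd'
  rw [hd, hd'] at hdvd ⊢
  rw [mem_Icc] at hh hh'
  have e : ((w * h + a : ℕ) : ℤ) - ((w * h' + a : ℕ) : ℤ) = (w : ℤ) * ((h : ℤ) - h') := by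
    push_cast
    ring
  rw [e] at hdvd
  rcases (Nat.prime_iff_prime_int.1 hp).dvd_or_dvd hdvd with h1 | h1
  · exact absurd (Int.natCast_dvd_natCast.1 h1) hw
  · have h2 : (h : ℤ) - h' = 0 := by
      by_contra hne
      have h10 := Int.le_of_dvd (abs_pos.2 hne) ((dvd_abs _ _).2 h1)
      have h11 : |(h : ℤ) - h'| ≤ T := by
        rw [abs_le]
        constructor <;> omega
      omega
    have : h = h' := by omega
    rw [this]

/-- separation of the shifts -/
lemma Sep.shift {w T : ℕ} {D : Finset ℕ} {p : ℕ} (hS : Sep w T D p) (hT : 1 ≤ T) : ∀ d ∈ D, ∀ d' ∈ D,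
    (p : ℤ) ∣ (d : ℤ) - d' → d = d' := by
  intro d hd d' hd' h
  have h1 : (1 : ℕ) ∈ Icc 1 T := mem_Icc.2 ⟨le_rfl, hT⟩
  have := hS 1 h1 1 h1 d hd d' hd' (by
    push_cast
    have e : (w : ℤ) * 1 + d - (w * 1 + d') = (d : ℤ) - d' := by ring
    rwa [e])
  omega

theorem cntS : ∃ C0 : ℕ, 1 ≤ C0 ∧ ∀ (b Jd z0 q r n X : ℕ) (P1 : Finset ℕ) (f : Fin n → ℕ) (V : Fin n → Finset ℕ),
    C0 * n ≤ b → 2 ≤ b → 2 * n + 10 ≤ z0 → (∀ p ∈ P1, p.Prime ∧ z0 < p ∧ p ≤ 2 ^ 2 ^ Jd ∧ ¬ p ∣ q) →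
    (∀ i, ∀ p ∈ V i, p.Prime ∧ (∀ j, (p : ℤ) ∣ (f i : ℤ) - f j → f i = f j) ∧ ¬ p ∣ q ∧ p ∉ P1) →
    |(NF q r P1 X n f V : ℝ) - X * (rho P1 (univ.image f) * tau f V)| ≤
      (1 / 2 : ℝ) ^ b * (X * (rho P1 (univ.image f) * tau f V)) +
        (((Jd : ℝ) + 2) * (((2 : ℝ) ^ 2 ^ Jd) ^ (10 * b)) ^ 2 + 3) := by
  classical
  obtain ⟨C0, hC0, hint⟩ := int_count'
  refine ⟨C0, hC0, ?_⟩
  intro b Jd z0 q r n X P1 f V hb hb2 hz0 hP1 hV
  set E : ℝ := ((Jd : ℝ) + 2) * (((2 : ℝ) ^ 2 ^ Jd) ^ (10 * b)) ^ 2 with hE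
  have hE0 : 0 ≤ E := by rw [hE]; positivity
  by_cases hc : Comp f V
  · have htau : tau f V = ∏ p ∈ univ.biUnion V, (1 / (p : ℝ)) := by unfold tau; rw [if_pos hc]
    set M := univ.biUnion V with hM
    have hMp : ∀ p ∈ M, p.Prime ∧ ¬ p ∣ q ∧ p ∉ P1 := by
      intro p hp
      rw [hM, mem_biUnion] at hp
      obtain ⟨i, _, hi⟩ := hp
      exact ⟨(hV i p hi).1, (hV i p hi).2.2.1, (hV i p hi).2.2.2⟩
    -- the position of a prime
    have hg : ∀ p ∈ M, ∃ i, p ∈ V i := by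
      intro p hp
      rw [hM, mem_biUnion] at hp
      obtain ⟨i, _, hi⟩ := hp
      exact ⟨i, hi⟩
    set g : ℕ → ℕ := fun p => if h : ∃ i, p ∈ V i then f h.choose else 0 with hgd
    have hg2 : ∀ i, ∀ p ∈ V i, g p = f i := by
      intro i p hp
      have h1 : ∃ i, p ∈ V i := ⟨i, hp⟩
      simp only [hgd, dif_pos h1]
      exact hc _ _ p h1.choose_spec hp
    obtain ⟨a, haD, ha⟩ := class_of q r M (fun p hp => ⟨(hMp p hp).1, (hMp p hp).2.1⟩) g
    set D := ∏ p ∈ M, p with hD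
    have hDpos : 0 < D := by omega
    have hDr : (0 : ℝ) < D := by exact_mod_cast hDpos
    have htau2 : tau f V = 1 / (D : ℝ) := by
      rw [htau, hD, Finset.prod_div_distrib]
      push_cast
      simp
    have e1 : NF q r P1 X n f V = ((Icc 1 X).filter (fun l =>
        (∀ p ∈ P1, ∀ h ∈ univ.image f, ¬ p ∣ q * l + r + h) ∧ l ≡ a [MOD D])).card := by
      unfold NF
      congr 1
      apply filter_congr
      intro l _
      rw [and_congr_right_iff]
      intro _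
      rw [← ha l]
      constructor
      · intro h p hp
        obtain ⟨i, hi⟩ := hg p hp
        rw [hg2 i p hi]
        exact h i p hi
      · intro h i p hp
        rw [← hg2 i p hp]
        exact h p (mem_biUnion.2 ⟨i, mem_univ _, hp⟩)
    have h1 := count_mod X a D haD (fun l => ∀ p ∈ P1, ∀ h ∈ univ.image f, ¬ p ∣ q * l + r + h)
    have e2 : ((Icc 1 ((X - a) / D)).filter (fun l => ∀ p ∈ P1, ∀ h ∈ univ.image f,
        ¬ p ∣ q * (D * l + a) + r + h)).card = NN (q * D) (q * a + r) P1 (Icc 1 ((X - a) / D)) (univ.image f) := by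
      unfold NN
      congr 1
      apply filter_congr
      intro l _
      have : ∀ h, q * (D * l + a) + r + h = q * D * l + (q * a + r) + h := fun h => by ring
      simp only [this]
    rw [← e1, e2] at h1
    have hPq : ∀ p ∈ P1, ¬ p ∣ q * D := by
      intro p hp hd
      rcases (Nat.Prime.dvd_mul (hP1 p hp).1).1 hd with h2 | h2
      · exact (hP1 p hp).2.2.2 h2
      · rw [hD, Prime.dvd_finsetProd_iff (hP1 p hp).1.prime] at h2
        obtain ⟨p', hp', h3⟩ := h2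
        have h4 := (Nat.prime_dvd_prime_iff_eq (hP1 p hp).1 (hMp p' hp').1).1 h3
        exact (hMp p' hp').2.2 (h4 ▸ hp)
    have hcard : (univ.image f).card ≤ n := by
      calc (univ.image f).card ≤ (univ : Finset (Fin n)).card := card_image_le
        _ = n := by simp
    have h2 := hint n b Jd z0 (q * D) (q * a + r) P1 (univ.image f) hb hb2 hz0
      (fun p hp => ⟨(hP1 p hp).1, (hP1 p hp).2.1, (hP1 p hp).2.2.1⟩) hPq hcard ((X - a) / D)
    rw [← hE] at h2
    set ρ := rho P1 (univ.image f) with hρ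
    have hρ0 : 0 ≤ ρ := rho_nonneg P1 _ fun p hp => (hP1 p hp).1.pos
    have hρ1 : ρ ≤ 1 := rho_le_one P1 _ fun p hp => (hP1 p hp).1
    set X' := (X - a) / D with hX'
    have hX1 : (X' : ℝ) ≤ X / D := by
      calc (X' : ℝ) ≤ ((X - a : ℕ) : ℝ) / D := Nat.cast_div_le
        _ ≤ X / D := by
          apply div_le_div_of_nonneg_right _ hDr.le
          exact_mod_cast Nat.sub_le _ _
    have hX2 : (X : ℝ) / D ≤ X' + 2 := by
      have h3 : X - a < (X' + 1) * D := by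
        rw [mul_comm]
        exact Nat.lt_mul_div_succ (X - a) hDpos
      have h4 : X ≤ (X' + 2) * D := by
        have : (X' + 2) * D = (X' + 1) * D + D := by ring
        rw [this]
        omega
      rw [div_le_iff₀ hDr]
      exact_mod_cast h4
    rw [htau2]
    have e3 : (X : ℝ) * (ρ * (1 / D)) = X / D * ρ := by ring
    rw [e3]
    have h5 : |(X' : ℝ) * ρ - X / D * ρ| ≤ 2 := by
      rw [← sub_mul, abs_mul, abs_of_nonneg hρ0]
      have h6 : |(X' : ℝ) - X / D| ≤ 2 := by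
        rw [abs_le]
        constructor <;> linarith
      calc |(X' : ℝ) - X / D| * ρ ≤ 2 * 1 := mul_le_mul h6 hρ1 hρ0 (by norm_num)
        _ = 2 := by norm_num
    have h7 : (1 / 2 : ℝ) ^ b * (X' * ρ) ≤ (1 / 2) ^ b * (X / D * ρ) := by
      apply mul_le_mul_of_nonneg_left _ (by positivity)
      exact mul_le_mul_of_nonneg_right hX1 hρ0
    set N : ℝ := (NF q r P1 X n f V : ℝ)
    set N' : ℝ := (NN (q * D) (q * a + r) P1 (Icc 1 X') (univ.image f) : ℝ)
    have h8 : |N - X / D * ρ| ≤ |N - N'| + |N' - X' * ρ| + |(X' : ℝ) * ρ - X / D * ρ| := by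
      have := abs_add_le ((N - N') + (N' - X' * ρ)) ((X' : ℝ) * ρ - X / D * ρ)
      have h9 := abs_add_le (N - N') (N' - X' * ρ)
      have e4 : N - X / D * ρ = (N - N') + (N' - X' * ρ) + ((X' : ℝ) * ρ - X / D * ρ) := by ring
      rw [e4]
      linarith
    linarith
  · have htau : tau f V = 0 := by unfold tau; rw [if_neg hc]
    have hN : NF q r P1 X n f V = 0 := by
      unfold NF
      rw [card_eq_zero, filter_eq_empty_iff]
      rintro l _ ⟨_, h2⟩
      apply hc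
      intro i j p hpi hpj
      have h3 := h2 i p hpi
      have h4 := h2 j p hpj
      have h8 : (p : ℤ) ∣ (f i : ℤ) - f j := by
        have a1 : (p : ℤ) ∣ ((q * l + r + f i : ℕ) : ℤ) := Int.natCast_dvd_natCast.2 h3
        have a2 : (p : ℤ) ∣ ((q * l + r + f j : ℕ) : ℤ) := Int.natCast_dvd_natCast.2 h4
        have a3 := dvd_sub a1 a2
        have a4 : ((q * l + r + f i : ℕ) : ℤ) - ((q * l + r + f j : ℕ) : ℤ) = (f i : ℤ) - f j := by
          push_cast
          ring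
        rwa [a4] at a3
      exact (hV i p hpi).2.1 j h8
    rw [htau, hN]
    simp
    positivity

end Pool.Agent.H36.KT
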