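import Mathlib
import Pool.Agent.H36.BF.MomA
import Pool.Agent.H36.KT.Mom
import Pool.Agent.H36.KT.CntS

/-!
Counting with a general index type; expansion of the moments for tuples.
-/

set_option autoImplicit false

namespace Pool.Agent.H36.KT
open Finset Pool.Agent.H36.RW Pool.Agent.H36.BF

section general

variable {α : Type} [Fintype α]

/-- the count -/
def NFa (q r : ℕ) (P1 : Finset ℕ) (X : ℕ) (f : α → ℕ) (V : α → Finset ℕ) : ℕ :=
  ((Icc 1 X).filter (fun l => (∀ p ∈ P1, ∀ h ∈ univ.image f, ¬ p ∣ q * l + r + h) ∧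
    ∀ i, ∀ p ∈ V i, p ∣ q * l + r + f i)).card

/-- no prime divides two different elements -/
def CompA (f : α → ℕ) (V : α → Finset ℕ) : Prop := ∀ i j p, p ∈ V i → p ∈ V j → f i = f j

open Classical in
/-- the density -/
noncomputable def tauA (f : α → ℕ) (V : α → Finset ℕ) : ℝ :=
  if CompA f V then ∏ p ∈ univ.biUnion V, (1 / (p : ℝ)) else 0

lemma tauA_nonneg (f : α → ℕ) (V : α → Finset ℕ) : 0 ≤ tauA f V := by
  unfold tauA
  split_ifs
  · exact prod_nonneg fun p _ => by positivity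
  · exact le_rfl

lemma NFa_eq {n : ℕ} (e : α ≃ Fin n) (q r : ℕ) (P1 : Finset ℕ) (X : ℕ) (f : α → ℕ) (V : α → Finset ℕ) :
    NFa q r P1 X f V = NF q r P1 X n (f ∘ e.symm) (V ∘ e.symm) := by
  unfold NFa NF
  congr 1
  apply filter_congr
  intro l _
  have h1 : univ.image f = univ.image (f ∘ e.symm) := by
    ext x
    simp only [mem_image, mem_univ, true_and, Function.comp]
    constructor
    · rintro ⟨a, rfl⟩
      exact ⟨e a, by simp⟩
    · rintro ⟨a, rfl⟩
      exact ⟨e.symm a, rfl⟩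
  rw [h1]
  apply and_congr_right
  intro _
  constructor
  · intro h i p hp
    exact h _ p hp
  · intro h i p hp
    have := h (e i) p (by simpa using hp)
    simpa using this

lemma univ_biUnion_comp {n : ℕ} (e : α ≃ Fin n) (V : α → Finset ℕ) :
    univ.biUnion V = univ.biUnion (V ∘ e.symm) := by
  ext p
  simp only [mem_biUnion, mem_univ, true_and, Function.comp]
  constructor
  · rintro ⟨a, ha⟩
    exact ⟨e a, by simpa using ha⟩
  · rintro ⟨a, ha⟩
    exact ⟨e.symm a, ha⟩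

lemma tauA_eq {n : ℕ} (e : α ≃ Fin n) (f : α → ℕ) (V : α → Finset ℕ) :
    tauA f V = tau (f ∘ e.symm) (V ∘ e.symm) := by
  have h : CompA f V ↔ Comp (f ∘ e.symm) (V ∘ e.symm) := by
    constructor
    · intro h i j p hi hj
      exact h _ _ p hi hj
    · intro h i j p hi hj
      have := h (e i) (e j) p (by simpa using hi) (by simpa using hj)
      simpa using this
  unfold tauA tau
  rw [univ_biUnion_comp e V]
  by_cases h1 : CompA f V
  · rw [if_pos h1, if_pos (h.1 h1)]
  · rw [if_neg h1, if_neg fun h2 => h1 (h.2 h2)]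

lemma image_comp_equiv {n : ℕ} (e : α ≃ Fin n) (f : α → ℕ) : univ.image f = univ.image (f ∘ e.symm) := by
  ext x
  simp only [mem_image, mem_univ, true_and, Function.comp]
  constructor
  · rintro ⟨a, rfl⟩
    exact ⟨e a, by simp⟩
  · rintro ⟨a, rfl⟩
    exact ⟨e.symm a, rfl⟩

end general

theorem cntA : ∃ C0 : ℕ, 1 ≤ C0 ∧ ∀ (α : Type) [Fintype α] (b Jd z0 q r N X : ℕ) (P1 : Finset ℕ) (f : α → ℕ)
    (V : α → Finset ℕ), Fintype.card α ≤ N →
    C0 * N ≤ b → 2 ≤ b → 2 * N + 10 ≤ z0 → (∀ p ∈ P1, p.Prime ∧ z0 < p ∧ p ≤ 2 ^ 2 ^ Jd ∧ ¬ p ∣ q) →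
    (∀ i, ∀ p ∈ V i, p.Prime ∧ (∀ j, (p : ℤ) ∣ (f i : ℤ) - f j → f i = f j) ∧ ¬ p ∣ q ∧ p ∉ P1) →
    |(NFa q r P1 X f V : ℝ) - X * (rho P1 (univ.image f) * tauA f V)| ≤
      (1 / 2 : ℝ) ^ b * (X * (rho P1 (univ.image f) * tauA f V)) +
        (((Jd : ℝ) + 2) * (((2 : ℝ) ^ 2 ^ Jd) ^ (10 * b)) ^ 2 + 3) := by
  obtain ⟨C0, hC0, hcnt⟩ := cntS
  refine ⟨C0, hC0, ?_⟩
  intro α _ b Jd z0 q r N X P1 f V hN hb hb2 hz0 hP1 hV
  have e := Fintype.equivFin α
  rw [NFa_eq e, tauA_eq e, image_comp_equiv e]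
  exact hcnt b Jd z0 q r (Fintype.card α) X P1 (f ∘ e.symm) (V ∘ e.symm)
    ((Nat.mul_le_mul_left _ hN).trans hb) hb2 (by omega) hP1 (fun i p hp =>
      ⟨(hV _ p hp).1, fun j => (hV _ p hp).2.1 _, (hV _ p hp).2.2⟩)

section expand

variable {ι : Type} {D : Finset ℕ}

open Classical in
/-- the value of the weights at `m` -/
noncomputable def LamK (U : Finset ι) (s : ι → D → Finset ℕ) (c : ι → ℝ) (m : ℕ) : ℝ :=
  ∑ u ∈ U, if ∀ d : D, ∀ p ∈ s u d, p ∣ m + d then c u else 0

/-- sum of the weights over the survivors -/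
noncomputable def YYK (w q r : ℕ) (P1 S : Finset ℕ) (U : Finset ι) (s : ι → D → Finset ℕ) (c : ι → ℝ) (l : ℕ) : ℝ :=
  ∑ h ∈ S.filter (fun h => ∀ p ∈ P1, ∀ g ∈ pt w D h, ¬ p ∣ q * l + r + g), LamK U s c (q * l + r + w * h)

/-- the positions -/
def pos (w : ℕ) (D : Finset ℕ) {n : ℕ} (f : Fin n → ℕ) (x : Fin n × D) : ℕ := w * f x.1 + x.2

lemma image_pos (w : ℕ) (D : Finset ℕ) {n : ℕ} (f : Fin n → ℕ) :
    univ.image (pos w D f) = PT w D (univ.image f) := by
  ext g
  rw [mem_PT]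
  simp only [mem_image, mem_univ, true_and, pos, mem_pt, Prod.exists]
  constructor
  · rintro ⟨i, d, rfl⟩
    exact ⟨f i, ⟨i, rfl⟩, d, d.2, rfl⟩
  · rintro ⟨_, ⟨i, rfl⟩, d, hd, rfl⟩
    exact ⟨i, ⟨d, hd⟩, rfl⟩

theorem YYK_pow (w q r : ℕ) (P1 S : Finset ℕ) (U : Finset ι) (s : ι → D → Finset ℕ) (c : ι → ℝ) (X n : ℕ) :
    ∑ l ∈ Icc 1 X, YYK w q r P1 S U s c l ^ n =
      ∑ f ∈ Fintype.piFinset (fun _ : Fin n => S), ∑ V ∈ Fintype.piFinset (fun _ : Fin n => U),
        (∏ i, c (V i)) * (NFa q r P1 X (pos w D f) (fun x => s (V x.1) x.2) : ℝ) := by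
  classical
  have h1 : ∀ l ∈ Icc 1 X, YYK w q r P1 S U s c l ^ n =
      ∑ f ∈ Fintype.piFinset (fun _ : Fin n => S), ∑ V ∈ Fintype.piFinset (fun _ : Fin n => U),
        if (∀ p ∈ P1, ∀ h ∈ univ.image (pos w D f), ¬ p ∣ q * l + r + h) ∧
            ∀ x : Fin n × D, ∀ p ∈ s (V x.1) x.2, p ∣ q * l + r + pos w D f x
          then ∏ i, c (V i) else 0 := by
    intro l _
    unfold YYK
    rw [sum_filter, Finset.sum_pow']
    apply sum_congr rfl
    intro f _
    rw [Fintype.prod_ite_zero]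
    unfold LamK
    rw [prod_univ_sum]
    have h2 : ∀ V ∈ Fintype.piFinset (fun _ : Fin n => U),
        (∏ i, if ∀ d : D, ∀ p ∈ s (V i) d, p ∣ q * l + r + w * f i + d then c (V i) else 0) =
          if ∀ i, ∀ d : D, ∀ p ∈ s (V i) d, p ∣ q * l + r + w * f i + d then ∏ i, c (V i) else 0 := by
      intro V _
      rw [Fintype.prod_ite_zero]
      split_ifs <;> rfl
    rw [sum_congr rfl h2]
    have h4 : (∀ p ∈ P1, ∀ h ∈ univ.image (pos w D f), ¬ p ∣ q * l + r + h) ↔
        ∀ i, ∀ p ∈ P1, ∀ g ∈ pt w D (f i), ¬ p ∣ q * l + r + g := by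
      rw [image_pos, NN_PT]
      constructor
      · intro h i
        exact h (f i) (mem_image_of_mem f (mem_univ i))
      · intro h x hx
        obtain ⟨i, _, rfl⟩ := mem_image.1 hx
        exact h i
    by_cases h3 : ∀ i, ∀ p ∈ P1, ∀ g ∈ pt w D (f i), ¬ p ∣ q * l + r + g
    · rw [if_pos h3]
      apply sum_congr rfl
      intro V _
      have h6 : (∀ x : Fin n × D, ∀ p ∈ s (V x.1) x.2, p ∣ q * l + r + pos w D f x) ↔
          ∀ i, ∀ d : D, ∀ p ∈ s (V i) d, p ∣ q * l + r + w * f i + d := by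
        constructor
        · intro h i d p hp
          have := h (i, d) p hp
          unfold pos at this
          rwa [← add_assoc] at this
        · rintro h ⟨i, d⟩ p hp
          have := h i d p hp
          unfold pos
          rwa [← add_assoc]
      by_cases h5 : ∀ i, ∀ d : D, ∀ p ∈ s (V i) d, p ∣ q * l + r + w * f i + d
      · rw [if_pos h5, if_pos ⟨h4.2 h3, h6.2 h5⟩]
      · rw [if_neg h5, if_neg fun h7 => h5 (h6.1 h7.2)]
    · rw [if_neg h3]
      symm
      apply sum_eq_zero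
      intro V _
      rw [if_neg]
      rintro ⟨h5, _⟩
      exact h3 (h4.1 h5)
  rw [sum_congr rfl h1, sum_comm]
  apply sum_congr rfl
  intro f _
  rw [sum_comm]
  apply sum_congr rfl
  intro V _
  rw [← sum_filter, sum_const, nsmul_eq_mul, mul_comm]
  unfold NFa
  congr 3

end expand

/-- upper bound for the total density -/
theorem tauA_sum {α : Type} [Fintype α] [DecidableEq α] (P2 : Finset ℕ) (f : α → ℕ) :
    ∑ V ∈ Fintype.piFinset (fun _ : α => P2.powerset), tauA f V ≤ ∏ p ∈ P2, (1 + (2 : ℝ) ^ (Fintype.card α) / p) := by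
  classical
  have h1 : ∀ V ∈ Fintype.piFinset (fun _ : α => P2.powerset), tauA f V ≤ ∏ p ∈ univ.biUnion V, (1 / (p : ℝ)) := by
    intro V _
    unfold tauA
    split_ifs
    · exact le_rfl
    · exact prod_nonneg fun p _ => by positivity
  refine (sum_le_sum h1).trans ?_
  have hmap : ∀ V ∈ Fintype.piFinset (fun _ : α => P2.powerset), univ.biUnion V ∈ P2.powerset := by
    intro V hV
    rw [Fintype.mem_piFinset] at hV
    rw [mem_powerset]
    intro p hp
    obtain ⟨i, _, hi⟩ := mem_biUnion.1 hp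
    exact mem_powerset.1 (hV i) hi
  rw [← sum_fiberwise_of_maps_to hmap]
  rw [Finset.prod_one_add]
  apply sum_le_sum
  intro M _
  have h2 : ∀ V ∈ (Fintype.piFinset (fun _ : α => P2.powerset)).filter (fun V => univ.biUnion V = M),
      ∏ p ∈ univ.biUnion V, (1 / (p : ℝ)) = ∏ p ∈ M, (1 / (p : ℝ)) := by
    intro V hV
    rw [(mem_filter.1 hV).2]
  rw [sum_congr rfl h2, sum_const, nsmul_eq_mul]
  have h3 : ((Fintype.piFinset (fun _ : α => P2.powerset)).filter (fun V => univ.biUnion V = M)).card ≤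
      (2 ^ (Fintype.card α)) ^ M.card := by
    calc _ ≤ (Fintype.piFinset (fun _ : α => M.powerset)).card := by
          apply card_le_card
          intro V hV
          rw [mem_filter] at hV
          rw [Fintype.mem_piFinset]
          intro i
          rw [mem_powerset, ← hV.2]
          intro p hp
          exact mem_biUnion.2 ⟨i, mem_univ _, hp⟩
      _ = (2 ^ (Fintype.card α)) ^ M.card := by
          rw [Fintype.card_piFinset, prod_const, card_powerset, card_univ, ← pow_mul, ← pow_mul,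
            mul_comm]
  have h4 : ∏ p ∈ M, ((2 : ℝ) ^ (Fintype.card α) / p) = ((2 : ℝ) ^ (Fintype.card α)) ^ M.card * ∏ p ∈ M, (1 / (p : ℝ)) := by
    rw [← prod_const, ← prod_mul_distrib]
    apply prod_congr rfl
    intro p _
    ring
  rw [h4]
  apply mul_le_mul_of_nonneg_right _ (prod_nonneg fun p _ => by positivity)
  exact_mod_cast h3

section

variable {ι : Type} {D : Finset ℕ}

/-- the same with an index type -/
theorem tauK_sum (P2 : Finset ℕ) (n : ℕ) (f : Fin n × D → ℕ) (U : Finset ι) (s : ι → D → Finset ℕ)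
    (hs : ∀ u ∈ U, ∀ d, s u d ⊆ P2) (hinj : ∀ u ∈ U, ∀ u' ∈ U, s u = s u' → u = u') (κ : ℕ) (hκ : D.card ≤ κ)
    (hκ0 : n = 0 ∨ D.Nonempty) :
    ∑ V ∈ Fintype.piFinset (fun _ : Fin n => U), tauA f (fun x => s (V x.1) x.2) ≤ ∏ p ∈ P2, (1 + (2 : ℝ) ^ (κ * n) / p) := by
  classical
  have h0 : ∏ p ∈ P2, (1 + (2 : ℝ) ^ (Fintype.card (Fin n × D)) / p) ≤ ∏ p ∈ P2, (1 + (2 : ℝ) ^ (κ * n) / p) := by
    apply prod_le_prod
    · intro p _; positivity
    · intro p _
      have : (2 : ℝ) ^ (Fintype.card (Fin n × D)) ≤ 2 ^ (κ * n) := by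
        apply pow_le_pow_right₀ (by norm_num)
        rw [Fintype.card_prod, Fintype.card_fin, Fintype.card_coe, mul_comm]
        exact Nat.mul_le_mul_right _ hκ
      gcongr
  refine le_trans ?_ ((tauA_sum P2 f).trans h0)
  have h1 : ∑ V ∈ Fintype.piFinset (fun _ : Fin n => U), tauA f (fun x => s (V x.1) x.2) =
      ∑ V ∈ (Fintype.piFinset (fun _ : Fin n => U)).image (fun V (x : Fin n × D) => s (V x.1) x.2), tauA f V := by
    rw [sum_image]
    intro V hV V' hV' h
    rw [mem_coe, Fintype.mem_piFinset] at hV hV'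
    rcases hκ0 with h2 | ⟨d0, hd0⟩
    · subst h2
      funext i
      exact i.elim0
    funext i
    apply hinj _ (hV i) _ (hV' i)
    funext d
    exact congrFun h (i, d)
  rw [h1]
  apply sum_le_sum_of_subset_of_nonneg
  · intro V hV
    obtain ⟨V', hV', rfl⟩ := mem_image.1 hV
    rw [Fintype.mem_piFinset] at hV' ⊢
    intro x
    exact mem_powerset.2 (hs _ (hV' x.1) x.2)
  · intro V _ _
    exact tauA_nonneg f V

/-- the primes used by one index -/
def su (s : ι → D → Finset ℕ) (u : ι) : Finset ℕ := univ.biUnion (s u)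

lemma mem_su {s : ι → D → Finset ℕ} {u : ι} {p : ℕ} : p ∈ su s u ↔ ∃ d, p ∈ s u d := by
  unfold su
  simp

/-- splitting off one isolated coordinate -/
lemma tauK_insertNth {m : ℕ} (i0 : Fin (m + 1)) (w : ℕ) (f : Fin (m + 1) → ℕ)
    (hf : ∀ i, ∀ d d' : D, w * f (i0.succAbove i) + d ≠ w * f i0 + d')
    (s : ι → D → Finset ℕ) (u : ι) (hu : ∀ d d' : D, d ≠ d' → Disjoint (s u d) (s u d')) (V : Fin m → ι) :
    tauA (pos w D f) (fun x => s (i0.insertNth (α := fun _ => ι) u V x.1) x.2) =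
      (open Classical in if Disjoint (su s u) (univ.biUnion fun i => su s (V i)) then
        tauA (pos w D (fun i => f (i0.succAbove i))) (fun x => s (V x.1) x.2) * ∏ p ∈ su s u, (1 / (p : ℝ)) else 0) := by
  classical
  have hcomp : CompA (pos w D f) (fun x => s (i0.insertNth (α := fun _ => ι) u V x.1) x.2) ↔
      Disjoint (su s u) (univ.biUnion fun i => su s (V i)) ∧
        CompA (pos w D (fun i => f (i0.succAbove i))) (fun x => s (V x.1) x.2) := by
    constructor
    · intro h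
      constructor
      · rw [disjoint_left]
        intro p hp hp'
        obtain ⟨i, _, hi⟩ := mem_biUnion.1 hp'
        obtain ⟨d, hd⟩ := mem_su.1 hp
        obtain ⟨d', hd'⟩ := mem_su.1 hi
        have := h (i0.succAbove i, d') (i0, d) p (by simpa using hd') (by simpa using hd)
        exact hf i d' d this
      · rintro ⟨i, d⟩ ⟨j, d'⟩ p hi hj
        exact h (i0.succAbove i, d) (i0.succAbove j, d') p (by simpa using hi) (by simpa using hj)
    · rintro ⟨h1, h2⟩ ⟨i, d⟩ ⟨j, d'⟩ p hi hj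
      rcases Fin.eq_self_or_eq_succAbove i0 i with h3 | ⟨i', h3⟩ <;>
      rcases Fin.eq_self_or_eq_succAbove i0 j with h4 | ⟨j', h4⟩
      · subst h3 h4
        simp only [Fin.insertNth_apply_same] at hi hj
        by_cases h5 : d = d'
        · rw [h5]
        · exact absurd hj (disjoint_left.1 (hu d d' h5) hi)
      · exfalso
        subst h3 h4
        simp only [Fin.insertNth_apply_same, Fin.insertNth_apply_succAbove] at hi hj
        exact disjoint_left.1 h1 (mem_su.2 ⟨d, hi⟩) (mem_biUnion.2 ⟨j', mem_univ _, mem_su.2 ⟨d', hj⟩⟩)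
      · exfalso
        subst h3 h4
        simp only [Fin.insertNth_apply_same, Fin.insertNth_apply_succAbove] at hi hj
        exact disjoint_left.1 h1 (mem_su.2 ⟨d', hj⟩) (mem_biUnion.2 ⟨i', mem_univ _, mem_su.2 ⟨d, hi⟩⟩)
      · subst h3 h4
        simp only [Fin.insertNth_apply_succAbove] at hi hj
        exact h2 (i', d) (j', d') p hi hj
  have hU : (univ.biUnion fun x : Fin (m + 1) × D => s (i0.insertNth (α := fun _ => ι) u V x.1) x.2) =
      su s u ∪ univ.biUnion fun x : Fin m × D => s (V x.1) x.2 := by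
    ext p
    simp only [mem_biUnion, mem_univ, true_and, mem_union, mem_su, Prod.exists]
    constructor
    · rintro ⟨i, d, hd⟩
      rcases Fin.eq_self_or_eq_succAbove i0 i with h3 | ⟨i', h3⟩
      · subst h3
        left
        exact ⟨d, by simpa using hd⟩
      · subst h3
        right
        exact ⟨i', d, by simpa using hd⟩
    · rintro (⟨d, hd⟩ | ⟨i, d, hd⟩)
      · exact ⟨i0, d, by simpa using hd⟩
      · exact ⟨i0.succAbove i, d, by simpa using hd⟩
  have hU2 : (univ.biUnion fun x : Fin m × D => s (V x.1) x.2) = univ.biUnion fun i => su s (V i) := by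
    ext p
    simp only [mem_biUnion, mem_univ, true_and, mem_su, Prod.exists]
  unfold tauA
  by_cases h1 : Disjoint (su s u) (univ.biUnion fun i => su s (V i))
  · rw [if_pos h1]
    by_cases h2 : CompA (pos w D (fun i => f (i0.succAbove i))) (fun x => s (V x.1) x.2)
    · rw [if_pos h2, if_pos (hcomp.2 ⟨h1, h2⟩), hU, prod_union (by rw [hU2]; exact h1), mul_comm]
    · rw [if_neg h2, if_neg (fun h => h2 (hcomp.1 h).2), zero_mul]
  · rw [if_neg h1, if_neg (fun h => h1 (hcomp.1 h).1)]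

/-- sums over the indices, in terms of the sets of primes -/
lemma sum_su (P2 : Finset ℕ) (U : Finset ι) (s : ι → D → Finset ℕ) (hs : ∀ u ∈ U, ∀ d, s u d ⊆ P2)
    (hinj : ∀ u ∈ U, ∀ u' ∈ U, s u = s u' → u = u') (Pr : Finset ℕ → Prop) [DecidablePred Pr] (κ : ℕ) (hκ : D.card ≤ κ) :
    ∑ u ∈ U.filter (fun u => Pr (su s u)), ∏ p ∈ su s u, (1 / (p : ℝ)) ≤
      ∑ T ∈ P2.powerset.filter Pr, ∏ p ∈ T, ((2 : ℝ) ^ κ / p) := by
  classical
  have hmap : ∀ u ∈ U.filter (fun u => Pr (su s u)), su s u ∈ P2.powerset.filter Pr := by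
    intro u hu
    rw [mem_filter] at hu ⊢
    refine ⟨mem_powerset.2 ?_, hu.2⟩
    intro p hp
    obtain ⟨d, hd⟩ := mem_su.1 hp
    exact hs u hu.1 d hd
  rw [← sum_fiberwise_of_maps_to hmap]
  apply sum_le_sum
  intro T hT
  have h2 : ∀ u ∈ (U.filter (fun u => Pr (su s u))).filter (fun u => su s u = T),
      ∏ p ∈ su s u, (1 / (p : ℝ)) = ∏ p ∈ T, (1 / (p : ℝ)) := by
    intro u hu
    rw [(mem_filter.1 hu).2]
  rw [sum_congr rfl h2, sum_const, nsmul_eq_mul]
  have h3 : ((U.filter (fun u => Pr (su s u))).filter (fun u => su s u = T)).card ≤ (2 ^ κ) ^ T.card := by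
    calc _ ≤ (Fintype.piFinset (fun _ : D => T.powerset)).card := by
          apply card_le_card_of_injOn s
          · intro u hu
            rw [mem_coe, mem_filter] at hu
            rw [mem_coe, Fintype.mem_piFinset]
            intro d
            rw [mem_powerset, ← hu.2]
            intro p hp
            exact mem_su.2 ⟨d, hp⟩
          · intro u hu u' hu' h
            rw [mem_coe, mem_filter, mem_filter] at hu hu'
            exact hinj u hu.1.1 u' hu'.1.1 h
      _ = (2 ^ D.card) ^ T.card := by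
          rw [Fintype.card_piFinset, prod_const, card_powerset, card_univ, Fintype.card_coe, ← pow_mul, ← pow_mul,
            mul_comm]
      _ ≤ (2 ^ κ) ^ T.card := Nat.pow_le_pow_left (Nat.pow_le_pow_right (by norm_num) hκ) _
  have h4 : ∏ p ∈ T, ((2 : ℝ) ^ κ / p) = ((2 : ℝ) ^ κ) ^ T.card * ∏ p ∈ T, (1 / (p : ℝ)) := by
    rw [← prod_const, ← prod_mul_distrib]
    apply prod_congr rfl
    intro p _
    ring
  rw [h4]
  apply mul_le_mul_of_nonneg_right _ (prod_nonneg fun p _ => by positivity)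
  exact_mod_cast h3

open Classical in
/-- the part of the mean which meets a given set -/
lemma mean_meetK (P2 : Finset ℕ) (U : Finset ι) (s : ι → D → Finset ℕ) (c : ι → ℝ) (K z1 : ℝ) (hK : 0 ≤ K) (hz1 : 0 < z1)
    (hP2 : ∀ p ∈ P2, z1 ≤ p) (hs : ∀ u ∈ U, ∀ d, s u d ⊆ P2) (hinj : ∀ u ∈ U, ∀ u' ∈ U, s u = s u' → u = u')
    (κ : ℕ) (hκ : D.card ≤ κ)
    (hc : ∀ u ∈ U, |c u| ≤ K) (hmean : ∑ u ∈ U, c u * ∏ p ∈ su s u, (1 / (p : ℝ)) = 0) (M : Finset ℕ) :
    |∑ u ∈ U.filter (fun u => Disjoint (su s u) M), c u * ∏ p ∈ su s u, (1 / (p : ℝ))| ≤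
      K * (M.card * (2 ^ κ / z1)) * ∏ p ∈ P2, (1 + (2 : ℝ) ^ κ / (p : ℝ)) := by
  have h1 := sum_filter_add_sum_filter_not U (fun u => Disjoint (su s u) M) (fun u => c u * ∏ p ∈ su s u, (1 / (p : ℝ)))
  rw [hmean] at h1
  have h2 : ∑ u ∈ U.filter (fun u => Disjoint (su s u) M), c u * ∏ p ∈ su s u, (1 / (p : ℝ)) =
      -∑ u ∈ U.filter (fun u => ¬ Disjoint (su s u) M), c u * ∏ p ∈ su s u, (1 / (p : ℝ)) := by linarith
  rw [h2, abs_neg]
  have hnn : ∀ u, 0 ≤ ∏ p ∈ su s u, (1 / (p : ℝ)) := fun u => prod_nonneg fun p _ => by positivity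
  calc |∑ u ∈ U.filter (fun u => ¬ Disjoint (su s u) M), c u * ∏ p ∈ su s u, (1 / (p : ℝ))|
      ≤ ∑ u ∈ U.filter (fun u => ¬ Disjoint (su s u) M), K * ∏ p ∈ su s u, (1 / (p : ℝ)) := by
        refine (abs_sum_le_sum_abs _ _).trans (sum_le_sum fun u hu => ?_)
        rw [abs_mul, abs_of_nonneg (hnn u)]
        exact mul_le_mul_of_nonneg_right (hc u (mem_filter.1 hu).1) (hnn u)
    _ = K * ∑ u ∈ U.filter (fun u => ¬ Disjoint (su s u) M), ∏ p ∈ su s u, (1 / (p : ℝ)) := by rw [mul_sum]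
    _ ≤ K * ∑ T ∈ P2.powerset.filter (fun T => ¬ Disjoint T M), ∏ p ∈ T, ((2 : ℝ) ^ κ / (p : ℝ)) :=
        mul_le_mul_of_nonneg_left (sum_su P2 U s hs hinj (fun T => ¬ Disjoint T M) κ hκ) hK
    _ ≤ K * ∑ p ∈ M, ∑ T ∈ P2.powerset.filter (fun T => p ∈ T), ∏ p ∈ T, ((2 : ℝ) ^ κ / (p : ℝ)) := by
        apply mul_le_mul_of_nonneg_left _ hK
        have e2 : P2.powerset.filter (fun T => ¬ Disjoint T M) ⊆
            M.biUnion (fun p => P2.powerset.filter (fun T => p ∈ T)) := by
          intro T hT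
          rw [mem_filter, not_disjoint_iff] at hT
          obtain ⟨h3, p, h4, h5⟩ := hT
          rw [mem_biUnion]
          exact ⟨p, h5, mem_filter.2 ⟨h3, h4⟩⟩
        refine (sum_le_sum_of_subset_of_nonneg e2 fun T _ _ => prod_nonneg fun p _ => by positivity).trans ?_
        exact sum_biUnion_le' _ _ _ fun T => prod_nonneg fun p _ => by positivity
    _ ≤ K * ∑ _p ∈ M, (2 ^ κ / z1) * ∏ p ∈ P2, (1 + (2 : ℝ) ^ κ / (p : ℝ)) := by
        apply mul_le_mul_of_nonneg_left _ hK
        apply sum_le_sum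
        intro p0 _
        by_cases hp0 : p0 ∈ P2
        swap
        · have e3 : P2.powerset.filter (fun T => p0 ∈ T) = ∅ := by
            rw [filter_eq_empty_iff]
            intro T hT h
            exact hp0 (mem_powerset.1 hT h)
          rw [e3, sum_empty]
          exact mul_nonneg (by positivity) (prod_nonneg fun p _ => by positivity)
        have e4 : ∑ T ∈ P2.powerset.filter (fun T => p0 ∈ T), ∏ p ∈ T, ((2 : ℝ) ^ κ / (p : ℝ)) ≤
            ∑ T ∈ P2.powerset, (2 ^ κ / z1) * ∏ p ∈ T, ((2 : ℝ) ^ κ / (p : ℝ)) := by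
          have e5 : ∀ T ∈ P2.powerset.filter (fun T => p0 ∈ T), ∏ p ∈ T, ((2 : ℝ) ^ κ / (p : ℝ)) ≤
              (2 ^ κ / z1) * ∏ p ∈ T.erase p0, ((2 : ℝ) ^ κ / (p : ℝ)) := by
            intro T hT
            rw [mem_filter] at hT
            rw [← mul_prod_erase T _ hT.2]
            apply mul_le_mul_of_nonneg_right _ (prod_nonneg fun p _ => by positivity)
            exact div_le_div_of_nonneg_left (by positivity) hz1 (hP2 p0 hp0)
          refine (sum_le_sum e5).trans ?_
          have e6 : ∑ T ∈ P2.powerset.filter (fun T => p0 ∈ T), (2 ^ κ / z1) * ∏ p ∈ T.erase p0, ((2 : ℝ) ^ κ / (p : ℝ)) =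
              ∑ T ∈ (P2.powerset.filter (fun T => p0 ∈ T)).image (fun T : Finset ℕ => T.erase p0),
                (2 ^ κ / z1) * ∏ p ∈ (T : Finset ℕ), ((2 : ℝ) ^ κ / ((p : ℕ) : ℝ)) := by
            rw [sum_image]
            intro T hT T' hT' h
            rw [mem_coe, mem_filter] at hT hT'
            simp only at h
            rw [← insert_erase hT.2, ← insert_erase hT'.2, h]
          rw [e6]
          apply sum_le_sum_of_subset_of_nonneg
          · intro T hT
            obtain ⟨T', hT', rfl⟩ := mem_image.1 hT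
            rw [mem_filter, mem_powerset] at hT'
            exact mem_powerset.2 ((erase_subset _ _).trans hT'.1)
          · intro T _ _
            exact mul_nonneg (by positivity) (prod_nonneg fun p _ => by positivity)
        refine e4.trans (le_of_eq ?_)
        rw [← mul_sum, Finset.prod_one_add]
    _ = K * (M.card * (2 ^ κ / z1)) * ∏ p ∈ P2, (1 + (2 : ℝ) ^ κ / (p : ℝ)) := by
        rw [sum_const, nsmul_eq_mul]
        ring

end

end Pool.Agent.H36.KT
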