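import Mathlib
import Pool.Agent.H36.KT.Cnt

/-!
Dominating sets, and the sums of the densities over clustered tuples.
-/

set_option autoImplicit false

namespace Pool.Agent.H36.KT
open Finset Pool.Agent.H36.RW Pool.Agent.H36.BF

/-- a graph without isolated vertices has a dominating set with at most half of the vertices -/
theorem dominating {n : ℕ} (R : Fin n → Fin n → Prop) (hsym : ∀ i j, R i j → R j i) (h : ∀ i, ∃ j, j ≠ i ∧ R i j) :
    ∃ G : Finset (Fin n), 2 * G.card ≤ n ∧ ∀ i, i ∈ G ∨ ∃ j ∈ G, R i j := by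
  classical
  -- a minimal dominating set
  set Dm : Finset (Finset (Fin n)) := univ.filter (fun G => ∀ i, i ∈ G ∨ ∃ j ∈ G, R i j) with hDm
  have hne : Dm.Nonempty := ⟨univ, by rw [hDm, mem_filter]; exact ⟨mem_univ _, fun i => Or.inl (mem_univ i)⟩⟩
  obtain ⟨G, hG, hmin⟩ := exists_min_image Dm card hne
  have hGd : ∀ i, i ∈ G ∨ ∃ j ∈ G, R i j := (mem_filter.1 hG).2
  by_cases h1 : 2 * G.card ≤ n
  · exact ⟨G, h1, hGd⟩
  -- the complement is dominating as well
  refine ⟨Gᶜ, ?_, ?_⟩
  · have := card_compl G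
    rw [Fintype.card_fin] at this
    have h2 := card_le_univ G
    rw [Fintype.card_fin] at h2
    omega
  intro v
  by_cases hv : v ∈ G
  swap
  · exact Or.inl (mem_compl.2 hv)
  right
  by_contra hno
  push Not at hno
  -- all neighbours of `v` are in `G`
  have hnb : ∀ j, R v j → j ∈ G := by
    intro j hj
    by_contra h2
    exact hno j (mem_compl.2 h2) hj
  have hdom : G.erase v ∈ Dm := by
    rw [hDm, mem_filter]
    refine ⟨mem_univ _, fun i => ?_⟩
    by_cases hiv : i = v
    · subst hiv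
      obtain ⟨j, hj1, hj2⟩ := h i
      exact Or.inr ⟨j, mem_erase.2 ⟨hj1, hnb j hj2⟩, hj2⟩
    · rcases hGd i with h2 | ⟨j, hj1, hj2⟩
      · exact Or.inl (mem_erase.2 ⟨hiv, h2⟩)
      · by_cases hjv : j = v
        · subst hjv
          exact Or.inl (mem_erase.2 ⟨hiv, hnb i (hsym _ _ hj2)⟩)
        · exact Or.inr ⟨j, mem_erase.2 ⟨hjv, hj1⟩, hj2⟩
  have h2 := hmin _ hdom
  have h3 := card_erase_lt_of_mem hv
  omega

/-- two positions whose patterns intersect -/
def nb (w : ℕ) (D : Finset ℕ) (h h' : ℕ) : Prop := ∃ g, g ∈ pt w D h ∧ g ∈ pt w D h'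

/-- every position has a neighbour -/
def Cl (w : ℕ) (D : Finset ℕ) {n : ℕ} (f : Fin n → ℕ) : Prop := ∀ i, ∃ j, j ≠ i ∧ nb w D (f i) (f j)

lemma rho_anti (P J J' : Finset ℕ) (hP : ∀ p ∈ P, 0 < p) (h : J ⊆ J') : rho P J' ≤ rho P J := by
  unfold rho
  apply prod_le_prod
  · intro p hp
    have h0 := hP p hp
    have h1 : (nu p J' : ℝ) / p ≤ 1 := by
      rw [div_le_one (by exact_mod_cast h0)]
      exact_mod_cast nu_le_p p h0 J'
    linarith
  · intro p hp
    have h0 : (0 : ℝ) < p := by exact_mod_cast hP p hp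
    have h1 : (nu p J : ℝ) ≤ nu p J' := by
      exact_mod_cast card_le_card (image_subset_image h)
    have h2 : (nu p J : ℝ) / p ≤ (nu p J' : ℝ) / p := div_le_div_of_nonneg_right h1 h0.le
    linarith

open Classical in
/-- few neighbours -/
lemma nb_card (w : ℕ) (hw : 1 ≤ w) (D S G : Finset ℕ) :
    (S.filter (fun h' => ∃ h ∈ G, nb w D h' h)).card ≤ G.card * D.card ^ 2 := by
  have h1 : S.filter (fun h' => ∃ h ∈ G, nb w D h' h) ⊆
      G.biUnion (fun h => (D ×ˢ D).biUnion (fun x => S.filter (fun h' => w * h' + x.1 = w * h + x.2))) := by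
    intro h' hh'
    rw [mem_filter] at hh'
    obtain ⟨h2, h, hG, g, hg1, hg2⟩ := hh'
    obtain ⟨d, hd, h3⟩ := mem_pt.1 hg1
    obtain ⟨d', hd', h4⟩ := mem_pt.1 hg2
    rw [mem_biUnion]
    refine ⟨h, hG, ?_⟩
    rw [mem_biUnion]
    exact ⟨(d, d'), mem_product.2 ⟨hd, hd'⟩, mem_filter.2 ⟨h2, by rw [h3, h4]⟩⟩
  refine (card_le_card h1).trans (card_biUnion_le.trans ?_)
  calc ∑ h ∈ G, ((D ×ˢ D).biUnion (fun x => S.filter (fun h' => w * h' + x.1 = w * h + x.2))).card
      ≤ ∑ _h ∈ G, D.card ^ 2 := by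
        apply sum_le_sum
        intro h _
        refine card_biUnion_le.trans ?_
        calc ∑ x ∈ D ×ˢ D, (S.filter (fun h' => w * h' + x.1 = w * h + x.2)).card ≤ ∑ _x ∈ D ×ˢ D, 1 := by
              apply sum_le_sum
              intro x _
              rw [card_le_one]
              intro a ha b hb
              rw [mem_filter] at ha hb
              have h2 : w * a = w * b := by omega
              exact Nat.eq_of_mul_eq_mul_left (by omega) h2
          _ = D.card ^ 2 := by rw [sum_const, smul_eq_mul, mul_one, card_product]; ring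
    _ = G.card * D.card ^ 2 := by rw [sum_const, smul_eq_mul]

open Classical in
/-- clustered tuples -/
lemma rho_cl (w : ℕ) (hw : 1 ≤ w) (D P S : Finset ℕ) (hP : ∀ p ∈ P, p.Prime) (k κ : ℕ) (hκ : D.card ≤ κ) :
    ∑ f ∈ (Fintype.piFinset (fun _ : Fin (2 * k) => S)).filter (Cl w D), rho P (PT w D (univ.image f)) ≤
      ((k * κ ^ 2 : ℕ) : ℝ) ^ (2 * k) * ∑ G ∈ S.powerset.filter (fun G => G.card ≤ k), rho P (PT w D G) := by
  have hr : ∀ G, 0 ≤ rho P (PT w D G) := fun G => rho_nonneg P _ fun p hp => (hP p hp).pos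
  -- the dominating set
  have hdom : ∀ f ∈ (Fintype.piFinset (fun _ : Fin (2 * k) => S)).filter (Cl w D),
      ∃ G ∈ S.powerset.filter (fun G => G.card ≤ k), G ⊆ univ.image f ∧
        ∀ i, f i ∈ S.filter (fun h' => ∃ h ∈ G, nb w D h' h) := by
    intro f hf
    rw [mem_filter, Fintype.mem_piFinset] at hf
    have hDne : 0 < 2 * k → D.Nonempty := by
      intro h2
      obtain ⟨j, _, g, hg, _⟩ := hf.2 ⟨0, h2⟩
      obtain ⟨d, hd, _⟩ := mem_pt.1 hg
      exact ⟨d, hd⟩
    obtain ⟨G0, hG0, hG1⟩ := dominating (fun i j => nb w D (f i) (f j))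
      (fun i j ⟨g, h1, h2⟩ => ⟨g, h2, h1⟩) (fun i => by
        obtain ⟨j, hj1, hj2⟩ := hf.2 i
        exact ⟨j, hj1, hj2⟩)
    refine ⟨G0.image f, ?_, image_subset_image (subset_univ _), ?_⟩
    · rw [mem_filter, mem_powerset]
      constructor
      · intro x hx
        obtain ⟨i, _, rfl⟩ := mem_image.1 hx
        exact hf.1 i
      · have := card_image_le (s := G0) (f := f)
        omega
    · intro i
      rw [mem_filter]
      refine ⟨hf.1 i, ?_⟩
      rcases hG1 i with h2 | ⟨j, hj, h2⟩
      · obtain ⟨d, hd⟩ := hDne i.pos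
        exact ⟨f i, mem_image_of_mem f h2, w * f i + d, mem_pt.2 ⟨d, hd, rfl⟩, mem_pt.2 ⟨d, hd, rfl⟩⟩
      · exact ⟨f j, mem_image_of_mem f hj, h2⟩
  choose! Gf hGf1 hGf2 hGf3 using hdom
  calc ∑ f ∈ (Fintype.piFinset (fun _ : Fin (2 * k) => S)).filter (Cl w D), rho P (PT w D (univ.image f))
      ≤ ∑ f ∈ (Fintype.piFinset (fun _ : Fin (2 * k) => S)).filter (Cl w D), rho P (PT w D (Gf f)) := by
        apply sum_le_sum
        intro f hf
        exact rho_anti P _ _ (fun p hp => (hP p hp).pos) (PT_mono (hGf2 f hf))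
    _ = ∑ G ∈ S.powerset.filter (fun G => G.card ≤ k),
          ∑ f ∈ ((Fintype.piFinset (fun _ : Fin (2 * k) => S)).filter (Cl w D)).filter (fun f => Gf f = G),
            rho P (PT w D (Gf f)) := (sum_fiberwise_of_maps_to hGf1 _).symm
    _ ≤ ∑ G ∈ S.powerset.filter (fun G => G.card ≤ k), ((k * κ ^ 2 : ℕ) : ℝ) ^ (2 * k) * rho P (PT w D G) := by
        apply sum_le_sum
        intro G hG
        have hGk := (mem_filter.1 hG).2
        have h2 : ∀ f ∈ ((Fintype.piFinset (fun _ : Fin (2 * k) => S)).filter (Cl w D)).filter (fun f => Gf f = G),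
            rho P (PT w D (Gf f)) = rho P (PT w D G) := by
          intro f hf
          rw [(mem_filter.1 hf).2]
        rw [sum_congr rfl h2, sum_const, nsmul_eq_mul]
        apply mul_le_mul_of_nonneg_right _ (hr G)
        have h3 : (((Fintype.piFinset (fun _ : Fin (2 * k) => S)).filter (Cl w D)).filter (fun f => Gf f = G)).card ≤
            (k * κ ^ 2) ^ (2 * k) := by
          calc _ ≤ (Fintype.piFinset (fun _ : Fin (2 * k) => S.filter (fun h' => ∃ h ∈ G, nb w D h' h))).card := by
                apply card_le_card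
                intro f hf
                rw [mem_filter] at hf
                rw [Fintype.mem_piFinset]
                intro i
                have := hGf3 f hf.1 i
                rwa [hf.2] at this
            _ = (S.filter (fun h' => ∃ h ∈ G, nb w D h' h)).card ^ (2 * k) := by
                rw [Fintype.card_piFinset, prod_const, card_univ, Fintype.card_fin]
            _ ≤ (k * κ ^ 2) ^ (2 * k) := by
                apply Nat.pow_le_pow_left
                refine (nb_card w hw D S G).trans ?_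
                exact Nat.mul_le_mul hGk (Nat.pow_le_pow_left hκ 2)
        exact_mod_cast h3
    _ = _ := by rw [mul_sum]

open Classical in
/-- all tuples -/
lemma rho_allK (w : ℕ) (D P S : Finset ℕ) (hP : ∀ p ∈ P, p.Prime) (n : ℕ) :
    ∑ f ∈ Fintype.piFinset (fun _ : Fin n => S), rho P (PT w D (univ.image f)) ≤
      (n : ℝ) ^ n * ∑ G ∈ S.powerset.filter (fun G => G.card ≤ n), rho P (PT w D G) := by
  have hr : ∀ G, 0 ≤ rho P (PT w D G) := fun G => rho_nonneg P _ fun p hp => (hP p hp).pos
  have hmap : ∀ f ∈ Fintype.piFinset (fun _ : Fin n => S),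
      univ.image f ∈ S.powerset.filter (fun G => G.card ≤ n) := by
    intro f hf
    rw [Fintype.mem_piFinset] at hf
    rw [mem_filter, mem_powerset]
    constructor
    · intro x hx
      obtain ⟨i, _, rfl⟩ := mem_image.1 hx
      exact hf i
    · refine card_image_le.trans ?_
      rw [card_univ, Fintype.card_fin]
  rw [← sum_fiberwise_of_maps_to hmap, mul_sum]
  apply sum_le_sum
  intro G hG
  have hGk := (mem_filter.1 hG).2
  have h2 : ∀ f ∈ (Fintype.piFinset (fun _ : Fin n => S)).filter (fun f => univ.image f = G),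
      rho P (PT w D (univ.image f)) = rho P (PT w D G) := by
    intro f hf
    rw [(mem_filter.1 hf).2]
  rw [sum_congr rfl h2, sum_const, nsmul_eq_mul]
  apply mul_le_mul_of_nonneg_right _ (hr G)
  have h3 : ((Fintype.piFinset (fun _ : Fin n => S)).filter (fun f => univ.image f = G)).card ≤ n ^ n := by
    calc _ ≤ (Fintype.piFinset (fun _ : Fin n => G)).card := by
          apply card_le_card
          intro f hf
          rw [Fintype.mem_piFinset]
          intro i
          rw [← (mem_filter.1 hf).2]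
          exact mem_image_of_mem f (mem_univ i)
      _ = G.card ^ n := by rw [Fintype.card_piFinset, prod_const, card_univ, Fintype.card_fin]
      _ ≤ n ^ n := Nat.pow_le_pow_left hGk _
  exact_mod_cast h3

/-- few survivors: sum of the densities -/
lemma rho_smallK (K : ℝ) (hK : 1 ≤ K) (w : ℕ) (D P S : Finset ℕ) (y T : ℕ) (hy : 1 ≤ y) (hS : S ⊆ Icc 1 T)
    (hP : ∀ p ∈ P, p.Prime ∧ y < p ∧ ¬ p ∣ w ∧ (nu p D : ℝ) ≤ K ∧ 2 * K ≤ p)
    (hT : 18 * K ^ 2 * WK D (P.filter (fun p => T < p)) * T ≤ WK D (P.filter (fun p => p ≤ T)) * y)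
    (k : ℕ) (hμ : 20 * K ≤ S.card * WK D P) :
    ∑ G ∈ S.powerset.filter (fun G => G.card ≤ k), rho P (PT w D G) ≤ Real.exp 2 * (S.card * WK D P) ^ k := by
  classical
  have hK0 : 0 < K := by linarith
  set μ : ℝ := S.card * WK D P with hμd
  have hμ0 : 0 < μ := by linarith
  set u : ℝ := 1 / μ with hu
  have hu0 : 0 < u := by positivity
  have huK : u ≤ 1 / (20 * K) := one_div_le_one_div_of_le (by positivity) hμ
  have hu1 : u ≤ 1 := by rw [hu, div_le_one hμ0]; linarith
  have h1 := PhiK_final u K hK (by rw [abs_of_pos hu0]; exact huK) w D P y T hy S hS hP hT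
  have h2 : Real.exp (S.card * WK D P * (u + 11 * K * u ^ 2)) ≤ Real.exp 2 := by
    apply Real.exp_le_exp.2
    rw [← hμd]
    have e1 : μ * (u + 11 * K * u ^ 2) = 1 + 11 * K * u := by rw [hu]; field_simp
    rw [e1]
    have : 11 * K * u ≤ 11 * K * (1 / (20 * K)) := mul_le_mul_of_nonneg_left huK (by positivity)
    have e2 : 11 * K * (1 / (20 * K)) = 11 / 20 := by field_simp
    linarith
  have hr : ∀ G, 0 ≤ rho P G := fun G => rho_nonneg P G fun p hp => (hP p hp).1.pos
  calc ∑ G ∈ S.powerset.filter (fun G => G.card ≤ k), rho P (PT w D G)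
      ≤ ∑ G ∈ S.powerset.filter (fun G => G.card ≤ k), μ ^ k * (u ^ G.card * rho P (PT w D G)) := by
        apply sum_le_sum
        intro G hG
        have hk := (mem_filter.1 hG).2
        have h3 : 1 ≤ μ ^ k * u ^ G.card := by
          have h4 : u ^ k ≤ u ^ G.card := pow_le_pow_of_le_one hu0.le hu1 hk
          have h5 : μ ^ k * u ^ k = 1 := by rw [← mul_pow, hu, mul_one_div_cancel hμ0.ne', one_pow]
          rw [← h5]
          exact mul_le_mul_of_nonneg_left h4 (by positivity)
        calc rho P (PT w D G) = 1 * rho P (PT w D G) := (one_mul _).symm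
          _ ≤ (μ ^ k * u ^ G.card) * rho P (PT w D G) := mul_le_mul_of_nonneg_right h3 (hr _)
          _ = _ := by ring
    _ ≤ ∑ G ∈ S.powerset, μ ^ k * (u ^ G.card * rho P (PT w D G)) := by
        apply sum_le_sum_of_subset_of_nonneg (filter_subset _ _)
        intro G _ _
        exact mul_nonneg (by positivity) (mul_nonneg (by positivity) (hr _))
    _ = μ ^ k * PhiK w D P S u := by rw [← mul_sum]; rfl
    _ ≤ μ ^ k * Real.exp 2 := mul_le_mul_of_nonneg_left (h1.trans h2) (by positivity)
    _ = _ := mul_comm _ _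

end Pool.Agent.H36.KT
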