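import Mathlib
import Pool.Agent.H36.KT.Dom

/-!
The moment bound for tuples.
-/

set_option autoImplicit false

namespace Pool.Agent.H36.KT
open Finset Pool.Agent.H36.RW Pool.Agent.H36.BF

section

variable {ι : Type} {D : Finset ℕ}

lemma prod_mono_pow (P2 : Finset ℕ) (a b : ℕ) (h : a ≤ b) :
    ∏ p ∈ P2, (1 + (2 : ℝ) ^ a / p) ≤ ∏ p ∈ P2, (1 + (2 : ℝ) ^ b / p) := by
  apply prod_le_prod
  · intro p _; positivity
  · intro p _
    have : (2 : ℝ) ^ a ≤ 2 ^ b := pow_le_pow_right₀ (by norm_num) h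
    gcongr

/-- the sum over all weights, for a tuple with an isolated position -/
theorem TK_single (P2 : Finset ℕ) (w : ℕ) (U : Finset ι) (s : ι → D → Finset ℕ) (c : ι → ℝ) (K z1 : ℝ) (hK : 0 ≤ K)
    (hz1 : 0 < z1) (hP2 : ∀ p ∈ P2, z1 ≤ p) (hs : ∀ u ∈ U, ∀ d, s u d ⊆ P2)
    (hinj : ∀ u ∈ U, ∀ u' ∈ U, s u = s u' → u = u') (hdis : ∀ u ∈ U, ∀ d d' : D, d ≠ d' → Disjoint (s u d) (s u d'))
    (κ : ℕ) (hκ : D.card ≤ κ) (hne : D.Nonempty) (M0 : ℕ) (hM0 : ∀ u ∈ U, (su s u).card ≤ M0)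
    (hc : ∀ u ∈ U, |c u| ≤ K) (hmean : ∑ u ∈ U, c u * ∏ p ∈ su s u, (1 / (p : ℝ)) = 0) (m : ℕ) (f : Fin (m + 1) → ℕ)
    (i0 : Fin (m + 1)) (hf : ∀ i, ∀ d d' : D, w * f (i0.succAbove i) + d ≠ w * f i0 + d') :
    |∑ V ∈ Fintype.piFinset (fun _ : Fin (m + 1) => U), (∏ i, c (V i)) * tauA (pos w D f) (fun x => s (V x.1) x.2)| ≤
      K ^ (m + 1) * (((m + 1 : ℕ) : ℝ) * M0 * 2 ^ κ / z1) * (∏ p ∈ P2, (1 + (2 : ℝ) ^ (κ * (m + 1)) / p)) ^ 2 := by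
  classical
  rw [sum_piFinset_succ i0]
  have hW1 : ∏ p ∈ P2, (1 + (2 : ℝ) ^ κ / (p : ℝ)) ≤ ∏ p ∈ P2, (1 + (2 : ℝ) ^ (κ * (m + 1)) / p) :=
    prod_mono_pow P2 _ _ (Nat.le_mul_of_pos_right _ (by omega))
  have hW2 : ∏ p ∈ P2, (1 + (2 : ℝ) ^ (κ * m) / p) ≤ ∏ p ∈ P2, (1 + (2 : ℝ) ^ (κ * (m + 1)) / p) :=
    prod_mono_pow P2 _ _ (Nat.mul_le_mul_left _ (by omega))
  set W : ℝ := ∏ p ∈ P2, (1 + (2 : ℝ) ^ (κ * (m + 1)) / p) with hW
  have hW0 : 0 ≤ W := by rw [hW]; exact prod_nonneg fun p _ => by positivity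
  have h1 : ∀ V ∈ Fintype.piFinset (fun _ : Fin m => U),
      ∑ u ∈ U, (∏ i, c (i0.insertNth (α := fun _ => ι) u V i)) *
        tauA (pos w D f) (fun x => s (i0.insertNth (α := fun _ => ι) u V x.1) x.2) =
      (∏ i, c (V i)) * tauA (pos w D (fun i => f (i0.succAbove i))) (fun x => s (V x.1) x.2) *
        ∑ u ∈ U.filter (fun u => Disjoint (su s u) (univ.biUnion fun i => su s (V i))),
          c u * ∏ p ∈ su s u, (1 / (p : ℝ)) := by
    intro V _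
    rw [mul_sum, sum_filter]
    apply sum_congr rfl
    intro u hu
    rw [tauK_insertNth i0 w f hf s u (hdis u hu) V, Fin.prod_univ_succAbove _ i0]
    simp only [Fin.insertNth_apply_same, Fin.insertNth_apply_succAbove]
    split_ifs
    · ring
    · ring
  rw [sum_congr rfl h1]
  have h2 : ∀ V ∈ Fintype.piFinset (fun _ : Fin m => U),
      |(∏ i, c (V i)) * tauA (pos w D (fun i => f (i0.succAbove i))) (fun x => s (V x.1) x.2) *
        ∑ u ∈ U.filter (fun u => Disjoint (su s u) (univ.biUnion fun i => su s (V i))),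
          c u * ∏ p ∈ su s u, (1 / (p : ℝ))| ≤
      K ^ m * tauA (pos w D (fun i => f (i0.succAbove i))) (fun x => s (V x.1) x.2) *
        (K * (((m + 1 : ℕ) : ℝ) * M0 * (2 ^ κ / z1)) * W) := by
    intro V hV
    rw [Fintype.mem_piFinset] at hV
    rw [abs_mul, abs_mul, abs_of_nonneg (tauA_nonneg _ _)]
    have h3 : |∏ i, c (V i)| ≤ K ^ m := by
      rw [abs_prod]
      calc ∏ i, |c (V i)| ≤ ∏ _i : Fin m, K := prod_le_prod (fun _ _ => abs_nonneg _) fun i _ => hc _ (hV i)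
        _ = K ^ m := by rw [prod_const, card_univ, Fintype.card_fin]
    have h4 := mean_meetK P2 U s c K z1 hK hz1 hP2 hs hinj κ hκ hc hmean (univ.biUnion fun i => su s (V i))
    have h5 : ((univ.biUnion fun i => su s (V i)).card : ℝ) ≤ ((m + 1 : ℕ) : ℝ) * M0 := by
      have h6 : (univ.biUnion fun i => su s (V i)).card ≤ (m + 1) * M0 := by
        refine card_biUnion_le.trans ?_
        calc ∑ i : Fin m, (su s (V i)).card ≤ ∑ _i : Fin m, M0 := sum_le_sum fun i _ => hM0 _ (hV i)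
          _ = m * M0 := by rw [sum_const, card_univ, Fintype.card_fin, smul_eq_mul]
          _ ≤ (m + 1) * M0 := Nat.mul_le_mul_right _ (by omega)
      exact_mod_cast h6
    apply mul_le_mul (mul_le_mul_of_nonneg_right h3 (tauA_nonneg _ _)) _ (abs_nonneg _)
      (mul_nonneg (by positivity) (tauA_nonneg _ _))
    refine h4.trans ?_
    apply mul_le_mul _ hW1 (prod_nonneg fun p _ => by positivity) (by positivity)
    apply mul_le_mul_of_nonneg_left _ hK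
    exact mul_le_mul_of_nonneg_right h5 (by positivity)
  refine (abs_sum_le_sum_abs _ _).trans ((sum_le_sum h2).trans ?_)
  rw [← sum_mul, ← mul_sum]
  have h7 := (tauK_sum P2 m (pos w D (fun i => f (i0.succAbove i))) U s hs hinj κ hκ (Or.inr hne)).trans hW2
  calc K ^ m * (∑ V ∈ Fintype.piFinset (fun _ : Fin m => U),
        tauA (pos w D (fun i => f (i0.succAbove i))) (fun x => s (V x.1) x.2)) *
        (K * (((m + 1 : ℕ) : ℝ) * M0 * (2 ^ κ / z1)) * W) ≤ K ^ m * W * (K * (((m + 1 : ℕ) : ℝ) * M0 * (2 ^ κ / z1)) * W) := by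
        gcongr
    _ = _ := by ring

/-- the same, for a tuple of any length -/
theorem TK_single' (P2 : Finset ℕ) (w : ℕ) (U : Finset ι) (s : ι → D → Finset ℕ) (c : ι → ℝ) (K z1 : ℝ) (hK : 0 ≤ K)
    (hz1 : 0 < z1) (hP2 : ∀ p ∈ P2, z1 ≤ p) (hs : ∀ u ∈ U, ∀ d, s u d ⊆ P2)
    (hinj : ∀ u ∈ U, ∀ u' ∈ U, s u = s u' → u = u') (hdis : ∀ u ∈ U, ∀ d d' : D, d ≠ d' → Disjoint (s u d) (s u d'))
    (κ : ℕ) (hκ : D.card ≤ κ) (hne : D.Nonempty) (M0 : ℕ) (hM0 : ∀ u ∈ U, (su s u).card ≤ M0)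
    (hc : ∀ u ∈ U, |c u| ≤ K) (hmean : ∑ u ∈ U, c u * ∏ p ∈ su s u, (1 / (p : ℝ)) = 0) (n : ℕ) (f : Fin n → ℕ)
    (i0 : Fin n) (hf : ∀ j, j ≠ i0 → ¬ nb w D (f i0) (f j)) :
    |∑ V ∈ Fintype.piFinset (fun _ : Fin n => U), (∏ i, c (V i)) * tauA (pos w D f) (fun x => s (V x.1) x.2)| ≤
      K ^ n * ((n : ℝ) * M0 * 2 ^ κ / z1) * (∏ p ∈ P2, (1 + (2 : ℝ) ^ (κ * n) / p)) ^ 2 := by
  obtain ⟨m, rfl⟩ : ∃ m, n = m + 1 := ⟨n - 1, by have := i0.pos; omega⟩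
  refine TK_single P2 w U s c K z1 hK hz1 hP2 hs hinj hdis κ hκ hne M0 hM0 hc hmean m f i0 ?_
  intro i d d' h
  apply hf _ (Fin.succAbove_ne i0 i)
  exact ⟨w * f i0 + d', mem_pt.2 ⟨d', d'.2, rfl⟩, mem_pt.2 ⟨d, d.2, h⟩⟩

/-- the sum over all weights, in general -/
theorem TK_all (P2 : Finset ℕ) (w : ℕ) (U : Finset ι) (s : ι → D → Finset ℕ) (c : ι → ℝ) (K : ℝ) (hK : 0 ≤ K)
    (hs : ∀ u ∈ U, ∀ d, s u d ⊆ P2) (hinj : ∀ u ∈ U, ∀ u' ∈ U, s u = s u' → u = u')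
    (κ : ℕ) (hκ : D.card ≤ κ) (hne : D.Nonempty)
    (hc : ∀ u ∈ U, |c u| ≤ K) (n : ℕ) (f : Fin n → ℕ) :
    |∑ V ∈ Fintype.piFinset (fun _ : Fin n => U), (∏ i, c (V i)) * tauA (pos w D f) (fun x => s (V x.1) x.2)| ≤
      K ^ n * ∏ p ∈ P2, (1 + (2 : ℝ) ^ (κ * n) / p) := by
  classical
  refine (abs_sum_le_sum_abs _ _).trans ?_
  calc ∑ V ∈ Fintype.piFinset (fun _ : Fin n => U), |(∏ i, c (V i)) * tauA (pos w D f) (fun x => s (V x.1) x.2)|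
      ≤ ∑ V ∈ Fintype.piFinset (fun _ : Fin n => U), K ^ n * tauA (pos w D f) (fun x => s (V x.1) x.2) := by
        apply sum_le_sum
        intro V hV
        rw [Fintype.mem_piFinset] at hV
        rw [abs_mul, abs_of_nonneg (tauA_nonneg _ _)]
        apply mul_le_mul_of_nonneg_right _ (tauA_nonneg _ _)
        rw [abs_prod]
        calc ∏ i, |c (V i)| ≤ ∏ _i : Fin n, K := prod_le_prod (fun _ _ => abs_nonneg _) fun i _ => hc _ (hV i)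
          _ = K ^ n := by rw [prod_const, card_univ, Fintype.card_fin]
    _ = K ^ n * ∑ V ∈ Fintype.piFinset (fun _ : Fin n => U), tauA (pos w D f) (fun x => s (V x.1) x.2) := by rw [mul_sum]
    _ ≤ _ := mul_le_mul_of_nonneg_left (tauK_sum P2 n (pos w D f) U s hs hinj κ hκ (Or.inr hne)) (by positivity)

end

/-- the moment bound -/
theorem thmK : ∃ C0 : ℕ, 1 ≤ C0 ∧ ∀ (ι : Type) (κ w : ℕ) (D : Finset ℕ) (b Jd y q r T k X M0 : ℕ)
    (P1 P2 S : Finset ℕ) (U : Finset ι)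
    (s : ι → D → Finset ℕ) (c : ι → ℝ) (K z1 : ℝ), 1 ≤ κ → D.card ≤ κ → D.Nonempty → 1 ≤ w →
    1 ≤ k → C0 * (κ * (2 * k)) ≤ b → 2 ≤ b → 4 * (κ * k) + 10 ≤ y →
    (∀ p ∈ P1, p.Prime ∧ y < p ∧ p ≤ 2 ^ 2 ^ Jd ∧ ¬ p ∣ q ∧ ¬ p ∣ w) → S ⊆ Icc 1 T →
    18 * (κ : ℝ) ^ 2 * WK D (P1.filter (fun p => T < p)) * T ≤ WK D (P1.filter (fun p => p ≤ T)) * y →
    20 * (κ : ℝ) ≤ S.card * WK D P1 → 0 < z1 → (∀ p ∈ P2, p.Prime ∧ Sep w T D p ∧ ¬ p ∣ q ∧ p ∉ P1 ∧ z1 ≤ p) → 0 ≤ K →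
    (∀ u ∈ U, ∀ d, s u d ⊆ P2) → (∀ u ∈ U, ∀ u' ∈ U, s u = s u' → u = u') →
    (∀ u ∈ U, ∀ d d' : D, d ≠ d' → Disjoint (s u d) (s u d')) → (∀ u ∈ U, (su s u).card ≤ M0) →
    (∀ u ∈ U, |c u| ≤ K) → ∑ u ∈ U, c u * ∏ p ∈ su s u, (1 / (p : ℝ)) = 0 →
    ∑ l ∈ Icc 1 X, YYK w q r P1 S U s c l ^ (2 * k) ≤
      X * (K ^ (2 * k) * (((k * κ ^ 2 : ℕ) : ℝ) ^ (2 * k) * (Real.exp 2 * (S.card * WK D P1) ^ k) *
          ∏ p ∈ P2, (1 + (2 : ℝ) ^ (κ * (2 * k)) / p) +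
        (S.card : ℝ) ^ (2 * k) * (((2 * k : ℕ) : ℝ) * M0 * 2 ^ κ / z1 * (∏ p ∈ P2, (1 + (2 : ℝ) ^ (κ * (2 * k)) / p)) ^ 2) +
        ((2 * k : ℕ) : ℝ) ^ (2 * k) * (Real.exp 2 * (S.card * WK D P1) ^ (2 * k)) *
          ((1 / 2) ^ b * ∏ p ∈ P2, (1 + (2 : ℝ) ^ (κ * (2 * k)) / p)))) +
      (S.card : ℝ) ^ (2 * k) * (U.card : ℝ) ^ (2 * k) * (K ^ (2 * k) *
        (((Jd : ℝ) + 2) * (((2 : ℝ) ^ 2 ^ Jd) ^ (10 * b)) ^ 2 + 3)) := by
  classical
  obtain ⟨C0, hC0, hcnt⟩ := cntA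
  refine ⟨C0, hC0, ?_⟩
  intro ι κ w D b Jd y q r T k X M0 P1 P2 S U s c K z1 hκ hDκ hDne hw hk hb hb2 hy hP1 hS hT hμ hz1 hP2 hK hs hinj
    hdis hM0 hc hmean
  have hκr : (1 : ℝ) ≤ κ := by exact_mod_cast hκ
  have hnu : ∀ p : ℕ, (nu p D : ℝ) ≤ κ := fun p => by exact_mod_cast (nu_le p D).trans hDκ
  have hP1' : ∀ p ∈ P1, p.Prime ∧ y < p ∧ ¬ p ∣ w ∧ (nu p D : ℝ) ≤ κ ∧ 2 * (κ : ℝ) ≤ p := by
    intro p hp
    obtain ⟨h1, h2, h3, h4, h5⟩ := hP1 p hp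
    refine ⟨h1, h2, h5, hnu p, ?_⟩
    have : 2 * κ ≤ p := by
      have : κ * 1 ≤ κ * k := Nat.mul_le_mul_left _ hk
      omega
    exact_mod_cast this
  set W : ℝ := ∏ p ∈ P2, (1 + (2 : ℝ) ^ (κ * (2 * k)) / p) with hW
  have hW0 : 0 ≤ W := by rw [hW]; exact prod_nonneg fun p _ => by positivity
  set E : ℝ := ((Jd : ℝ) + 2) * (((2 : ℝ) ^ 2 ^ Jd) ^ (10 * b)) ^ 2 + 3 with hE
  have hE0 : 0 ≤ E := by rw [hE]; positivity
  rw [YYK_pow]
  have hX0 : (0 : ℝ) ≤ X := Nat.cast_nonneg X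
  have hr : ∀ G, 0 ≤ rho P1 G := fun G => rho_nonneg P1 G fun p hp => (hP1 p hp).1.pos
  have hr1 : ∀ G, rho P1 G ≤ 1 := fun G => rho_le_one P1 G fun p hp => (hP1 p hp).1
  -- one term
  have hterm : ∀ f ∈ Fintype.piFinset (fun _ : Fin (2 * k) => S), ∀ V ∈ Fintype.piFinset (fun _ : Fin (2 * k) => U),
      (∏ i, c (V i)) * (NFa q r P1 X (pos w D f) (fun x => s (V x.1) x.2) : ℝ) ≤
        X * rho P1 (PT w D (univ.image f)) * ((∏ i, c (V i)) * tauA (pos w D f) (fun x => s (V x.1) x.2)) +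
        (K ^ (2 * k) * ((1 / 2) ^ b * (X * rho P1 (PT w D (univ.image f)))) *
          tauA (pos w D f) (fun x => s (V x.1) x.2) + K ^ (2 * k) * E) := by
    intro f hf V hV
    rw [Fintype.mem_piFinset] at hf hV
    have h1 := hcnt (Fin (2 * k) × D) b Jd y q r (κ * (2 * k)) X P1 (pos w D f) (fun x => s (V x.1) x.2) (by
        rw [Fintype.card_prod, Fintype.card_fin, Fintype.card_coe, mul_comm]
        exact Nat.mul_le_mul_right _ hDκ) hb hb2 (by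
        have e : 2 * (κ * (2 * k)) = 4 * (κ * k) := by ring
        rw [e]; exact hy) (fun p hp => ⟨(hP1 p hp).1, (hP1 p hp).2.1, (hP1 p hp).2.2.1, (hP1 p hp).2.2.2.1⟩)
      (fun x p hp => by
        have := hP2 p (hs _ (hV x.1) x.2 hp)
        exact ⟨this.1, fun x' => this.2.1 _ (hS (hf x.1)) _ (hS (hf x'.1)) _ x.2.2 _ x'.2.2, this.2.2.1, this.2.2.2.1⟩)
    rw [← hE, image_pos] at h1
    have h3 : |∏ i, c (V i)| ≤ K ^ (2 * k) := by
      rw [abs_prod]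
      calc ∏ i, |c (V i)| ≤ ∏ _i : Fin (2 * k), K := prod_le_prod (fun _ _ => abs_nonneg _) fun i _ => hc _ (hV i)
        _ = K ^ (2 * k) := by rw [prod_const, card_univ, Fintype.card_fin]
    set N : ℝ := (NFa q r P1 X (pos w D f) (fun x => s (V x.1) x.2) : ℝ)
    set ρ := rho P1 (PT w D (univ.image f))
    set t := tauA (pos w D f) (fun x => s (V x.1) x.2) with ht
    set Cc := ∏ i, c (V i)
    have ht0 : 0 ≤ t := tauA_nonneg _ _
    have h4 : Cc * (N - X * (ρ * t)) ≤ K ^ (2 * k) * ((1 / 2) ^ b * (X * (ρ * t)) + E) := by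
      calc Cc * (N - X * (ρ * t)) ≤ |Cc * (N - X * (ρ * t))| := le_abs_self _
        _ = |Cc| * |N - X * (ρ * t)| := abs_mul _ _
        _ ≤ K ^ (2 * k) * ((1 / 2) ^ b * (X * (ρ * t)) + E) :=
            mul_le_mul h3 h1 (abs_nonneg _) (by positivity)
    have e1 : Cc * N = X * ρ * (Cc * t) + Cc * (N - X * (ρ * t)) := by ring
    have e2 : K ^ (2 * k) * ((1 / 2) ^ b * (X * (ρ * t)) + E) =
        K ^ (2 * k) * ((1 / 2) ^ b * (X * ρ)) * t + K ^ (2 * k) * E := by ring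
    rw [e1, ← e2]
    linarith
  -- one tuple of positions
  have hf1 : ∀ f ∈ Fintype.piFinset (fun _ : Fin (2 * k) => S),
      ∑ V ∈ Fintype.piFinset (fun _ : Fin (2 * k) => U),
        (∏ i, c (V i)) * (NFa q r P1 X (pos w D f) (fun x => s (V x.1) x.2) : ℝ) ≤
      X * ((if Cl w D f then rho P1 (PT w D (univ.image f)) * (K ^ (2 * k) * W) else 0) +
        K ^ (2 * k) * (((2 * k : ℕ) : ℝ) * M0 * 2 ^ κ / z1) * W ^ 2 +
          rho P1 (PT w D (univ.image f)) * (K ^ (2 * k) * ((1 / 2) ^ b * W))) +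
        (U.card : ℝ) ^ (2 * k) * (K ^ (2 * k) * E) := by
    intro f hf
    refine (sum_le_sum (hterm f hf)).trans ?_
    rw [sum_add_distrib, sum_add_distrib, ← mul_sum, ← mul_sum, sum_const, nsmul_eq_mul, Fintype.card_piFinset,
      prod_const, card_univ, Fintype.card_fin]
    push_cast
    set ρ := rho P1 (PT w D (univ.image f))
    have hρ0 : 0 ≤ ρ := hr _
    have hρ1 : ρ ≤ 1 := hr1 _
    have ht := tauK_sum P2 (2 * k) (pos w D f) U s hs hinj κ hDκ (Or.inr hDne)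
    rw [← hW] at ht
    have h1 : K ^ (2 * k) * ((1 / 2) ^ b * (X * ρ)) * ∑ V ∈ Fintype.piFinset (fun _ : Fin (2 * k) => U),
        tauA (pos w D f) (fun x => s (V x.1) x.2) ≤ X * (ρ * (K ^ (2 * k) * ((1 / 2) ^ b * W))) := by
      calc _ ≤ K ^ (2 * k) * ((1 / 2) ^ b * (X * ρ)) * W := by
            apply mul_le_mul_of_nonneg_left ht
            have : 0 ≤ X * ρ := mul_nonneg hX0 hρ0
            positivity
        _ = _ := by ring
    have h2 : X * ρ * ∑ V ∈ Fintype.piFinset (fun _ : Fin (2 * k) => U),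
        (∏ i, c (V i)) * tauA (pos w D f) (fun x => s (V x.1) x.2) ≤
        X * ((if Cl w D f then ρ * (K ^ (2 * k) * W) else 0) + K ^ (2 * k) * ((2 * (k : ℝ)) * M0 * 2 ^ κ / z1) * W ^ 2) := by
      have hXρ : 0 ≤ X * ρ := mul_nonneg hX0 hρ0
      by_cases hd : Cl w D f
      · rw [if_pos hd]
        have h3 := (le_abs_self _).trans (TK_all P2 w U s c K hK hs hinj κ hDκ hDne hc (2 * k) f)
        rw [← hW] at h3
        have h4 : 0 ≤ X * (K ^ (2 * k) * ((2 * (k : ℝ)) * M0 * 2 ^ κ / z1) * W ^ 2) := by positivity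
        calc _ ≤ X * ρ * (K ^ (2 * k) * W) := mul_le_mul_of_nonneg_left h3 hXρ
          _ ≤ _ := by
            rw [mul_add]
            have : X * ρ * (K ^ (2 * k) * W) = X * (ρ * (K ^ (2 * k) * W)) := by ring
            linarith
      · rw [if_neg hd, zero_add]
        unfold Cl at hd
        push Not at hd
        obtain ⟨i0, hi0⟩ := hd
        have h3 := TK_single' P2 w U s c K z1 hK hz1 (fun p hp => (hP2 p hp).2.2.2.2) hs hinj hdis κ hDκ hDne M0 hM0 hc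
          hmean (2 * k) f i0 hi0
        rw [← hW] at h3
        push_cast at h3
        have h4 := (le_abs_self _).trans h3
        have h5 : 0 ≤ K ^ (2 * k) * ((2 * (k : ℝ)) * M0 * 2 ^ κ / z1) * W ^ 2 := by positivity
        calc _ ≤ X * ρ * (K ^ (2 * k) * ((2 * (k : ℝ)) * M0 * 2 ^ κ / z1) * W ^ 2) := mul_le_mul_of_nonneg_left h4 hXρ
          _ ≤ X * 1 * (K ^ (2 * k) * ((2 * (k : ℝ)) * M0 * 2 ^ κ / z1) * W ^ 2) := by gcongr
          _ = _ := by ring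
    have e3 : X * ((if Cl w D f then ρ * (K ^ (2 * k) * W) else 0) + K ^ (2 * k) * ((2 * (k : ℝ)) * M0 * 2 ^ κ / z1) * W ^ 2 +
        ρ * (K ^ (2 * k) * ((1 / 2) ^ b * W))) = X * ((if Cl w D f then ρ * (K ^ (2 * k) * W) else 0) +
        K ^ (2 * k) * ((2 * (k : ℝ)) * M0 * 2 ^ κ / z1) * W ^ 2) + X * (ρ * (K ^ (2 * k) * ((1 / 2) ^ b * W))) := by ring
    rw [e3]
    linarith
  refine (sum_le_sum hf1).trans ?_
  rw [sum_add_distrib, ← mul_sum, sum_add_distrib, sum_add_distrib, sum_const, sum_const, nsmul_eq_mul,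
    nsmul_eq_mul, Fintype.card_piFinset, prod_const, card_univ, Fintype.card_fin, ← sum_filter, ← sum_mul, ← sum_mul]
  have h5 := rho_cl w hw D P1 S (fun p hp => (hP1 p hp).1) k κ hDκ
  have h6 := rho_smallK κ hκr w D P1 S y T (by omega) hS hP1' hT k hμ
  have h5' := rho_allK w D P1 S (fun p hp => (hP1 p hp).1) (2 * k)
  have h6' := rho_smallK κ hκr w D P1 S y T (by omega) hS hP1' hT (2 * k) hμ
  have h7 : ∑ f ∈ (Fintype.piFinset (fun _ : Fin (2 * k) => S)).filter (Cl w D), rho P1 (PT w D (univ.image f)) ≤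
      ((k * κ ^ 2 : ℕ) : ℝ) ^ (2 * k) * (Real.exp 2 * (S.card * WK D P1) ^ k) :=
    h5.trans (mul_le_mul_of_nonneg_left h6 (by positivity))
  have h7' : ∑ f ∈ Fintype.piFinset (fun _ : Fin (2 * k) => S), rho P1 (PT w D (univ.image f)) ≤
      ((2 * k : ℕ) : ℝ) ^ (2 * k) * (Real.exp 2 * (S.card * WK D P1) ^ (2 * k)) :=
    h5'.trans (mul_le_mul_of_nonneg_left h6' (by positivity))
  have h8 : X * ((∑ f ∈ (Fintype.piFinset (fun _ : Fin (2 * k) => S)).filter (Cl w D), rho P1 (PT w D (univ.image f))) *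
      (K ^ (2 * k) * W)) ≤
      X * (((k * κ ^ 2 : ℕ) : ℝ) ^ (2 * k) * (Real.exp 2 * (S.card * WK D P1) ^ k) * (K ^ (2 * k) * W)) := by
    apply mul_le_mul_of_nonneg_left _ hX0
    exact mul_le_mul_of_nonneg_right h7 (by positivity)
  have h8' : X * ((∑ f ∈ Fintype.piFinset (fun _ : Fin (2 * k) => S), rho P1 (PT w D (univ.image f))) *
      (K ^ (2 * k) * ((1 / 2) ^ b * W))) ≤
      X * (((2 * k : ℕ) : ℝ) ^ (2 * k) * (Real.exp 2 * (S.card * WK D P1) ^ (2 * k)) * (K ^ (2 * k) * ((1 / 2) ^ b * W))) := by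
    apply mul_le_mul_of_nonneg_left _ hX0
    exact mul_le_mul_of_nonneg_right h7' (by positivity)
  push_cast at h8 h8' ⊢
  rw [mul_add, mul_add]
  calc _ ≤ X * (((k : ℝ) * κ ^ 2) ^ (2 * k) * (Real.exp 2 * (S.card * WK D P1) ^ k) * (K ^ (2 * k) * W)) +
        X * ((S.card : ℝ) ^ (2 * k) * (K ^ (2 * k) * (2 * (k : ℝ) * M0 * 2 ^ κ / z1) * W ^ 2)) +
        X * ((2 * (k : ℝ)) ^ (2 * k) * (Real.exp 2 * (S.card * WK D P1) ^ (2 * k)) * (K ^ (2 * k) * ((1 / 2) ^ b * W))) +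
        (S.card : ℝ) ^ (2 * k) * ((U.card : ℝ) ^ (2 * k) * (K ^ (2 * k) * E)) := by
        gcongr
    _ = _ := by ring

end Pool.Agent.H36.KT
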