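import Mathlib
import Pool.Agent.H36.KT.Mean
import Pool.Agent.H36.KT.MomB
import Pool.Agent.H36.BF.Dev
import Pool.Agent.H36.BT.Two

/-!
Sieve functions of the product of the shifted elements, written as sums over labelings.
-/

set_option autoImplicit false

open Finset

namespace Pool.Agent.H36.KT

open Pool.Agent.Helper112.LP Pool.Agent.Helper112.LP.Kba Pool.Agent.Helper112.LP.Kbh
open Pool.Agent.H483R2.BHKD Pool.Agent.H20R2.FL Pool.Agent.H36.RW Pool.Agent.H373R2.T7 Pool.Agent.H36.BF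
open Pool.Agent.H36.BT

section

variable (D : Finset ℕ)

open Classical in
/-- the labelings of `V` by the elements of `D` -/
noncomputable def Lab (V : Finset ℕ) : Finset (D → Finset ℕ) :=
  (Fintype.piFinset (fun _ : D => V.powerset)).filter
    (fun W => (∀ d d' : D, d ≠ d' → Disjoint (W d) (W d')) ∧ univ.biUnion W = V)

variable {D}

lemma mem_Lab {V : Finset ℕ} {W : D → Finset ℕ} :
    W ∈ Lab D V ↔ (∀ d d' : D, d ≠ d' → Disjoint (W d) (W d')) ∧ univ.biUnion W = V := by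
  classical
  unfold Lab
  rw [mem_filter, Fintype.mem_piFinset]
  constructor
  · exact fun h => h.2
  · intro h
    refine ⟨fun d => ?_, h⟩
    rw [mem_powerset, ← h.2]
    exact subset_biUnion_of_mem W (mem_univ d)

lemma card_Lab (V : Finset ℕ) : (Lab D V).card = D.card ^ V.card := by
  classical
  have h1 : (Lab D V).card = (univ : Finset (V → D)).card := by
    symm
    apply card_bij (fun (g : V → D) _ (d : D) => (univ.filter (fun p : V => g p = d)).image Subtype.val)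
    · intro g _
      rw [mem_Lab]
      constructor
      · intro d d' hne
        rw [disjoint_left]
        intro p hp hp'
        rw [mem_image] at hp hp'
        obtain ⟨x, hx, rfl⟩ := hp
        obtain ⟨x', hx', h⟩ := hp'
        rw [mem_filter] at hx hx'
        have : x' = x := Subtype.ext h
        subst this
        exact hne (hx.2.symm.trans hx'.2)
      · ext p
        simp only [mem_biUnion, mem_univ, true_and, mem_image, mem_filter]
        constructor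
        · rintro ⟨d, x, _, rfl⟩
          exact x.2
        · intro hp
          exact ⟨g ⟨p, hp⟩, ⟨p, hp⟩, rfl, rfl⟩
    · intro g _ g' _ h
      funext x
      have h2 : (x : ℕ) ∈ (univ.filter (fun p : V => g' p = g x)).image Subtype.val := by
        rw [← congrFun h (g x)]
        exact mem_image.2 ⟨x, mem_filter.2 ⟨mem_univ _, rfl⟩, rfl⟩
      rw [mem_image] at h2
      obtain ⟨x', hx', h3⟩ := h2
      have h4 : x' = x := Subtype.ext h3
      subst h4
      exact (mem_filter.1 hx').2.symm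
    · intro W hW
      rw [mem_Lab] at hW
      obtain ⟨h1, h2⟩ := hW
      have h3 : ∀ x : V, ∃ d : D, (x : ℕ) ∈ W d := by
        intro x
        have : (x : ℕ) ∈ univ.biUnion W := by rw [h2]; exact x.2
        obtain ⟨d, _, hd⟩ := mem_biUnion.1 this
        exact ⟨d, hd⟩
      choose g hg using h3
      refine ⟨g, mem_univ _, ?_⟩
      funext d
      ext p
      simp only [mem_image, mem_filter, mem_univ, true_and]
      constructor
      · rintro ⟨x, hx, rfl⟩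
        rw [← hx]
        exact hg x
      · intro hp
        have hpV : p ∈ V := by
          rw [← h2]
          exact mem_biUnion.2 ⟨d, mem_univ _, hp⟩
        refine ⟨⟨p, hpV⟩, ?_, rfl⟩
        by_contra hne
        exact disjoint_left.1 (h1 _ _ hne) (hg ⟨p, hpV⟩) hp
  rw [h1, card_univ, Fintype.card_fun, Fintype.card_coe, Fintype.card_coe]

/-- the product of the shifted elements -/
def PM (D : Finset ℕ) (m : ℕ) : ℕ := ∏ d ∈ D, (m + d)

lemma dvd_PM {p m : ℕ} (hp : p.Prime) : p ∣ PM D m ↔ ∃ d ∈ D, p ∣ m + d := by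
  unfold PM
  exact Prime.dvd_finsetProd_iff hp.prime _

open Classical in
/-- divisibility of the product, in terms of the labelings -/
lemma lab_sum (V : Finset ℕ) (hV : ∀ p ∈ V, p.Prime ∧ ∀ d ∈ D, ∀ d' ∈ D, (p : ℤ) ∣ (d : ℤ) - d' → d = d') (m : ℕ) :
    ∑ W ∈ Lab D V, (if ∀ d : D, ∀ p ∈ W d, p ∣ m + d then (1 : ℝ) else 0) = if ∀ p ∈ V, p ∣ PM D m then 1 else 0 := by
  have huniq : ∀ p ∈ V, ∀ d ∈ D, ∀ d' ∈ D, p ∣ m + d → p ∣ m + d' → d = d' := by
    intro p hp d hd d' hd' h1 h2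
    have h3 : (p : ℤ) ∣ (d : ℤ) - d' := by
      have a1 : (p : ℤ) ∣ ((m + d : ℕ) : ℤ) := Int.natCast_dvd_natCast.2 h1
      have a2 : (p : ℤ) ∣ ((m + d' : ℕ) : ℤ) := Int.natCast_dvd_natCast.2 h2
      have a3 := dvd_sub a1 a2
      have a4 : ((m + d : ℕ) : ℤ) - ((m + d' : ℕ) : ℤ) = (d : ℤ) - d' := by
        push_cast
        ring
      rwa [a4] at a3
    exact (hV p hp).2 d hd d' hd' h3
  by_cases h : ∀ p ∈ V, p ∣ PM D m
  · rw [if_pos h]
    -- the unique labeling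
    set W0 : D → Finset ℕ := fun d => V.filter (fun p => p ∣ m + d) with hW0
    have hW0mem : W0 ∈ Lab D V := by
      rw [mem_Lab]
      constructor
      · intro d d' hne
        rw [disjoint_left]
        intro p hp hp'
        rw [hW0, mem_filter] at hp hp'
        exact hne (Subtype.ext (huniq p hp.1 d d.2 d' d'.2 hp.2 hp'.2))
      · ext p
        rw [mem_biUnion]
        constructor
        · rintro ⟨d, _, hd⟩
          exact (mem_filter.1 hd).1
        · intro hp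
          obtain ⟨d, hd, h1⟩ := (dvd_PM (hV p hp).1).1 (h p hp)
          exact ⟨⟨d, hd⟩, mem_univ _, mem_filter.2 ⟨hp, h1⟩⟩
    rw [sum_eq_single W0]
    · rw [if_pos]
      intro d p hp
      exact (mem_filter.1 hp).2
    · intro W hW hne
      rw [if_neg]
      intro h1
      apply hne
      rw [mem_Lab] at hW
      funext d
      ext p
      rw [hW0, mem_filter]
      constructor
      · intro hp
        refine ⟨?_, h1 d p hp⟩
        rw [← hW.2]
        exact mem_biUnion.2 ⟨d, mem_univ _, hp⟩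
      · rintro ⟨hp, h2⟩
        have : p ∈ univ.biUnion W := by rw [hW.2]; exact hp
        obtain ⟨d', _, hd'⟩ := mem_biUnion.1 this
        have h3 := huniq p hp d d.2 d' d'.2 h2 (h1 d' p hd')
        have h4 : d = d' := Subtype.ext h3
        rw [h4]
        exact hd'
    · intro h1
      exact absurd hW0mem h1
  · rw [if_neg h]
    apply sum_eq_zero
    intro W hW
    rw [if_neg]
    intro h1
    apply h
    intro p hp
    rw [mem_Lab] at hW
    have : p ∈ univ.biUnion W := by rw [hW.2]; exact hp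
    obtain ⟨d, _, hd⟩ := mem_biUnion.1 this
    exact (dvd_PM (hV p hp).1).2 ⟨d, d.2, h1 d p hd⟩

end

section

variable (b J : ℕ) (P : Finset ℕ)

/-- the sets of primes -/
noncomputable def VV : Finset (Finset ℕ) := by
  classical exact (UU b J P).image bhU

lemma mem_VV {V : Finset ℕ} : V ∈ VV b J P ↔ ∃ T ∈ UU b J P, bhU T = V := by
  classical
  unfold VV
  rw [mem_image]

lemma grp_bhU {T : Fin J → Finset ℕ} (hT : T ∈ UU b J P) : grp J (bhU T) = T := by
  funext i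
  ext p
  unfold grp
  rw [mem_filter]
  constructor
  · rintro ⟨h1, h2⟩
    unfold bhU at h1
    obtain ⟨j, _, hj⟩ := mem_biUnion.1 h1
    have := bh_Gj_disj h2 (UU_G b J P hT j hj)
    have hij : i = j := Fin.ext this
    rw [hij]; exact hj
  · intro h
    exact ⟨by unfold bhU; exact mem_biUnion.2 ⟨i, mem_univ _, h⟩, UU_G b J P hT i h⟩

open Classical in
/-- centred coefficients -/
noncomputable def cV (κ : ℕ) (C : Fin J → Finset ℕ → ℝ) (V : Finset ℕ) : ℝ :=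
  ∏ i, C i (grp J V i) - if V = ∅ then wmK κ (FF b J P) C else 0

lemma cV_abs (κ : ℕ) (C : Fin J → Finset ℕ → ℝ) (hC : ∀ i V, |C i V| ≤ 1) (hw : |wmK κ (FF b J P) C| ≤ 2)
    (V : Finset ℕ) : |cV b J P κ C V| ≤ 3 := by
  unfold cV
  have h1 : |∏ i, C i (grp J V i)| ≤ 1 := by
    rw [abs_prod]
    exact prod_le_one (fun _ _ => abs_nonneg _) (fun i _ => hC i _)
  split_ifs
  · have := abs_sub (∏ i, C i (grp J V i)) (wmK κ (FF b J P) C)
    linarith
  · rw [sub_zero]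
    linarith

lemma bhU_inj' : Set.InjOn (fun T : Fin J → Finset ℕ => bhU T) (↑(UU b J P) : Set (Fin J → Finset ℕ)) := by
  intro T hT T' hT' h
  exact UU_inj b J P hT hT' h

lemma empty_VV : (∅ : Finset ℕ) ∈ VV b J P := by
  rw [mem_VV]
  refine ⟨_, empty_mem b J P, ?_⟩
  unfold bhU
  ext x
  simp

lemma sum_VV (F : Finset ℕ → ℝ) : ∑ V ∈ VV b J P, F V = ∑ T ∈ UU b J P, F (bhU T) := by
  classical
  unfold VV
  exact sum_image (bhU_inj' b J P)

lemma cV_mean (κ : ℕ) (C : Fin J → Finset ℕ → ℝ) :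
    ∑ V ∈ VV b J P, cV b J P κ C V * ∏ p ∈ V, ((κ : ℝ) / (p : ℝ)) = 0 := by
  classical
  unfold cV
  simp only [sub_mul]
  rw [sum_sub_distrib]
  have h1 : ∑ V ∈ VV b J P, (∏ i, C i (grp J V i)) * ∏ p ∈ V, ((κ : ℝ) / (p : ℝ)) = wmK κ (FF b J P) C := by
    rw [sum_VV]
    unfold wmK
    rw [prod_univ_sum]
    apply sum_congr rfl
    intro T hT
    rw [grp_bhU b J P hT, prod_mul_distrib, bh_pT_eq T (UU_G b J P hT) (fun l => (κ : ℝ) / (l : ℝ))]
  have h2 : ∑ V ∈ VV b J P, (if V = ∅ then wmK κ (FF b J P) C else 0) * ∏ p ∈ V, ((κ : ℝ) / (p : ℝ)) =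
      wmK κ (FF b J P) C := by
    rw [sum_eq_single ∅]
    · rw [if_pos rfl, prod_empty, mul_one]
    · intro T _ hT
      rw [if_neg hT, zero_mul]
    · intro h
      exact absurd (empty_VV b J P) h
  rw [h1, h2, sub_self]

open Classical in
lemma sum_cV (κ : ℕ) (C : Fin J → Finset ℕ → ℝ) (m : ℕ) :
    ∑ V ∈ VV b J P, (if ∀ p ∈ V, p ∣ m then cV b J P κ C V else 0) = GG (FF b J P) C m - wmK κ (FF b J P) C := by
  unfold cV
  have h1 : ∀ V ∈ VV b J P, (if ∀ p ∈ V, p ∣ m then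
      ∏ i, C i (grp J V i) - (if V = ∅ then wmK κ (FF b J P) C else 0) else 0) =
      (if ∀ p ∈ V, p ∣ m then ∏ i, C i (grp J V i) else 0) - if V = ∅ then wmK κ (FF b J P) C else 0 := by
    intro V _
    by_cases h : ∀ p ∈ V, p ∣ m
    · rw [if_pos h, if_pos h]
    · rw [if_neg h, if_neg h]
      have : V ≠ ∅ := by
        intro h2
        apply h
        intro p hp
        rw [h2] at hp
        simp at hp
      rw [if_neg this, sub_zero]
  rw [sum_congr rfl h1, sum_sub_distrib]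
  congr 1
  · rw [sum_VV]
    unfold GG
    rw [prod_univ_sum]
    apply sum_congr rfl
    intro T hT
    rw [grp_bhU b J P hT, Fintype.prod_ite_zero]
    by_cases h : ∀ p ∈ bhU T, p ∣ m
    · rw [if_pos h, if_pos ((all_bhU T (fun l => l ∣ m)).2 h)]
    · rw [if_neg h, if_neg (fun h' => h ((all_bhU T (fun l => l ∣ m)).1 h'))]
  · rw [sum_ite_eq' (VV b J P) ∅ (fun _ => wmK κ (FF b J P) C), if_pos (empty_VV b J P)]

variable (D : Finset ℕ)

open Classical in
/-- the index set -/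
noncomputable def UD : Finset (D → Finset ℕ) := (VV b J P).biUnion (fun V => Lab D V)

lemma mem_UD {W : D → Finset ℕ} : W ∈ UD b J P D ↔ (∀ d d' : D, d ≠ d' → Disjoint (W d) (W d')) ∧
    univ.biUnion W ∈ VV b J P := by
  classical
  unfold UD
  rw [mem_biUnion]
  constructor
  · rintro ⟨V, hV, hW⟩
    rw [mem_Lab] at hW
    exact ⟨hW.1, hW.2 ▸ hV⟩
  · rintro ⟨h1, h2⟩
    exact ⟨_, h2, mem_Lab.2 ⟨h1, rfl⟩⟩

lemma sum_UD (F : (D → Finset ℕ) → ℝ) : ∑ W ∈ UD b J P D, F W = ∑ V ∈ VV b J P, ∑ W ∈ Lab D V, F W := by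
  classical
  unfold UD
  apply sum_biUnion
  intro V _ V' _ hne
  rw [Function.onFun, disjoint_left]
  intro W hW hW'
  rw [mem_Lab] at hW hW'
  exact hne (hW.2.symm.trans hW'.2)

lemma UD_VV {W : D → Finset ℕ} (hW : W ∈ UD b J P D) : ∃ T ∈ UU b J P, bhU T = univ.biUnion W :=
  (mem_VV b J P).1 ((mem_UD b J P D).1 hW).2

lemma card_UD (κ M0 : ℕ) (hκ : D.card ≤ κ) (hκ1 : 1 ≤ κ) (hb : 1 ≤ b) (hP : ∀ p ∈ P, p.Prime)
    (hM0 : ∀ T ∈ UU b J P, (bhU T).card ≤ M0) :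
    ((UD b J P D).card : ℝ) ≤ ((2 : ℝ) ^ 2 ^ J) ^ (10 * b) * (κ : ℝ) ^ M0 := by
  classical
  have h1 : (UD b J P D).card ≤ (2 ^ 2 ^ J) ^ (10 * b) * κ ^ M0 := by
    unfold UD
    refine card_biUnion_le.trans ?_
    calc ∑ V ∈ VV b J P, (Lab D V).card ≤ ∑ _V ∈ VV b J P, κ ^ M0 := by
          apply sum_le_sum
          intro V hV
          obtain ⟨T, hT, rfl⟩ := (mem_VV b J P).1 hV
          rw [card_Lab]
          calc D.card ^ (bhU T).card ≤ κ ^ (bhU T).card := Nat.pow_le_pow_left hκ _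
            _ ≤ κ ^ M0 := Nat.pow_le_pow_right hκ1 (hM0 T hT)
      _ = (VV b J P).card * κ ^ M0 := by rw [sum_const, smul_eq_mul]
      _ ≤ (2 ^ 2 ^ J) ^ (10 * b) * κ ^ M0 := by
          apply Nat.mul_le_mul_right
          unfold VV
          exact card_image_le.trans (UU_cardU b J P hb hP)
  exact_mod_cast h1

/-- the weights are the centred sieve functions -/
lemma LamK_eq (hP : ∀ p ∈ P, p.Prime ∧ ∀ d ∈ D, ∀ d' ∈ D, (p : ℤ) ∣ (d : ℤ) - d' → d = d') (κ : ℕ) (C : Fin J → Finset ℕ → ℝ)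
    (m : ℕ) :
    LamK (UD b J P D) (fun W => W) (fun W => cV b J P κ C (univ.biUnion W)) m =
      GG (FF b J P) C (PM D m) - wmK κ (FF b J P) C := by
  classical
  unfold LamK
  rw [sum_UD, ← sum_cV]
  apply sum_congr rfl
  intro V hV
  have hVP : ∀ p ∈ V, p.Prime ∧ ∀ d ∈ D, ∀ d' ∈ D, (p : ℤ) ∣ (d : ℤ) - d' → d = d' := by
    obtain ⟨T, hT, rfl⟩ := (mem_VV b J P).1 hV
    exact fun p hp => hP p (UU_bhU b J P hT hp)
  have h1 : ∀ W ∈ Lab D V, (if ∀ d : D, ∀ p ∈ W d, p ∣ m + d then cV b J P κ C (univ.biUnion W) else 0) =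
      cV b J P κ C V * (if ∀ d : D, ∀ p ∈ W d, p ∣ m + d then (1 : ℝ) else 0) := by
    intro W hW
    rw [(mem_Lab.1 hW).2]
    split_ifs <;> simp
  rw [sum_congr rfl h1, ← mul_sum, lab_sum V hVP m]
  split_ifs <;> simp

lemma UD_mean (κ : ℕ) (hκ : D.card = κ) (C : Fin J → Finset ℕ → ℝ) :
    ∑ W ∈ UD b J P D, cV b J P κ C (univ.biUnion W) * ∏ p ∈ su (fun W : D → Finset ℕ => W) W, (1 / (p : ℝ)) = 0 := by
  classical
  rw [sum_UD, ← cV_mean b J P κ C]
  apply sum_congr rfl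
  intro V _
  have h1 : ∀ W ∈ Lab D V, cV b J P κ C (univ.biUnion W) * ∏ p ∈ su (fun W : D → Finset ℕ => W) W, (1 / (p : ℝ)) =
      cV b J P κ C V * ∏ p ∈ V, (1 / (p : ℝ)) := by
    intro W hW
    have : su (fun W : D → Finset ℕ => W) W = V := (mem_Lab.1 hW).2
    rw [this, (mem_Lab.1 hW).2]
  rw [sum_congr rfl h1, sum_const, card_Lab, nsmul_eq_mul, hκ]
  have h2 : ∏ p ∈ V, ((κ : ℝ) / (p : ℝ)) = (κ : ℝ) ^ V.card * ∏ p ∈ V, (1 / (p : ℝ)) := by
    rw [← prod_const, ← prod_mul_distrib]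
    apply prod_congr rfl
    intro p _
    ring
  rw [h2]
  push_cast
  ring

end

/-- the bound for the moment -/
noncomputable def MK (κ k X b1 Jd b J J' : ℕ) (D S P1 P2 : Finset ℕ) (z1 : ℝ) : ℝ :=
  X * (3 ^ (2 * k) * (((k * κ ^ 2 : ℕ) : ℝ) ^ (2 * k) * (Real.exp 2 * (S.card * WK D P1) ^ k) *
          ∏ p ∈ P2, (1 + (2 : ℝ) ^ (κ * (2 * k)) / p) +
        (S.card : ℝ) ^ (2 * k) * (((2 * k : ℕ) : ℝ) * ((J' * (2 * b + 2 * J' + 1) : ℕ) : ℝ) * 2 ^ κ / z1 *
          (∏ p ∈ P2, (1 + (2 : ℝ) ^ (κ * (2 * k)) / p)) ^ 2) +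
        ((2 * k : ℕ) : ℝ) ^ (2 * k) * (Real.exp 2 * (S.card * WK D P1) ^ (2 * k)) *
          ((1 / 2) ^ b1 * ∏ p ∈ P2, (1 + (2 : ℝ) ^ (κ * (2 * k)) / p)))) +
      (S.card : ℝ) ^ (2 * k) * (((2 : ℝ) ^ 2 ^ J) ^ (10 * b) * (κ : ℝ) ^ (J' * (2 * b + 2 * J' + 1))) ^ (2 * k) *
        (3 ^ (2 * k) * (((Jd : ℝ) + 2) * (((2 : ℝ) ^ 2 ^ Jd) ^ (10 * b1)) ^ 2 + 3))

/-- deviation of one sieve function -/
theorem devK : ∃ C0 : ℕ, 1 ≤ C0 ∧ ∀ (κ w : ℕ) (D : Finset ℕ) (b1 Jd y q r T k X b J J' : ℕ) (P1 P2 S : Finset ℕ)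
    (C : Fin J → Finset ℕ → ℝ) (z1 ε : ℝ), 1 ≤ κ → D.card = κ → 1 ≤ w →
    1 ≤ k → C0 * (κ * (2 * k)) ≤ b1 → 2 ≤ b1 → 4 * (κ * k) + 10 ≤ y →
    (∀ p ∈ P1, p.Prime ∧ y < p ∧ p ≤ 2 ^ 2 ^ Jd ∧ ¬ p ∣ q ∧ ¬ p ∣ w) → S ⊆ Icc 1 T →
    18 * (κ : ℝ) ^ 2 * WK D (P1.filter (fun p => T < p)) * T ≤ WK D (P1.filter (fun p => p ≤ T)) * y →
    20 * (κ : ℝ) ≤ S.card * WK D P1 → 0 < z1 → (∀ p ∈ P2, p.Prime ∧ Sep w T D p ∧ ¬ p ∣ q ∧ p ∉ P1 ∧ z1 ≤ p) → 1 ≤ b →
    (∀ i : Fin J, (grp J P2 i).Nonempty → J ≤ J' + (i : ℕ)) →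
    (∀ i V, |C i V| ≤ 1) → |wmK κ (FF b J P2) C| ≤ 2 → 0 < ε →
    (((Icc 1 X).filter (fun l => ε < |∑ h ∈ S.filter (fun h => ∀ p ∈ P1, ∀ g ∈ pt w D h, ¬ p ∣ q * l + r + g),
      GG (FF b J P2) C (PM D (q * l + r + w * h)) - wmK κ (FF b J P2) C * XXK w D q r P1 S l|)).card : ℝ) *
        ε ^ (2 * k) ≤ MK κ k X b1 Jd b J J' D S P1 P2 z1 := by
  classical
  obtain ⟨C0, hC0, hB⟩ := thmK
  refine ⟨C0, hC0, ?_⟩
  intro κ w D b1 Jd y q r T k X b J J' P1 P2 S C z1 ε hκ hDκ hw hk hb hb2 hy hP1 hS hT hμ hz1 hP2 hb0 hJ' hC hwm hε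
  have hDne : D.Nonempty := card_pos.1 (by omega)
  have hT1 : 1 ≤ T := by
    by_contra h0
    have h1 : S = ∅ := by
      rw [← subset_empty]
      refine hS.trans ?_
      rw [show T = 0 by omega]
      simp
    rw [h1, card_empty] at hμ
    have : (1 : ℝ) ≤ κ := by exact_mod_cast hκ
    simp only [Nat.cast_zero, zero_mul] at hμ
    linarith
  have key := hB (D → Finset ℕ) κ w D b1 Jd y q r T k X (J' * (2 * b + 2 * J' + 1)) P1 P2 S (UD b J P2 D) (fun W => W)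
    (fun W => cV b J P2 κ C (univ.biUnion W)) 3 z1 hκ hDκ.le hDne hw
    hk hb hb2 hy hP1 hS hT hμ hz1 hP2 (by norm_num) (fun W hW d => by
      obtain ⟨T0, hT0, h1⟩ := UD_VV b J P2 D hW
      refine (subset_biUnion_of_mem W (mem_univ d)).trans ?_
      rw [← h1]
      exact UU_bhU b J P2 hT0)
    (fun u hu u' hu' h => h) (fun W hW => ((mem_UD b J P2 D).1 hW).1) (fun W hW => by
      obtain ⟨T0, hT0, h1⟩ := UD_VV b J P2 D hW
      have h2 : su (fun W : D → Finset ℕ => W) W = bhU T0 := h1.symm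
      rw [h2]
      exact UU_M1 b J J' P2 hJ' hT0) (fun u _ => cV_abs b J P2 κ C hC hwm _)
    (UD_mean b J P2 D κ hDκ C)
  have hYY : ∀ l, YYK w q r P1 S (UD b J P2 D) (fun W => W) (fun W => cV b J P2 κ C (univ.biUnion W)) l =
      ∑ h ∈ S.filter (fun h => ∀ p ∈ P1, ∀ g ∈ pt w D h, ¬ p ∣ q * l + r + g),
        GG (FF b J P2) C (PM D (q * l + r + w * h)) - wmK κ (FF b J P2) C * XXK w D q r P1 S l := by
    intro l
    unfold YYK XXK
    rw [sum_congr rfl fun h _ => LamK_eq b J P2 D (fun p hp => ⟨(hP2 p hp).1, (hP2 p hp).2.1.shift hT1⟩) κ C (q * l + r + w * h), sum_sub_distrib, sum_const, nsmul_eq_mul]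
    ring
  have hcard : ((UD b J P2 D).card : ℝ) ≤ ((2 : ℝ) ^ 2 ^ J) ^ (10 * b) * (κ : ℝ) ^ (J' * (2 * b + 2 * J' + 1)) :=
    card_UD b J P2 D κ _ hDκ.le hκ hb0 (fun p hp => (hP2 p hp).1) (fun T0 hT0 => UU_M1 b J J' P2 hJ' hT0)
  set B := (Icc 1 X).filter (fun l => ε < |∑ h ∈ S.filter (fun h => ∀ p ∈ P1, ∀ g ∈ pt w D h, ¬ p ∣ q * l + r + g),
      GG (FF b J P2) C (PM D (q * l + r + w * h)) - wmK κ (FF b J P2) C * XXK w D q r P1 S l|) with hBd
  calc (B.card : ℝ) * ε ^ (2 * k) = ∑ l ∈ B, ε ^ (2 * k) := by rw [sum_const, nsmul_eq_mul]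
    _ ≤ ∑ l ∈ B, YYK w q r P1 S (UD b J P2 D) (fun W => W) (fun W => cV b J P2 κ C (univ.biUnion W)) l ^ (2 * k) := by
        apply sum_le_sum
        intro l hl
        rw [hBd, mem_filter] at hl
        rw [hYY l]
        have h1 : ∀ x : ℝ, x ^ (2 * k) = |x| ^ (2 * k) := fun x => by rw [pow_mul, pow_mul, sq_abs]
        rw [h1 (_ - _)]
        exact pow_le_pow_left₀ hε.le hl.2.le _
    _ ≤ ∑ l ∈ Icc 1 X, YYK w q r P1 S (UD b J P2 D) (fun W => W) (fun W => cV b J P2 κ C (univ.biUnion W)) l ^ (2 * k) := by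
        apply sum_le_sum_of_subset_of_nonneg (filter_subset _ _)
        intro l _ _
        rw [pow_mul]
        positivity
    _ ≤ _ := by
        refine key.trans ?_
        unfold MK
        gcongr

end Pool.Agent.H36.KT
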