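import Mathlib
import Pool.Agent.H36.KT.Lab

/-!
The number of surviving positions: the sharp version.
-/

set_option autoImplicit false

open Finset

namespace Pool.Agent.H36.KT

open Pool.Agent.Helper112.LP Pool.Agent.Helper112.LP.Kba Pool.Agent.Helper112.LP.Kbh
open Pool.Agent.H483R2.BHKD Pool.Agent.H20R2.FL Pool.Agent.H36.RW Pool.Agent.H373R2.T7 Pool.Agent.H36.BF
open Pool.Agent.H36.BT

/-- the bound -/
noncomputable def BK (ε : ℝ) (κ k X b1 Jd b J J' : ℕ) (D S P1 P2 : Finset ℕ) (z1 : ℝ) : ℝ :=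
  X * (2 * (4 * Real.exp 1 * (45 * κ) * k / ((ε / 8) ^ 2 * (S.card * WK D P1))) ^ k +
        (1 / 2) ^ b1 * (4 * Real.exp 3 / (ε / 8) ^ 2) ^ k) +
      ((S.card + S.card * WK D P1) / ((ε / 8) * (S.card * WK D P1))) ^ (2 * k) *
        (((Jd : ℝ) + 2) * (((2 : ℝ) ^ 2 ^ Jd) ^ (10 * b1)) ^ 2) +
      (J' + 1) * (MK κ k X b1 Jd b J J' D S P1 P2 z1 / (ε * (Wq κ P2 * (S.card * WK D P1)) / (8 * (J' + 1))) ^ (2 * k))

lemma cK_emptyK (κ b J : ℕ) (P : Finset ℕ) (k : Fin J) (h : grp J P k = ∅) : wmK κ (FF b J P) (cK b J k) = 0 := by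
  classical
  have h1 : FF b J P k = {∅} := by
    unfold FF
    rw [h]
    ext U
    rw [mem_filter, mem_powerset, subset_empty, mem_singleton]
    constructor
    · exact fun h => h.1
    · intro h2
      rw [h2]
      exact ⟨rfl, by simp⟩
  have h2 : cK b J k k ∅ = 0 := by
    unfold cK cE
    rw [if_pos rfl, if_neg]
    rw [card_empty]
    omega
  unfold wmK
  apply prod_eq_zero (mem_univ k)
  rw [h1, sum_singleton, h2, zero_mul]

lemma not_dvd_PM {p w h : ℕ} {D : Finset ℕ} (m : ℕ) (hp : p.Prime) :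
    ¬ p ∣ PM D (m + w * h) ↔ ∀ g ∈ pt w D h, ¬ p ∣ m + g := by
  rw [dvd_PM hp]
  push Not
  constructor
  · intro h1 g hg
    obtain ⟨d, hd, rfl⟩ := mem_pt.1 hg
    rw [← add_assoc]
    exact h1 d hd
  · intro h1 d hd
    rw [add_assoc]
    exact h1 _ (mem_pt.2 ⟨d, hd, rfl⟩)

open Classical in
theorem twoK (κ : ℕ) (hκ : 1 ≤ κ) (ε : ℝ) (hε : 0 < ε) (hε1 : ε ≤ 1) : ∃ C0 C1 : ℕ, 1 ≤ C0 ∧
    ∀ (w : ℕ) (D : Finset ℕ) (b1 Jd y q r T k X b J J' : ℕ) (P1 P2 S : Finset ℕ) (z1 : ℝ),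
    D.card = κ → 1 ≤ w →
    1 ≤ k → C0 * (κ * (2 * k)) ≤ b1 → 2 ≤ b1 → 4 * (κ * k) + 10 ≤ y →
    (∀ p ∈ P1, p.Prime ∧ y < p ∧ p ≤ 2 ^ 2 ^ Jd ∧ ¬ p ∣ q ∧ ¬ p ∣ w) → S ⊆ Icc 1 T →
    18 * (κ : ℝ) ^ 2 * WK D (P1.filter (fun p => T < p)) * T ≤ WK D (P1.filter (fun p => p ≤ T)) * y →
    45 * (κ : ℝ) * k ≤ S.card * WK D P1 → 0 < z1 →
    (∀ p ∈ P2, p.Prime ∧ Sep w T D p ∧ ¬ p ∣ q ∧ p ∉ P1 ∧ z1 ≤ p ∧ 12 < p ∧ p ≤ 2 ^ 2 ^ J ∧ 2 * κ ≤ p) → C1 ≤ b → 2 ≤ b →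
    (∀ i : Fin J, (grp J P2 i).Nonempty → J ≤ J' + (i : ℕ)) →
    (((Icc 1 X).filter (fun l => ε * (Wq κ P2 * (S.card * WK D P1)) <
      |(XXK w D q r (P1 ∪ P2) S l : ℝ) - Wq κ P2 * (S.card * WK D P1)|)).card : ℝ) ≤
      BK ε κ k X b1 Jd b J J' D S P1 P2 z1 := by
  obtain ⟨Ca, hCa, hcore⟩ := coreK
  obtain ⟨Cb, hCb, hdev⟩ := devK
  obtain ⟨C1, hC1, hmean⟩ := mean_K κ hκ
  obtain ⟨Bq, hBq⟩ := exists_pow_lt_of_lt_one (show (0 : ℝ) < ε / 24 by positivity) (show (1 / 4 : ℝ) < 1 by norm_num)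
  refine ⟨max Ca Cb, max C1 Bq, le_trans hCa (le_max_left _ _), ?_⟩
  intro w D b1 Jd y q r T k X b J J' P1 P2 S z1 hDκ hw hk hb1 hb12 hy hP1 hS hT hμ hz1 hP2 hb hb2 hJ'
  have hκr : (1 : ℝ) ≤ κ := by exact_mod_cast hκ
  have hba : Ca * (κ * (2 * k)) ≤ b1 := (Nat.mul_le_mul_right _ (le_max_left _ _)).trans hb1
  have hbb : Cb * (κ * (2 * k)) ≤ b1 := (Nat.mul_le_mul_right _ (le_max_right _ _)).trans hb1
  have hk0 : (1 : ℝ) ≤ k := by exact_mod_cast hk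
  set μ : ℝ := S.card * WK D P1 with hμd
  have hκk : (1 : ℝ) ≤ κ * k := by
    calc (1 : ℝ) = 1 * 1 := by ring
      _ ≤ κ * k := mul_le_mul hκr hk0 (by norm_num) (by linarith)
  have hμ0 : 0 < μ := by
    have : 45 * (κ : ℝ) * k = 45 * (κ * k) := by ring
    linarith
  have hμ20 : 20 * (κ : ℝ) ≤ μ := by
    have h1 : 45 * (κ : ℝ) * 1 ≤ 45 * (κ : ℝ) * k := mul_le_mul_of_nonneg_left hk0 (by positivity)
    linarith
  have hPs' : ∀ p ∈ P2, p.Prime ∧ 12 < p ∧ p ≤ 2 ^ 2 ^ J ∧ 2 * κ ≤ p := fun p hp =>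
    ⟨(hP2 p hp).1, (hP2 p hp).2.2.2.2.2.1, (hP2 p hp).2.2.2.2.2.2.1, (hP2 p hp).2.2.2.2.2.2.2⟩
  have hPs : ∀ p ∈ P2, p.Prime ∧ 12 < p ∧ p ≤ 2 ^ 2 ^ J := fun p hp =>
    ⟨(hPs' p hp).1, (hPs' p hp).2.1, (hPs' p hp).2.2.1⟩
  obtain ⟨hW0, hm1, hm2, hm3, hm4⟩ := hmean b J P2 ((le_max_left _ _).trans hb) hb2 hPs'
  set W2 := Wq κ P2 with hW2
  have hW21 : W2 ≤ 1 := by
    rw [hW2]
    unfold Wq
    apply prod_le_one
    · intro p hp
      have h1 : 2 * (κ : ℝ) ≤ p := by exact_mod_cast (hPs' p hp).2.2.2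
      have h2 : (0 : ℝ) < p := by linarith
      have h3 : (κ : ℝ) / p ≤ 1 := by
        rw [div_le_one h2]
        linarith
      linarith
    · intro p hp
      have : 0 ≤ (κ : ℝ) / p := by positivity
      linarith
  -- small parameter
  have h4b : 3 * (1 / 4 : ℝ) ^ b ≤ ε / 8 := by
    have h1 : (1 / 4 : ℝ) ^ b ≤ (1 / 4) ^ Bq :=
      pow_le_pow_of_le_one (by norm_num) (by norm_num) ((le_max_right _ _).trans hb)
    linarith
  have h4b0 : 0 < (1 / 4 : ℝ) ^ b := by positivity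
  have hwU : wmK κ (FF b J P2) (cU b J) ≤ (1 + ε / 8) * W2 :=
    hm2.trans (mul_le_mul_of_nonneg_right (by linarith) hW0.le)
  have hwK : ∑ k, wmK κ (FF b J P2) (cK b J k) ≤ ε / 8 * W2 :=
    hm4.trans (mul_le_mul_of_nonneg_right h4b hW0.le)
  have hwK1 : ∀ k, wmK κ (FF b J P2) (cK b J k) ≤ ε / 8 * W2 := fun k =>
    (single_le_sum (f := fun k => wmK κ (FF b J P2) (cK b J k)) (fun i _ => hm3 i) (mem_univ k)).trans hwK
  have hεW : ε / 8 * W2 ≤ 1 := by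
    calc ε / 8 * W2 ≤ 1 * 1 := mul_le_mul (by linarith) hW21 hW0.le (by norm_num)
      _ = 1 := by norm_num
  set ε1 : ℝ := ε * (W2 * μ) / (8 * (J' + 1)) with hε1d
  have hJ0 : (0 : ℝ) ≤ J' := Nat.cast_nonneg J'
  have hε0 : 0 < ε1 := by positivity
  have hP2' : ∀ p ∈ P2, p.Prime ∧ Sep w T D p ∧ ¬ p ∣ q ∧ p ∉ P1 ∧ z1 ≤ p := fun p hp =>
    ⟨(hP2 p hp).1, (hP2 p hp).2.1, (hP2 p hp).2.2.1, (hP2 p hp).2.2.2.1, (hP2 p hp).2.2.2.2.1⟩
  have hd := fun C hC hwc => hdev κ w D b1 Jd y q r T k X b J J' P1 P2 S C z1 ε1 hκ hDκ hw hk hbb hb12 hy hP1 hS hT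
    hμ20 hz1 hP2' (by omega) hJ' hC hwc hε0
  -- the exceptional sets
  set Dv : (Fin J → Finset ℕ → ℝ) → Finset ℕ := fun C => (Icc 1 X).filter (fun l => ε1 <
    |∑ h ∈ S.filter (fun h => ∀ p ∈ P1, ∀ g ∈ pt w D h, ¬ p ∣ q * l + r + g), GG (FF b J P2) C (PM D (q * l + r + w * h)) -
      wmK κ (FF b J P2) C * XXK w D q r P1 S l|) with hDv
  have hDvb : ∀ C : Fin J → Finset ℕ → ℝ, (∀ i V, |C i V| ≤ 1) → |wmK κ (FF b J P2) C| ≤ 2 →
      ((Dv C).card : ℝ) ≤ MK κ k X b1 Jd b J J' D S P1 P2 z1 / ε1 ^ (2 * k) := by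
    intro C hC hwc
    rw [le_div_iff₀ (by positivity)]
    have := hd C hC hwc
    convert this using 3
  set B0 := (Icc 1 X).filter (fun l => ε / 8 * μ < |(XXK w D q r P1 S l : ℝ) - μ|) with hB0
  have hB0c : (B0.card : ℝ) ≤ X * (2 * (4 * Real.exp 1 * (45 * κ) * k / ((ε / 8) ^ 2 * μ)) ^ k +
      (1 / 2) ^ b1 * (4 * Real.exp 3 / (ε / 8) ^ 2) ^ k) +
      ((S.card + μ) / (ε / 8 * μ)) ^ (2 * k) * (((Jd : ℝ) + 2) * (((2 : ℝ) ^ 2 ^ Jd) ^ (10 * b1)) ^ 2) := by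
    have h1 := hcore κ w D q r P1 S y T k b1 Jd X (ε / 8) hκ hDκ.le hk hba hb12 hy hP1 hS hT hμ (by positivity)
    rw [← hμd] at h1
    convert h1 using 4
  set Ks : Finset (Fin J) := univ.filter (fun i => (grp J P2 i).Nonempty) with hKs
  have hKsc : Ks.card ≤ J' := card_Ks J J' P2 hJ'
  have hKs0 : ∀ k : Fin J, k ∉ Ks → (∀ m, GG (FF b J P2) (cK b J k) m = 0) ∧ wmK κ (FF b J P2) (cK b J k) = 0 := by
    intro k hk
    have : grp J P2 k = ∅ := by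
      by_contra h
      exact hk (mem_filter.2 ⟨mem_univ _, nonempty_iff_ne_empty.2 h⟩)
    exact ⟨(cK_empty b J P2 k this).1, cK_emptyK κ b J P2 k this⟩
  have hsub : (Icc 1 X).filter (fun l => ε * (W2 * μ) < |(XXK w D q r (P1 ∪ P2) S l : ℝ) - W2 * μ|) ⊆
      B0 ∪ (Dv (cU b J) ∪ Ks.biUnion (fun k => Dv (cK b J k))) := by
    intro l hl
    rw [mem_filter] at hl
    obtain ⟨hl1, hl2⟩ := hl
    by_contra hno
    apply absurd hl2
    rw [not_lt]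
    rw [mem_union, mem_union, mem_biUnion] at hno
    push Not at hno
    obtain ⟨h1, h2, h3⟩ := hno
    have h1' : |(XXK w D q r P1 S l : ℝ) - μ| ≤ ε / 8 * μ := by
      by_contra h
      apply h1
      rw [hB0, mem_filter]
      exact ⟨hl1, not_le.1 h⟩
    set x1 : ℝ := (XXK w D q r P1 S l : ℝ) with hx1
    set S1 := S.filter (fun h => ∀ p ∈ P1, ∀ g ∈ pt w D h, ¬ p ∣ q * l + r + g) with hS1
    have hdv : ∀ C, l ∉ Dv C → |∑ h ∈ S1, GG (FF b J P2) C (PM D (q * l + r + w * h)) - wmK κ (FF b J P2) C * x1| ≤ ε1 := by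
      intro C hC
      by_contra h
      apply hC
      rw [hDv, mem_filter]
      exact ⟨hl1, not_le.1 h⟩
    have h2' := hdv _ h2
    have h3' : ∀ k ∈ Ks, |∑ h ∈ S1, GG (FF b J P2) (cK b J k) (PM D (q * l + r + w * h)) -
        wmK κ (FF b J P2) (cK b J k) * x1| ≤ ε1 := fun k hk => hdv _ (h3 k hk)
    have hN : (XXK w D q r (P1 ∪ P2) S l : ℝ) =
        ∑ h ∈ S1, if ∀ p ∈ P2, ¬ p ∣ PM D (q * l + r + w * h) then (1 : ℝ) else 0 := by
      unfold XXK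
      rw [← sum_filter, sum_const, nsmul_eq_mul, mul_one, hS1, filter_filter]
      congr 2
      apply filter_congr
      intro h _
      constructor
      · intro h4
        exact ⟨fun p hp => h4 p (mem_union_left _ hp), fun p hp =>
          (not_dvd_PM (q * l + r) (hPs p hp).1).2 (h4 p (mem_union_right _ hp))⟩
      · rintro ⟨h4, h5⟩ p hp
        rcases mem_union.1 hp with h6 | h6
        · exact h4 p h6
        · exact (not_dvd_PM (q * l + r) (hPs p h6).1).1 (h5 p h6)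
    have hptw := fun m => sieve_ptw b J P2 hPs m
    have hup : (XXK w D q r (P1 ∪ P2) S l : ℝ) ≤ ∑ h ∈ S1, GG (FF b J P2) (cU b J) (PM D (q * l + r + w * h)) := by
      rw [hN]
      apply sum_le_sum
      intro h _
      have := (hptw (PM D (q * l + r + w * h))).1
      convert this
    have hlo : ∑ h ∈ S1, GG (FF b J P2) (cU b J) (PM D (q * l + r + w * h)) -
        ∑ k, ∑ h ∈ S1, GG (FF b J P2) (cK b J k) (PM D (q * l + r + w * h)) ≤ (XXK w D q r (P1 ∪ P2) S l : ℝ) := by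
      rw [hN, sum_comm (s := (univ : Finset (Fin J))), ← sum_sub_distrib]
      apply sum_le_sum
      intro h _
      have := (hptw (PM D (q * l + r + w * h))).2
      convert this
    have ha := abs_le.1 h1'
    have hb' := abs_le.1 h2'
    have hx1lo : (1 - ε / 8) * μ ≤ x1 := by linarith
    have hx1hi : x1 ≤ (1 + ε / 8) * μ := by linarith
    have hx10 : 0 ≤ x1 := Nat.cast_nonneg _
    have hWμ : 0 < W2 * μ := by positivity
    have hεle : ε1 ≤ ε / 8 * (W2 * μ) := by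
      rw [hε1d, div_le_iff₀ (by positivity)]
      have : 0 ≤ ε * (W2 * μ) * J' := by positivity
      nlinarith
    rw [abs_le]
    constructor
    · have hsum0 : ∑ k, ∑ h ∈ S1, GG (FF b J P2) (cK b J k) (PM D (q * l + r + w * h)) =
          ∑ k ∈ Ks, ∑ h ∈ S1, GG (FF b J P2) (cK b J k) (PM D (q * l + r + w * h)) := by
        symm
        apply sum_subset (subset_univ _)
        intro k _ hk
        exact sum_eq_zero fun h _ => (hKs0 k hk).1 _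
      have hsum1 : ∑ k, wmK κ (FF b J P2) (cK b J k) = ∑ k ∈ Ks, wmK κ (FF b J P2) (cK b J k) := by
        symm
        apply sum_subset (subset_univ _)
        intro k _ hk
        exact (hKs0 k hk).2
      have hsum : ∑ k ∈ Ks, ∑ h ∈ S1, GG (FF b J P2) (cK b J k) (PM D (q * l + r + w * h)) ≤
          ∑ k ∈ Ks, (wmK κ (FF b J P2) (cK b J k) * x1 + ε1) := by
        apply sum_le_sum
        intro k hk
        have := (abs_le.1 (h3' k hk)).2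
        linarith
      rw [sum_add_distrib, ← sum_mul, sum_const, nsmul_eq_mul, ← hsum0, ← hsum1] at hsum
      have hKe : (Ks.card : ℝ) * ε1 ≤ J' * ε1 := mul_le_mul_of_nonneg_right (by exact_mod_cast hKsc) hε0.le
      have hJε : (J' : ℝ) * ε1 + ε1 = ε / 8 * (W2 * μ) := by
        rw [hε1d]
        field_simp
      have h5 : (∑ k, wmK κ (FF b J P2) (cK b J k)) * x1 ≤ ε / 8 * W2 * x1 := mul_le_mul_of_nonneg_right hwK hx10
      have h6 : W2 * x1 ≤ wmK κ (FF b J P2) (cU b J) * x1 := mul_le_mul_of_nonneg_right hm1 hx10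
      have h7 : (1 - ε / 8) * (W2 * x1) ≤ wmK κ (FF b J P2) (cU b J) * x1 - (∑ k, wmK κ (FF b J P2) (cK b J k)) * x1 := by
        linarith
      have h8 : (1 - ε / 8) * (W2 * ((1 - ε / 8) * μ)) ≤ (1 - ε / 8) * (W2 * x1) := by
        apply mul_le_mul_of_nonneg_left _ (by linarith)
        exact mul_le_mul_of_nonneg_left hx1lo hW0.le
      have h9 : (1 - ε / 8) * (W2 * ((1 - ε / 8) * μ)) = W2 * μ - ε / 4 * (W2 * μ) + (ε / 8) ^ 2 * (W2 * μ) := by ring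
      have h10 : 0 ≤ (ε / 8) ^ 2 * (W2 * μ) := by positivity
      have h11 : 0 < ε * (W2 * μ) := by positivity
      linarith
    · have h5 : wmK κ (FF b J P2) (cU b J) * x1 ≤ (1 + ε / 8) * W2 * ((1 + ε / 8) * μ) :=
        mul_le_mul hwU hx1hi hx10 (by positivity)
      have h6 : (1 + ε / 8) * W2 * ((1 + ε / 8) * μ) = W2 * μ + ε / 4 * (W2 * μ) + (ε / 8) ^ 2 * (W2 * μ) := by ring
      have h7 : (ε / 8) ^ 2 * (W2 * μ) ≤ ε / 64 * (W2 * μ) := by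
        apply mul_le_mul_of_nonneg_right _ hWμ.le
        nlinarith
      have h11 : 0 < ε * (W2 * μ) := by positivity
      linarith
  have hcard := (card_le_card hsub).trans (card_union_le _ _)
  have hcard2 := card_union_le (Dv (cU b J)) (Ks.biUnion (fun k => Dv (cK b J k)))
  have hcard3 : (Ks.biUnion (fun k => Dv (cK b J k))).card ≤ ∑ k ∈ Ks, (Dv (cK b J k)).card := card_biUnion_le
  have hcr : (((Icc 1 X).filter (fun l => ε * (W2 * μ) < |(XXK w D q r (P1 ∪ P2) S l : ℝ) - W2 * μ|)).card : ℝ) ≤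
      B0.card + ((Dv (cU b J)).card + ∑ k ∈ Ks, ((Dv (cK b J k)).card : ℝ)) := by
    have : ((Icc 1 X).filter (fun l => ε * (W2 * μ) < |(XXK w D q r (P1 ∪ P2) S l : ℝ) - W2 * μ|)).card ≤
      B0.card + ((Dv (cU b J)).card + ∑ k ∈ Ks, (Dv (cK b J k)).card) := by omega
    exact_mod_cast this
  refine hcr.trans ?_
  have h7 := hDvb (cU b J) (cU_abs b J) (by
    rw [abs_of_nonneg (hW0.le.trans hm1)]
    linarith)
  have h8 : ∀ k, ((Dv (cK b J k)).card : ℝ) ≤ MK κ _ X b1 Jd b J J' D S P1 P2 z1 / ε1 ^ (2 * _) := fun k =>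
    hDvb (cK b J k) (cK_abs b J k) (by
      rw [abs_of_nonneg (hm3 k)]
      linarith [hwK1 k])
  have h9 : ∑ k ∈ Ks, ((Dv (cK b J k)).card : ℝ) ≤ J' * (MK κ k X b1 Jd b J J' D S P1 P2 z1 / ε1 ^ (2 * k)) := by
    have hM0 : 0 ≤ MK κ k X b1 Jd b J J' D S P1 P2 z1 / ε1 ^ (2 * k) := (Nat.cast_nonneg _).trans h7
    calc ∑ k ∈ Ks, ((Dv (cK b J k)).card : ℝ) ≤ ∑ _k ∈ Ks, (MK κ k X b1 Jd b J J' D S P1 P2 z1 / ε1 ^ (2 * k)) :=
          sum_le_sum fun k _ => h8 k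
      _ = Ks.card * (MK κ k X b1 Jd b J J' D S P1 P2 z1 / ε1 ^ (2 * k)) := by rw [sum_const, nsmul_eq_mul]
      _ ≤ _ := mul_le_mul_of_nonneg_right (by exact_mod_cast hKsc) hM0
  have e5 : ((J' : ℝ) + 1) * (MK κ k X b1 Jd b J J' D S P1 P2 z1 / ε1 ^ (2 * k)) =
      J' * (MK κ k X b1 Jd b J J' D S P1 P2 z1 / ε1 ^ (2 * k)) + MK κ k X b1 Jd b J J' D S P1 P2 z1 / ε1 ^ (2 * k) := by
    ring
  unfold BK
  rw [← hμd, ← hW2, ← hε1d, e5]
  linarith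

end Pool.Agent.H36.KT
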