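import Mathlib
import Pool.Agent.H36.KT.Def
import Pool.Agent.H36.KT.Two

/-!
Primes which do not separate the positions.
-/

set_option autoImplicit false

open Finset

namespace Pool.Agent.H36.KT

open Pool.Agent.Helper112.LP Pool.Agent.Helper112.LP.Kba Pool.Agent.Helper112.LP.Kbh
open Pool.Agent.H36.RW Pool.Agent.H373R2.T7 Pool.Agent.H36.BF Pool.Agent.H36.BE Pool.Agent.H36.BT

lemma bad_one (X p q s : ℕ) (hp : p.Prime) (hq : ¬ p ∣ q) :
    (((Icc 1 X).filter (fun l => p ∣ q * l + s)).card : ℝ) ≤ (X : ℝ) / p + 1 := by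
  obtain ⟨a, ha⟩ := root_ex p q s hp hq
  have h1 : (Icc 1 X).filter (fun l => p ∣ q * l + s) = (Icc 1 X).filter (fun l => l ≡ a [MOD p]) := by
    apply filter_congr
    intro l _
    exact root_iff p q s a l hp hq ha
  rw [h1]
  have h5 := (abs_le.1 (Pool.Agent.H373R2.T7.count_class X p a hp.one_le)).2
  linarith

open Classical in
/-- the `l` for which a bad prime divides one of the points -/
lemma bad_count (w q r X T z1 κ : ℕ) (D Bd : Finset ℕ) (hD : D.card ≤ κ) (hz1 : 1 ≤ z1)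
    (hBd : ∀ p ∈ Bd, p.Prime ∧ z1 < p ∧ ¬ p ∣ q) :
    (((Icc 1 X).filter (fun l => ∃ p ∈ Bd, ∃ h ∈ Icc 1 T, ∃ d ∈ D, p ∣ q * l + (r + w * h + d))).card : ℝ) ≤
      Bd.card * (T * κ) * ((X : ℝ) / z1 + 1) := by
  have hsub : (Icc 1 X).filter (fun l => ∃ p ∈ Bd, ∃ h ∈ Icc 1 T, ∃ d ∈ D, p ∣ q * l + (r + w * h + d)) ⊆
      (Bd ×ˢ (Icc 1 T ×ˢ D)).biUnion (fun x => (Icc 1 X).filter (fun l => x.1 ∣ q * l + (r + w * x.2.1 + x.2.2))) := by
    intro l hl
    rw [mem_filter] at hl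
    obtain ⟨h1, p, hp, h, hh, d, hd, h2⟩ := hl
    rw [mem_biUnion]
    exact ⟨(p, h, d), mem_product.2 ⟨hp, mem_product.2 ⟨hh, hd⟩⟩, mem_filter.2 ⟨h1, h2⟩⟩
  have h1 := (card_le_card hsub).trans card_biUnion_le
  have hz0 : (0 : ℝ) < z1 := by exact_mod_cast hz1
  calc (((Icc 1 X).filter (fun l => ∃ p ∈ Bd, ∃ h ∈ Icc 1 T, ∃ d ∈ D, p ∣ q * l + (r + w * h + d))).card : ℝ) ≤
      ∑ x ∈ Bd ×ˢ (Icc 1 T ×ˢ D), (((Icc 1 X).filter (fun l => x.1 ∣ q * l + (r + w * x.2.1 + x.2.2))).card : ℝ) := by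
        exact_mod_cast h1
    _ ≤ ∑ _x ∈ Bd ×ˢ (Icc 1 T ×ˢ D), ((X : ℝ) / z1 + 1) := by
        apply sum_le_sum
        intro x hx
        rw [mem_product] at hx
        obtain ⟨h2, h3, h4⟩ := hBd x.1 hx.1
        refine (bad_one X x.1 q _ h2 h4).trans ?_
        have : (X : ℝ) / x.1 ≤ X / z1 := by
          apply div_le_div_of_nonneg_left (Nat.cast_nonneg _) hz0
          exact_mod_cast h3.le
        linarith
    _ = (Bd.card * (T * D.card) : ℕ) * ((X : ℝ) / z1 + 1) := by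
        rw [sum_const, card_product, card_product, Nat.card_Icc, nsmul_eq_mul]
        congr 2
    _ ≤ _ := by
        apply mul_le_mul_of_nonneg_right _ (by positivity)
        push_cast
        have : (D.card : ℝ) ≤ κ := by exact_mod_cast hD
        gcongr

open Classical in
/-- few primes are bad -/
lemma bad_card (w T T' z1 M κ : ℕ) (D P : Finset ℕ) (hD : D.card ≤ κ) (hT' : ∀ d ∈ D, w * T + d ≤ T')
    (hz1 : T' < z1 ^ M) (hP : ∀ p ∈ P, p.Prime ∧ z1 < p) :
    (P.filter (fun p => ¬ Sep w T D p)).card ≤ (T * κ) ^ 2 * M := by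
  have hsub : P.filter (fun p => ¬ Sep w T D p) ⊆ ((Icc 1 T ×ˢ D) ×ˢ (Icc 1 T ×ˢ D)).biUnion
      (fun x => P.filter (fun p : ℕ => w * x.1.1 + x.1.2 ≠ w * x.2.1 + x.2.2 ∧
        (p : ℤ) ∣ ((w * x.1.1 + x.1.2 : ℕ) : ℤ) - ((w * x.2.1 + x.2.2 : ℕ) : ℤ))) := by
    intro p hp
    rw [mem_filter] at hp
    obtain ⟨h1, h2⟩ := hp
    unfold Sep at h2
    push Not at h2
    obtain ⟨h, hh, h', hh', d, hd, d', hd', h3, h4⟩ := h2
    rw [mem_biUnion]
    exact ⟨((h, d), (h', d')), mem_product.2 ⟨mem_product.2 ⟨hh, hd⟩, mem_product.2 ⟨hh', hd'⟩⟩,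
      mem_filter.2 ⟨h1, h4, h3⟩⟩
  refine (card_le_card hsub).trans (card_biUnion_le.trans ?_)
  calc ∑ x ∈ (Icc 1 T ×ˢ D) ×ˢ (Icc 1 T ×ˢ D), (P.filter (fun p : ℕ => w * x.1.1 + x.1.2 ≠ w * x.2.1 + x.2.2 ∧
        (p : ℤ) ∣ ((w * x.1.1 + x.1.2 : ℕ) : ℤ) - ((w * x.2.1 + x.2.2 : ℕ) : ℤ))).card
      ≤ ∑ _x ∈ (Icc 1 T ×ˢ D) ×ˢ (Icc 1 T ×ˢ D), M := by
        apply sum_le_sum
        intro x hx
        rw [mem_product, mem_product, mem_product, mem_Icc, mem_Icc] at hx
        obtain ⟨⟨⟨_, h1⟩, h2⟩, ⟨_, h3⟩, h4⟩ := hx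
        set F := P.filter (fun p : ℕ => w * x.1.1 + x.1.2 ≠ w * x.2.1 + x.2.2 ∧
          (p : ℤ) ∣ ((w * x.1.1 + x.1.2 : ℕ) : ℤ) - ((w * x.2.1 + x.2.2 : ℕ) : ℤ)) with hF
        rcases F.eq_empty_or_nonempty with h5 | ⟨p0, h5⟩
        · rw [h5, card_empty]
          exact Nat.zero_le _
        · rw [hF, mem_filter] at h5
          have hne := h5.2.1
          set n : ℕ := (((w * x.1.1 + x.1.2 : ℕ) : ℤ) - ((w * x.2.1 + x.2.2 : ℕ) : ℤ)).natAbs with hn
          have hn0 : 0 < n := by omega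
          have a1 : w * x.1.1 + x.1.2 ≤ T' := by
            have := Nat.mul_le_mul_left w h1
            have := hT' _ h2
            omega
          have a2 : w * x.2.1 + x.2.2 ≤ T' := by
            have := Nat.mul_le_mul_left w h3
            have := hT' _ h4
            omega
          have hnT : n ≤ T' := by omega
          have hprod : ∏ p ∈ F, p ∣ n := by
            apply Finset.prod_primes_dvd
            · intro p hp
              rw [hF, mem_filter] at hp
              exact (hP p hp.1).1.prime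
            · intro p hp
              rw [hF, mem_filter] at hp
              exact Int.natCast_dvd.1 hp.2.2
          have hle : z1 ^ F.card ≤ T' := by
            calc z1 ^ F.card = ∏ _p ∈ F, z1 := by rw [prod_const]
              _ ≤ ∏ p ∈ F, p := by
                  apply prod_le_prod'
                  intro p hp
                  rw [hF, mem_filter] at hp
                  exact (hP p hp.1).2.le
              _ ≤ n := Nat.le_of_dvd hn0 hprod
              _ ≤ T' := hnT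
          by_contra hlt
          rw [not_le] at hlt
          rcases Nat.eq_zero_or_pos z1 with h0 | h0
          · rcases Nat.eq_zero_or_pos M with h6 | h6
            · rw [h0, h6] at hz1
              simp at hz1
              omega
            · rw [h0, zero_pow (by omega)] at hz1
              omega
          · have := Nat.pow_le_pow_right h0 hlt.le
            omega
    _ = (T * D.card) * (T * D.card) * M := by
        rw [sum_const, card_product, card_product, Nat.card_Icc, smul_eq_mul]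
        rfl
    _ ≤ (T * κ) ^ 2 * M := by
        have : T * D.card ≤ T * κ := Nat.mul_le_mul_left _ hD
        rw [sq]
        exact Nat.mul_le_mul_right _ (Nat.mul_le_mul this this)

/-- the density of the bad primes -/
lemma bad_dens (D Bd : Finset ℕ) (κ z1 : ℕ) (hD : D.card ≤ κ) (hz1 : 1 ≤ z1) (hz1κ : κ ≤ z1) (hBd : ∀ p ∈ Bd, p.Prime ∧ z1 < p) :
    1 - Bd.card * ((κ : ℝ) / z1) ≤ WK D Bd ∧ WK D Bd ≤ 1 := by
  classical
  have hz0 : (0 : ℝ) < z1 := by exact_mod_cast hz1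
  induction Bd using Finset.induction_on with
  | empty => simp [WK]
  | insert p F hp ih =>
    obtain ⟨h1, h2⟩ := ih fun p' hp' => hBd p' (mem_insert_of_mem hp')
    obtain ⟨h3, h4⟩ := hBd p (mem_insert_self _ _)
    have hpr : (z1 : ℝ) < p := by exact_mod_cast h4
    have hp0 : (0 : ℝ) < p := by linarith
    have h5 : (nu p D : ℝ) ≤ κ := by exact_mod_cast (nu_le p D).trans hD
    have h6 : (nu p D : ℝ) / p ≤ κ / z1 := div_le_div₀ (Nat.cast_nonneg _) h5 hz0 hpr.le
    have h7 : (0 : ℝ) ≤ (nu p D : ℝ) / p := by positivity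
    have h8 : (κ : ℝ) / z1 ≤ 1 := by
      rw [div_le_one hz0]
      exact_mod_cast hz1κ
    have h9 : WK D (insert p F) = (1 - (nu p D : ℝ) / p) * WK D F := by
      unfold WK
      rw [prod_insert hp]
    have h10 : 0 ≤ WK D F := by
      unfold WK
      apply prod_nonneg
      intro p' hp'
      obtain ⟨h11, h12⟩ := hBd p' (mem_insert_of_mem hp')
      have h13 : (z1 : ℝ) < p' := by exact_mod_cast h12
      have h14 : (nu p' D : ℝ) ≤ κ := by exact_mod_cast (nu_le p' D).trans hD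
      have h15 : (nu p' D : ℝ) / p' ≤ κ / z1 := div_le_div₀ (Nat.cast_nonneg _) h14 hz0 h13.le
      linarith
    rw [h9, card_insert_of_notMem hp]
    push_cast
    constructor
    · nlinarith
    · nlinarith

/-- comparison -/
lemma comp_eps (ε x s Vy Vz1 Vz W1 WG β T : ℝ) (hε : 0 < ε) (hε1 : ε ≤ 1) (hT : 0 ≤ T) (hVy : 0 < Vy) (hVz : 0 < Vz)
    (hVz1 : 0 < Vz1) (hW1 : Vy * W1 = Vz1) (hWG : Vz1 * (WG * β) = Vz) (hβ1 : 1 - ε / 16 ≤ β) (hβ2 : β ≤ 1)
    (hs : |s - T * Vy| ≤ ε / 8 * (T * Vy)) (hx : |x - WG * (s * W1)| ≤ ε / 4 * (WG * (s * W1))) :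
    |x - T * Vz| ≤ ε * (T * Vz) := by
  have hβ0 : 0 < β := by linarith
  have ha := abs_le.1 hs
  have hb := abs_le.1 hx
  set u : ℝ := WG * (s * W1) with hu
  have e1 : u * (Vy * β) = s * Vz := by
    rw [hu, ← hWG, ← hW1]
    ring
  have hTV : 0 ≤ T * Vz := by positivity
  have hVyβ : 0 < Vy * β := by positivity
  have hu1 : u ≤ (1 + ε / 4) * (T * Vz) := by
    have h1 : u * (Vy * β) ≤ (1 + ε / 4) * (T * Vz) * (Vy * β) := by
      rw [e1]
      have h2 : s ≤ (1 + ε / 8) * (T * Vy) := by linarith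
      have h3 : (1 + ε / 8) ≤ (1 + ε / 4) * β := by nlinarith
      calc s * Vz ≤ (1 + ε / 8) * (T * Vy) * Vz := mul_le_mul_of_nonneg_right h2 hVz.le
        _ = (1 + ε / 8) * (T * Vy * Vz) := by ring
        _ ≤ (1 + ε / 4) * β * (T * Vy * Vz) := mul_le_mul_of_nonneg_right h3 (by positivity)
        _ = _ := by ring
    exact le_of_mul_le_mul_right h1 hVyβ
  have hu2 : (1 - ε / 8) * (T * Vz) ≤ u := by
    have h1 : (1 - ε / 8) * (T * Vz) * (Vy * β) ≤ u * (Vy * β) := by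
      rw [e1]
      have h2 : (1 - ε / 8) * (T * Vy) ≤ s := by linarith
      calc (1 - ε / 8) * (T * Vz) * (Vy * β) = β * ((1 - ε / 8) * (T * Vy) * Vz) := by ring
        _ ≤ 1 * ((1 - ε / 8) * (T * Vy) * Vz) := by
            apply mul_le_mul_of_nonneg_right hβ2
            have : 0 ≤ 1 - ε / 8 := by linarith
            positivity
        _ = (1 - ε / 8) * (T * Vy) * Vz := one_mul _
        _ ≤ s * Vz := mul_le_mul_of_nonneg_right h2 hVz.le
    exact le_of_mul_le_mul_right h1 hVyβ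
  rw [abs_le]
  constructor
  · have h1 : (1 - ε / 4) * ((1 - ε / 8) * (T * Vz)) ≤ (1 - ε / 4) * u := mul_le_mul_of_nonneg_left hu2 (by linarith)
    have h2 : (1 - ε / 4) * ((1 - ε / 8) * (T * Vz)) = T * Vz - (3 / 8 * ε) * (T * Vz) + ε ^ 2 / 32 * (T * Vz) := by ring
    have h3 : 0 ≤ ε ^ 2 / 32 * (T * Vz) := by positivity
    have h4 : 0 ≤ ε * (T * Vz) := by positivity
    linarith
  · have h1 : (1 + ε / 4) * u ≤ (1 + ε / 4) * ((1 + ε / 4) * (T * Vz)) := mul_le_mul_of_nonneg_left hu1 (by linarith)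
    have h2 : (1 + ε / 4) * ((1 + ε / 4) * (T * Vz)) = T * Vz + (ε / 2) * (T * Vz) + ε * ε / 16 * (T * Vz) := by ring
    have h3 : ε * ε / 16 * (T * Vz) ≤ ε * 1 / 16 * (T * Vz) := by gcongr
    have h4 : 0 ≤ ε * (T * Vz) := by positivity
    linarith

end Pool.Agent.H36.KT
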