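import Mathlib
import Pool.Agent.H36.KT.Bad
import Pool.Agent.H36.KT.Fin
import Pool.Agent.H36.BT.Ev

/-!
All the classes modulo the small primes.
-/

set_option autoImplicit false

open Finset Filter

namespace Pool.Agent.H36.KT

open Pool.Agent.Helper112.LP Pool.Agent.Helper112.LP.Kba Pool.Agent.Helper112.LP.Kbh
open Pool.Agent.H36.RW Pool.Agent.H373R2.T7 Pool.Agent.H36.BF Pool.Agent.H36.BE Pool.Agent.H36.BT

open Classical in
/-- the statement of `twoK` -/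
def TwoP (κ : ℕ) (ε : ℝ) (C0 C1 : ℕ) : Prop :=
    ∀ (w : ℕ) (D : Finset ℕ) (b1 Jd y q r T k X b J J' : ℕ) (P1 P2 S : Finset ℕ) (z1 : ℝ),
    D.card = κ → 1 ≤ w →
    1 ≤ k → C0 * (κ * (2 * k)) ≤ b1 → 2 ≤ b1 → 4 * (κ * k) + 10 ≤ y →
    (∀ p ∈ P1, p.Prime ∧ y < p ∧ p ≤ 2 ^ 2 ^ Jd ∧ ¬ p ∣ q ∧ ¬ p ∣ w) → S ⊆ Icc 1 T →
    18 * (κ : ℝ) ^ 2 * WK D (P1.filter (fun p => T < p)) * T ≤ WK D (P1.filter (fun p => p ≤ T)) * y →
    45 * (κ : ℝ) * k ≤ S.card * WK D P1 → 0 < z1 →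
    (∀ p ∈ P2, p.Prime ∧ Sep w T D p ∧ ¬ p ∣ q ∧ p ∉ P1 ∧ z1 ≤ p ∧ 12 < p ∧ p ≤ 2 ^ 2 ^ J ∧ 2 * κ ≤ p) → C1 ≤ b → 2 ≤ b →
    (∀ i : Fin J, (grp J P2 i).Nonempty → J ≤ J' + (i : ℕ)) →
    (((Icc 1 X).filter (fun l => ε * (Wq κ P2 * (S.card * WK D P1)) <
      |(XXK w D q r (P1 ∪ P2) S l : ℝ) - Wq κ P2 * (S.card * WK D P1)|)).card : ℝ) ≤
      BK ε κ k X b1 Jd b J J' D S P1 P2 z1

lemma twoP_ex (κ : ℕ) (hκ : 1 ≤ κ) (ε : ℝ) (hε : 0 < ε) (hε1 : ε ≤ 1) : ∃ C0 C1 : ℕ, 1 ≤ C0 ∧ TwoP κ ε C0 C1 := by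
  obtain ⟨C0, C1, hC0, h⟩ := twoK κ hκ ε hε hε1
  refine ⟨C0, C1, hC0, ?_⟩
  intro w D b1 Jd y q r T k X b J J' P1 P2 S z1 h1 h2 h3 h4 h5 h6 h7 h8 h9 h10 h11 h12 h13 h14 h15
  have := h w D b1 Jd y q r T k X b J J' P1 P2 S z1 h1 h2 h3 h4 h5 h6 h7 h8 h9 h10 h11 h12 h13 h14 h15
  convert this using 3

lemma nu_of_sep {w T p : ℕ} {D : Finset ℕ} (h : Sep w T D p) (hT : 1 ≤ T) : nu p D = D.card := by
  unfold nu
  apply card_image_of_injOn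
  intro d hd d' hd' h1
  apply h.shift hT d hd d' hd'
  have h2 : d' ≡ d [MOD p] := h1.symm
  exact (Nat.modEq_iff_dvd).1 h2

open Classical in
set_option maxHeartbeats 1600000 in
/-- all classes modulo the small primes -/
theorem discK (κ : ℕ) (hκ : 1 ≤ κ) (ε : ℝ) (hε : 0 < ε) (hε1 : ε ≤ 1) (C0 C1 : ℕ) (htwo : TwoP κ (ε / 4) C0 C1)
    (w : ℕ) (D : Finset ℕ) (hDκ : D.card = κ) (hw : 1 ≤ w) (hA : Adm D w)
    (q r T T' y z z1 k b1 b X J' Mb : ℕ) (M : ℝ)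
    (hTT' : ∀ d ∈ D, w * T + d ≤ T') (hMb : T' < z1 ^ Mb)
    (hJ' : ∀ i : Fin (JJ z), (grp (JJ z) (Pyz z1 z) i).Nonempty → JJ z ≤ J' + (i : ℕ)) (hk : 1 ≤ k)
    (hb1 : C0 * (κ * (2 * k)) ≤ b1) (hb12 : 2 ≤ b1) (hb : C1 ≤ b) (hb2 : 2 ≤ b)
    (hy : 4 * (κ * k) + 10 ≤ y) (hyT : y ≤ T) (hTz : T ≤ z1) (hz1z : z1 ≤ z)
    (hq : ∀ p, p.Prime → y < p → p ≤ z → ¬ p ∣ w → ¬ p ∣ q)
    (hS : ∀ m, |(RK D w y m T : ℝ) - T * VK D w y| ≤ ε / 8 * (T * VK D w y))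
    (hT : 18 * (κ : ℝ) ^ 2 * WK D (pQ w T z1) * T ≤ WK D (pQ w y T) * y)
    (hμ : 45 * (κ : ℝ) * k ≤ 3 / 4 * (T * VK D w z1))
    (hbad : (((T * κ) ^ 2 * Mb : ℕ) : ℝ) * ((κ : ℝ) / z1) ≤ ε / 16)
    (hBD : ∀ m, BK (ε / 4) κ k (X / Qy y) b1 (JJ z1) b (JJ z) J' D (SK D w y m T) (pQ w y z1)
      ((pQ w z1 z).filter (fun p => Sep w T D p)) z1 +
      (((T * κ) ^ 2 * Mb : ℕ) : ℝ) * (T * κ) * (((X / Qy y : ℕ) : ℝ) / z1 + 1) ≤ M) :
    (((Icc 1 X).filter (fun l => ε * (T * VK D w z) < |(RK D w z (q * l + r) T : ℝ) - T * VK D w z|)).card : ℝ) ≤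
      Qy y * (1 + M) := by
  have hyz1 : y ≤ z1 := hyT.trans hTz
  have hyz : y ≤ z := hyz1.trans hz1z
  have hκk : κ * 1 ≤ κ * k := Nat.mul_le_mul_left _ hk
  have hT1 : 1 ≤ T := by omega
  have hκz1 : κ ≤ z1 := by omega
  refine le_trans (le_of_eq ?_) (class_split (Qy y) (Qy_pos y) X
    (fun l => ε * (T * VK D w z) < |(RK D w z (q * l + r) T : ℝ) - T * VK D w z|) M ?_)
  · congr!
  intro c
  set P1 := pQ w y z1 with hP1
  set P2 := pQ w z1 z with hP2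
  set G := P2.filter (fun p => Sep w T D p) with hG
  set Bd := P2.filter (fun p => ¬ Sep w T D p) with hBd
  set S := SK D w y (q * c + r) T with hSd
  have hPu : P1 ∪ P2 = pQ w y z := by
    ext p
    rw [mem_union, hP1, hP2, mem_pQ, mem_pQ, mem_pQ]
    constructor
    · rintro (⟨h1, h2, h3⟩ | ⟨h1, h2, h3⟩)
      · exact ⟨h1, h2.trans hz1z, h3⟩
      · exact ⟨by omega, h2, h3⟩
    · rintro ⟨h1, h2, h3⟩
      rcases Nat.lt_or_ge z1 p with h4 | h4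
      · exact Or.inr ⟨h4, h2, h3⟩
      · exact Or.inl ⟨h1, h4, h3⟩
  have hS1 : |(S.card : ℝ) - T * VK D w y| ≤ ε / 8 * (T * VK D w y) := hS (q * c + r)
  have hVy := VK_pos D w y hA
  have hVz := VK_pos D w z hA
  have hVz1 := VK_pos D w z1 hA
  have hW1 : VK D w y * WK D P1 = VK D w z1 := VK_mul D w y z1 hyz1
  have hW1p : 0 < WK D P1 := WK_pos' D w hA P1 fun p hp => (mem_pQ.1 hp).2.2
  have hGP : ∀ p ∈ G, p.Prime ∧ Sep w T D p ∧ z1 < p ∧ p ≤ z ∧ ¬ p ∣ w := by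
    intro p hp
    rw [hG, mem_filter, hP2, mem_pQ] at hp
    exact ⟨hp.1.2.2.1, hp.2, hp.1.1, hp.1.2.1, hp.1.2.2.2⟩
  have hBdP : ∀ p ∈ Bd, p.Prime ∧ z1 < p ∧ p ≤ z ∧ ¬ p ∣ w := by
    intro p hp
    rw [hBd, mem_filter, hP2, mem_pQ] at hp
    exact ⟨hp.1.2.2.1, hp.1.1, hp.1.2.1, hp.1.2.2.2⟩
  have hWq : Wq κ G = WK D G := by
    unfold Wq WK
    apply prod_congr rfl
    intro p hp
    rw [nu_of_sep (hGP p hp).2.1 hT1, hDκ]
  have hWGB : WK D G * WK D Bd = WK D P2 := by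
    unfold WK
    rw [hG, hBd]
    exact prod_filter_mul_prod_filter_not _ _ _
  have hWG : VK D w z1 * (WK D G * WK D Bd) = VK D w z := by
    rw [hWGB]
    exact VK_mul D w z1 z hz1z
  have hBdc : Bd.card ≤ (T * κ) ^ 2 * Mb := by
    rw [hBd]
    have := bad_card w T T' z1 Mb κ D P2 hDκ.le hTT' hMb (fun p hp => ⟨(mem_pQ.1 hp).2.2.1, (mem_pQ.1 hp).1⟩)
    convert this
  have hβ := bad_dens D Bd κ z1 hDκ.le (by omega) hκz1 (fun p hp => ⟨(hBdP p hp).1, (hBdP p hp).2.1⟩)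
  have hz10 : (0 : ℝ) < z1 := by exact_mod_cast (by omega : 0 < z1)
  have hβ1 : 1 - ε / 16 ≤ WK D Bd := by
    refine le_trans ?_ hβ.1
    have h1 : (Bd.card : ℝ) * ((κ : ℝ) / z1) ≤ (((T * κ) ^ 2 * Mb : ℕ) : ℝ) * ((κ : ℝ) / z1) := by
      apply mul_le_mul_of_nonneg_right _ (by positivity)
      exact_mod_cast hBdc
    linarith
  have hT0 : (0 : ℝ) ≤ T := Nat.cast_nonneg T
  have ha := abs_le.1 hS1
  have hμ1 : 45 * (κ : ℝ) * k ≤ S.card * WK D P1 := by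
    refine hμ.trans ?_
    have h1 : 3 / 4 * (T * VK D w y) ≤ S.card := by
      have : 0 ≤ T * VK D w y := by positivity
      nlinarith
    calc 3 / 4 * (T * VK D w z1) = (3 / 4 * (T * VK D w y)) * WK D P1 := by rw [← hW1]; ring
      _ ≤ S.card * WK D P1 := mul_le_mul_of_nonneg_right h1 hW1p.le
  have hqQ : ∀ p, p.Prime → y < p → p ≤ z → ¬ p ∣ w → ¬ p ∣ q * Qy y := by
    intro p h3 h1 h2 hw' hd
    rcases (Nat.Prime.dvd_mul h3).1 hd with h4 | h4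
    · exact hq p h3 h1 h2 hw' h4
    · unfold Qy at h4
      rw [Prime.dvd_finsetProd_iff h3.prime] at h4
      obtain ⟨p', hp', h5⟩ := h4
      have h6 := (Nat.prime_dvd_prime_iff_eq h3 (mem_pz.1 hp').2).1 h5
      have h7 := (mem_pz.1 hp').1
      omega
  have e1 : P1.filter (fun p => T < p) = pQ w T z1 := by
    ext p
    rw [mem_filter, hP1, mem_pQ, mem_pQ]
    constructor
    · rintro ⟨⟨_, h1, h2⟩, h3⟩
      exact ⟨h3, h1, h2⟩
    · rintro ⟨h1, h2, h3⟩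
      exact ⟨⟨by omega, h2, h3⟩, h1⟩
  have e2 : P1.filter (fun p => p ≤ T) = pQ w y T := by
    ext p
    rw [mem_filter, hP1, mem_pQ, mem_pQ]
    constructor
    · rintro ⟨⟨h0, _, h2⟩, h3⟩
      exact ⟨h0, h3, h2⟩
    · rintro ⟨h1, h2, h3⟩
      exact ⟨⟨h1, by omega, h3⟩, h2⟩
  have key := htwo w D b1 (JJ z1) y (q * Qy y) (q * c + r) T k (X / Qy y) b (JJ z) J' P1 G S z1 hDκ hw hk hb1 hb12 hy
    (fun p hp => by
      obtain ⟨h1, h2, h3, h4⟩ := mem_pQ.1 hp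
      exact ⟨h3, h1, h2.trans (JJ_lt z1).le, hqQ p h3 h1 (h2.trans hz1z) h4, h4⟩) (filter_subset _ _)
    (by rw [e1, e2]; exact hT) hμ1 hz10
    (fun p hp => by
      obtain ⟨h3, h4, h5, h6, h7⟩ := hGP p hp
      refine ⟨h3, h4, hqQ p h3 (by omega) h6 h7, ?_, by exact_mod_cast h5.le, by omega, h6.trans (JJ_lt z).le, by omega⟩
      intro h8
      have := (mem_pQ.1 h8).2.1
      omega) hb hb2 (fun i hi => hJ' i (by
        obtain ⟨p, hp⟩ := hi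
        refine ⟨p, ?_⟩
        unfold grp at hp ⊢
        rw [mem_filter] at hp ⊢
        obtain ⟨h3, h4, h5, h6, h7⟩ := hGP p hp.1
        exact ⟨mem_Pyz.2 ⟨h5, h6, h3⟩, hp.2⟩))
  have hbc := bad_count w (q * Qy y) (q * c + r) (X / Qy y) T z1 κ D Bd hDκ.le (by omega) (fun p hp => by
    obtain ⟨h1, h2, h3, h4⟩ := hBdP p hp
    exact ⟨h1, h2, hqQ p h1 (by omega) h3 h4⟩)
  set BA := (Icc 1 (X / Qy y)).filter (fun l => ε / 4 * (Wq κ G * (S.card * WK D P1)) <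
      |(XXK w D (q * Qy y) (q * c + r) (P1 ∪ G) S l : ℝ) - Wq κ G * (S.card * WK D P1)|) with hBA
  set BB := (Icc 1 (X / Qy y)).filter (fun l => ∃ p ∈ Bd, ∃ h ∈ Icc 1 T, ∃ d ∈ D,
    p ∣ q * Qy y * l + (q * c + r + w * h + d)) with hBB
  have hsub : (Icc 1 (X / Qy y)).filter (fun l => ε * (T * VK D w z) <
      |(RK D w z (q * (Qy y * l + c) + r) T : ℝ) - T * VK D w z|) ⊆ BA ∪ BB := by
    intro l hl
    rw [mem_filter] at hl
    obtain ⟨hl1, hl2⟩ := hl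
    by_contra hno
    rw [mem_union, not_or] at hno
    apply absurd hl2
    rw [not_lt]
    have h1 : |(XXK w D (q * Qy y) (q * c + r) (P1 ∪ G) S l : ℝ) - Wq κ G * (S.card * WK D P1)| ≤
        ε / 4 * (Wq κ G * (S.card * WK D P1)) := by
      by_contra h
      exact hno.1 (mem_filter.2 ⟨hl1, not_le.1 h⟩)
    have h2 : ∀ p ∈ Bd, ∀ h ∈ Icc 1 T, ∀ d ∈ D, ¬ p ∣ q * Qy y * l + (q * c + r + w * h + d) := by
      intro p hp h hh d hd hdvd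
      exact hno.2 (mem_filter.2 ⟨hl1, p, hp, h, hh, d, hd, hdvd⟩)
    have h3 : RK D w z (q * (Qy y * l + c) + r) T = XXK w D (q * Qy y) (q * c + r) (P1 ∪ G) S l := by
      rw [RK_eq_XXK D w q r y z T c l hyz, ← hPu]
      unfold XXK
      congr 1
      apply filter_congr
      intro x hx
      have hxT : x ∈ Icc 1 T := (mem_filter.1 hx).1
      constructor
      · intro h4 p hp
        rcases mem_union.1 hp with h5 | h5
        · exact h4 p (mem_union_left _ h5)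
        · exact h4 p (mem_union_right _ (mem_filter.1 h5).1)
      · intro h4 p hp g hg
        rcases mem_union.1 hp with h5 | h5
        · exact h4 p (mem_union_left _ h5) g hg
        · by_cases h6 : Sep w T D p
          · exact h4 p (mem_union_right _ (mem_filter.2 ⟨h5, h6⟩)) g hg
          · obtain ⟨d, hd, rfl⟩ := mem_pt.1 hg
            have h7 := h2 p (mem_filter.2 ⟨h5, h6⟩) x hxT d hd
            have e3 : q * Qy y * l + (q * c + r) + (w * x + d) = q * Qy y * l + (q * c + r + w * x + d) := by ring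
            rw [e3]
            exact h7
    rw [h3]
    rw [hWq] at h1
    exact comp_eps ε _ _ (VK D w y) (VK D w z1) (VK D w z) (WK D P1) (WK D G) (WK D Bd) T hε hε1 hT0 hVy hVz hVz1 hW1
      hWG hβ1 hβ.2 hS1 h1
  have hBAc : (BA.card : ℝ) ≤ BK (ε / 4) κ k (X / Qy y) b1 (JJ z1) b (JJ z) J' D S P1 G z1 := by
    convert key using 3
  have hBBc : (BB.card : ℝ) ≤ (((T * κ) ^ 2 * Mb : ℕ) : ℝ) * (T * κ) * (((X / Qy y : ℕ) : ℝ) / z1 + 1) := by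
    have h1 : (BB.card : ℝ) ≤ Bd.card * (T * κ) * (((X / Qy y : ℕ) : ℝ) / z1 + 1) := by
      convert hbc using 3
    refine h1.trans ?_
    have h2 : (Bd.card : ℝ) ≤ (((T * κ) ^ 2 * Mb : ℕ) : ℝ) := by exact_mod_cast hBdc
    gcongr
  have hcard := (card_le_card hsub).trans (card_union_le _ _)
  have hcr : (((Icc 1 (X / Qy y)).filter (fun l => ε * (T * VK D w z) <
      |(RK D w z (q * (Qy y * l + c) + r) T : ℝ) - T * VK D w z|)).card : ℝ) ≤ BA.card + BB.card := by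
    exact_mod_cast hcard
  have hM := hBD (q * c + r)
  linarith

end Pool.Agent.H36.KT
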