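import Mathlib
import Pool.Agent.H36.KT.Ev
import Pool.Agent.H36.BT.EvT

/-!
Bounds needed for the choice of the parameters.
-/

set_option autoImplicit false

open Finset Filter

namespace Pool.Agent.H36.KT

open Pool.Agent.H36.RW Pool.Agent.H373R2.T7 Pool.Agent.H36.BF Pool.Agent.H36.BE Pool.Agent.H36.BT

lemma final_bd (X y A : ℕ) (L lam : ℝ) (hL1 : 16 ≤ L) (hlam : 4 ≤ lam) (hlamL : lam ≤ L) (hX : Real.exp L ≤ X)
    (hy1 : 1 ≤ y)
    (hyL : (y : ℝ) ≤ L ^ (1 / 6 : ℝ)) (f16 : 6 * L ^ A ≤ Real.exp (1 / 4 * L)) (f20 : 4 ≤ L ^ (2 / 3 : ℝ)) :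
    (Qy y : ℝ) * (1 + (X / Qy y * (7 / lam ^ (A + 2)) + 2 * Real.exp (L / 2))) ≤ X / lam ^ A := by
  have hL0 : 0 < L := by linarith
  have hlam0 : 0 < lam := by linarith
  have hyr : (1 : ℝ) ≤ y := by exact_mod_cast hy1
  have hX1 : (0 : ℝ) < X := (Real.exp_pos L).trans_le hX
  have hQpos : (0 : ℝ) < Qy y := by exact_mod_cast Qy_pos y
  have hQle : (Qy y : ℝ) ≤ Real.exp (L / 4) := by
    have h1 : (Qy y : ℝ) ≤ (y : ℝ) ^ y := by exact_mod_cast Qy_le y
    refine h1.trans ?_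
    have h2 : (y : ℝ) ≤ Real.exp y := by linarith [Real.add_one_le_exp (y : ℝ)]
    calc (y : ℝ) ^ y ≤ (Real.exp y) ^ y := pow_le_pow_left₀ (by linarith) h2 _
      _ = Real.exp (y * y) := by rw [← Real.exp_nat_mul]
      _ ≤ Real.exp (L / 4) := by
          apply Real.exp_le_exp.2
          have h3 : (y : ℝ) * y ≤ L ^ (1 / 6 : ℝ) * L ^ (1 / 6 : ℝ) := mul_le_mul hyL hyL (by linarith) (by positivity)
          have h4 : L ^ (1 / 6 : ℝ) * L ^ (1 / 6 : ℝ) = L ^ (1 / 3 : ℝ) := by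
            rw [← Real.rpow_add hL0]
            norm_num
          have h5 : 4 * L ^ (1 / 3 : ℝ) ≤ L := by
            calc 4 * L ^ (1 / 3 : ℝ) ≤ L ^ (2 / 3 : ℝ) * L ^ (1 / 3 : ℝ) := mul_le_mul_of_nonneg_right f20 (by positivity)
              _ = L := by
                  rw [← Real.rpow_add hL0]
                  norm_num
          linarith
  have hexp : Real.exp L = Real.exp (L / 4) * Real.exp (L / 2) * Real.exp (1 / 4 * L) := by
    rw [← Real.exp_add, ← Real.exp_add]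
    congr 1
    ring
  have he1 : 1 ≤ Real.exp (L / 2) := Real.one_le_exp (by positivity)
  have hlamA : lam ^ A ≤ L ^ A := pow_le_pow_left₀ hlam0.le hlamL A
  calc (Qy y : ℝ) * (1 + (X / Qy y * (7 / lam ^ (A + 2)) + 2 * Real.exp (L / 2)))
      = Qy y * (1 + 2 * Real.exp (L / 2)) + X * (7 / lam ^ (A + 2)) := by field_simp; ring
    _ ≤ Real.exp (L / 4) * (Real.exp (L / 2) + 2 * Real.exp (L / 2)) + X * (7 / lam ^ (A + 2)) := by
        gcongr
    _ ≤ X / lam ^ A := by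
        have h1 : Real.exp (L / 4) * (Real.exp (L / 2) + 2 * Real.exp (L / 2)) ≤ X / lam ^ A / 2 := by
          rw [div_div, le_div_iff₀ (by positivity)]
          calc Real.exp (L / 4) * (Real.exp (L / 2) + 2 * Real.exp (L / 2)) * (lam ^ A * 2) ≤
                Real.exp (L / 4) * (Real.exp (L / 2) + 2 * Real.exp (L / 2)) * (L ^ A * 2) := by gcongr
            _ = Real.exp (L / 4) * Real.exp (L / 2) * (6 * L ^ A) := by ring
            _ ≤ Real.exp (L / 4) * Real.exp (L / 2) * Real.exp (1 / 4 * L) :=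
                mul_le_mul_of_nonneg_left f16 (by positivity)
            _ = Real.exp L := hexp.symm
            _ ≤ X := hX
        have h2 : X * (7 / lam ^ (A + 2)) ≤ X / lam ^ A * (1 / 2) := by
          rw [pow_add]
          have h3 : X * (7 / (lam ^ A * lam ^ 2)) = X / lam ^ A * (7 / lam ^ 2) := by field_simp
          rw [h3]
          apply mul_le_mul_of_nonneg_left _ (by positivity)
          rw [div_le_iff₀ (by positivity)]
          nlinarith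
        linarith

/-- upper bound for the density, for moduli `w ≤ exp M` -/
lemma VK_small (D : Finset ℕ) (hD : D.Nonempty) (w y z : ℕ) (M cl Cu : ℝ) (hw : 1 ≤ w) (hwM : (w : ℝ) ≤ Real.exp M)
    (hM : M ≤ y / 2) (hy : 3 ≤ y) (hyz : y ≤ z) (hcl : 0 < cl) (hCu : 0 < Cu) (hVl : cl / Real.log y ≤ Vz y)
    (hVu : Vz z ≤ Cu / Real.log z) :
    VK D w z ≤ 2 * (Cu / Real.log z) / (cl / Real.log y) := by
  have h1 := VK_upper D hD w z
  have h2 : Wp (p0 w z) ≤ Wp (pQ w y z) := by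
    apply Wp_mono
    · intro p hp
      rw [mem_pQ] at hp
      rw [mem_p0]
      exact ⟨hp.2.1, hp.2.2⟩
    · intro p hp
      exact (mem_p0.1 hp).2.1
  have h3 := half w y z M hw hwM hM hy
  rw [Wp_Pyz' y z hyz] at h3
  have hy1 : (1 : ℝ) < y := by exact_mod_cast (by omega : 1 < y)
  have hly := Real.log_pos hy1
  have h4 : 0 < cl / Real.log y := by positivity
  have hVz := Vz_pos z
  have hVy := Vz_pos y
  calc VK D w z ≤ 2 * (Vz z / Vz y) := h1.trans (h2.trans h3)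
    _ = 2 * Vz z / Vz y := by ring
    _ ≤ 2 * (Cu / Real.log z) / (cl / Real.log y) := by
        gcongr

/-- the product over the large primes -/
lemma WK_big_lower (κ : ℕ) (hκ : 1 ≤ κ) (D : Finset ℕ) (hD : D.card ≤ κ) (P P' : Finset ℕ) (hPP : P ⊆ P')
    (hP : ∀ p ∈ P', p.Prime ∧ 2 * κ ≤ p) : Wp P' ^ (2 * κ) ≤ WK D P := by
  have h1 : Wp P' ≤ Wp P := Wp_mono P P' hPP fun p hp => (hP p hp).1
  have h0 : 0 < Wp P' := Wp_pos P' fun p hp => (hP p hp).1.two_le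
  refine (pow_le_pow_left₀ h0.le h1 _).trans ?_
  unfold Wp WK
  rw [← prod_pow]
  apply Finset.prod_le_prod
  · intro p hp
    exact pow_nonneg (fac_bounds (hP p (hPP hp)).1).1 _
  · intro p hp
    obtain ⟨h2, h3⟩ := hP p (hPP hp)
    refine (fac_pow p κ hκ h3).trans ?_
    have hp0 : (0 : ℝ) < p := by exact_mod_cast h2.pos
    have h4 : (nu p D : ℝ) ≤ κ := by exact_mod_cast (nu_le p D).trans hD
    have h5 : (nu p D : ℝ) / p ≤ (κ : ℝ) / p := div_le_div_of_nonneg_right h4 hp0.le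
    linarith

lemma Wq_big_lower (κ : ℕ) (hκ : 1 ≤ κ) (P P' : Finset ℕ) (hPP : P ⊆ P')
    (hP : ∀ p ∈ P', p.Prime ∧ 2 * κ ≤ p) : Wp P' ^ (2 * κ) ≤ Wq κ P := by
  have h1 : Wp P' ≤ Wp P := Wp_mono P P' hPP fun p hp => (hP p hp).1
  have h0 : 0 < Wp P' := Wp_pos P' fun p hp => (hP p hp).1.two_le
  refine (pow_le_pow_left₀ h0.le h1 _).trans ?_
  unfold Wp Wq
  rw [← prod_pow]
  apply Finset.prod_le_prod
  · intro p hp
    exact pow_nonneg (fac_bounds (hP p (hPP hp)).1).1 _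
  · intro p hp
    obtain ⟨h2, h3⟩ := hP p (hPP hp)
    exact fac_pow p κ hκ h3

/-- the weight product over a subset -/
lemma W_sub (P P' : Finset ℕ) (hPP : P ⊆ P') (hP : ∀ p ∈ P', p.Prime) (n : ℕ) :
    ∏ p ∈ P, (1 + (n : ℝ) / p) ≤ (1 / Wp P') ^ n := by
  classical
  refine le_trans ?_ (W_le P' hP n)
  rw [← prod_sdiff hPP]
  have h1 : (1 : ℝ) ≤ ∏ p ∈ P' \ P, (1 + (n : ℝ) / p) := by
    calc (1 : ℝ) = ∏ _p ∈ P' \ P, (1 : ℝ) := by rw [prod_const_one]
      _ ≤ _ := by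
          apply Finset.prod_le_prod
          · intro p _
            exact zero_le_one
          · intro p _
            have : (0 : ℝ) ≤ (n : ℝ) / p := by positivity
            linarith
  have h2 : (0 : ℝ) ≤ ∏ p ∈ P, (1 + (n : ℝ) / p) := prod_nonneg fun p _ => by positivity
  exact le_mul_of_one_le_left h2 h1

/-- positions free of small primes -/
lemma smallK (κ : ℕ) (hκ : 1 ≤ κ) (ε : ℝ) (hε : 0 < ε) (D : Finset ℕ) (hD : D.card = κ) (w T y : ℕ)
    (hA : Adm D w) (L ℓ cl : ℝ)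
    (hsm : ∀ m : ℕ, |(RK D w y m T : ℝ) - T * VK D w y| ≤ ε / 16 * (T * VK D w y) + √(T : ℝ))
    (hL1 : 1 ≤ L) (hcl : 0 < cl) (hℓ : 1 ≤ ℓ) (hV : cl / ℓ ≤ Vz y)
    (hLT : L ^ (2 / 3 : ℝ) ≤ T)
    (f : 16 / ε * ((2 * κ) ^ (2 * κ) / cl ^ (2 * κ)) * ℓ ^ (2 * κ) ≤ L ^ (1 / 3 : ℝ)) :
    ∀ m, |(RK D w y m T : ℝ) - T * VK D w y| ≤ ε / 8 * (T * VK D w y) := by
  intro m
  have hL0 : 0 < L := by linarith
  have hκr : (1 : ℝ) ≤ κ := by exact_mod_cast hκ
  have hT0 : (0 : ℝ) < T := lt_of_lt_of_le (by positivity) hLT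
  have h3 := hsm m
  have h1 := WK_lower κ hκ D hD.le w hA y (p0 w y) (fun p hp => by
    obtain ⟨h4, h5, h6⟩ := mem_p0.1 hp
    exact ⟨h5, h4, h6⟩)
  have h2 : (1 / (2 * κ : ℝ)) ^ (2 * κ) * (cl / ℓ) ^ (2 * κ) ≤ VK D w y := by
    refine le_trans ?_ h1
    apply mul_le_mul_of_nonneg_left _ (by positivity)
    exact pow_le_pow_left₀ (by positivity) hV _
  have h4 : √(T : ℝ) ≤ ε / 16 * (T * VK D w y) := by
    have h6 : 16 / ε * ((2 * κ) ^ (2 * κ) / cl ^ (2 * κ)) * ℓ ^ (2 * κ) ≤ √(T : ℝ) := by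
      refine f.trans ?_
      apply Real.le_sqrt_of_sq_le
      have h7 : (L ^ (1 / 3 : ℝ)) ^ 2 = L ^ (2 / 3 : ℝ) := by
        rw [← Real.rpow_natCast, ← Real.rpow_mul hL0.le]
        norm_num
      rw [h7]
      exact hLT
    have h7 : √(T : ℝ) * √(T : ℝ) = T := Real.mul_self_sqrt hT0.le
    have h8 : 0 < √(T : ℝ) := Real.sqrt_pos.2 hT0
    set Z : ℝ := (1 / (2 * κ : ℝ)) ^ (2 * κ) * (cl / ℓ) ^ (2 * κ) with hZ
    have hZ0 : 0 < Z := by positivity
    have h9 : 16 / ε * ((2 * κ) ^ (2 * κ) / cl ^ (2 * κ)) * ℓ ^ (2 * κ) = 16 / ε / Z := by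
      rw [hZ, div_pow, div_pow, one_pow]
      field_simp
    rw [h9] at h6
    have h10 : 16 / ε ≤ √(T : ℝ) * Z := by rwa [div_le_iff₀ hZ0] at h6
    have h11 : √(T : ℝ) * (16 / ε) ≤ √(T : ℝ) * (√(T : ℝ) * Z) := mul_le_mul_of_nonneg_left h10 h8.le
    rw [← mul_assoc, h7] at h11
    have h12 : T * Z ≤ T * VK D w y := mul_le_mul_of_nonneg_left h2 hT0.le
    calc √(T : ℝ) = ε / 16 * (√(T : ℝ) * (16 / ε)) := by field_simp
      _ ≤ ε / 16 * (T * VK D w y) := mul_le_mul_of_nonneg_left (h11.trans h12) (by positivity)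
  have h5 : ε / 8 * (T * VK D w y) = ε / 16 * (T * VK D w y) + ε / 16 * (T * VK D w y) := by ring
  rw [h5]
  linarith

end Pool.Agent.H36.KT
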