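import Mathlib
import Pool.Agent.H36.KT.EvA

/-!
More bounds needed for the choice of the parameters.
-/

set_option autoImplicit false

open Finset Filter

namespace Pool.Agent.H36.KT

open Pool.Agent.H36.RW Pool.Agent.H373R2.T7 Pool.Agent.H36.BF Pool.Agent.H36.BE Pool.Agent.H36.BT

lemma log_pos_nat {n : ℕ} (h : 2 ≤ n) : 0 < Real.log n := Real.log_pos (by exact_mod_cast (by omega : 1 < n))

/-- upper bound for the length -/
lemma T_upper (κ : ℕ) (hκ : 1 ≤ κ) (D : Finset ℕ) (hD : D.card = κ) (w z T : ℕ) (hA : Adm D w) (L δ c2 cl lam : ℝ)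
    (hL1 : 1 ≤ L) (hδ : δ ≤ 1 / 12) (hcl : 0 < cl) (hc2 : 0 < c2) (hVz : cl / (c2 * L) ≤ Vz z)
    (hlam : lam ≤ L ^ δ) (hT : T * VK D w z ≤ 8 * lam)
    (f : 8 * ((2 * κ) ^ (2 * κ) * (c2 / cl) ^ (2 * κ)) ≤ L ^ (11 / 12 : ℝ)) : (T : ℝ) ≤ L ^ (2 * κ + 1) := by
  have hL0 : 0 < L := by linarith
  have hκr : (1 : ℝ) ≤ κ := by exact_mod_cast hκ
  have h1 := WK_lower κ hκ D hD.le w hA z (p0 w z) (fun p hp => by
    obtain ⟨h4, h5, h6⟩ := mem_p0.1 hp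
    exact ⟨h5, h4, h6⟩)
  set Z : ℝ := (1 / (2 * κ : ℝ)) ^ (2 * κ) * (cl / (c2 * L)) ^ (2 * κ) with hZ
  have hZ0 : 0 < Z := by positivity
  have h2 : Z ≤ VK D w z := by
    refine le_trans ?_ h1
    apply mul_le_mul_of_nonneg_left _ (by positivity)
    exact pow_le_pow_left₀ (by positivity) hVz _
  have hT0 : (0 : ℝ) ≤ T := Nat.cast_nonneg T
  have h3 : T * Z ≤ 8 * L ^ δ := by
    calc T * Z ≤ T * VK D w z := mul_le_mul_of_nonneg_left h2 hT0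
      _ ≤ 8 * lam := hT
      _ ≤ 8 * L ^ δ := by linarith
  have h4 : (T : ℝ) ≤ 8 * L ^ δ / Z := by rwa [le_div_iff₀ hZ0]
  have h5 : 8 * L ^ δ / Z = 8 * ((2 * κ) ^ (2 * κ) * (c2 / cl) ^ (2 * κ)) * L ^ δ * L ^ (2 * κ) := by
    rw [hZ, div_pow, div_pow, div_pow, one_pow, mul_pow c2]
    field_simp
  rw [h5] at h4
  refine h4.trans ?_
  calc 8 * ((2 * κ) ^ (2 * κ) * (c2 / cl) ^ (2 * κ)) * L ^ δ * L ^ (2 * κ)
      ≤ L ^ (11 / 12 : ℝ) * L ^ (1 / 12 : ℝ) * L ^ (2 * κ) := by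
        apply mul_le_mul_of_nonneg_right _ (by positivity)
        apply mul_le_mul f _ (by positivity) (by positivity)
        exact Real.rpow_le_rpow_of_exponent_le hL1 hδ
    _ = L ^ (2 * κ + 1) := by
        rw [← Real.rpow_add hL0]
        norm_num
        rw [pow_succ]
        ring

/-- lower bound for the length -/
lemma T_lower (D : Finset ℕ) (hD : D.Nonempty) (w z T : ℕ) (hA : Adm D w) (L c2 cl Cu lam B : ℝ) (hw : 1 ≤ w)
    (hL3 : 16 ≤ L) (hB : 1 ≤ B) (hBL : 3 * B ≤ L) (hcl : 0 < cl) (hCu : 0 < Cu) (hc2 : 0 < c2)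
    (hVl : ∀ x : ℕ, 2 ≤ x → cl / Real.log x ≤ Vz x) (hVu : ∀ x : ℕ, 2 ≤ x → Vz x ≤ Cu / Real.log x)
    (hwL : (w : ℝ) ≤ Real.exp (B * L)) (hlam : 1 ≤ lam) (hT : lam ≤ T * VK D w z)
    (hz : c2 * L / 2 ≤ Real.log z) (hzL : 3 * (B * L) ≤ z)
    (f : 12 * Cu / (cl * c2) * Real.log L ^ 1 ≤ L ^ (1 / 3 : ℝ)) : L ^ (2 / 3 : ℝ) ≤ T := by
  have hL0 : 0 < L := by linarith
  have hℓ : 1 ≤ Real.log L := by
    rw [Real.le_log_iff_exp_le hL0]
    linarith [Real.exp_one_lt_d9]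
  have hBL0 : L ≤ B * L := le_mul_of_one_le_left hL0.le hB
  set y : ℕ := ⌈2 * (B * L)⌉₊ with hy
  have hy1 : 2 * (B * L) ≤ y := Nat.le_ceil _
  have hy2 : (y : ℝ) < 2 * (B * L) + 1 := Nat.ceil_lt_add_one (by positivity)
  have hy3 : 3 ≤ y := by
    have : (3 : ℝ) ≤ y := by linarith
    exact_mod_cast this
  have hyz : y ≤ z := by
    have : (y : ℝ) ≤ z := by linarith
    exact_mod_cast this
  have h1 := VK_small D hD w y z (B * L) cl Cu hw hwL (by linarith) hy3 hyz hcl hCu (hVl y (by omega)) (hVu z (by omega))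
  have hly : Real.log y ≤ 3 * Real.log L := by
    have h2 : Real.log y ≤ Real.log (L ^ 2) := by
      apply Real.log_le_log (by linarith)
      nlinarith
    rw [Real.log_pow] at h2
    push_cast at h2
    linarith
  have hly0 : 0 < Real.log y := log_pos_nat (by omega)
  have hlz0 : 0 < Real.log z := log_pos_nat (by omega)
  have h2 : VK D w z ≤ 12 * Cu / (cl * c2) * Real.log L / L := by
    refine h1.trans ?_
    calc 2 * (Cu / Real.log z) / (cl / Real.log y) = 2 * Cu / cl * (Real.log y / Real.log z) := by field_simp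
      _ ≤ 2 * Cu / cl * (3 * Real.log L / (c2 * L / 2)) := by gcongr
      _ = _ := by field_simp; ring
  have h3 : VK D w z ≤ L ^ (1 / 3 : ℝ) / L := by
    refine h2.trans ?_
    rw [pow_one] at f
    exact div_le_div_of_nonneg_right f hL0.le
  have hV := VK_pos D w z hA
  have h4 : (1 : ℝ) ≤ T * (L ^ (1 / 3 : ℝ) / L) := by
    calc (1 : ℝ) ≤ lam := hlam
      _ ≤ T * VK D w z := hT
      _ ≤ _ := mul_le_mul_of_nonneg_left h3 (Nat.cast_nonneg _)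
  have h5 : L ^ (2 / 3 : ℝ) * (L ^ (1 / 3 : ℝ) / L) = 1 := by
    have : L ^ (2 / 3 : ℝ) * (L ^ (1 / 3 : ℝ) / L) = (L ^ (2 / 3 : ℝ) * L ^ (1 / 3 : ℝ)) / L := by ring
    rw [this, ← Real.rpow_add hL0]
    norm_num
    exact hL0.ne'
  have h6 : 0 < L ^ (1 / 3 : ℝ) / L := by positivity
  exact le_of_mul_le_mul_right (h5.le.trans h4) h6

/-- the condition on the primes around `T` -/
lemma hT_bound (κ : ℕ) (hκ : 1 ≤ κ) (D : Finset ℕ) (hD : D.card = κ) (w y z1 z T : ℕ) (hA : Adm D w)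
    (L ℓ η δ cl R0 lam e0 : ℝ) (hTz : T ≤ z1) (hz1z : z1 ≤ z) (hy2 : 2 * κ ≤ z1)
    (hL1 : 1 ≤ L) (hℓ : 1 ≤ ℓ) (hcl : 0 < cl) (hR0 : 0 < R0) (he0 : 0 < e0)
    (hVT : cl / (e0 * ℓ) ≤ Vz T) (hW : 1 / Wp (Pyz z1 z) ≤ R0 * ℓ) (hlam : lam ≤ L ^ δ)
    (hδη : δ ≤ η / 2) (hy : L ^ η / 2 ≤ y) (hT : T * VK D w z ≤ 8 * lam)
    (f : 288 * κ ^ 2 * (R0 ^ (2 * κ) * ((2 * κ) ^ (2 * κ) * (e0 / cl) ^ (2 * κ)) ^ 2) * ℓ ^ (6 * κ) ≤ L ^ (η / 2)) :
    18 * (κ : ℝ) ^ 2 * WK D (pQ w T z1) * T ≤ WK D (pQ w y T) * y := by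
  have hL0 : 0 < L := by linarith
  have hℓ0 : 0 < ℓ := by linarith
  have hκr : (1 : ℝ) ≤ κ := by exact_mod_cast hκ
  set Z : ℝ := (1 / (2 * κ : ℝ)) ^ (2 * κ) * (cl / (e0 * ℓ)) ^ (2 * κ) with hZ
  have hZ0 : 0 < Z := by positivity
  have hZV : Z ≤ (1 / (2 * κ : ℝ)) ^ (2 * κ) * Vz T ^ (2 * κ) := by
    apply mul_le_mul_of_nonneg_left _ (by positivity)
    exact pow_le_pow_left₀ (by positivity) hVT _
  have h1 : Z ≤ VK D w T := hZV.trans (WK_lower κ hκ D hD.le w hA T (p0 w T) (fun p hp => by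
    obtain ⟨h4, h5, h6⟩ := mem_p0.1 hp
    exact ⟨h5, h4, h6⟩))
  have h2 : Z ≤ WK D (pQ w y T) := hZV.trans (WK_lower κ hκ D hD.le w hA T (pQ w y T) (fun p hp => by
    obtain ⟨h4, h5, h6⟩ := mem_pQ.1 hp
    exact ⟨h6.1, h5, h6.2⟩))
  have h3 : Wp (Pyz z1 z) ^ (2 * κ) ≤ WK D (pQ w z1 z) :=
    WK_big_lower κ hκ D hD.le (pQ w z1 z) (Pyz z1 z) (filter_subset _ _) (fun p hp => by
      obtain ⟨h4, h5, h6⟩ := mem_Pyz.1 hp
      exact ⟨h6, by omega⟩)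
  have hWp : 0 < Wp (Pyz z1 z) := Wp_pos _ fun p hp => (mem_Pyz.1 hp).2.2.two_le
  have h4 : (1 / (R0 * ℓ)) ^ (2 * κ) ≤ WK D (pQ w z1 z) := by
    refine le_trans ?_ h3
    apply pow_le_pow_left₀ (by positivity)
    rw [one_div_le (by positivity) hWp]
    exact hW
  have h5 : VK D w T * WK D (pQ w T z1) = VK D w z1 := VK_mul D w T z1 hTz
  have h6 : VK D w z1 * WK D (pQ w z1 z) = VK D w z := VK_mul D w z1 z hz1z
  have hT0 : (0 : ℝ) ≤ T := Nat.cast_nonneg T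
  set a : ℝ := WK D (pQ w T z1) with ha
  have ha0 : 0 < a := WK_pos' D w hA _ fun p hp => (mem_pQ.1 hp).2.2
  set α : ℝ := (1 / (R0 * ℓ)) ^ (2 * κ) * Z with hα
  have hα0 : 0 < α := by positivity
  have h7 : T * a * α ≤ 8 * L ^ δ := by
    calc T * a * α = T * (Z * a) * (1 / (R0 * ℓ)) ^ (2 * κ) := by rw [hα]; ring
      _ ≤ T * (VK D w T * a) * WK D (pQ w z1 z) := by
          apply mul_le_mul _ h4 (by positivity) (by
            have := VK_pos D w T hA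
            positivity)
          apply mul_le_mul_of_nonneg_left _ hT0
          exact mul_le_mul_of_nonneg_right h1 ha0.le
      _ = T * VK D w z := by rw [h5, mul_assoc, h6]
      _ ≤ 8 * lam := hT
      _ ≤ 8 * L ^ δ := by linarith
  have h8 : 288 * κ ^ 2 ≤ α * Z * L ^ (η / 2) := by
    have e1 : α * Z * (R0 ^ (2 * κ) * ((2 * κ) ^ (2 * κ) * (e0 / cl) ^ (2 * κ)) ^ 2 * ℓ ^ (6 * κ)) = 1 := by
      rw [hα, hZ]
      have e2 : ℓ ^ (6 * κ) = ℓ ^ (2 * κ) * ℓ ^ (2 * κ) * ℓ ^ (2 * κ) := by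
        rw [← pow_add, ← pow_add]
        congr 1
        ring
      rw [e2, div_pow, div_pow, div_pow, div_pow, one_pow, mul_pow e0, mul_pow R0]
      field_simp
    calc 288 * (κ : ℝ) ^ 2 = α * Z * (288 * κ ^ 2 * (R0 ^ (2 * κ) * ((2 * κ) ^ (2 * κ) * (e0 / cl) ^ (2 * κ)) ^ 2) *
          ℓ ^ (6 * κ)) := by
          calc 288 * (κ : ℝ) ^ 2 = 288 * κ ^ 2 * (α * Z * (R0 ^ (2 * κ) * ((2 * κ) ^ (2 * κ) * (e0 / cl) ^ (2 * κ)) ^ 2 *
                ℓ ^ (6 * κ))) := by rw [e1, mul_one]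
            _ = _ := by ring
      _ ≤ α * Z * L ^ (η / 2) := mul_le_mul_of_nonneg_left f (by positivity)
  have hLη : L ^ (η / 2) * L ^ (η / 2) = L ^ η := by
    rw [← Real.rpow_add hL0]
    congr 1
    ring
  have hLδ : L ^ δ ≤ L ^ (η / 2) := Real.rpow_le_rpow_of_exponent_le hL1 hδη
  have h9 : 18 * (κ : ℝ) ^ 2 * a * T * α ≤ Z * y * α := by
    calc 18 * (κ : ℝ) ^ 2 * a * T * α = 18 * κ ^ 2 * (T * a * α) := by ring
      _ ≤ 18 * κ ^ 2 * (8 * L ^ δ) := mul_le_mul_of_nonneg_left h7 (by positivity)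
      _ = 288 * κ ^ 2 * L ^ δ / 2 := by ring
      _ ≤ α * Z * L ^ (η / 2) * L ^ (η / 2) / 2 := by gcongr
      _ = Z * (L ^ η / 2) * α := by rw [← hLη]; ring
      _ ≤ Z * y * α := by gcongr
  have h10 := le_of_mul_le_mul_right h9 hα0
  calc 18 * (κ : ℝ) ^ 2 * a * T ≤ Z * y := h10
    _ ≤ _ := mul_le_mul_of_nonneg_right h2 (Nat.cast_nonneg _)

end Pool.Agent.H36.KT
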