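import Mathlib
import Pool.Agent.H36.KT.EvB

/-!
The bound for one class.
-/

set_option autoImplicit false

open Finset Filter

namespace Pool.Agent.H36.KT

open Pool.Agent.H36.RW Pool.Agent.H373R2.T7 Pool.Agent.H36.BF Pool.Agent.H36.BE Pool.Agent.H36.BT

open Classical in
set_option maxHeartbeats 1600000 in
lemma hBD_lem (κ e0 k A a b b1 J' X y z z1 T w : ℕ) (D : Finset ℕ) (ε L lam Λ Nb : ℝ) (m : ℕ)
    (hκ : 1 ≤ κ) (hε : 0 < ε) (hε1 : ε ≤ 1) (hk : k = A + 3) (hL1 : 1 ≤ L) (hlam1 : 1 ≤ lam) (hlamL : lam ≤ L)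
    (hΛ1 : 1 ≤ Λ) (hΛk : Λ ^ (8 * k + 8) ≤ lam)
    (m3a : 4 * Real.exp 1 * (45 * κ) * k / (ε / 4 / 8) ^ 2 ≤ Λ) (m3b : 4 * Real.exp 3 / (ε / 4 / 8) ^ 2 ≤ Λ)
    (m3c : ((k * κ ^ 2 : ℕ) : ℝ) ≤ Λ) (hJΛ : 8 * ((J' : ℝ) + 1) / (ε / 4) ≤ Λ)
    (hMΛ : ((2 * k : ℕ) : ℝ) * ((J' * (2 * b + 2 * J' + 1) : ℕ) : ℝ) * 2 ^ κ ≤ Λ)
    (hWN : (1 / Wp (Pyz z1 z)) ^ (2 ^ (κ * (2 * k))) ≤ Λ) (hW2 : (1 / Wp (Pyz z1 z)) ^ (2 * κ) ≤ Λ)
    (hWp20 : 0 < Wp (Pyz z1 z)) (hPyz : ∀ p ∈ Pyz z1 z, p.Prime ∧ 2 * κ ≤ p) (hA : Adm D w) (hyz1 : y ≤ z1)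
    (hSm : |((SK D w y m T).card : ℝ) - T * VK D w y| ≤ ε / 8 * (T * VK D w y))
    (hμ : 2 * lam ≤ T * VK D w z1) (hT0 : (0 : ℝ) < T) (hb1 : (1 / 2 : ℝ) ^ b1 ≤ 1 / lam ^ (A + 3))
    (ha : a = e0 * (2 * k) + 3 * e0 + 2 * A + 20) (hz1a : L ^ a ≤ z1) (hTup : (T : ℝ) ≤ L ^ e0)
    (hE : ((JJ z1 : ℝ) + 2) * (((2 : ℝ) ^ 2 ^ JJ z1) ^ (10 * b1)) ^ 2 ≤ Real.exp (L / 16))
    (hD : (((2 : ℝ) ^ 2 ^ JJ z) ^ (10 * b) * (κ : ℝ) ^ (J' * (2 * b + 2 * J' + 1))) ^ (2 * k) ≤ Real.exp (L / 16))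
    (f14 : (16 / (ε / 4)) ^ (2 * k) * 4 * L ^ (e0 * (2 * k) + 1) ≤ Real.exp (1 / 16 * L))
    (hNb0 : 0 ≤ Nb) (hNb1 : Nb ≤ L ^ (3 * e0 + 4)) (f29 : 1 * L ^ (3 * e0 + 4) ≤ Real.exp (1 / 2 * L)) :
    BK (ε / 4) κ k (X / Qy y) b1 (JJ z1) b (JJ z) J' D (SK D w y m T) (pQ w y z1)
      ((pQ w z1 z).filter (fun p => Sep w T D p)) z1 + Nb * (((X / Qy y : ℕ) : ℝ) / z1 + 1) ≤
      X / Qy y * (7 / lam ^ (A + 2)) + 2 * Real.exp (L / 2) := by
  have hL0 : 0 < L := by linarith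
  have hlampos : 0 < lam := by linarith
  have hk1 : 1 ≤ k := by omega
  set G := (pQ w z1 z).filter (fun p => Sep w T D p) with hG
  have hGsub : G ⊆ Pyz z1 z := (filter_subset _ _).trans (filter_subset _ _)
  have hWqG : Wp (Pyz z1 z) ^ (2 * κ) ≤ Wq κ G := Wq_big_lower κ hκ G (Pyz z1 z) hGsub hPyz
  have ha' := abs_le.1 hSm
  have hVKy := VK_pos D w y hA
  have hTVy : 0 < T * VK D w y := by positivity
  have hW1 : VK D w y * WK D (pQ w y z1) = VK D w z1 := VK_mul D w y z1 hyz1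
  have hW1p : 0 < WK D (pQ w y z1) := WK_pos' D w hA _ fun p hp => (mem_pQ.1 hp).2.2
  have hz10 : (0 : ℝ) < z1 := lt_of_lt_of_le (by positivity) hz1a
  have hμ' : lam ≤ (SK D w y m T).card * WK D (pQ w y z1) := by
    have h0 : ε / 8 * (T * VK D w y) ≤ 1 / 8 * (T * VK D w y) := by gcongr
    have h1 : 1 / 2 * (T * VK D w y) ≤ (SK D w y m T).card := by linarith [ha'.1]
    calc lam ≤ 1 / 2 * (T * VK D w z1) := by linarith
      _ = (1 / 2 * (T * VK D w y)) * WK D (pQ w y z1) := by rw [← hW1]; ring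
      _ ≤ (SK D w y m T).card * WK D (pQ w y z1) := mul_le_mul_of_nonneg_right h1 hW1p.le
  have c1' : ∏ p ∈ G, (1 + (2 : ℝ) ^ (κ * (2 * k)) / p) ≤ Λ := by
    have h1 := W_sub G (Pyz z1 z) hGsub (fun p hp => (hPyz p hp).1) (2 ^ (κ * (2 * k)))
    push_cast at h1
    exact h1.trans hWN
  have c2' : 1 / Λ ≤ Wq κ G := by
    refine le_trans ?_ hWqG
    rw [one_div_le (by linarith) (by positivity)]
    rw [one_div, ← inv_pow, ← one_div]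
    exact hW2
  have c3' : lam ^ (A + 3) ≤ ((SK D w y m T).card * WK D (pQ w y z1)) ^ k := by
    rw [← hk]
    exact pow_le_pow_left₀ hlampos.le hμ' k
  have c4' : 1 / (z1 : ℝ) ≤ 1 / L ^ (e0 * (2 * k) + A + 3) := by
    apply one_div_le_one_div_of_le (by positivity)
    refine le_trans ?_ hz1a
    apply pow_le_pow_right₀ hL1
    rw [ha]
    omega
  have c5' : ((SK D w y m T).card : ℝ) ≤ L ^ e0 := by
    refine le_trans ?_ hTup
    have h1 : (SK D w y m T).card ≤ T := by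
      calc (SK D w y m T).card ≤ (Icc 1 T).card := card_filter_le _ _
        _ = T := by rw [Nat.card_Icc]; omega
    exact_mod_cast h1
  have c6' : (16 / (ε / 4) * L ^ e0) ^ (2 * k) * (4 * L) ≤ Real.exp (L / 16) := by
    have h1 : (16 / (ε / 4) * L ^ e0) ^ (2 * k) * (4 * L) = (16 / (ε / 4)) ^ (2 * k) * 4 * L ^ (e0 * (2 * k) + 1) := by
      rw [mul_pow, ← pow_mul, pow_succ L]
      ring
    rw [h1]
    have h2 : (1 / 16 : ℝ) * L = L / 16 := by ring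
    rw [h2] at f14
    exact f14
  have h := finK (ε / 4) (by positivity) (by linarith) κ e0 hκ k (X / Qy y) b1 (JJ z1) b (JJ z) J' A D
    (SK D w y m T) (pQ w y z1) G z1 L lam Λ hk1 hL1 hlam1 hlamL hΛ1 hΛk m3a m3b m3c hJΛ hMΛ c1' c2'
    (lt_of_lt_of_le (by positivity) hWqG) hW1p
    (WK_le_one' D _ fun p hp => (mem_pQ.1 hp).2.2.1) (by linarith) c3' hb1 c4' hz10 c5' hE hD c6'
  have hX' : ((X / Qy y : ℕ) : ℝ) ≤ X / Qy y := Nat.cast_div_le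
  have hXQ0 : (0 : ℝ) ≤ X / Qy y := by positivity
  have hlamA : lam ^ (A + 2) ≤ L ^ (A + 2) := pow_le_pow_left₀ hlampos.le hlamL _
  have hNbz : Nb / z1 ≤ 1 / lam ^ (A + 2) := by
    calc Nb / z1 ≤ L ^ (3 * e0 + 4) / L ^ a := by gcongr
      _ ≤ L ^ (3 * e0 + 4) / (L ^ (3 * e0 + 4) * L ^ (A + 2)) := by
          apply div_le_div_of_nonneg_left (by positivity) (by positivity)
          rw [← pow_add]
          apply pow_le_pow_right₀ hL1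
          rw [ha]
          omega
      _ = 1 / L ^ (A + 2) := by field_simp
      _ ≤ 1 / lam ^ (A + 2) := one_div_le_one_div_of_le (by positivity) hlamA
  have hNbe : Nb ≤ Real.exp (L / 2) := by
    refine hNb1.trans ?_
    have h2 : (1 / 2 : ℝ) * L = L / 2 := by ring
    rw [one_mul, h2] at f29
    exact f29
  calc _ ≤ (((X / Qy y : ℕ) : ℝ) * (6 / lam ^ (A + 2)) + Real.exp (L / 2)) + Nb * (((X / Qy y : ℕ) : ℝ) / z1 + 1) := by
        linarith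
    _ = ((X / Qy y : ℕ) : ℝ) * (6 / lam ^ (A + 2) + Nb / z1) + (Real.exp (L / 2) + Nb) := by
        field_simp
        ring
    _ ≤ X / Qy y * (6 / lam ^ (A + 2) + 1 / lam ^ (A + 2)) + (Real.exp (L / 2) + Real.exp (L / 2)) := by gcongr
    _ = _ := by
        field_simp
        ring

/-- the largest difference of two points is smaller than a power of `z1` -/
lemma big_lem (w T z1 Mb : ℕ) (D : Finset ℕ) (L ρ c1 B : ℝ) (hL1 : 16 ≤ L) (hρ1 : 1 ≤ ρ) (hc10 : 0 < c1) (hc11 : c1 ≤ 1 / 2)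
    (hwL : (w : ℝ) ≤ Real.exp (B * L)) (hDL : ∀ d ∈ D, (d : ℝ) ≤ Real.exp (B * L)) (g3 : T ≤ z1)
    (hz1le : (z1 : ℝ) ≤ Real.exp (c1 * L / ρ)) (hz12 : 2 ≤ z1) (hlogz12 : c1 * L / (2 * ρ) ≤ Real.log z1)
    (hMb1 : 2 * (B + 1) * ρ / c1 + 1 ≤ Mb) :
    (∀ d ∈ D, w * T + d ≤ ⌊Real.exp ((B + 1) * L)⌋₊) ∧ ⌊Real.exp ((B + 1) * L)⌋₊ < z1 ^ Mb := by
  have hL0 : 0 < L := by linarith
  have hρ0 : 0 < ρ := by linarith
  have hz10 : (0 : ℝ) < z1 := by exact_mod_cast (by omega : 0 < z1)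
  constructor
  · intro d hd
    apply Nat.le_floor
    push_cast
    have h1 : (T : ℝ) + 1 ≤ Real.exp L := by
      have h2 : (T : ℝ) ≤ z1 := by exact_mod_cast g3
      have h4 : (z1 : ℝ) ≤ Real.exp (L / 2) := by
        refine hz1le.trans (Real.exp_le_exp.2 ?_)
        rw [div_le_iff₀ hρ0]
        calc c1 * L ≤ 1 / 2 * L := mul_le_mul_of_nonneg_right hc11 hL0.le
          _ = L / 2 * 1 := by ring
          _ ≤ L / 2 * ρ := mul_le_mul_of_nonneg_left hρ1 (by positivity)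
      have h6 : Real.exp (L / 2) + 1 ≤ Real.exp L := by
        have h7 : Real.exp L = Real.exp (L / 2) * Real.exp (L / 2) := by
          rw [← Real.exp_add]
          congr 1
          ring
        have h8 : (2 : ℝ) ≤ Real.exp (L / 2) := by linarith [Real.add_one_le_exp (L / 2)]
        rw [h7]
        nlinarith
      linarith
    calc (w : ℝ) * T + d ≤ Real.exp (B * L) * T + Real.exp (B * L) := by
          have := hDL d hd
          gcongr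
      _ = Real.exp (B * L) * (T + 1) := by ring
      _ ≤ Real.exp (B * L) * Real.exp L := mul_le_mul_of_nonneg_left h1 (Real.exp_pos _).le
      _ = Real.exp ((B + 1) * L) := by
          rw [← Real.exp_add]
          congr 1
          ring
  · have h1 : ((⌊Real.exp ((B + 1) * L)⌋₊ : ℕ) : ℝ) < ((z1 ^ Mb : ℕ) : ℝ) := by
      refine lt_of_le_of_lt (Nat.floor_le (Real.exp_pos _).le) ?_
      push_cast
      have h2 : (z1 : ℝ) ^ Mb = Real.exp (Mb * Real.log z1) := by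
        rw [Real.exp_nat_mul, Real.exp_log hz10]
      rw [h2]
      apply Real.exp_lt_exp.2
      calc (B + 1) * L < (2 * (B + 1) * ρ / c1 + 1) * (c1 * L / (2 * ρ)) := by
            have : (2 * (B + 1) * ρ / c1 + 1) * (c1 * L / (2 * ρ)) = (B + 1) * L + c1 * L / (2 * ρ) := by
              field_simp
            rw [this]
            have : 0 < c1 * L / (2 * ρ) := by positivity
            linarith
        _ ≤ Mb * Real.log z1 := by gcongr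
    exact_mod_cast h1

lemma bad_lem (κ e0 k A a T Mb z1 : ℕ) (ε L : ℝ) (hε : 0 < ε) (hL1 : 1 ≤ L) (hTup : (T : ℝ) ≤ L ^ e0)
    (f28 : (κ : ℝ) ≤ L) (hMbL : (Mb : ℝ) ≤ L) (ha : a = e0 * (2 * k) + 3 * e0 + 2 * A + 20) (hz1a : L ^ a ≤ z1)
    (f30 : 16 / ε ≤ L) :
    (((T * κ) ^ 2 * Mb : ℕ) : ℝ) * ((κ : ℝ) / z1) ≤ ε / 16 ∧
    (((T * κ) ^ 2 * Mb : ℕ) : ℝ) * (T * κ) ≤ L ^ (3 * e0 + 4) := by
  have hL0 : 0 < L := by linarith
  have hTκ : (T : ℝ) * κ ≤ L ^ (e0 + 1) := by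
    calc (T : ℝ) * κ ≤ L ^ e0 * L := mul_le_mul hTup f28 (by positivity) (by positivity)
      _ = L ^ (e0 + 1) := by rw [pow_succ]
  have hTκM : (((T * κ) ^ 2 * Mb : ℕ) : ℝ) ≤ L ^ (2 * e0 + 3) := by
    push_cast
    calc ((T : ℝ) * κ) ^ 2 * Mb ≤ (L ^ (e0 + 1)) ^ 2 * L := by gcongr
      _ = L ^ (2 * e0 + 3) := by
          rw [← pow_mul, ← pow_succ]
          congr 1
          ring
  constructor
  · calc (((T * κ) ^ 2 * Mb : ℕ) : ℝ) * ((κ : ℝ) / z1) ≤ L ^ (2 * e0 + 3) * (L / L ^ a) := by gcongr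
      _ = L ^ (2 * e0 + 4) / L ^ a := by
          rw [pow_succ L (2 * e0 + 3)]
          ring
      _ ≤ L ^ (2 * e0 + 4) / L ^ (2 * e0 + 5) := by
          apply div_le_div_of_nonneg_left (by positivity) (by positivity)
          apply pow_le_pow_right₀ hL1
          rw [ha]
          omega
      _ = 1 / L := by
          rw [pow_succ L (2 * e0 + 4)]
          field_simp
      _ ≤ ε / 16 := by
          rw [div_le_div_iff₀ hL0 (by norm_num)]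
          rw [div_le_iff₀ hε] at f30
          linarith
  · calc (((T * κ) ^ 2 * Mb : ℕ) : ℝ) * (T * κ) ≤ L ^ (2 * e0 + 3) * L ^ (e0 + 1) := by gcongr
      _ = L ^ (3 * e0 + 4) := by
          rw [← pow_add]
          congr 1
          ring

/-- the error of the small primes -/
lemma hE_lem (z1 b1 B : ℕ) (L ℓ ρ c1 : ℝ) (hB : 1 ≤ B) (hc1 : c1 = 1 / (2000 * B)) (hL0 : 0 < L) (hρ0 : 0 < ρ)
    (hLe : Real.exp 1 ≤ L) (hℓ : ℓ = Real.log L) (hρ1 : 1 ≤ ρ)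
    (hz12 : 2 ≤ z1) (hz1le : (z1 : ℝ) ≤ Real.exp (c1 * L / ρ)) (hb1le : (b1 : ℝ) ≤ 2 * B * ρ)
    (f21 : 6 * L ^ 1 ≤ Real.exp (1 / 50 * L)) :
    ((JJ z1 : ℝ) + 2) * (((2 : ℝ) ^ 2 ^ JJ z1) ^ (10 * b1)) ^ 2 ≤ Real.exp (L / 16) := by
  have hBr : (1 : ℝ) ≤ B := by exact_mod_cast hB
  have hc10 : 0 < c1 := by rw [hc1]; positivity
  have hc11 : c1 ≤ 1 := by
    rw [hc1, div_le_one (by positivity)]
    linarith
  have hz10 : (0 : ℝ) < z1 := by exact_mod_cast (by omega : 0 < z1)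
  have hlogz1 : Real.log z1 ≤ c1 * L / ρ := by
    rw [← Real.log_exp (c1 * L / ρ)]
    exact Real.log_le_log hz10 hz1le
  have hJ1 : (JJ z1 : ℝ) ≤ 4 * ℓ := by
    rw [hℓ]
    apply J_bound z1 L hz12 hLe
    refine hlogz1.trans ?_
    rw [div_le_iff₀ hρ0]
    calc c1 * L ≤ 1 * L := mul_le_mul_of_nonneg_right hc11 hL0.le
      _ = L * 1 := by ring
      _ ≤ L * ρ := mul_le_mul_of_nonneg_left hρ1 hL0.le
  have h1 : (((2 : ℝ) ^ 2 ^ JJ z1) ^ (10 * b1)) ^ 2 ≤ Real.exp (L / 25) := by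
    rw [← pow_mul]
    apply pow_JJ' z1 (10 * b1 * 2) hz12 (c1 * L / ρ) _ hz1le
    push_cast
    calc 2 * (10 * (b1 : ℝ) * 2) * (c1 * L / ρ) ≤ 2 * (10 * (2 * B * ρ) * 2) * (c1 * L / ρ) := by gcongr
      _ = L / 25 := by
          rw [hc1]
          field_simp
          ring
  have h2 : (JJ z1 : ℝ) + 2 ≤ Real.exp (L / 50) := by
    have h3 : ℓ ≤ L := by
      have := Real.log_le_sub_one_of_pos hL0
      linarith
    have h5 : (1 : ℝ) ≤ L := by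
      have := Real.add_one_le_exp (1 : ℝ)
      linarith
    rw [pow_one] at f21
    have h4 : (1 / 50 : ℝ) * L = L / 50 := by ring
    rw [h4] at f21
    linarith
  calc ((JJ z1 : ℝ) + 2) * (((2 : ℝ) ^ 2 ^ JJ z1) ^ (10 * b1)) ^ 2 ≤ Real.exp (L / 50) * Real.exp (L / 25) := by
        gcongr
    _ = Real.exp (L / 50 + L / 25) := (Real.exp_add _ _).symm
    _ ≤ Real.exp (L / 16) := Real.exp_le_exp.2 (by linarith)

lemma hD_lem (κ k b z J' : ℕ) (L ℓ ρ c2 KJ : ℝ) (hk : 1 ≤ k) (hb : 1 ≤ b) (hc2 : c2 = 1 / (1280 * b * k)) (hL0 : 0 < L)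
    (hρ0 : 0 ≤ ρ) (hρℓ : ρ ≤ ℓ) (hKJ : 0 ≤ KJ) (hz2 : 2 ≤ z) (hzle : (z : ℝ) ≤ Real.exp (c2 * L))
    (hMle : ((J' * (2 * b + 2 * J' + 1) : ℕ) : ℝ) ≤ KJ * (2 * b + 2 * KJ + 1) * ρ ^ 2)
    (f31 : 64 * k * κ * (KJ * (2 * b + 2 * KJ + 1)) * ℓ ^ 2 ≤ L ^ (1 : ℝ)) :
    (((2 : ℝ) ^ 2 ^ JJ z) ^ (10 * b) * (κ : ℝ) ^ (J' * (2 * b + 2 * J' + 1))) ^ (2 * k) ≤ Real.exp (L / 16) := by
  have hkr : (1 : ℝ) ≤ k := by exact_mod_cast hk
  have hbr : (1 : ℝ) ≤ b := by exact_mod_cast hb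
  rw [mul_pow]
  have h1 : (((2 : ℝ) ^ 2 ^ JJ z) ^ (10 * b)) ^ (2 * k) ≤ Real.exp (L / 32) := by
    rw [← pow_mul]
    apply pow_JJ' z (10 * b * (2 * k)) hz2 (c2 * L) _ hzle
    push_cast
    rw [hc2]
    apply le_of_eq
    field_simp
    ring
  have h2 : ((κ : ℝ) ^ (J' * (2 * b + 2 * J' + 1))) ^ (2 * k) ≤ Real.exp (L / 32) := by
    rw [← pow_mul]
    have h3 : (κ : ℝ) ≤ Real.exp κ := by linarith [Real.add_one_le_exp (κ : ℝ)]
    refine (pow_le_pow_left₀ (by positivity) h3 _).trans ?_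
    rw [← Real.exp_nat_mul]
    apply Real.exp_le_exp.2
    rw [Real.rpow_one] at f31
    have h4 : ρ ^ 2 ≤ ℓ ^ 2 := pow_le_pow_left₀ hρ0 hρℓ 2
    have h5 : ((J' * (2 * b + 2 * J' + 1) : ℕ) : ℝ) ≤ KJ * (2 * b + 2 * KJ + 1) * ℓ ^ 2 :=
      hMle.trans (mul_le_mul_of_nonneg_left h4 (by positivity))
    calc ((J' * (2 * b + 2 * J' + 1) * (2 * k) : ℕ) : ℝ) * κ =
          ((J' * (2 * b + 2 * J' + 1) : ℕ) : ℝ) * (2 * k * κ) := by push_cast; ring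
      _ ≤ KJ * (2 * b + 2 * KJ + 1) * ℓ ^ 2 * (2 * k * κ) := mul_le_mul_of_nonneg_right h5 (by positivity)
      _ = (64 * k * κ * (KJ * (2 * b + 2 * KJ + 1)) * ℓ ^ 2) / 32 := by ring
      _ ≤ L / 32 := by linarith
  calc _ ≤ Real.exp (L / 32) * Real.exp (L / 32) := mul_le_mul h1 h2 (by positivity) (Real.exp_pos _).le
    _ = Real.exp (L / 16) := by
        rw [← Real.exp_add]
        congr 1
        ring

lemma gr_lem (z z1 J' : ℕ) (L ρ c1 c2 : ℝ) (hL0 : 0 < L) (hρ0 : 0 < ρ) (hc10 : 0 < c1) (hc20 : 0 < c2)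
    (hz2 : 2 ≤ z) (hz12 : 2 ≤ z1) (hlogz : Real.log z ≤ c2 * L) (hlogz12 : c1 * L / (2 * ρ) ≤ Real.log z1)
    (hJ'1 : 16 * (c2 / c1) * ρ ≤ J') :
    ∀ i : Fin (JJ z), (grp (JJ z) (Pyz z1 z) i).Nonempty → JJ z ≤ J' + (i : ℕ) := by
  apply groups z1 z J' hz2 _ (by omega)
  have h1 := (natlog_bounds z hz2).1
  have h2 := (natlog_bounds z1 hz12).2
  have hl2 := log_two_bounds
  have hn1 : (1 : ℝ) ≤ Nat.log 2 z1 := by
    have : 1 ≤ Nat.log 2 z1 := Nat.log_pos (by norm_num) hz12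
    exact_mod_cast this
  have h3 : (Nat.log 2 z : ℝ) * Real.log 2 ≤ c2 * L := h1.trans hlogz
  have h4 : c1 * L / (2 * ρ) ≤ 2 * (Nat.log 2 z1 : ℝ) * Real.log 2 := by
    refine hlogz12.trans (h2.trans ?_)
    apply mul_le_mul_of_nonneg_right _ (by linarith)
    linarith
  have h5 : (4 : ℝ) * Nat.log 2 z ≤ J' * Nat.log 2 z1 := by
    have h6 : (4 * (Nat.log 2 z : ℝ)) * Real.log 2 ≤ (J' * (Nat.log 2 z1 : ℝ)) * Real.log 2 := by
      calc (4 * (Nat.log 2 z : ℝ)) * Real.log 2 ≤ 4 * (c2 * L) := by linarith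
        _ = (16 * (c2 / c1) * ρ) * (c1 * L / (2 * ρ)) / 2 := by
            field_simp
            ring
        _ ≤ (J' : ℝ) * (2 * (Nat.log 2 z1 : ℝ) * Real.log 2) / 2 := by gcongr
        _ = _ := by ring
    exact le_of_mul_le_mul_right h6 (by linarith)
  have h6 : 4 * Nat.log 2 z ≤ J' * Nat.log 2 z1 := by exact_mod_cast h5
  exact h6.trans (Nat.mul_le_mul_right _ (Nat.lt_two_pow_self (n := J')).le)

end Pool.Agent.H36.KT
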