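import Mathlib
import Pool.Agent.H36.KT.EvC

/-!
The law for the positions in short windows: one scale.
-/

set_option autoImplicit false

open Finset Filter

namespace Pool.Agent.H36.KT

open Pool.Agent.H36.RW Pool.Agent.H373R2.T7 Pool.Agent.H36.BF Pool.Agent.H36.BE Pool.Agent.H36.BT

set_option maxHeartbeats 4000000 in
theorem evK (κ : ℕ) (hκ : 1 ≤ κ) (ε : ℝ) (hε : 0 < ε) (hε1 : ε ≤ 1) : ∃ δ0 : ℝ, 0 < δ0 ∧ δ0 ≤ 1 / 12 ∧
    ∀ (A : ℕ) (Bw : ℝ), 1 ≤ Bw → ∃ c2 lam0 : ℝ, 0 < c2 ∧ c2 ≤ 1 / 2 ∧ 4 ≤ lam0 ∧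
    ∀ᶠ L : ℝ in atTop,
    ∀ X : ℕ, Real.exp L ≤ X → ∀ lam : ℝ, lam0 ≤ lam → lam ≤ L ^ δ0 → ∀ (w : ℕ) (D : Finset ℕ), D.card = κ → 1 ≤ w →
    Adm D w → (w : ℝ) ≤ Real.exp (Bw * L) → (∀ d ∈ D, (d : ℝ) ≤ Real.exp (Bw * L)) → ∀ T : ℕ, 2 * lam ≤ T * VK D w (zE c2 L) →
    T * VK D w (zE c2 L) ≤ 8 * lam →
    ∀ q r : ℕ, (∀ p : ℕ, p.Prime → Real.log L < p → p ≤ zE c2 L → ¬ p ∣ w → ¬ p ∣ q) →
    (((Icc 1 X).filter (fun l => ε * (T * VK D w (zE c2 L)) <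
      |(RK D w (zE c2 L) (q * l + r) T : ℝ) - T * VK D w (zE c2 L)|)).card : ℝ) ≤ X / lam ^ A := by
  obtain ⟨C0, C1, hC0, htwo⟩ := twoP_ex κ hκ (ε / 4) (by positivity) (by linarith)
  obtain ⟨cl, hcl, hVl⟩ := Vz_lower
  obtain ⟨Cu, hCu, hVu⟩ := Vz_upper
  obtain ⟨K1, x0, hK1, hsm⟩ := small_countK κ hκ (ε / 16) (by positivity)
  have hκr : (1 : ℝ) ≤ κ := by exact_mod_cast hκ
  set η : ℝ := 1 / (6 * K1) with hη
  have hK1r : (1 : ℝ) ≤ K1 := by exact_mod_cast hK1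
  have hη0 : 0 < η := by rw [hη]; positivity
  have hη6 : η ≤ 1 / 6 := by
    rw [hη]
    apply one_div_le_one_div_of_le (by norm_num)
    linarith
  have hηK : η * K1 = 1 / 6 := by rw [hη]; field_simp
  refine ⟨η / 2, by positivity, by linarith, fun A Bw hBw => ?_⟩
  set δ : ℝ := η / 2 with hδd
  have hδ : 0 < δ := by positivity
  have hδη : δ ≤ η / 2 := le_rfl
  -- the parameters
  set k : ℕ := A + 3 with hk
  have hk1 : 1 ≤ k := by omega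
  have hkr : (1 : ℝ) ≤ k := by exact_mod_cast hk1
  set e0 : ℕ := 2 * κ + 1 with he0
  have he01 : 1 ≤ e0 := by omega
  have he0r : (1 : ℝ) ≤ e0 := by exact_mod_cast he01
  set b : ℕ := max C1 2 with hb
  have hbC : C1 ≤ b := le_max_left _ _
  have hb2 : 2 ≤ b := le_max_right _ _
  have hbr : (2 : ℝ) ≤ b := by exact_mod_cast hb2
  set a : ℕ := e0 * (2 * k) + 3 * e0 + 2 * A + 20 with ha
  obtain ⟨Bq, hBq⟩ := exists_pow_lt_of_lt_one (Real.exp_pos (-((A + 3 : ℕ) : ℝ))) (show (1 / 2 : ℝ) < 1 by norm_num)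
  set B : ℕ := max (C0 * (κ * (2 * k))) (max Bq 2) with hB
  have hBC : C0 * (κ * (2 * k)) ≤ B := le_max_left _ _
  have hB2 : 2 ≤ B := (le_max_right _ _).trans (le_max_right _ _)
  have hBr : (2 : ℝ) ≤ B := by exact_mod_cast hB2
  have hBB : (1 / 2 : ℝ) ^ B ≤ Real.exp (-((A + 3 : ℕ) : ℝ)) := by
    have h1 : (1 / 2 : ℝ) ^ B ≤ (1 / 2) ^ Bq :=
      pow_le_pow_of_le_one (by norm_num) (by norm_num) ((le_max_left _ _).trans (le_max_right _ _))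
    exact h1.trans hBq.le
  set c1 : ℝ := 1 / (2000 * B) with hc1
  have hc10 : 0 < c1 := by rw [hc1]; positivity
  have hc11 : c1 ≤ 1 := by
    rw [hc1, div_le_one (by positivity)]
    linarith
  set c2 : ℝ := 1 / (1280 * b * k) with hc2
  have hc20 : 0 < c2 := by rw [hc2]; positivity
  have h640 : (2 : ℝ) * 1 ≤ b * k := mul_le_mul hbr hkr (by norm_num) (by positivity)
  have hc22 : c2 ≤ 1 / 2 := by
    rw [hc2]
    apply one_div_le_one_div_of_le (by norm_num)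
    linarith
  have hc21 : c2 ≤ 1 := by linarith
  set R0 : ℝ := 2 * Cu * c2 / (cl * c1) with hR0
  have hR00 : 0 < R0 := by rw [hR0]; positivity
  set τ : ℝ := 1 / (8 * k + 8) with hτ
  have hτ0 : 0 < τ := by rw [hτ]; positivity
  set N : ℕ := 2 ^ (κ * (2 * k)) with hN
  set KJ : ℝ := 16 * (c2 / c1) + 1 with hKJ
  have hKJ1 : 1 ≤ KJ := by
    rw [hKJ]
    have : 0 < 16 * (c2 / c1) := by positivity
    linarith
  have hKJ0 : 0 < KJ := by linarith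
  have hM : ∀ (η : ℝ), 0 < η → ∀ M : ℝ, ∀ᶠ L : ℝ in atTop, M ≤ L ^ η := fun η hη0 M => by
    filter_upwards [ev_log_add 0 M η hη0] with L h1
    linarith
  have hlogM : ∀ M : ℝ, ∀ᶠ L : ℝ in atTop, M ≤ Real.log L := fun M =>
    Real.tendsto_log_atTop.eventually_ge_atTop M
  -- conditions on lam
  obtain ⟨lam0, hlam0⟩ := eventually_atTop.1 ((eventually_ge_atTop (Real.exp 1)).and
    ((hlogM (c1 / c2)).and ((hM τ hτ0 (4 * Real.exp 1 * (45 * κ) * k / (ε / 4 / 8) ^ 2 +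
      4 * Real.exp 3 / (ε / 4 / 8) ^ 2 + ((k * κ ^ 2 : ℕ) : ℝ))).and
    ((ev_log_pow (64 * KJ / ε) τ hτ0 1).and ((ev_log_pow (2 * k * (KJ * (2 * b + 2 * KJ + 1)) * 2 ^ κ) τ hτ0 2).and
    ((ev_log_pow (R0 ^ N) τ hτ0 N).and ((ev_log_pow (R0 ^ (2 * κ)) τ hτ0 (2 * κ)).and ((eventually_ge_atTop (4 : ℝ)).and
    (eventually_ge_atTop (45 * (κ : ℝ) * k))))))))))
  refine ⟨c2, max lam0 4, hc20, hc22, le_max_right _ _, ?_⟩
  filter_upwards [eventually_ge_atTop (Real.exp 1), hM η hη0 (4 * (κ * k) + 12), hM η hη0 (x0 + 2),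
    ev_log_pow (288 * κ ^ 2 * (R0 ^ (2 * κ) * ((2 * κ) ^ (2 * κ) * ((e0 : ℝ) / cl) ^ (2 * κ)) ^ 2)) (η / 2)
      (by positivity) (6 * κ),
    ev_exp_div 3 (c1 / 2) (by positivity) 1,
    ev_exp_div 2 c1 hc10 a, ev_pow_exp ((16 / (ε / 4)) ^ (2 * k) * 4) (1 / 16) (by norm_num) (e0 * (2 * k) + 1),
    ev_pow_exp 6 (1 / 4) (by norm_num) A, ev_log_add 1 1 η hη0, eventually_ge_atTop (16 : ℝ),
    hM (2 / 3) (by norm_num) 4, ev_pow_exp 6 (1 / 50) (by norm_num) 1,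
    ev_pow_exp 3 (c2 / 2) (by positivity) 0, ev_log_pow (12 * Cu / (cl * c2)) (1 / 3) (by norm_num) 1,
    ev_pow_exp (4 * Bw) c2 hc20 1, hM (11 / 12) (by norm_num) (8 * ((2 * κ) ^ (2 * κ) * (c2 / cl) ^ (2 * κ))),
    ev_log_pow (16 / ε * ((2 * κ) ^ (2 * κ) / cl ^ (2 * κ))) (1 / 3) (by norm_num) (2 * κ),
    ev_log_add (2 * (Bw + 1) / c1) 2 1 one_pos, eventually_ge_atTop (κ : ℝ),
    ev_pow_exp 1 (1 / 2) (by norm_num) (3 * e0 + 4), eventually_ge_atTop (16 / ε),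
    ev_log_pow (64 * k * κ * (KJ * (2 * b + 2 * KJ + 1))) 1 one_pos 2, eventually_ge_atTop (3 * Bw)] with
    L hLe f1 f2 f3 f5 f13 f14 f16 f18 f19 f20 f21 f22 f23 f24 f25 f26 f27 f28 f29 f30 f31 f32
  intro X hX lam hlamlow hlamup w D hDκ hw hA hwL hDL T hT1 hT2 q r hq
  obtain ⟨m1, m2, m3, m4, m5, m6, m7, m8, m9⟩ := hlam0 lam ((le_max_left _ _).trans hlamlow)
  clear hlam0
  have hDne : D.Nonempty := card_pos.1 (by omega)
  have hL0 : 0 < L := by linarith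
  have hL1 : 1 ≤ L := by linarith
  have hlampos : 0 < lam := by linarith
  have hlam1 : 1 ≤ lam := by linarith
  set ℓ := Real.log L with hℓ
  set ρ := Real.log lam with hρ
  have hρ1 : 1 ≤ ρ := by
    rw [hρ, Real.le_log_iff_exp_le hlampos]
    exact m1
  have hρ0 : 0 < ρ := by linarith
  have hδ12 : δ ≤ 1 / 12 := by linarith
  have hlamL : lam ≤ L := by
    refine hlamup.trans ?_
    calc L ^ δ ≤ L ^ (1 : ℝ) := Real.rpow_le_rpow_of_exponent_le hL1 (by linarith)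
      _ = L := Real.rpow_one L
  have hρℓ : ρ ≤ ℓ := Real.log_le_log hlampos hlamL
  have hℓ1 : 1 ≤ ℓ := by linarith
  have hℓ0 : 0 < ℓ := by linarith
  set z := zE c2 L with hz
  set z1 := ⌊Real.exp (c1 * L / ρ)⌋₊ with hz1
  set y : ℕ := ⌊L ^ η⌋₊ with hy
  set b1 := B * ⌈ρ⌉₊ with hb1
  set Λ : ℝ := lam ^ τ with hΛ
  set J' : ℕ := ⌈16 * (c2 / c1) * ρ⌉₊ with hJ'
  set Mb : ℕ := ⌈2 * (Bw + 1) * ρ / c1⌉₊ + 1 with hMb
  have hzle : (z : ℝ) ≤ Real.exp (c2 * L) := zE_le c2 L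
  have hzlt : Real.exp (c2 * L) < z + 1 := Nat.lt_floor_add_one _
  have hz1le : (z1 : ℝ) ≤ Real.exp (c1 * L / ρ) := Nat.floor_le (Real.exp_pos _).le
  have hz1lt : Real.exp (c1 * L / ρ) < z1 + 1 := Nat.lt_floor_add_one _
  have hyle : (y : ℝ) ≤ L ^ η := Nat.floor_le (by positivity)
  have hylt : L ^ η < y + 1 := Nat.lt_floor_add_one _
  have hJ'1 : 16 * (c2 / c1) * ρ ≤ J' := Nat.le_ceil _
  have hJ'2 : (J' : ℝ) < 16 * (c2 / c1) * ρ + 1 := Nat.ceil_lt_add_one (by positivity)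
  have hMb1 : 2 * (Bw + 1) * ρ / c1 + 1 ≤ Mb := by
    rw [hMb]
    push_cast
    linarith [Nat.le_ceil (2 * (Bw + 1) * ρ / c1)]
  have hMb2 : (Mb : ℝ) ≤ 2 * (Bw + 1) * ρ / c1 + 2 := by
    rw [hMb]
    push_cast
    linarith [Nat.ceil_lt_add_one (show 0 ≤ 2 * (Bw + 1) * ρ / c1 by positivity)]
  have hJ'3 : (J' : ℝ) ≤ KJ * ρ := by
    rw [hKJ]
    linarith
  have g3' : z1 ≤ z := by
    apply Nat.floor_le_floor
    apply Real.exp_le_exp.2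
    rw [div_le_iff₀ hc20] at m2
    rw [div_le_iff₀ hρ0]
    calc c1 * L ≤ (ρ * c2) * L := mul_le_mul_of_nonneg_right m2 hL0.le
      _ = c2 * L * ρ := by ring
  have hz1log : 3 ≤ Real.exp (c1 * L / ρ / 2) → c1 * L / ρ / 2 ≤ Real.log z1 := fun h => log_floor_ge _ h
  have hzlog : c2 * L / 2 ≤ Real.log z := log_floor_ge (c2 * L) (by
    have : c2 / 2 * L = c2 * L / 2 := by ring
    rw [this, pow_zero, mul_one] at f22
    exact f22)
  have hceil1 : ρ ≤ (⌈ρ⌉₊ : ℝ) := Nat.le_ceil _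
  have hceil2 : (⌈ρ⌉₊ : ℝ) < ρ + 1 := Nat.ceil_lt_add_one hρ0.le
  have hceil3 : 1 ≤ ⌈ρ⌉₊ := Nat.ceil_pos.2 hρ0
  have hΛk : Λ ^ (8 * k + 8) ≤ lam := by
    rw [hΛ, ← Real.rpow_natCast, ← Real.rpow_mul hlampos.le]
    have : τ * ((8 * k + 8 : ℕ) : ℝ) = 1 := by
      rw [hτ]
      push_cast
      field_simp
    rw [this, Real.rpow_one]
  have hΛ1 : 1 ≤ Λ := by
    rw [hΛ]
    exact Real.one_le_rpow hlam1 hτ0.le
  clear_value Λ y z1 z J' Mb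
  clear_value N τ B b KJ
  have hL13 : L ^ η ≤ L ^ (1 / 6 : ℝ) := Real.rpow_le_rpow_of_exponent_le hL1 hη6
  have hyL : (y : ℝ) ≤ L ^ (1 / 6 : ℝ) := hyle.trans hL13
  -- comparison of the exponents
  have hcL : c1 * L / ℓ ≤ c1 * L / ρ := div_le_div_of_nonneg_left (by positivity) hρ0 hρℓ
  have hexpρ : Real.exp (c1 * L / ℓ) ≤ Real.exp (c1 * L / ρ) := Real.exp_le_exp.2 hcL
  have hLa : (1 : ℝ) ≤ L ^ a := one_le_pow₀ hL1
  have hz1a : L ^ a ≤ z1 := by linarith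
  -- y
  have g1 : 4 * (κ * k) + 10 ≤ y := by
    have h1 : ((4 * (κ * k) + 10 : ℕ) : ℝ) < y := by
      push_cast
      linarith
    exact_mod_cast h1.le
  have hκk : κ * 1 ≤ κ * k := Nat.mul_le_mul_left _ hk1
  have hy1 : 1 ≤ y := by omega
  have hy2 : 2 ≤ y := by omega
  have hyr : (1 : ℝ) ≤ y := by exact_mod_cast hy1
  have hyL23 : (y : ℝ) ≤ L ^ (2 / 3 : ℝ) := hyL.trans (Real.rpow_le_rpow_of_exponent_le hL1 (by norm_num))
  have hyhalf : L ^ η / 2 ≤ y := by linarith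
  -- z
  have hBL : L ≤ Bw * L := le_mul_of_one_le_left hL0.le hBw
  have hz3L : 3 * (Bw * L) ≤ z := by
    rw [pow_one, mul_assoc] at f24
    linarith
  have hz2 : 2 ≤ z := by
    have : (2 : ℝ) ≤ z := by linarith
    exact_mod_cast this
  have hzr : (1 : ℝ) < z := by exact_mod_cast hz2
  have hlogz0 : 0 < Real.log z := Real.log_pos hzr
  have hlogz : Real.log z ≤ c2 * L := by
    rw [← Real.log_exp (c2 * L)]
    exact Real.log_le_log (by linarith) hzle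
  have hVzl : cl / (c2 * L) ≤ Vz z := (div_le_div_of_nonneg_left hcl.le hlogz0 hlogz).trans (hVl z hz2)
  -- T
  have hTup : (T : ℝ) ≤ L ^ e0 := T_upper κ hκ D hDκ w z T hA L δ c2 cl lam hL1 hδ12 hcl hc20 hVzl hlamup hT2 f25
  have hTlow : L ^ (2 / 3 : ℝ) ≤ T := T_lower D hDne w z T hA L c2 cl Cu (2 * lam) Bw hw f19 hBw f32 hcl hCu hc20 hVl hVu hwL
    (by linarith) hT1 hzlog hz3L f23
  have g2 : y ≤ T := by
    have h1 : (y : ℝ) ≤ T := hyL23.trans hTlow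
    exact_mod_cast h1
  have g3 : T ≤ z1 := by
    have h1 : (T : ℝ) ≤ z1 := by
      refine hTup.trans (le_trans ?_ hz1a)
      apply pow_le_pow_right₀ hL1
      rw [ha]
      omega
    exact_mod_cast h1
  have hT0 : (0 : ℝ) < T := lt_of_lt_of_le (by positivity) hTlow
  have g4 : ∀ p, p.Prime → y < p → p ≤ z → ¬ p ∣ w → ¬ p ∣ q := by
    intro p hp h1 h2 h3
    apply hq p hp _ h2 h3
    have h4 : (y : ℝ) + 1 ≤ p := by exact_mod_cast h1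
    linarith
  have hlogy : Real.log y ≤ ℓ := by
    apply Real.log_le_log (by linarith)
    calc (y : ℝ) ≤ L ^ (2 / 3 : ℝ) := hyL23
      _ ≤ L ^ (1 : ℝ) := Real.rpow_le_rpow_of_exponent_le hL1 (by norm_num)
      _ = L := Real.rpow_one L
  have g5 : ∀ m, |(RK D w y m T : ℝ) - T * VK D w y| ≤ ε / 8 * (T * VK D w y) := by
    apply smallK κ hκ ε hε D hDκ w T y hA L ℓ cl _ hL1 hcl hℓ1 _ hTlow f26
    · apply hsm D w T y hDκ.le
      · have h2 : (x0 : ℝ) < y := by linarith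
        exact_mod_cast h2.le
      · have h3 : ((y ^ K1 : ℕ) : ℝ) ≤ T := by
          push_cast
          calc (y : ℝ) ^ K1 ≤ (L ^ η) ^ K1 := pow_le_pow_left₀ (by linarith) hyle _
            _ = L ^ (1 / 6 : ℝ) := by rw [← Real.rpow_natCast, ← Real.rpow_mul hL0.le, hηK]
            _ ≤ L ^ (2 / 3 : ℝ) := Real.rpow_le_rpow_of_exponent_le hL1 (by norm_num)
            _ ≤ T := hTlow
        exact_mod_cast h3
    · exact (div_le_div_of_nonneg_left hcl.le (log_pos_nat hy2) hlogy).trans (hVl y hy2)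
  have hz12 : 2 ≤ z1 := by omega
  have hz1r : (1 : ℝ) < z1 := by exact_mod_cast hz12
  have hz10 : (0 : ℝ) < z1 := by linarith
  have hlogz1 : Real.log z1 ≤ c1 * L / ρ := by
    rw [← Real.log_exp (c1 * L / ρ)]
    exact Real.log_le_log (by linarith) hz1le
  have hlogz10 : 0 < Real.log z1 := Real.log_pos hz1r
  have hlogz12 : c1 * L / (2 * ρ) ≤ Real.log z1 := by
    have h1 := hz1log (by
      have h4 : c1 / 2 * L / ℓ = c1 * L / ℓ / 2 := by ring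
      rw [pow_one, h4] at f5
      have h5 : Real.exp (c1 * L / ℓ / 2) ≤ Real.exp (c1 * L / ρ / 2) := Real.exp_le_exp.2 (by linarith)
      linarith)
    calc c1 * L / (2 * ρ) = c1 * L / ρ / 2 := by field_simp
      _ ≤ _ := h1
  have hT2n : 2 ≤ T := by omega
  have hlogT : Real.log T ≤ e0 * ℓ := by
    have h2 := Real.log_le_log hT0 hTup
    rwa [Real.log_pow] at h2
  have hlogT0 : 0 < Real.log T := log_pos_nat hT2n
  have hVz1 : Vz z1 ≤ Cu / (c1 * L / (2 * ρ)) :=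
    (hVu z1 hz12).trans (div_le_div_of_nonneg_left hCu.le (by positivity) hlogz12)
  have hVz0 := Vz_pos z
  have hVz10 := Vz_pos z1
  have hinvW : 1 / Wp (Pyz z1 z) ≤ R0 * ρ := by
    rw [Wp_Pyz' z1 z g3', one_div_div, div_le_iff₀ hVz0]
    calc Vz z1 ≤ Cu / (c1 * L / (2 * ρ)) := hVz1
      _ = R0 * ρ * (cl / (c2 * L)) := by
          rw [hR0]
          field_simp
      _ ≤ R0 * ρ * Vz z := mul_le_mul_of_nonneg_left hVzl (by positivity)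
  have hWp20 : 0 < Wp (Pyz z1 z) := by
    rw [Wp_Pyz' z1 z g3']
    positivity
  have g6 : 18 * (κ : ℝ) ^ 2 * WK D (pQ w T z1) * T ≤ WK D (pQ w y T) * y := by
    apply hT_bound κ hκ D hDκ w y z1 z T hA L ℓ η δ cl R0 lam e0 g3 g3' (by omega) hL1 hℓ1 hcl hR00 (by linarith)
      _ _ hlamup hδη hyhalf hT2 f3
    · exact (div_le_div_of_nonneg_left hcl.le hlogT0 hlogT).trans (hVl T hT2n)
    · exact hinvW.trans (mul_le_mul_of_nonneg_left hρℓ hR00.le)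
  -- the density at `z1`
  have hVKz := VK_pos D w z hA
  have hVKz1 := VK_pos D w z1 hA
  have hVKy := VK_pos D w y hA
  have hVKle : VK D w z ≤ VK D w z1 := by
    rw [← VK_mul D w z1 z g3']
    have h1 : WK D (pQ w z1 z) ≤ 1 := WK_le_one' D _ fun p hp => (mem_pQ.1 hp).2.2.1
    exact mul_le_of_le_one_right hVKz1.le h1
  have g7' : 2 * lam ≤ T * VK D w z1 := hT1.trans (mul_le_mul_of_nonneg_left hVKle hT0.le)
  have g7 : 45 * (κ : ℝ) * k ≤ 3 / 4 * (T * VK D w z1) := by linarith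
  have hb1le : (b1 : ℝ) ≤ 2 * B * ρ := by
    rw [hb1]
    push_cast
    have h1 : (⌈ρ⌉₊ : ℝ) ≤ 2 * ρ := by linarith
    calc (B : ℝ) * ⌈ρ⌉₊ ≤ B * (2 * ρ) := mul_le_mul_of_nonneg_left h1 (Nat.cast_nonneg _)
      _ = 2 * B * ρ := by ring
  have hE : ((JJ z1 : ℝ) + 2) * (((2 : ℝ) ^ 2 ^ JJ z1) ^ (10 * b1)) ^ 2 ≤ Real.exp (L / 16) :=
    hE_lem z1 b1 B L ℓ ρ c1 (by omega) hc1 hL0 hρ0 hLe rfl hρ1 hz12 hz1le hb1le f21
  -- number of primes in the supports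
  have hMle : ((J' * (2 * b + 2 * J' + 1) : ℕ) : ℝ) ≤ KJ * (2 * b + 2 * KJ + 1) * ρ ^ 2 := by
    push_cast
    have h1 : (2 * (b : ℝ) + 2 * J' + 1) ≤ (2 * b + 2 * KJ + 1) * ρ := by
      have h3 : 2 * (b : ℝ) ≤ 2 * b * ρ := le_mul_of_one_le_right (by positivity) hρ1
      linarith
    have h2 : (J' : ℝ) * (2 * b + 2 * J' + 1) ≤ (KJ * ρ) * ((2 * b + 2 * KJ + 1) * ρ) :=
      mul_le_mul hJ'3 h1 (by positivity) (by positivity)
    calc (J' : ℝ) * (2 * b + 2 * J' + 1) ≤ (KJ * ρ) * ((2 * b + 2 * KJ + 1) * ρ) := h2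
      _ = _ := by ring
  have hD : (((2 : ℝ) ^ 2 ^ JJ z) ^ (10 * b) * (κ : ℝ) ^ (J' * (2 * b + 2 * J' + 1))) ^ (2 * k) ≤ Real.exp (L / 16) :=
    hD_lem κ k b z J' L ℓ ρ c2 KJ hk1 (by omega) hc2 hL0 hρ0.le hρℓ hKJ0.le hz2 hzle hMle f31
  -- the groups
  have hgr : ∀ i : Fin (JJ z), (grp (JJ z) (Pyz z1 z) i).Nonempty → JJ z ≤ J' + (i : ℕ) :=
    gr_lem z z1 J' L ρ c1 c2 hL0 hρ0 hc10 hc20 hz2 hz12 hlogz hlogz12 hJ'1
  -- bad primes
  have hMbL : (Mb : ℝ) ≤ L := by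
    rw [Real.rpow_one] at f27
    have h1 : 2 * (Bw + 1) * ρ / c1 ≤ 2 * (Bw + 1) / c1 * ℓ := by
      rw [div_mul_eq_mul_div]
      apply div_le_div_of_nonneg_right _ hc10.le
      exact mul_le_mul_of_nonneg_left hρℓ (by positivity)
    linarith
  have hc1half : c1 ≤ 1 / 2 := by
    rw [hc1]
    apply one_div_le_one_div_of_le (by norm_num)
    linarith only [hBr]
  obtain ⟨hTT', hMbz⟩ := big_lem w T z1 Mb D L ρ c1 Bw f19 hρ1 hc10 hc1half hwL hDL g3 hz1le hz12 hlogz12 hMb1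
  obtain ⟨hbad, hNb1⟩ := bad_lem κ e0 k A a T Mb z1 ε L hε hL1 hTup f28 hMbL ha hz1a f30
  have hPyz : ∀ p ∈ Pyz z1 z, p.Prime ∧ 2 * κ ≤ p := by
    intro p hp
    obtain ⟨h4, h5, h6⟩ := mem_Pyz.1 hp
    exact ⟨h6, by omega⟩
  have p1 : 0 ≤ 4 * Real.exp 1 * (45 * κ) * k / (ε / 4 / 8) ^ 2 := by positivity
  have p2 : 0 ≤ 4 * Real.exp 3 / (ε / 4 / 8) ^ 2 := by positivity
  have p3 : (0 : ℝ) ≤ ((k * κ ^ 2 : ℕ) : ℝ) := Nat.cast_nonneg _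
  have q1 : 4 * Real.exp 1 * (45 * κ) * k / (ε / 4 / 8) ^ 2 ≤ Λ := by linarith only [m3, p1, p2, p3]
  have q2 : 4 * Real.exp 3 / (ε / 4 / 8) ^ 2 ≤ Λ := by linarith only [m3, p1, p2, p3]
  have q3 : ((k * κ ^ 2 : ℕ) : ℝ) ≤ Λ := by linarith only [m3, p1, p2, p3]
  have q4 : 8 * ((J' : ℝ) + 1) / (ε / 4) ≤ Λ := by
    rw [pow_one] at m4
    refine le_trans ?_ m4
    have h1 : 1 ≤ KJ * ρ := by
      calc (1 : ℝ) = 1 * 1 := by ring
        _ ≤ KJ * ρ := mul_le_mul hKJ1 hρ1 (by norm_num) hKJ0.le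
    rw [div_le_iff₀ (by positivity)]
    have h2 : 64 * KJ / ε * ρ * (ε / 4) = 16 * (KJ * ρ) := by
      field_simp
      ring
    rw [h2]
    linarith only [h1, hJ'3]
  have q5 : ((2 * k : ℕ) : ℝ) * ((J' * (2 * b + 2 * J' + 1) : ℕ) : ℝ) * 2 ^ κ ≤ Λ := by
    refine le_trans ?_ m5
    push_cast at hMle ⊢
    calc 2 * (k : ℝ) * (J' * (2 * b + 2 * J' + 1)) * 2 ^ κ ≤
          2 * k * (KJ * (2 * b + 2 * KJ + 1) * ρ ^ 2) * 2 ^ κ := by gcongr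
      _ = _ := by ring
  have q6 : (1 / Wp (Pyz z1 z)) ^ (2 ^ (κ * (2 * k))) ≤ Λ := by
    rw [← hN]
    refine (pow_le_pow_left₀ (by positivity) hinvW N).trans ?_
    rw [mul_pow]
    exact m6
  have q7 : (1 / Wp (Pyz z1 z)) ^ (2 * κ) ≤ Λ := by
    refine (pow_le_pow_left₀ (by positivity) hinvW (2 * κ)).trans ?_
    rw [mul_pow]
    exact m7
  have q8 : (1 / 2 : ℝ) ^ b1 ≤ 1 / lam ^ (A + 3) := by
    rw [hb1, pow_mul, one_div (lam ^ _)]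
    calc ((1 / 2 : ℝ) ^ B) ^ ⌈ρ⌉₊ ≤ (Real.exp (-((A + 3 : ℕ) : ℝ))) ^ ⌈ρ⌉₊ := pow_le_pow_left₀ (by positivity) hBB _
      _ = Real.exp (⌈ρ⌉₊ * (-((A + 3 : ℕ) : ℝ))) := by rw [← Real.exp_nat_mul]
      _ ≤ Real.exp (-(((A + 3 : ℕ) : ℝ) * ρ)) := by
          apply Real.exp_le_exp.2
          have : ((A + 3 : ℕ) : ℝ) * ρ ≤ ((A + 3 : ℕ) : ℝ) * ⌈ρ⌉₊ := mul_le_mul_of_nonneg_left hceil1 (Nat.cast_nonneg _)
          linarith only [this]
      _ = (lam ^ (A + 3))⁻¹ := by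
          rw [Real.exp_neg, Real.exp_nat_mul, hρ, Real.exp_log hlampos]
  have hNb0 : 0 ≤ (((T * κ) ^ 2 * Mb : ℕ) : ℝ) * (T * κ) := by positivity
  have hBD := fun m => hBD_lem κ e0 k A a b b1 J' X y z z1 T w D ε L lam Λ ((((T * κ) ^ 2 * Mb : ℕ) : ℝ) * (T * κ)) m
    hκ hε hε1 hk hL1 hlam1 hlamL hΛ1 hΛk q1 q2 q3 q4 q5 q6 q7 hWp20 hPyz hA (g2.trans g3) (g5 m) g7' hT0 q8 ha hz1a hTup
    hE hD f14 hNb0 hNb1 f29
  have key := discK κ hκ ε hε hε1 C0 C1 htwo w D hDκ hw hA q r T ⌊Real.exp ((Bw + 1) * L)⌋₊ y z z1 k b1 b X J' Mb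
    (X / Qy y * (7 / lam ^ (A + 2)) + 2 * Real.exp (L / 2)) hTT' hMbz hgr hk1 (by
      rw [hb1]
      calc C0 * (κ * (2 * k)) ≤ B := hBC
        _ ≤ B * ⌈ρ⌉₊ := Nat.le_mul_of_pos_right _ hceil3) (by
      rw [hb1]
      exact hB2.trans (Nat.le_mul_of_pos_right _ hceil3)) hbC hb2 g1 g2 g3 g3' g4 g5 g6 g7 hbad hBD
  have key2 : (((Icc 1 X).filter (fun l => ε * (T * VK D w z) <
      |(RK D w z (q * l + r) T : ℝ) - T * VK D w z|)).card : ℝ) ≤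
      Qy y * (1 + (X / Qy y * (7 / lam ^ (A + 2)) + 2 * Real.exp (L / 2))) := by
    refine le_trans (le_of_eq ?_) key
    congr!
  refine key2.trans ?_
  exact final_bd X y A L lam f19 m8 hlamL hX hy1 hyL f16 f20

end Pool.Agent.H36.KT
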