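import Mathlib
import Pool.Agent.H36.KT.All
import Pool.Agent.H36.BF.PowR

/-!
Consequences for tuples of elements of an arithmetic progression without small prime factors.
-/

set_option autoImplicit false

open Finset Filter

namespace Pool.Agent.H36.KT

open Pool.Agent.H36.RW Pool.Agent.H373R2.T7 Pool.Agent.H36.BF Pool.Agent.H36.BE Pool.Agent.H36.BT

/-- the survivors are the tuples without small prime factors -/
lemma RK_rough (D : Finset ℕ) (w z n T : ℕ) (hco : ∀ d ∈ D, Nat.Coprime d w) :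
    RK D w z (w * n) T = Finset.card (@Finset.filter ℕ (fun h => ∀ d ∈ D, Rough z (w * (n + h) + d))
      (fun _ => Classical.propDecidable _) (Icc 1 T)) := by
  classical
  unfold RK
  congr 1
  ext h
  simp only [mem_filter]
  apply and_congr_right
  intro _
  constructor
  · intro h1 d hd p hp hdvd
    by_contra hle
    rw [not_lt] at hle
    have hw : ¬ p ∣ w := by
      intro hw
      have h2 : p ∣ d := by
        have h3 : p ∣ w * (n + h) := hw.mul_right _
        exact (Nat.dvd_add_right h3).1 hdvd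
      have h4 := Nat.dvd_gcd h2 hw
      rw [hco d hd] at h4
      exact hp.one_lt.ne' (Nat.dvd_one.1 h4)
    have h5 := h1 p (mem_p0.2 ⟨hle, hp, hw⟩) (w * h + d) (mem_pt.2 ⟨d, hd, rfl⟩)
    apply h5
    have e : w * n + (w * h + d) = w * (n + h) + d := by ring
    rw [e]
    exact hdvd
  · intro h1 p hp g hg hdvd
    obtain ⟨h2, h3, h4⟩ := mem_p0.1 hp
    obtain ⟨d, hd, rfl⟩ := mem_pt.1 hg
    have e : w * n + (w * h + d) = w * (n + h) + d := by ring
    rw [e] at hdvd
    have := h1 d hd p h3 hdvd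
    omega

/-- a level which is a real power -/
lemma zfl (Y : ℕ) (c : ℝ) (hY : 1 ≤ Y) : ⌊(Y : ℝ) ^ c⌋₊ = zE c (Real.log Y) := by
  have hY0 : (0 : ℝ) < Y := by exact_mod_cast hY
  rw [Real.rpow_def_of_pos hY0, mul_comm]
  rfl

/-- the size of the numbers -/
lemma size_bd (A Y N w n h d : ℕ) (L : ℝ) (hY : 3 ≤ Y) (hN : N ≤ Y ^ A) (hw : w ≤ Y ^ A) (hn : n ≤ N + Y) (hh : h ≤ Y)
    (hd : d ≤ Y ^ A) (hL : L = Real.log Y) (hm : 0 < w * (n + h) + d) :
    Real.log ((w * (n + h) + d : ℕ) : ℝ) ≤ (2 * A + 4) * L := by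
  have h1 : w * (n + h) + d ≤ Y ^ (2 * A + 4) := by
    have hY1 : 1 ≤ Y ^ A := Nat.one_le_pow _ _ (by omega)
    have e : Y ^ (2 * A + 4) = Y ^ A * (Y ^ A * (Y * Y * (Y * Y))) := by ring
    rw [e]
    have h2 : n + h ≤ Y ^ A * (Y * Y) := by
      calc n + h ≤ Y ^ A + Y + Y := by omega
        _ ≤ Y ^ A * Y + Y ^ A * Y + Y ^ A * Y := by
            have a1 : Y ^ A ≤ Y ^ A * Y := Nat.le_mul_of_pos_right _ (by omega)
            have a2 : Y ≤ Y ^ A * Y := Nat.le_mul_of_pos_left _ (by omega)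
            omega
        _ = Y ^ A * (3 * Y) := by ring
        _ ≤ Y ^ A * (Y * Y) := Nat.mul_le_mul_left _ (Nat.mul_le_mul_right _ hY)
    calc w * (n + h) + d ≤ Y ^ A * (Y ^ A * (Y * Y)) + Y ^ A * (Y ^ A * (Y * Y)) := by
          apply Nat.add_le_add (Nat.mul_le_mul hw h2)
          calc d ≤ Y ^ A * 1 := by rw [mul_one]; exact hd
            _ ≤ Y ^ A * (Y ^ A * (Y * Y)) := by
                apply Nat.mul_le_mul_left
                have : 1 ≤ Y * Y := Nat.mul_le_mul (by omega : 1 ≤ Y) (by omega : 1 ≤ Y)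
                exact Nat.mul_le_mul hY1 this
      _ = Y ^ A * (Y ^ A * (Y * Y * 2)) := by ring
      _ ≤ Y ^ A * (Y ^ A * (Y * Y * (Y * Y))) := by
          apply Nat.mul_le_mul_left
          apply Nat.mul_le_mul_left
          apply Nat.mul_le_mul_left
          calc 2 ≤ Y * 1 := by omega
            _ ≤ Y * Y := Nat.mul_le_mul_left _ (by omega)
  have h2 : ((w * (n + h) + d : ℕ) : ℝ) ≤ (Y : ℝ) ^ (2 * A + 4) := by exact_mod_cast h1
  have h3 := Real.log_le_log (by exact_mod_cast hm) h2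
  rw [Real.log_pow, ← hL] at h3
  push_cast at h3
  push_cast
  exact h3

open Classical in
/-- tuples in progressions -/
theorem tupK (κ : ℕ) (hκ : 1 ≤ κ) (ε : ℝ) (hε : 0 < ε) (hε1 : ε ≤ 1) (A : ℕ) :
    ∃ (r : ℕ) (c C : ℝ), 0 < c ∧ c ≤ 1 / 2 ∧ 0 < C ∧ ∀ᶠ Y : ℕ in atTop,
    (∀ (N w : ℕ) (D : Finset ℕ), N ≤ Y ^ A → 1 ≤ w → w ≤ Y ^ A → D.card = κ → (∀ d ∈ D, d ≤ Y ^ A) →
      (∀ d ∈ D, Nat.Coprime d w) → Adm D w → ∀ lam : ℝ, 1 ≤ lam →
      (((Ioc N (N + Y)).filter (fun n => ∃ T : ℕ, lam ≤ T * VK D w ⌊(Y : ℝ) ^ c⌋₊ ∧ (T : ℝ) ≤ Real.log Y ^ A ∧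
        ¬ |(((Icc 1 T).filter (fun h => ∀ d ∈ D, Rough ⌊(Y : ℝ) ^ c⌋₊ (w * (n + h) + d))).card : ℝ) -
          T * VK D w ⌊(Y : ℝ) ^ c⌋₊| ≤ ε * (T * VK D w ⌊(Y : ℝ) ^ c⌋₊))).card : ℝ) ≤ C * (Y / lam ^ A)) ∧
    (∀ (N w n h d : ℕ), N ≤ Y ^ A → 1 ≤ w → w ≤ Y ^ A → d ≤ Y ^ A → n ≤ N + Y → 1 ≤ h → (h : ℝ) ≤ Real.log Y ^ A →
      Rough ⌊(Y : ℝ) ^ c⌋₊ (w * (n + h) + d) → (w * (n + h) + d).primeFactorsList.length ≤ r) := by
  obtain ⟨c, C, hc, hc2, hC, h⟩ := allK κ hκ ε hε hε1 A (A + 1) (by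
    have : (0 : ℝ) ≤ A := Nat.cast_nonneg A
    linarith)
  refine ⟨⌈2 * (2 * (A : ℝ) + 4) / c⌉₊, c, C, hc, hc2, hC, ?_⟩
  have hLt : Tendsto (fun Y : ℕ => Real.log (Y : ℝ)) atTop atTop :=
    Real.tendsto_log_atTop.comp tendsto_natCast_atTop_atTop
  filter_upwards [hLt.eventually h, hLt.eventually_ge_atTop 1, hLt.eventually (ev_pow_exp 3 (c / 2) (by positivity) 0),
    hLt.eventually (ev_pow_exp 1 1 one_pos A), eventually_ge_atTop 3] with Y h1 hL1 g5 g6 hY3
  rw [pow_zero, mul_one] at g5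
  have hY0 : (0 : ℝ) < Y := by exact_mod_cast (by omega : 0 < Y)
  have hYr : Real.exp (Real.log Y) = Y := Real.exp_log hY0
  rw [zfl Y c (by omega)]
  set L := Real.log (Y : ℝ) with hL
  have hL0 : 0 < L := by linarith
  constructor
  · intro N w D hN hw1 hw hDκ hD hco hA lam hlam
    have hpow : ∀ x : ℕ, x ≤ Y ^ A → (x : ℝ) ≤ Real.exp ((A + 1) * L) := by
      intro x hx
      have h2 : (x : ℝ) ≤ (Y : ℝ) ^ A := by exact_mod_cast hx
      have h3 : (Y : ℝ) ^ A = Real.exp (A * L) := by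
        rw [Real.exp_nat_mul, hYr]
      rw [h3] at h2
      refine h2.trans (Real.exp_le_exp.2 ?_)
      apply mul_le_mul_of_nonneg_right _ hL0.le
      linarith
    have h2 := h1 Y hYr.le lam hlam w D hDκ hw1 hA (hpow w hw) (fun d hd => hpow d (hD d hd)) w (w * N)
      (fun p _ _ _ h3 => h3)
    refine le_trans ?_ h2
    have hcard : ((Ioc N (N + Y)).filter (fun n => ∃ T : ℕ, lam ≤ T * VK D w (zE c L) ∧ (T : ℝ) ≤ L ^ A ∧
        ¬ |(((Icc 1 T).filter (fun h => ∀ d ∈ D, Rough (zE c L) (w * (n + h) + d))).card : ℝ) -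
          T * VK D w (zE c L)| ≤ ε * (T * VK D w (zE c L)))).card ≤
        ((Icc 1 Y).filter (fun l => ∃ T : ℕ, lam ≤ T * VK D w (zE c L) ∧ (T : ℝ) ≤ L ^ A ∧
          BadK ε D w (zE c L) (w * l + w * N) T)).card := by
      apply card_le_card_of_injOn (fun n => n - N)
      · intro n hn
        rw [mem_coe, mem_filter] at hn
        obtain ⟨hn1, T, hT1, hT2, hT3⟩ := hn
        rw [mem_coe, mem_filter, mem_Icc]
        have hn1' := mem_Ioc.1 hn1
        refine ⟨by simp only []; omega, T, hT1, hT2, ?_⟩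
        have e : w * (n - N) + w * N = w * n := by
          rw [← mul_add]
          congr 1
          omega
        simp only [e]
        unfold BadK
        have e2 : ((Icc 1 T).filter (fun h => ∀ d ∈ D, Rough (zE c L) (w * (n + h) + d))).card =
            RK D w (zE c L) (w * n) T := by
          rw [RK_rough D w (zE c L) n T hco]
          congr
        rw [e2] at hT3
        exact lt_of_not_ge hT3
      · intro a ha b hb hab
        rw [mem_coe, mem_filter, mem_Ioc] at ha hb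
        simp only at hab
        omega
    exact_mod_cast hcard
  · intro N w n h d hN hw1 hw hd hn hh1 hh hr
    have hlog1 : c * L / 2 ≤ Real.log (zE c L) := log_floor_ge (c * L) (by
      have : c / 2 * L = c * L / 2 := by ring
      rw [this] at g5
      exact g5)
    have hlog0 : 0 < Real.log (zE c L) := lt_of_lt_of_le (by positivity) hlog1
    have hz2 : 2 ≤ zE c L := by
      by_contra h1
      push Not at h1
      have h2 : zE c L = 0 ∨ zE c L = 1 := by omega
      rcases h2 with h2 | h2 <;> rw [h2] at hlog0 <;> simp at hlog0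
    have hhY : h ≤ Y := by
      have : (h : ℝ) ≤ Y := by
        rw [one_mul, one_mul, hYr] at g6
        exact hh.trans g6
      exact_mod_cast this
    have hpos : 0 < w * (n + h) + d := by
      have : 1 * 1 ≤ w * (n + h) := Nat.mul_le_mul hw1 (by omega)
      omega
    have h3 := rough_length (zE c L) _ hz2 hpos hr
    have h4 := size_bd A Y N w n h d L hY3 hN hw hn hhY hd hL hpos
    have h6 : ((w * (n + h) + d).primeFactorsList.length : ℝ) ≤ 2 * (2 * (A : ℝ) + 4) / c := by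
      rw [le_div_iff₀ hc]
      set len : ℝ := ((w * (n + h) + d).primeFactorsList.length : ℝ) with hlen
      have hlen0 : 0 ≤ len := Nat.cast_nonneg _
      have h7 : len * (c * L / 2) ≤ len * Real.log (zE c L) := mul_le_mul_of_nonneg_left hlog1 hlen0
      have h9 : len * c * L ≤ (2 * (2 * (A : ℝ) + 4)) * L := by
        calc len * c * L = 2 * (len * (c * L / 2)) := by ring
          _ ≤ 2 * ((2 * (A : ℝ) + 4) * L) := by linarith
          _ = _ := by ring
      exact le_of_mul_le_mul_right h9 hL0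
    exact_mod_cast h6.trans (Nat.le_ceil _)

end Pool.Agent.H36.KT
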