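import Mathlib
import Pool.Agent.H36.KT.Cor

/-!
The singular series for pairs and its truncations.
-/

set_option autoImplicit false

open Finset Filter

namespace Pool.Agent.H36.KT

open Pool.Agent.H36.RW Pool.Agent.H373R2.T7 Pool.Agent.H36.BF Pool.Agent.H36.BE Pool.Agent.H36.BT

/-- the twin prime constant -/
noncomputable def C2 : ℝ := ∏' p : {p : ℕ // p.Prime ∧ 2 < p}, (1 - 1 / (((p : ℕ) : ℝ) - 1) ^ 2)

/-- the singular series of the pairs with an even difference `d` -/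
noncomputable def Sing (d : ℕ) : ℝ :=
  2 * C2 * ∏ p ∈ d.primeFactors.filter (fun p => 2 < p), (((p : ℝ) - 1) / ((p : ℝ) - 2))

/-- the truncated products -/
noncomputable def C2z (z : ℕ) : ℝ := ∏ p ∈ (pz z).filter (fun p => 2 < p), (1 - 1 / ((p : ℝ) - 1) ^ 2)

lemma fac2 (p : ℕ) (hp : 2 < p) : 0 < 1 - 1 / ((p : ℝ) - 1) ^ 2 ∧ 1 - 1 / ((p : ℝ) - 1) ^ 2 ≤ 1 := by
  have h1 : (3 : ℝ) ≤ p := by exact_mod_cast hp
  have h2 : (4 : ℝ) ≤ ((p : ℝ) - 1) ^ 2 := by nlinarith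
  constructor
  · have h3 : 1 / ((p : ℝ) - 1) ^ 2 ≤ 1 / 4 := one_div_le_one_div_of_le (by norm_num) h2
    linarith
  · have : 0 ≤ 1 / ((p : ℝ) - 1) ^ 2 := by positivity
    linarith

lemma summ2 : Summable (fun p : {p : ℕ // p.Prime ∧ 2 < p} => 1 / (((p : ℕ) : ℝ) - 1) ^ 2) := by
  have h1 : Summable (fun n : ℕ => 4 * (1 / (n : ℝ) ^ 2)) := by
    apply Summable.mul_left
    exact Real.summable_one_div_nat_pow.2 (by norm_num)
  have h2 : Summable (fun p : {p : ℕ // p.Prime ∧ 2 < p} => 4 * (1 / ((p : ℕ) : ℝ) ^ 2)) :=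
    h1.comp_injective Subtype.val_injective
  refine Summable.of_nonneg_of_le (fun p => by positivity) (fun p => ?_) h2
  have h3 : (3 : ℝ) ≤ (p : ℕ) := by exact_mod_cast p.2.2
  rw [mul_one_div, div_le_div_iff₀ (by nlinarith) (by positivity)]
  nlinarith

lemma mult2 : Multipliable (fun p : {p : ℕ // p.Prime ∧ 2 < p} => (1 - 1 / (((p : ℕ) : ℝ) - 1) ^ 2)) := by
  have h1 : Multipliable (fun p : {p : ℕ // p.Prime ∧ 2 < p} => (1 + -(1 / (((p : ℕ) : ℝ) - 1) ^ 2))) := by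
    apply multipliable_one_add_of_summable
    refine summ2.congr (fun p => ?_)
    rw [norm_neg, Real.norm_of_nonneg (by positivity)]
  refine h1.congr (fun p => ?_)
  ring

/-- tail of the sum -/
lemma tail2 (z : ℕ) (hz : 2 ≤ z) (G : Finset ℕ) (hG : ∀ p ∈ G, z < p) :
    ∑ p ∈ G, 1 / ((p : ℝ) - 1) ^ 2 ≤ 1 / ((z : ℝ) - 1) := by
  have hz1 : (2 : ℝ) ≤ z := by exact_mod_cast hz
  have key : ∀ n : ℕ, z ≤ n → ∑ p ∈ Ioc z n, 1 / ((p : ℝ) - 1) ^ 2 ≤ 1 / ((z : ℝ) - 1) - 1 / ((n : ℝ) - 1) := by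
    intro n hn
    induction n, hn using Nat.le_induction with
    | base => simp
    | succ n hn ih =>
      have hn1 : (2 : ℝ) ≤ n := by
        have : (z : ℝ) ≤ n := by exact_mod_cast hn
        linarith
      rw [← Finset.insert_Ioc_right_eq_Ioc_add_one (by omega : z ≤ n), sum_insert (by simp)]
      push_cast
      have h1 : 1 / ((n : ℝ) + 1 - 1) ^ 2 ≤ 1 / ((n : ℝ) - 1) - 1 / ((n : ℝ) + 1 - 1) := by
        have e : (n : ℝ) + 1 - 1 = n := by ring
        rw [e, div_sub_div _ _ (by linarith) (by linarith), div_le_div_iff₀ (by positivity) (by nlinarith)]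
        nlinarith
      linarith
  obtain ⟨n, hn⟩ : ∃ n, ∀ p ∈ G, p ≤ n := ⟨G.sup id, fun p hp => Finset.le_sup (f := id) hp⟩
  have h1 : G ⊆ Ioc z (max n z) := by
    intro p hp
    rw [mem_Ioc]
    exact ⟨hG p hp, (hn p hp).trans (le_max_left _ _)⟩
  have h2 := key (max n z) (le_max_right _ _)
  have h3 : (2 : ℝ) ≤ ((max n z : ℕ) : ℝ) := by
    have : (z : ℝ) ≤ ((max n z : ℕ) : ℝ) := by exact_mod_cast le_max_right _ _
    linarith
  have h4 : 0 ≤ 1 / (((max n z : ℕ) : ℝ) - 1) := by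
    apply div_nonneg zero_le_one
    linarith
  calc ∑ p ∈ G, 1 / ((p : ℝ) - 1) ^ 2 ≤ ∑ p ∈ Ioc z (max n z), 1 / ((p : ℝ) - 1) ^ 2 :=
        sum_le_sum_of_subset_of_nonneg h1 fun p _ _ => by positivity
    _ ≤ _ := by linarith

lemma prod_ge2 (G : Finset ℕ) (hG : ∀ p ∈ G, 2 < p) :
    1 - ∑ p ∈ G, 1 / ((p : ℝ) - 1) ^ 2 ≤ ∏ p ∈ G, (1 - 1 / ((p : ℝ) - 1) ^ 2) ∧
    ∏ p ∈ G, (1 - 1 / ((p : ℝ) - 1) ^ 2) ≤ 1 := by
  classical
  induction G using Finset.induction_on with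
  | empty => simp
  | insert p F hp ih =>
    obtain ⟨h1, h2⟩ := ih fun p' hp' => hG p' (mem_insert_of_mem hp')
    have h3 := fac2 p (hG p (mem_insert_self _ _))
    rw [sum_insert hp, prod_insert hp]
    have h4 : 0 ≤ 1 / ((p : ℝ) - 1) ^ 2 := by positivity
    have h5 : 0 ≤ ∏ p ∈ F, (1 - 1 / ((p : ℝ) - 1) ^ 2) :=
      prod_nonneg fun p' hp' => (fac2 p' (hG p' (mem_insert_of_mem hp'))).1.le
    constructor
    · nlinarith
    · nlinarith

/-- comparison of the constant with its truncations -/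
lemma C2_bounds (z : ℕ) (hz : 3 ≤ z) : C2 ≤ C2z z ∧ (1 - 1 / ((z : ℝ) - 1)) * C2z z ≤ C2 := by
  classical
  have hprod := mult2.hasProd
  have htend : Tendsto (fun S : Finset {p : ℕ // p.Prime ∧ 2 < p} => ∏ p ∈ S, (1 - 1 / (((p : ℕ) : ℝ) - 1) ^ 2))
    atTop (nhds C2) := hprod
  have hz1 : (3 : ℝ) ≤ z := by exact_mod_cast hz
  set S0 : Finset {p : ℕ // p.Prime ∧ 2 < p} := ((pz z).filter (fun p => 2 < p)).subtype (fun p => p.Prime ∧ 2 < p)
    with hS0
  have hkey : ∀ S : Finset {p : ℕ // p.Prime ∧ 2 < p}, S0 ≤ S →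
      ∏ p ∈ S, (1 - 1 / (((p : ℕ) : ℝ) - 1) ^ 2) ≤ C2z z ∧
      (1 - 1 / ((z : ℝ) - 1)) * C2z z ≤ ∏ p ∈ S, (1 - 1 / (((p : ℕ) : ℝ) - 1) ^ 2) := by
    intro S hS
    set T := S.map (Function.Embedding.subtype _) with hT
    have hT1 : ∏ p ∈ S, (1 - 1 / (((p : ℕ) : ℝ) - 1) ^ 2) = ∏ p ∈ T, (1 - 1 / ((p : ℝ) - 1) ^ 2) := by
      rw [hT, prod_map]
      rfl
    have hT2 : (pz z).filter (fun p => 2 < p) ⊆ T := by
      intro p hp
      rw [hT, Finset.mem_map]
      have hp' := mem_filter.1 hp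
      have hpp := (mem_pz.1 hp'.1).2
      refine ⟨⟨p, hpp, hp'.2⟩, hS ?_, rfl⟩
      rw [hS0, mem_subtype]
      exact hp
    have hT3 : ∀ p ∈ T, p.Prime ∧ 2 < p := by
      intro p hp
      rw [hT, Finset.mem_map] at hp
      obtain ⟨x, _, rfl⟩ := hp
      exact x.2
    have hG : ∀ p ∈ T \ (pz z).filter (fun p => 2 < p), z < p := by
      intro p hp
      rw [Finset.mem_sdiff, mem_filter, mem_pz] at hp
      by_contra hle
      exact hp.2 ⟨⟨not_lt.1 hle, (hT3 p hp.1).1⟩, (hT3 p hp.1).2⟩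
    have h1 := prod_ge2 (T \ (pz z).filter (fun p => 2 < p)) (fun p hp => (hT3 p (Finset.mem_sdiff.1 hp).1).2)
    have h2 := tail2 z (by omega) (T \ (pz z).filter (fun p => 2 < p)) hG
    have h3 : ∏ p ∈ T, (1 - 1 / ((p : ℝ) - 1) ^ 2) =
        (∏ p ∈ T \ (pz z).filter (fun p => 2 < p), (1 - 1 / ((p : ℝ) - 1) ^ 2)) * C2z z := by
      unfold C2z
      rw [prod_sdiff hT2]
    have h4 : 0 ≤ C2z z := by
      unfold C2z
      exact prod_nonneg fun p hp => (fac2 p (mem_filter.1 hp).2).1.le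
    rw [hT1, h3]
    constructor
    · exact mul_le_of_le_one_left h4 h1.2
    · exact mul_le_mul_of_nonneg_right (by linarith) h4
  constructor
  · apply le_of_tendsto htend
    filter_upwards [eventually_ge_atTop S0] with S hS
    exact (hkey S hS).1
  · apply ge_of_tendsto htend
    filter_upwards [eventually_ge_atTop S0] with S hS
    exact (hkey S hS).2

lemma C2z_pos (z : ℕ) : 0 < C2z z := by
  unfold C2z
  exact prod_pos fun p hp => (fac2 p (mem_filter.1 hp).2).1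

lemma C2_pos : 0 < C2 := by
  have h1 := (C2_bounds 3 le_rfl).2
  have h2 := C2z_pos 3
  norm_num at h1
  linarith

lemma nu_zero_d (p d : ℕ) : nu p {0, d} = if p ∣ d then 1 else 2 := by
  unfold nu
  rw [image_insert, image_singleton, Nat.zero_mod]
  split_ifs with h
  · rw [Nat.mod_eq_zero_of_dvd h]
    simp
  · rw [card_insert_of_notMem, card_singleton]
    intro h1
    rw [mem_singleton] at h1
    exact h (Nat.dvd_of_mod_eq_zero h1.symm)

/-- the density of the pairs in terms of the singular series -/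
lemma VK_sing (d z : ℕ) (hd : Even d) (hd2 : 2 ≤ d) (hdz : d ≤ z) :
    VK {0, d} 1 z * C2 = Sing d * C2z z * Vz z ^ 2 := by
  classical
  have hp0 : p0 1 z = pz z := by
    unfold p0
    rw [filter_true_of_mem]
    intro p hp hd
    exact (mem_pz.1 hp).2.one_lt.ne' (Nat.dvd_one.1 hd)
  have h2z : 2 ∈ pz z := mem_pz.2 ⟨by omega, Nat.prime_two⟩
  have h2d : 2 ∣ d := even_iff_two_dvd.1 hd
  set O := (pz z).filter (fun p => 2 < p) with hO
  have hsplit : pz z = insert 2 O := by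
    ext p
    rw [mem_insert, hO, mem_filter]
    constructor
    · intro hp
      have := (mem_pz.1 hp).2.two_le
      rcases Nat.lt_or_ge 2 p with h1 | h1
      · exact Or.inr ⟨hp, h1⟩
      · exact Or.inl (by omega)
    · rintro (h | h)
      · rw [h]; exact h2z
      · exact h.1
  have h2O : 2 ∉ O := by simp [hO]
  have hDp : d.primeFactors.filter (fun p => 2 < p) = O.filter (fun p => p ∣ d) := by
    ext p
    rw [mem_filter, mem_filter, hO, mem_filter, mem_pz, Nat.mem_primeFactors]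
    constructor
    · rintro ⟨⟨h1, h3, _⟩, h4⟩
      exact ⟨⟨⟨(Nat.le_of_dvd (by omega) h3).trans hdz, h1⟩, h4⟩, h3⟩
    · rintro ⟨⟨⟨_, h1⟩, h4⟩, h3⟩
      exact ⟨⟨h1, h3, by omega⟩, h4⟩
  have e1 : VK {0, d} 1 z = (1 / 2) * ∏ p ∈ O, (1 - (if p ∣ d then 1 else 2) / (p : ℝ)) := by
    unfold VK WK
    rw [hp0, hsplit, prod_insert h2O, nu_zero_d 2 d, if_pos h2d]
    congr 1
    · norm_num
    · apply Finset.prod_congr rfl
      intro p _
      rw [nu_zero_d p d]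
      split_ifs <;> simp
  have e2 : Vz z = (1 / 2) * ∏ p ∈ O, (1 - 1 / (p : ℝ)) := by
    have : Vz z = Wp (pz z) := rfl
    rw [this]
    unfold Wp
    rw [hsplit, prod_insert h2O]
    norm_num
  have e3 : ∏ p ∈ O, (1 - (if p ∣ d then 1 else 2) / (p : ℝ)) =
      (∏ p ∈ O.filter (fun p => p ∣ d), (((p : ℝ) - 1) / ((p : ℝ) - 2))) * C2z z * (∏ p ∈ O, (1 - 1 / (p : ℝ))) ^ 2 := by
    unfold C2z
    rw [← hO, Finset.prod_filter (s := O), ← prod_pow, ← prod_mul_distrib, ← prod_mul_distrib]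
    apply Finset.prod_congr rfl
    intro p hp
    have h3 : (3 : ℝ) ≤ p := by exact_mod_cast (mem_filter.1 hp).2
    have h4 : (p : ℝ) ≠ 0 := by linarith
    have h5 : (p : ℝ) - 1 ≠ 0 := by
      intro h
      linarith
    have h6 : (p : ℝ) - 2 ≠ 0 := by
      intro h
      linarith
    split_ifs
    · field_simp
      ring
    · field_simp
      ring
  rw [e1, e3, e2]
  unfold Sing
  rw [hDp]
  ring

end Pool.Agent.H36.KT
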