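import Mathlib
import Pool.Agent.H36.KT.Twin

/-!
All sets of small shifts at the same time.
-/

set_option autoImplicit false

open Finset Filter

namespace Pool.Agent.H36.KT

open Pool.Agent.H36.RW Pool.Agent.H373R2.T7 Pool.Agent.H36.BF Pool.Agent.H36.BE Pool.Agent.H36.BT

lemma card_powersetCard_le (M κ : ℕ) : ((range (M + 1)).powersetCard κ).card ≤ (M + 1) ^ κ := by
  rw [card_powersetCard, card_range]
  exact Nat.choose_le_pow _ _

open Classical in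
theorem simul (κ : ℕ) (hκ : 1 ≤ κ) (ε δ : ℝ) (hε : 0 < ε) (hε1 : ε ≤ 1) (hδ : 0 < δ) (A : ℕ) :
    ∃ (r : ℕ) (c : ℝ), 0 < c ∧ c ≤ 1 / 2 ∧ ∀ᶠ Y : ℕ in atTop,
    (∀ N : ℕ, N ≤ Y ^ A →
      (((Ioc N (N + Y)).filter (fun n => ∃ D : Finset ℕ, D.card = κ ∧ Adm D 1 ∧ (∀ d ∈ D, (d : ℝ) ≤ Real.log Y ^ A) ∧
        ∃ T : ℕ, Real.log Y ^ δ ≤ T * VK D 1 ⌊(Y : ℝ) ^ c⌋₊ ∧ (T : ℝ) ≤ Real.log Y ^ A ∧
        ¬ |(((Icc 1 T).filter (fun h => ∀ d ∈ D, Rough ⌊(Y : ℝ) ^ c⌋₊ (n + h + d))).card : ℝ) -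
          T * VK D 1 ⌊(Y : ℝ) ^ c⌋₊| ≤ ε * (T * VK D 1 ⌊(Y : ℝ) ^ c⌋₊))).card : ℝ) ≤ Y / Real.log Y ^ A) ∧
    (∀ (N n h d : ℕ), N ≤ Y ^ A → d ≤ Y ^ A → n ≤ N + Y → 1 ≤ h → (h : ℝ) ≤ Real.log Y ^ A →
      Rough ⌊(Y : ℝ) ^ c⌋₊ (n + h + d) → (n + h + d).primeFactorsList.length ≤ r) := by
  obtain ⟨A1, hA1⟩ := exists_nat_ge ((A * κ + A + 1 : ℝ) / δ)
  set A' := max A1 A with hA'
  have hAA' : A ≤ A' := le_max_right _ _
  have hδA : (A * κ + A + 1 : ℝ) ≤ δ * A' := by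
    have h1 : (A1 : ℝ) ≤ A' := by exact_mod_cast le_max_left _ _
    rw [div_le_iff₀ hδ] at hA1
    have := mul_le_mul_of_nonneg_right h1 hδ.le
    linarith
  obtain ⟨r, c, C, hc, hc2, hC, h⟩ := tupK κ hκ ε hε hε1 A'
  refine ⟨r, c, hc, hc2, ?_⟩
  have hLt : Tendsto (fun Y : ℕ => Real.log (Y : ℝ)) atTop atTop :=
    Real.tendsto_log_atTop.comp tendsto_natCast_atTop_atTop
  filter_upwards [h, hLt.eventually_ge_atTop 1, eventually_ge_atTop 3, hLt.eventually (ev_pow_exp 1 1 one_pos A),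
    hLt.eventually_ge_atTop (2 ^ κ * C)] with Y h1 hL1 hY3 g6 hL2
  obtain ⟨h1, hr⟩ := h1
  have hY0 : (0 : ℝ) < Y := by exact_mod_cast (by omega : 0 < Y)
  have hpow : Y ^ A ≤ Y ^ A' := Nat.pow_le_pow_right (by omega) hAA'
  have hYr : Real.exp (Real.log Y) = Y := Real.exp_log hY0
  set L := Real.log (Y : ℝ) with hL
  have hL0 : 0 < L := by linarith
  have hLpow : L ^ A ≤ L ^ A' := pow_le_pow_right₀ hL1 hAA'
  constructor
  · intro N hN
    set M : ℕ := ⌊L ^ A⌋₊ with hM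
    have hMle : (M : ℝ) ≤ L ^ A := Nat.floor_le (by positivity)
    have hYA' : ∀ d : ℕ, (d : ℝ) ≤ L ^ A → d ≤ Y ^ A' := by
      intro d hd
      have h2 : (d : ℝ) ≤ Y := by
        rw [one_mul, one_mul, hYr] at g6
        exact hd.trans g6
      have h3 : d ≤ Y := by exact_mod_cast h2
      rcases Nat.eq_zero_or_pos A with h4 | h4
      · rw [h4, pow_zero] at hd
        have h5 : d ≤ 1 := by exact_mod_cast hd
        exact h5.trans (Nat.one_le_pow _ _ (by omega))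
      · calc d ≤ Y := h3
          _ = Y ^ 1 := (pow_one _).symm
          _ ≤ Y ^ A' := Nat.pow_le_pow_right (by omega) (by omega)
    have hlam : 1 ≤ L ^ δ := Real.one_le_rpow hL1 hδ.le
    set z := ⌊(Y : ℝ) ^ c⌋₊ with hz
    set F : Finset (Finset ℕ) := ((range (M + 1)).powersetCard κ).filter (fun D => Adm D 1) with hF
    have hsub : (Ioc N (N + Y)).filter (fun n => ∃ D : Finset ℕ, D.card = κ ∧ Adm D 1 ∧ (∀ d ∈ D, (d : ℝ) ≤ L ^ A) ∧
        ∃ T : ℕ, L ^ δ ≤ T * VK D 1 z ∧ (T : ℝ) ≤ L ^ A ∧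
        ¬ |(((Icc 1 T).filter (fun h => ∀ d ∈ D, Rough z (n + h + d))).card : ℝ) - T * VK D 1 z| ≤
          ε * (T * VK D 1 z)) ⊆
        F.biUnion (fun D => (Ioc N (N + Y)).filter (fun n => ∃ T : ℕ, L ^ δ ≤ T * VK D 1 z ∧ (T : ℝ) ≤ L ^ A' ∧
        ¬ |(((Icc 1 T).filter (fun h => ∀ d ∈ D, Rough z (1 * (n + h) + d))).card : ℝ) - T * VK D 1 z| ≤
          ε * (T * VK D 1 z))) := by
      intro n hn
      rw [mem_filter] at hn
      obtain ⟨hn1, D, hD1, hD2, hD3, T, hT1, hT2, hT3⟩ := hn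
      rw [mem_biUnion]
      refine ⟨D, ?_, ?_⟩
      · rw [hF, mem_filter, mem_powersetCard]
        refine ⟨⟨?_, hD1⟩, hD2⟩
        intro d hd
        rw [mem_range]
        have : d ≤ M := Nat.le_floor (hD3 d hd)
        omega
      · rw [mem_filter]
        refine ⟨hn1, T, hT1, hT2.trans hLpow, ?_⟩
        simp only [one_mul]
        exact hT3
    have hone : ∀ D ∈ F, (((Ioc N (N + Y)).filter (fun n => ∃ T : ℕ, L ^ δ ≤ T * VK D 1 z ∧ (T : ℝ) ≤ L ^ A' ∧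
        ¬ |(((Icc 1 T).filter (fun h => ∀ d ∈ D, Rough z (1 * (n + h) + d))).card : ℝ) - T * VK D 1 z| ≤
          ε * (T * VK D 1 z))).card : ℝ) ≤ C * (Y / (L ^ δ) ^ A') := by
      intro D hD
      rw [hF, mem_filter, mem_powersetCard] at hD
      obtain ⟨⟨hD1, hD2⟩, hD3⟩ := hD
      apply h1 N 1 D (hN.trans hpow) le_rfl (Nat.one_le_pow _ _ (by omega)) hD2 _ _ hD3 (L ^ δ) hlam
      · intro d hd
        apply hYA'
        have h3 : d ≤ M := by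
          have := mem_range.1 (hD1 hd)
          omega
        have h4 : (d : ℝ) ≤ M := by exact_mod_cast h3
        linarith
      · intro d _
        exact Nat.coprime_one_right d
    have hFc : (F.card : ℝ) ≤ (2 * L ^ A) ^ κ := by
      have h2 : F.card ≤ (M + 1) ^ κ := (card_filter_le _ _).trans (card_powersetCard_le M κ)
      have h3 : (F.card : ℝ) ≤ ((M : ℝ) + 1) ^ κ := by exact_mod_cast h2
      refine h3.trans (pow_le_pow_left₀ (by positivity) ?_ κ)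
      have : 1 ≤ L ^ A := one_le_pow₀ hL1
      linarith
    have hcard := (card_le_card hsub).trans card_biUnion_le
    have hcr : (((Ioc N (N + Y)).filter (fun n => ∃ D : Finset ℕ, D.card = κ ∧ Adm D 1 ∧ (∀ d ∈ D, (d : ℝ) ≤ L ^ A) ∧
        ∃ T : ℕ, L ^ δ ≤ T * VK D 1 z ∧ (T : ℝ) ≤ L ^ A ∧
        ¬ |(((Icc 1 T).filter (fun h => ∀ d ∈ D, Rough z (n + h + d))).card : ℝ) - T * VK D 1 z| ≤
          ε * (T * VK D 1 z))).card : ℝ) ≤
        ∑ D ∈ F, (((Ioc N (N + Y)).filter (fun n => ∃ T : ℕ, L ^ δ ≤ T * VK D 1 z ∧ (T : ℝ) ≤ L ^ A' ∧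
        ¬ |(((Icc 1 T).filter (fun h => ∀ d ∈ D, Rough z (1 * (n + h) + d))).card : ℝ) - T * VK D 1 z| ≤
          ε * (T * VK D 1 z))).card : ℝ) := by exact_mod_cast hcard
    refine hcr.trans ((sum_le_sum hone).trans ?_)
    rw [sum_const, nsmul_eq_mul]
    have hpA : L ^ (A * κ + A + 1) ≤ (L ^ δ) ^ A' := by
      calc L ^ (A * κ + A + 1) = L ^ (A * κ + A + 1 : ℝ) := by
            rw [← Real.rpow_natCast]
            push_cast
            rfl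
        _ ≤ L ^ (δ * A') := Real.rpow_le_rpow_of_exponent_le hL1 hδA
        _ = (L ^ δ) ^ A' := by rw [Real.rpow_mul hL0.le, Real.rpow_natCast]
    calc (F.card : ℝ) * (C * (Y / (L ^ δ) ^ A')) ≤ (2 * L ^ A) ^ κ * (C * (Y / L ^ (A * κ + A + 1))) := by gcongr
      _ = 2 ^ κ * C * (Y * (L ^ (A * κ) / L ^ (A * κ + A + 1))) := by
          rw [mul_pow, ← pow_mul]
          ring
      _ ≤ L * (Y * (L ^ (A * κ) / L ^ (A * κ + A + 1))) := by gcongr
      _ = Y / L ^ A := by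
          rw [pow_succ, pow_add]
          field_simp
  · intro N n h d hN hd hn hh1 hh hro
    have h2 := hr N 1 n h d (hN.trans hpow) le_rfl (Nat.one_le_pow _ _ (by omega)) (hd.trans hpow) hn hh1 (hh.trans hLpow)
    rw [one_mul] at h2
    exact h2 hro

end Pool.Agent.H36.KT
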